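import Mathlib

set_option autoImplicit false

namespace Pool.Agent.Helper590_Face.MP



open Set Metric

theorem mountain {E : Type*} [NormedAddCommGroup E] [NormedSpace ℝ E] [FiniteDimensional ℝ E]
    (f : E → ℝ) (hf : Continuous f) (hpos : ∀ x, 0 < f x)
    (hcomp : ∀ c : ℝ, 0 < c → IsCompact {x | c ≤ f x})
    (hcrit : ∀ z : E,
      (∃ (e : E) (r δ : ℝ), 0 < r ∧ 0 < δ ∧ ∀ x, dist x z < r → ∀ s ∈ Icc (0 : ℝ) r,
        f x + δ * s ≤ f (x + s • e)) ∨
      (∃ r : ℝ, 0 < r ∧ ∀ x, x ≠ z → dist x z < r → f x < f z))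
    (a : E) (ha : ∃ r : ℝ, 0 < r ∧ ∀ x, x ≠ a → dist x a < r → f x < f a) :
    ∀ b, f b ≤ f a := by
  classical
  have : ProperSpace E := FiniteDimensional.proper ℝ E
  intro b
  by_contra hba
  push Not at hba
  have hab : a ≠ b := by rintro rfl; exact lt_irrefl _ hba
  have hdab : 0 < dist a b := dist_pos.mpr hab
  -- the set of levels
  set C : Set ℝ := {c | 0 < c ∧ c < f a ∧ b ∈ connectedComponentIn {x | c < f x} a} with hC
  -- a helper: preconnected sets
  have hIVT : ∀ (g : E → ℝ), Continuous g → ∀ c ∈ C, ∀ t : ℝ, g a ≤ t → t ≤ g b →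
      ∃ x, c < f x ∧ g x = t := by
    intro g hg c hc t h1 h2
    obtain ⟨hc0, hc1, hc2⟩ := hc
    have hpre : IsPreconnected (connectedComponentIn {x | c < f x} a) :=
      isPreconnected_connectedComponentIn
    have haU : a ∈ connectedComponentIn {x | c < f x} a := mem_connectedComponentIn hc1
    have := hpre.intermediate_value haU hc2 hg.continuousOn
    obtain ⟨x, hx, hxt⟩ := this ⟨h1, h2⟩
    exact ⟨x, (connectedComponentIn_subset {x | c < f x} a) hx, hxt⟩
  -- nonempty
  have hCne : C.Nonempty := by
    have hseg : IsCompact (segment ℝ a b) := by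
      rw [segment_eq_image_lineMap]
      exact isCompact_Icc.image (by fun_prop)
    obtain ⟨m, hm, hmin⟩ := hseg.exists_isMinOn ⟨a, left_mem_segment ℝ a b⟩ hf.continuousOn
    have hm0 := hpos m
    have hma : f m ≤ f a := hmin (left_mem_segment ℝ a b)
    refine ⟨f m / 2, by positivity, by linarith, ?_⟩
    have hsub : segment ℝ a b ⊆ {x | f m / 2 < f x} := by
      intro x hx
      have : f m ≤ f x := hmin hx
      show f m / 2 < f x
      linarith
    exact (convex_segment a b).isPreconnected.subset_connectedComponentIn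
      (left_mem_segment ℝ a b) hsub (right_mem_segment ℝ a b)
  have hCbdd : BddAbove C := ⟨f a, fun c hc => hc.2.1.le⟩
  set cs : ℝ := sSup C with hcs
  have hcs0 : 0 < cs := by
    obtain ⟨c, hc⟩ := hCne
    exact lt_of_lt_of_le hc.1 (le_csSup hCbdd hc)
  -- Step 1
  have hcsa : cs < f a := by
    obtain ⟨r, hr, hra⟩ := ha
    set r' := min (r / 2) (dist a b) with hr'
    have hr'0 : 0 < r' := lt_min (by positivity) hdab
    have hr'r : r' < r := lt_of_le_of_lt (min_le_left _ _) (by linarith)
    have hcont : Continuous fun x : E => dist x a := by fun_prop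
    have hex : ∀ c ∈ C, ∃ x, c < f x ∧ dist x a = r' := by
      intro c hc
      refine hIVT (fun x => dist x a) hcont c hc r' ?_ ?_
      · simpa using hr'0.le
      · show r' ≤ dist b a
        rw [dist_comm]; exact min_le_right _ _
    have hne : (sphere a r').Nonempty := by
      obtain ⟨c, hc⟩ := hCne
      obtain ⟨x, -, hx⟩ := hex c hc
      exact ⟨x, mem_sphere.mpr hx⟩
    obtain ⟨M, hM, hMmax⟩ := (isCompact_sphere a r').exists_isMaxOn hne hf.continuousOn
    have hMa : f M < f a := by
      have hMd : dist M a = r' := mem_sphere.mp hM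
      refine hra M ?_ (by rw [hMd]; exact hr'r)
      rintro rfl
      rw [dist_self] at hMd
      linarith
    refine lt_of_le_of_lt (csSup_le hCne ?_) hMa
    intro c hc
    obtain ⟨x, hx1, hx2⟩ := hex c hc
    have : f x ≤ f M := hMmax (mem_sphere.mpr hx2)
    linarith
  set O : Set E := {x | cs < f x} with hO
  have hOopen : IsOpen O := isOpen_lt continuous_const hf
  set U : Set E := connectedComponentIn O a with hU
  have haO : a ∈ O := hcsa
  have haU : a ∈ U := mem_connectedComponentIn haO
  have hUopen : IsOpen U := hOopen.connectedComponentIn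
  have hUpre : IsPreconnected U := isPreconnected_connectedComponentIn
  have hUO : U ⊆ O := connectedComponentIn_subset _ _
  -- preconnected sets touching U stay in U
  have hstay : ∀ (T : Set E), IsPreconnected T → T ⊆ O → ∀ p ∈ T, p ∈ U → T ⊆ U := by
    intro T hT hTO p hpT hpU
    have h1 : U = connectedComponentIn O p := connectedComponentIn_eq hpU
    rw [h1]
    exact hT.subset_connectedComponentIn hpT hTO
  -- Step 2
  have hbU : b ∉ U := by
    intro hbU
    have hconn : IsConnected U := ⟨⟨a, haU⟩, hUpre⟩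
    have hpath : IsPathConnected U := (hUopen.isConnected_iff_isPathConnected).mp hconn
    obtain ⟨γ, hγ⟩ := hpath.joinedIn a haU b hbU
    have hcomp' : IsCompact (range γ) := isCompact_range γ.continuous
    have ha' : a ∈ range γ := ⟨0, γ.source⟩
    have hb' : b ∈ range γ := ⟨1, γ.target⟩
    obtain ⟨m, hm, hmin⟩ := hcomp'.exists_isMinOn ⟨a, ha'⟩ hf.continuousOn
    have hmO : cs < f m := by
      obtain ⟨t, rfl⟩ := hm
      exact hUO (hγ t)
    have hma : f m ≤ f a := hmin ha'
    have hmem : (cs + f m) / 2 ∈ C := by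
      refine ⟨by have := hpos m; linarith, by linarith, ?_⟩
      have hsub : range γ ⊆ {x | (cs + f m) / 2 < f x} := by
        intro x hx
        have : f m ≤ f x := hmin hx
        show (cs + f m) / 2 < f x
        linarith
      exact (isPreconnected_range γ.continuous).subset_connectedComponentIn ha' hsub hb'
    have := le_csSup hCbdd hmem
    rw [← hcs] at this
    linarith
  -- Step 3
  set K : Set E := closure U with hK
  have hKle : K ⊆ {x | cs ≤ f x} := by
    refine closure_minimal ?_ (isClosed_le continuous_const hf)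
    intro x hx
    exact le_of_lt (show cs < f x from hUO hx)
  have hKcomp : IsCompact K := (hcomp cs hcs0).of_isClosed_subset isClosed_closure hKle
  have hKO : ∀ z ∈ K, cs < f z → z ∈ U := by
    intro z hz hfz
    have hT : IsPreconnected (insert z U) :=
      hUpre.subset_closure (subset_insert _ _) (insert_subset hz subset_closure)
    exact hstay _ hT (insert_subset hfz hUO) a (mem_insert_of_mem _ haU) haU (mem_insert _ _)
  have hfr : ∀ z ∈ K, z ∉ U → f z = cs := by
    intro z hz hzU
    have h1 : cs ≤ f z := hKle hz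
    by_contra hne
    exact hzU (hKO z hz (lt_of_le_of_ne h1 (Ne.symm hne)))
  -- Step 4 and 5
  have hloc : ∀ z ∈ K, z ∉ U → ∃ ρ : ℝ, 0 < ρ ∧ ∀ x, dist x z < ρ → x ∉ K → f x < cs := by
    intro z hz hzU
    have hfz := hfr z hz hzU
    rcases hcrit z with ⟨e, r, δ, hr, hδ, hreg⟩ | ⟨r, hr, hmax⟩
    · -- regular
      obtain ⟨ρ0, hρ0, hρ0'⟩ := Metric.continuous_iff.mp hf z (δ * r / 2) (by positivity)
      set ρ := min ρ0 r with hρ
      have hρpos : 0 < ρ := lt_min hρ0 hr
      obtain ⟨y, hyU, hyz⟩ := Metric.mem_closure_iff.mp hz ρ hρpos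
      rw [dist_comm] at hyz
      have hup : ∀ x, dist x z < ρ → cs < f x → segment ℝ x (x + r • e) ⊆ O := by
        intro x hx hfx w hw
        rw [segment_eq_image'] at hw
        obtain ⟨θ, hθ, rfl⟩ := hw
        have hs : θ * r ∈ Icc (0 : ℝ) r :=
          ⟨mul_nonneg hθ.1 hr.le, by nlinarith [hθ.2]⟩
        have := hreg x (lt_of_lt_of_le hx (min_le_right _ _)) (θ * r) hs
        have h2 : x + θ • (x + r • e - x) = x + (θ * r) • e := by
          rw [add_sub_cancel_left, smul_smul]
        show cs < f (x + θ • (x + r • e - x))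
        rw [h2]
        have h3 : 0 ≤ δ * (θ * r) := mul_nonneg hδ.le hs.1
        linarith
      have hin : ∀ x, dist x z < ρ → cs < f x → x ∈ U := by
        intro x hx hfx
        have hy' : y + r • e ∈ U := hstay _ (convex_segment y (y + r • e)).isPreconnected
          (hup y hyz (hUO hyU)) y (left_mem_segment ℝ _ _) hyU (right_mem_segment ℝ _ _)
        have hmid : segment ℝ (x + r • e) (y + r • e) ⊆ O := by
          intro w hw
          have hw' : w - r • e ∈ segment ℝ x y := by
            rw [segment_eq_image] at hw ⊢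
            obtain ⟨θ, hθ, rfl⟩ := hw
            refine ⟨θ, hθ, ?_⟩
            simp only [smul_add, sub_smul, one_smul]
            abel
          have hball : w - r • e ∈ ball z ρ :=
            (convex_ball z ρ).segment_subset (by simpa using hx) (by simpa using hyz) hw'
          have hd : dist (w - r • e) z < ρ := by simpa using hball
          have h1 := hreg (w - r • e) (lt_of_lt_of_le hd (min_le_right _ _)) r ⟨hr.le, le_rfl⟩
          rw [sub_add_cancel] at h1
          have h2 := hρ0' (w - r • e) (lt_of_lt_of_le hd (min_le_left _ _))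
          rw [Real.dist_eq, abs_lt] at h2
          show cs < f w
          have : 0 < δ * r := by positivity
          linarith [h2.1]
        have hx' : x + r • e ∈ U := hstay _ (convex_segment (x + r • e) (y + r • e)).isPreconnected
          hmid (y + r • e) (right_mem_segment ℝ _ _) hy' (left_mem_segment ℝ _ _)
        exact hstay _ (convex_segment x (x + r • e)).isPreconnected
          (hup x hx hfx) (x + r • e) (right_mem_segment ℝ _ _) hx' (left_mem_segment ℝ _ _)
      refine ⟨ρ, hρpos, ?_⟩
      intro x hx hxK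
      by_contra hfx
      push Not at hfx
      apply hxK
      -- x is a limit of x + s e
      have hlim : Filter.Tendsto (fun s : ℝ => x + s • e) (nhdsWithin 0 (Ioi 0)) (nhds x) := by
        have : Filter.Tendsto (fun s : ℝ => x + s • e) (nhds 0) (nhds (x + (0 : ℝ) • e)) := by
          apply Continuous.tendsto
          fun_prop
        rw [zero_smul, add_zero] at this
        exact this.mono_left nhdsWithin_le_nhds
      refine mem_closure_of_tendsto hlim ?_
      have h1 : ∀ᶠ s : ℝ in nhdsWithin 0 (Ioi 0), x + s • e ∈ ball z ρ :=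
        hlim.eventually (isOpen_ball.mem_nhds (by simpa using hx))
      have h2 : ∀ᶠ s : ℝ in nhdsWithin 0 (Ioi 0), s ∈ Ioo (0 : ℝ) r := Ioo_mem_nhdsGT hr
      filter_upwards [h1, h2] with s hs1 hs2
      refine hin _ (by simpa using hs1) ?_
      have h3 := hreg x (lt_of_lt_of_le hx (min_le_right _ _)) s ⟨hs2.1.le, hs2.2.le⟩
      have : 0 < δ * s := mul_pos hδ hs2.1
      linarith
    · exfalso
      obtain ⟨y, hyU, hyz⟩ := Metric.mem_closure_iff.mp hz r hr
      rw [dist_comm] at hyz
      have hne : y ≠ z := by rintro rfl; exact hzU hyU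
      have h1 := hmax y hne hyz
      have h2 : cs < f y := hUO hyU
      linarith
  have hKne : K.Nonempty := ⟨a, subset_closure haU⟩
  have hthick : ∀ t : ℝ, 0 ≤ t → ∀ x, infDist x K ≤ t → x ∈ cthickening t K := by
    intro t ht x hx
    rw [mem_cthickening_iff, ENNReal.le_ofReal_iff_toReal_le (infEDist_ne_top hKne) ht]
    exact hx
  -- an open neighbourhood of K
  have hV : ∃ δ : ℝ, 0 < δ ∧ ∀ x, infDist x K ≤ δ → x ∉ K → f x < cs := by
    choose! ρ hρ hρ' using hloc
    set V : Set E := U ∪ ⋃ z ∈ K \ U, ball z (ρ z) with hVdef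
    have hVopen : IsOpen V := hUopen.union (isOpen_biUnion fun _ _ => isOpen_ball)
    have hKV : K ⊆ V := by
      intro z hz
      by_cases hzU : z ∈ U
      · exact Or.inl hzU
      · refine Or.inr (mem_biUnion (⟨hz, hzU⟩ : z ∈ K \ U) (mem_ball_self (hρ z hz hzU)))
    obtain ⟨δ, hδ, hsub⟩ := hKcomp.exists_cthickening_subset_open hVopen hKV
    refine ⟨δ, hδ, fun x hx hxK => ?_⟩
    have hxV : x ∈ V := by
      apply hsub
      exact hthick δ hδ.le x hx
    rcases hxV with hxU | hxV
    · exact absurd (subset_closure hxU) hxK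
    · rw [mem_iUnion₂] at hxV
      obtain ⟨z, hz, hxz⟩ := hxV
      exact hρ' z hz.1 hz.2 x (by simpa using hxz) hxK
  -- Step 6
  obtain ⟨δ, hδ, hVδ⟩ := hV
  have hbK : b ∉ K := by
    intro hbK
    have := hfr b hbK hbU
    linarith
  have hbpos : 0 < infDist b K := (isClosed_closure.notMem_iff_infDist_pos hKne).mp hbK
  set ρ' := min δ (infDist b K) with hρ'
  have hρ'0 : 0 < ρ' := lt_min hδ hbpos
  set S : Set E := {x | infDist x K = ρ'} with hS
  have hSclosed : IsClosed S := isClosed_eq (continuous_infDist_pt K) continuous_const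
  have hScomp : IsCompact S := by
    refine (hKcomp.cthickening (r := ρ')).of_isClosed_subset hSclosed ?_
    intro x hx
    exact hthick ρ' hρ'0.le x (le_of_eq hx)
  have hex : ∀ c ∈ C, ∃ x, c < f x ∧ infDist x K = ρ' := by
    intro c hc
    refine hIVT (fun x => infDist x K) (continuous_infDist_pt K) c hc ρ' ?_ ?_
    · show infDist a K ≤ ρ'
      rw [infDist_zero_of_mem (subset_closure haU)]
      exact hρ'0.le
    · exact min_le_right _ _
  have hSne : S.Nonempty := by
    obtain ⟨c, hc⟩ := hCne
    obtain ⟨x, -, hx⟩ := hex c hc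
    exact ⟨x, hx⟩
  obtain ⟨M, hM, hMmax⟩ := hScomp.exists_isMaxOn hSne hf.continuousOn
  have hMc : f M < cs := by
    have hM' : infDist M K = ρ' := hM
    refine hVδ M (by rw [hM']; exact min_le_left _ _) ?_
    intro hMK
    rw [infDist_zero_of_mem hMK] at hM'
    linarith
  obtain ⟨c, hc, hMc'⟩ := exists_lt_of_lt_csSup hCne hMc
  obtain ⟨x, hx1, hx2⟩ := hex c hc
  have : f x ≤ f M := hMmax (show x ∈ S from hx2)
  linarith

end Pool.Agent.Helper590_Face.MP
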