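import Mathlib


set_option autoImplicit false

namespace Pool.Agent.Helper590_Face.JF

open Matrix MatrixOrder ComplexOrder in
theorem position {m n : ℕ} (L : (Fin m → ℝ) →ₗ[ℝ] (Fin n → ℝ)) (ω : Fin n → ℝ)
    (hpos : ∀ x, x ≠ 0 → 0 < ∑ i, ω i * L x i ^ 2) :
    ∃ g : (Fin m → ℝ) ≃ₗ[ℝ] (Fin m → ℝ), ∀ x y,
      ∑ i, ω i * (L (g x) i * L (g y) i) = ∑ a, x a * y a := by
  classical
  set A := LinearMap.toMatrix' L with hAdef
  have hA : ∀ x, L x = A *ᵥ x := fun x => (LinearMap.toMatrix'_mulVec L x).symm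
  set M : Matrix (Fin m) (Fin m) ℝ := Aᵀ * (Matrix.diagonal ω * A) with hMdef
  have hφ : ∀ x y, ∑ i, ω i * (L x i * L y i) = x ⬝ᵥ (M *ᵥ y) := by
    intro x y
    rw [hMdef, ← Matrix.mulVec_mulVec, ← Matrix.mulVec_mulVec, Matrix.dotProduct_mulVec,
      Matrix.vecMul_transpose, hA x, hA y]
    simp only [dotProduct, Matrix.mulVec_diagonal]
    refine Finset.sum_congr rfl fun i _ => ?_
    ring
  have hM : M.PosDef := by
    refine Matrix.PosDef.of_dotProduct_mulVec_pos ?_ ?_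
    · rw [hMdef]
      unfold Matrix.IsHermitian
      simp [Matrix.mul_assoc, Matrix.diagonal_transpose]
    · intro x hx
      have h := hpos x hx
      have h2 := hφ x x
      simp only [star_trivial]
      rw [← h2]
      refine lt_of_lt_of_eq h ?_
      refine Finset.sum_congr rfl fun i _ => ?_
      ring
  obtain ⟨B, hB⟩ := CStarAlgebra.nonneg_iff_eq_star_mul_self.mp hM.posSemidef.nonneg
  have hB' : M = Bᵀ * B := by
    rw [hB, Matrix.star_eq_conjTranspose, Matrix.conjTranspose_eq_transpose_of_trivial]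
  have hdet : IsUnit B.det := by
    have h1 : IsUnit M.det := (Matrix.isUnit_iff_isUnit_det M).1 hM.isUnit
    rw [hB', Matrix.det_mul] at h1
    exact isUnit_of_mul_isUnit_right h1
  have hBB : B * B⁻¹ = 1 := Matrix.mul_nonsing_inv B hdet
  have hBB' : B⁻¹ * B = 1 := Matrix.nonsing_inv_mul B hdet
  refine ⟨LinearEquiv.ofLinearMap (Matrix.toLin' B⁻¹) (Matrix.toLin' B) ?_ ?_, ?_⟩
  · rw [← Matrix.toLin'_mul, hBB', Matrix.toLin'_one]
  · rw [← Matrix.toLin'_mul, hBB, Matrix.toLin'_one]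
  · intro x y
    have h1 : ∀ z, B *ᵥ (B⁻¹ *ᵥ z) = z := fun z => by
      rw [Matrix.mulVec_mulVec, hBB, Matrix.one_mulVec]
    rw [LinearEquiv.coe_ofLinearMap, hφ, Matrix.toLin'_apply, Matrix.toLin'_apply, hB',
      ← Matrix.mulVec_mulVec, h1, Matrix.dotProduct_mulVec, Matrix.vecMul_transpose, h1]
    rfl

end Pool.Agent.Helper590_Face.JF
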