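import Pool.Agent.Helper590_Face.U.Slope


set_option autoImplicit false

namespace Pool.Agent.Helper590_Face.JS2

/-- helper: the weight dominates `exp (|L|/4)` -/
theorem th_lower {σ a b : ℝ} (hσ : 0 < σ) (ha : a ≠ 0) (hb : b ≠ 0) :
    Real.exp (|Real.log (max |a| |b| / σ)| / 4) ≤ th (a / σ) + th (b / σ) := by
  have key : ∀ c : ℝ, c ≠ 0 → Real.exp (|Real.log (|c| / σ)| / 4) ≤ th (c / σ) := by
    intro c hc
    have hc' : 0 < |c| / σ := div_pos (abs_pos.mpr hc) hσ
    unfold th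
    rw [abs_div, abs_of_pos hσ, Real.rpow_def_of_pos hc', Real.rpow_def_of_pos hc']
    rcases le_total 0 (Real.log (|c| / σ)) with h | h
    · rw [abs_of_nonneg h]
      have h1 : Real.log (|c| / σ) / 4 = Real.log (|c| / σ) * (1 / 4) := by ring
      rw [h1]
      have := Real.exp_pos (Real.log (|c| / σ) * (-(1 / 4)))
      linarith
    · rw [abs_of_nonpos h]
      have h1 : -Real.log (|c| / σ) / 4 = Real.log (|c| / σ) * (-(1 / 4)) := by ring
      rw [h1]
      have := Real.exp_pos (Real.log (|c| / σ) * (1 / 4))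
      linarith
  have nn : ∀ c : ℝ, 0 ≤ th c := by
    intro c
    unfold th
    positivity
  rcases le_total |a| |b| with h | h
  · rw [max_eq_right h]
    have := key b hb
    have := nn (a / σ)
    linarith
  · rw [max_eq_left h]
    have := key a ha
    have := nn (b / σ)
    linarith

/-- helper: `M ^ s = σ ^ s * exp (s L)` -/
theorem M_pow {σ a b : ℝ} (s : ℝ) (hσ : 0 < σ) (ha : a ≠ 0) :
    (max |a| |b|) ^ s = σ ^ s * Real.exp (s * Real.log (max |a| |b| / σ)) := by
  have hM : 0 < max |a| |b| := lt_of_lt_of_le (abs_pos.mpr ha) (le_max_left _ _)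
  rw [Real.rpow_def_of_pos hM, Real.rpow_def_of_pos hσ, ← Real.exp_add,
    Real.log_div hM.ne' hσ.ne']
  congr 1
  ring

theorem abs_exp_sub_one_le' (u : ℝ) : |Real.exp u - 1| ≤ |u| * Real.exp |u| := by
  rcases le_total 0 u with h | h
  · rw [abs_of_nonneg h, abs_of_nonneg (by linarith [Real.one_le_exp h])]
    have h1 : 1 - u ≤ Real.exp (-u) := by linarith [Real.add_one_le_exp (-u)]
    have h2 : Real.exp u * Real.exp (-u) = 1 := by rw [← Real.exp_add]; simp
    nlinarith [Real.exp_pos u]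
  · rw [abs_of_nonpos h, abs_of_nonpos (by linarith [Real.exp_le_one_iff.mpr h])]
    have h1 : u + 1 ≤ Real.exp u := Real.add_one_le_exp u
    have h2 : 1 ≤ Real.exp (-u) := Real.one_le_exp (by linarith)
    nlinarith [Real.exp_pos u]

theorem star1 {p σ a b : ℝ} (hp : |p - 2| ≤ 1 / 16) (hσ : 0 < σ) (ha : a ≠ 0) (hb : b ≠ 0) :
    (sp p a - sp p b - σ ^ (p - 2) * (a - b)) ^ 2 ≤
      1089 * (p - 2) ^ 2 * (σ ^ (p - 2) * ((max |a| |b|) ^ (p - 2) * (a - b) ^ 2)) *
        (th (a / σ) + th (b / σ)) := by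
  have hth := th_lower hσ ha hb
  have hsl := JS1.slope hp a b
  have hMp := M_pow (b := b) (p - 2) hσ ha
  rw [hMp] at hsl ⊢
  set L := Real.log (max |a| |b| / σ) with hL
  set s := p - 2 with hs
  set W := th (a / σ) + th (b / σ) with hW
  set S := σ ^ s with hS
  have hSpos : 0 < S := Real.rpow_pos_of_pos hσ _
  have he0 : 0 ≤ |s| := abs_nonneg s
  have hL0 : 0 ≤ |L| := abs_nonneg L
  have hsL1 : s * L ≤ |s| * |L| := by rw [← abs_mul]; exact le_abs_self _
  have hsL2 : -(|s| * |L|) ≤ s * L := by rw [← abs_mul]; exact neg_abs_le _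
  -- bound by E := exp (|L| * (1/32 + |s|))
  set E := Real.exp (|L| * (1 / 32 + |s|)) with hE
  have hEpos : 0 < E := Real.exp_pos _
  have h1 : Real.exp (s * L) ≤ E := by
    apply Real.exp_le_exp.mpr
    nlinarith
  have h2 : |Real.exp (s * L) - 1| ≤ 32 * |s| * E := by
    refine (abs_exp_sub_one_le' _).trans ?_
    rw [abs_mul]
    have h3 : |L| ≤ 32 * Real.exp (|L| / 32) := by
      have := Real.add_one_le_exp (|L| / 32)
      linarith
    have h4 : Real.exp (|L| / 32) * Real.exp (|s| * |L|) = E := by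
      rw [← Real.exp_add, hE]
      congr 1
      ring
    calc |s| * |L| * Real.exp (|s| * |L|)
        ≤ |s| * (32 * Real.exp (|L| / 32)) * Real.exp (|s| * |L|) := by gcongr
      _ = 32 * |s| * (Real.exp (|L| / 32) * Real.exp (|s| * |L|)) := by ring
      _ = 32 * |s| * E := by rw [h4]
  have h5 : |sp p a - sp p b - S * (a - b)| ≤ 33 * |s| * S * E * |a - b| := by
    have e1 : sp p a - sp p b - S * (a - b) =
        (sp p a - sp p b - S * Real.exp (s * L) * (a - b)) +
          S * (Real.exp (s * L) - 1) * (a - b) := by ring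
    rw [e1]
    refine (abs_add_le _ _).trans ?_
    have e2 : |S * (Real.exp (s * L) - 1) * (a - b)| ≤ 32 * |s| * E * S * |a - b| := by
      rw [abs_mul, abs_mul, abs_of_pos hSpos]
      calc S * |Real.exp (s * L) - 1| * |a - b| ≤ S * (32 * |s| * E) * |a - b| := by gcongr
        _ = 32 * |s| * E * S * |a - b| := by ring
    have e3 : |s| * (S * Real.exp (s * L)) * |a - b| ≤ |s| * (S * E) * |a - b| := by gcongr
    calc _ ≤ |s| * (S * E) * |a - b| + 32 * |s| * E * S * |a - b| :=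
          add_le_add (hsl.trans e3) e2
      _ = 33 * |s| * S * E * |a - b| := by ring
  have h6 : (sp p a - sp p b - S * (a - b)) ^ 2 ≤ (33 * |s| * S * E * |a - b|) ^ 2 := by
    rw [← sq_abs (sp p a - sp p b - S * (a - b))]
    gcongr
  refine h6.trans ?_
  have h7 : E ^ 2 ≤ Real.exp (s * L) * W := by
    calc E ^ 2 = Real.exp (2 * (|L| * (1 / 32 + |s|))) := by
          rw [hE, ← Real.exp_nat_mul]; norm_num
      _ ≤ Real.exp (s * L + |L| / 4) := by
          apply Real.exp_le_exp.mpr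
          nlinarith
      _ = Real.exp (s * L) * Real.exp (|L| / 4) := Real.exp_add _ _
      _ ≤ Real.exp (s * L) * W := by gcongr
  calc (33 * |s| * S * E * |a - b|) ^ 2
      = 1089 * |s| ^ 2 * (S * (S * |a - b| ^ 2)) * E ^ 2 := by ring
    _ = 1089 * s ^ 2 * (S * (S * (a - b) ^ 2)) * E ^ 2 := by rw [sq_abs, sq_abs]
    _ ≤ 1089 * s ^ 2 * (S * (S * (a - b) ^ 2)) * (Real.exp (s * L) * W) := by gcongr
    _ = 1089 * s ^ 2 * (S * (S * Real.exp (s * L) * (a - b) ^ 2)) * W := by ring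

theorem star2 {p σ a b : ℝ} (hp : |p - 2| ≤ 1 / 16) (hσ : 0 < σ) (ha : a ≠ 0) (hb : b ≠ 0) :
    (σ ^ (p - 2) * (a - b)) ^ 2 ≤
      σ ^ (p - 2) * ((max |a| |b|) ^ (p - 2) * (a - b) ^ 2) * (th (a / σ) + th (b / σ)) := by
  have hth := th_lower hσ ha hb
  have hMp := M_pow (b := b) (p - 2) hσ ha
  rw [hMp]
  set L := Real.log (max |a| |b| / σ) with hL
  set s := p - 2 with hs
  set W := th (a / σ) + th (b / σ) with hW
  set S := σ ^ s with hS
  have hSpos : 0 < S := Real.rpow_pos_of_pos hσ _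
  have hL0 : 0 ≤ |L| := abs_nonneg L
  have hsL2 : -(|s| * |L|) ≤ s * L := by rw [← abs_mul]; exact neg_abs_le _
  have h7 : 1 ≤ Real.exp (s * L) * W := by
    calc (1 : ℝ) ≤ Real.exp (s * L + |L| / 4) := by
          apply Real.one_le_exp
          nlinarith
      _ = Real.exp (s * L) * Real.exp (|L| / 4) := Real.exp_add _ _
      _ ≤ Real.exp (s * L) * W := by gcongr
  calc (S * (a - b)) ^ 2 = S * (S * (a - b) ^ 2) * 1 := by ring
    _ ≤ S * (S * (a - b) ^ 2) * (Real.exp (s * L) * W) := by gcongr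
    _ = S * (S * Real.exp (s * L) * (a - b) ^ 2) * W := by ring

end Pool.Agent.Helper590_Face.JS2
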