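import Mathlib
import Pool.Agent.Helper734.IB.PL


set_option autoImplicit false

namespace Pool.Agent.Helper590_Face.JC

open MeasureTheory Set
open scoped ENNReal

variable {m : ℕ}

/-- the density -/
noncomputable def dens (Φ : (Fin m → ℝ) → ℝ) (x : Fin m → ℝ) : ℝ≥0∞ :=
  ENNReal.ofReal (Real.exp (-Φ x))

/-- the measure with density `exp (-Φ)` -/
noncomputable def nmu (Φ : (Fin m → ℝ) → ℝ) : Measure (Fin m → ℝ) :=
  volume.withDensity (dens Φ)

/-- the slabs -/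
def slab (ξ : (Fin m → ℝ) →ₗ[ℝ] ℝ) (t : ℝ) : ℕ → Set (Fin m → ℝ)
  | 0 => {x | |ξ x| ≤ t}
  | (k + 1) => {x | (2 * (k : ℝ) + 1) * t < ξ x ∧ ξ x ≤ (2 * (k : ℝ) + 3) * t}

theorem dens_meas {Φ : (Fin m → ℝ) → ℝ} (hΦ : Measurable Φ) : Measurable (dens Φ) := by
  unfold dens
  fun_prop

theorem xi_cont (ξ : (Fin m → ℝ) →ₗ[ℝ] ℝ) : Continuous ξ :=
  ξ.continuous_of_finiteDimensional

theorem slab_meas (ξ : (Fin m → ℝ) →ₗ[ℝ] ℝ) (t : ℝ) (k : ℕ) : MeasurableSet (slab ξ t k) := by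
  have hc := xi_cont ξ
  cases k with
  | zero =>
    exact (isClosed_le (hc.abs) continuous_const).measurableSet
  | succ k =>
    exact ((isOpen_lt continuous_const hc).measurableSet).inter
      ((isClosed_le hc continuous_const).measurableSet)

theorem xi_mid (ξ : (Fin m → ℝ) →ₗ[ℝ] ℝ) (x y : Fin m → ℝ) :
    ξ (fun i => (x i + y i) / 2) = (ξ x + ξ y) / 2 := by
  have : (fun i => (x i + y i) / 2) = (1 / 2 : ℝ) • (x + y) := by
    funext i
    simp only [Pi.smul_apply, Pi.add_apply, smul_eq_mul]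
    ring
  rw [this, map_smul, map_add, smul_eq_mul]
  ring

theorem slab_mid (ξ : (Fin m → ℝ) →ₗ[ℝ] ℝ) (t : ℝ) (k : ℕ) (x y : Fin m → ℝ)
    (hx : x ∈ slab ξ t k) (hy : y ∈ slab ξ t (k + 2)) :
    (fun i => (x i + y i) / 2) ∈ slab ξ t (k + 1) := by
  have hy' : (2 * ((k + 1 : ℕ) : ℝ) + 1) * t < ξ y ∧ ξ y ≤ (2 * ((k + 1 : ℕ) : ℝ) + 3) * t := hy
  show (2 * (k : ℝ) + 1) * t < ξ (fun i => (x i + y i) / 2) ∧
    ξ (fun i => (x i + y i) / 2) ≤ (2 * (k : ℝ) + 3) * t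
  rw [xi_mid]
  push_cast at hy'
  cases k with
  | zero =>
    have hx' : |ξ x| ≤ t := hx
    rw [abs_le] at hx'
    constructor <;> (push_cast at *; linarith [hx'.1, hx'.2, hy'.1, hy'.2])
  | succ k =>
    have hx' : (2 * (k : ℝ) + 1) * t < ξ x ∧ ξ x ≤ (2 * (k : ℝ) + 3) * t := hx
    constructor <;> (push_cast at *; linarith [hx'.1, hx'.2, hy'.1, hy'.2])

theorem nmu_apply (Φ : (Fin m → ℝ) → ℝ) {A : Set (Fin m → ℝ)} (hA : MeasurableSet A) :
    nmu Φ A = ∫⁻ x, A.indicator (dens Φ) x := by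
  unfold nmu
  rw [withDensity_apply _ hA, lintegral_indicator hA]

theorem slab_pl {Φ : (Fin m → ℝ) → ℝ} (hΦ : Measurable Φ)
    (hconv : ∀ x y, 2 * Φ (fun i => (x i + y i) / 2) ≤ Φ x + Φ y)
    (ξ : (Fin m → ℝ) →ₗ[ℝ] ℝ) (t : ℝ) (k : ℕ) :
    nmu Φ (slab ξ t k) * nmu Φ (slab ξ t (k + 2)) ≤ nmu Φ (slab ξ t (k + 1)) ^ 2 := by
  rw [nmu_apply Φ (slab_meas ξ t k), nmu_apply Φ (slab_meas ξ t (k + 2)),
    nmu_apply Φ (slab_meas ξ t (k + 1))]
  refine Pool.Agent.Helper734.IB.pln m _ _ _ ((dens_meas hΦ).indicator (slab_meas ξ t k))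
    ((dens_meas hΦ).indicator (slab_meas ξ t (k + 2)))
    ((dens_meas hΦ).indicator (slab_meas ξ t (k + 1))) ?_
  intro x y
  by_cases hx : x ∈ slab ξ t k
  · by_cases hy : y ∈ slab ξ t (k + 2)
    · have hm := slab_mid ξ t k x y hx hy
      rw [Set.indicator_of_mem hx, Set.indicator_of_mem hy, Set.indicator_of_mem hm]
      unfold dens
      rw [← ENNReal.ofReal_mul (Real.exp_pos _).le, ← ENNReal.ofReal_pow (Real.exp_pos _).le,
        ← Real.exp_add, ← Real.exp_nat_mul]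
      apply ENNReal.ofReal_le_ofReal
      apply Real.exp_le_exp.mpr
      have := hconv x y
      push_cast
      linarith
    · rw [Set.indicator_of_notMem hy]
      simp
  · rw [Set.indicator_of_notMem hx]
    simp

theorem xi_surj {ξ : (Fin m → ℝ) →ₗ[ℝ] ℝ} (hξ : ξ ≠ 0) (c : ℝ) : ∃ x, ξ x = c := by
  exact LinearMap.surjective hξ c

theorem nmu_pos_of_open {Φ : (Fin m → ℝ) → ℝ} (hΦ : Measurable Φ) {U A : Set (Fin m → ℝ)}
    (hU : IsOpen U) (hne : U.Nonempty) (hUA : U ⊆ A) : 0 < nmu Φ A := by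
  rw [pos_iff_ne_zero]
  intro h
  unfold nmu at h
  rw [withDensity_apply_eq_zero (dens_meas hΦ)] at h
  have h1 : U ⊆ {x | dens Φ x ≠ 0} ∩ A := by
    intro x hx
    refine ⟨?_, hUA hx⟩
    show dens Φ x ≠ 0
    unfold dens
    simp [Real.exp_pos]
  have h2 : (volume : Measure (Fin m → ℝ)) U = 0 := measure_mono_null h1 h
  exact (hU.measure_pos volume hne).ne' h2

theorem slab_pos {Φ : (Fin m → ℝ) → ℝ} (hΦ : Measurable Φ)
    {ξ : (Fin m → ℝ) →ₗ[ℝ] ℝ} (hξ : ξ ≠ 0) {t : ℝ} (ht : 0 < t) (k : ℕ) :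
    0 < nmu Φ (slab ξ t k) := by
  have hc := xi_cont ξ
  cases k with
  | zero =>
    refine nmu_pos_of_open hΦ (U := {x | |ξ x| < t}) (isOpen_lt hc.abs continuous_const)
      ⟨0, by simpa using ht⟩ ?_
    intro x hx
    have hx' : |ξ x| < t := hx
    exact hx'.le
  | succ k =>
    refine nmu_pos_of_open hΦ
      (U := {x | (2 * (k : ℝ) + 1) * t < ξ x ∧ ξ x < (2 * (k : ℝ) + 3) * t})
      ((isOpen_lt continuous_const hc).inter (isOpen_lt hc continuous_const)) ?_ ?_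
    · obtain ⟨x, hx⟩ := xi_surj hξ ((2 * (k : ℝ) + 2) * t)
      refine ⟨x, ?_, ?_⟩
      · show (2 * (k : ℝ) + 1) * t < ξ x
        rw [hx]; nlinarith
      · show ξ x < (2 * (k : ℝ) + 3) * t
        rw [hx]; nlinarith
    · intro x hx
      exact ⟨hx.1, hx.2.le⟩

theorem nmu_neg {Φ : (Fin m → ℝ) → ℝ} (heven : ∀ x, Φ (-x) = Φ x) {A : Set (Fin m → ℝ)}
    (hA : MeasurableSet A) : nmu Φ ((fun x => -x) ⁻¹' A) = nmu Φ A := by
  have hA' : MeasurableSet ((fun x : Fin m → ℝ => -x) ⁻¹' A) := hA.preimage measurable_neg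
  rw [nmu_apply Φ hA', nmu_apply Φ hA]
  rw [← lintegral_neg_eq_self (A.indicator (dens Φ))]
  congr 1
  funext x
  by_cases hx : -x ∈ A
  · rw [Set.indicator_of_mem hx, Set.indicator_of_mem (show x ∈ (fun x => -x) ⁻¹' A from hx)]
    unfold dens
    rw [heven]
  · rw [Set.indicator_of_notMem hx, Set.indicator_of_notMem
      (show x ∉ (fun x => -x) ⁻¹' A from hx)]

theorem nmu_fin {Φ : (Fin m → ℝ) → ℝ} (hint : Integrable (fun x => Real.exp (-Φ x))) :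
    nmu Φ univ < ∞ := by
  unfold nmu
  rw [withDensity_apply _ MeasurableSet.univ, Measure.restrict_univ]
  exact hint.lintegral_lt_top

theorem nmu_lt {Φ : (Fin m → ℝ) → ℝ} (hint : Integrable (fun x => Real.exp (-Φ x)))
    (A : Set (Fin m → ℝ)) : nmu Φ A < ∞ :=
  lt_of_le_of_lt (measure_mono (subset_univ A)) (nmu_fin hint)

theorem poly_geom (k : ℕ) : (2 * (k : ℝ) + 1) ^ 2 ≤ 16 * (3 / 2) ^ k := by
  rcases Nat.lt_or_ge k 4 with h | h
  · interval_cases k <;> norm_num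
  · obtain ⟨j, rfl⟩ := Nat.exists_eq_add_of_le h
    clear h
    induction j with
    | zero => norm_num
    | succ j ih =>
      have e : 4 + (j + 1) = (4 + j) + 1 := by ring
      rw [e, pow_succ (3 / 2 : ℝ)]
      push_cast at ih ⊢
      have hj : (0 : ℝ) ≤ j := Nat.cast_nonneg j
      nlinarith

/-- real masses of slabs -/
noncomputable def rr (Φ : (Fin m → ℝ) → ℝ) (ξ : (Fin m → ℝ) →ₗ[ℝ] ℝ) (t : ℝ) (k : ℕ) : ℝ :=
  (nmu Φ (slab ξ t k)).toReal

theorem rr_decay {Φ : (Fin m → ℝ) → ℝ} (hΦ : Measurable Φ)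
    (hconv : ∀ x y, 2 * Φ (fun i => (x i + y i) / 2) ≤ Φ x + Φ y)
    (hint : Integrable (fun x => Real.exp (-Φ x)))
    {ξ : (Fin m → ℝ) →ₗ[ℝ] ℝ} (hξ : ξ ≠ 0) {t : ℝ} (ht : 0 < t)
    (h01 : 2 * rr Φ ξ t 1 ≤ rr Φ ξ t 0) (k : ℕ) :
    rr Φ ξ t k ≤ rr Φ ξ t 0 * (1 / 2) ^ k := by
  have hpos : ∀ k, 0 < rr Φ ξ t k := fun k =>
    ENNReal.toReal_pos (slab_pos hΦ hξ ht k).ne' (nmu_lt hint _).ne
  have hpl : ∀ k, rr Φ ξ t k * rr Φ ξ t (k + 2) ≤ rr Φ ξ t (k + 1) ^ 2 := by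
    intro k
    have := slab_pl hΦ hconv ξ t k
    have h2 := ENNReal.toReal_mono (ENNReal.pow_ne_top (nmu_lt hint _).ne) this
    rw [ENNReal.toReal_mul, ENNReal.toReal_pow] at h2
    exact h2
  have hstep : ∀ k, 2 * rr Φ ξ t (k + 1) ≤ rr Φ ξ t k := by
    intro k
    induction k with
    | zero => exact h01
    | succ k ih =>
      have h1 := hpl k
      have h2 := hpos k
      have h3 := hpos (k + 1)
      have h4 : rr Φ ξ t k * (2 * rr Φ ξ t (k + 2)) ≤ rr Φ ξ t k * rr Φ ξ t (k + 1) := by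
        nlinarith
      exact le_of_mul_le_mul_left h4 h2
  induction k with
  | zero => simp
  | succ k ih =>
    have := hstep k
    rw [pow_succ]
    linarith

/-- symmetrised slab -/
def bb (ξ : (Fin m → ℝ) →ₗ[ℝ] ℝ) (t : ℝ) (k : ℕ) : Set (Fin m → ℝ) :=
  slab ξ t k ∪ (fun x => -x) ⁻¹' (slab ξ t k)

theorem bb_meas (ξ : (Fin m → ℝ) →ₗ[ℝ] ℝ) (t : ℝ) (k : ℕ) : MeasurableSet (bb ξ t k) :=
  (slab_meas ξ t k).union ((slab_meas ξ t k).preimage measurable_neg)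

theorem bb_le {Φ : (Fin m → ℝ) → ℝ} (heven : ∀ x, Φ (-x) = Φ x)
    (ξ : (Fin m → ℝ) →ₗ[ℝ] ℝ) (t : ℝ) (k : ℕ) :
    nmu Φ (bb ξ t k) ≤ 2 * nmu Φ (slab ξ t k) := by
  unfold bb
  refine (measure_union_le _ _).trans ?_
  rw [nmu_neg heven (slab_meas ξ t k), two_mul]

theorem cover (ξ : (Fin m → ℝ) →ₗ[ℝ] ℝ) {t : ℝ} (ht : 0 < t) (x : Fin m → ℝ) :
    ∃ k : ℕ, x ∈ bb ξ t k ∧ |ξ x| ≤ (2 * (k : ℝ) + 1) * t := by
  rcases le_or_gt |ξ x| t with h | h
  · exact ⟨0, Or.inl h, by simpa using h⟩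
  · set v : ℝ := (|ξ x| / t - 1) / 2 with hv
    have hv0 : 0 < v := by
      have : 1 < |ξ x| / t := by rwa [lt_div_iff₀ ht, one_mul]
      linarith
    have hk : 0 < ⌈v⌉₊ := Nat.ceil_pos.mpr hv0
    obtain ⟨j, hj⟩ := Nat.exists_eq_succ_of_ne_zero hk.ne'
    have h1 : v ≤ ((j + 1 : ℕ) : ℝ) := by
      have := Nat.le_ceil v
      rw [hj] at this
      exact this
    have h2 : (j : ℝ) < v := by
      apply Nat.lt_ceil.mp
      omega
    have e : |ξ x| = (2 * v + 1) * t := by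
      rw [hv]; field_simp; ring
    have h3 : (2 * (j : ℝ) + 1) * t < |ξ x| := by
      rw [e]; nlinarith
    have h4 : |ξ x| ≤ (2 * (j : ℝ) + 3) * t := by
      rw [e]; push_cast at h1; nlinarith
    refine ⟨j + 1, ?_, by push_cast; linarith⟩
    rcases abs_cases (ξ x) with ⟨h5, _⟩ | ⟨h5, _⟩
    · left
      rw [h5] at h3 h4
      exact ⟨h3, h4⟩
    · right
      rw [h5] at h3 h4
      show (2 * (j : ℝ) + 1) * t < ξ (-x) ∧ ξ (-x) ≤ (2 * (j : ℝ) + 3) * t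
      rw [map_neg]
      exact ⟨h3, h4⟩

theorem second_moment {Φ : (Fin m → ℝ) → ℝ} (hΦ : Measurable Φ)
    (heven : ∀ x, Φ (-x) = Φ x)
    (hconv : ∀ x y, 2 * Φ (fun i => (x i + y i) / 2) ≤ Φ x + Φ y)
    (hint : Integrable (fun x => Real.exp (-Φ x)))
    {ξ : (Fin m → ℝ) →ₗ[ℝ] ℝ} (hξ : ξ ≠ 0) {t : ℝ} (ht : 0 < t)
    (h01 : 2 * rr Φ ξ t 1 ≤ rr Φ ξ t 0) :
    ∫⁻ x, ENNReal.ofReal (ξ x ^ 2) ∂(nmu Φ) ≤ ENNReal.ofReal (128 * t ^ 2 * rr Φ ξ t 0) := by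
  have hr0 : 0 ≤ rr Φ ξ t 0 := ENNReal.toReal_nonneg
  have h1 : ∀ x, ENNReal.ofReal (ξ x ^ 2) ≤
      ∑' k : ℕ, ENNReal.ofReal (((2 * (k : ℝ) + 1) * t) ^ 2) * (bb ξ t k).indicator 1 x := by
    intro x
    obtain ⟨k, hk1, hk2⟩ := cover ξ ht x
    refine le_trans ?_ (ENNReal.le_tsum k)
    rw [Set.indicator_of_mem hk1, Pi.one_apply, mul_one]
    apply ENNReal.ofReal_le_ofReal
    rw [← sq_abs (ξ x)]
    exact pow_le_pow_left₀ (abs_nonneg _) hk2 2
  calc ∫⁻ x, ENNReal.ofReal (ξ x ^ 2) ∂(nmu Φ)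
      ≤ ∫⁻ x, ∑' k : ℕ, ENNReal.ofReal (((2 * (k : ℝ) + 1) * t) ^ 2) *
          (bb ξ t k).indicator 1 x ∂(nmu Φ) := lintegral_mono h1
    _ = ∑' k : ℕ, ENNReal.ofReal (((2 * (k : ℝ) + 1) * t) ^ 2) * nmu Φ (bb ξ t k) := by
        rw [lintegral_tsum]
        · congr 1
          funext k
          rw [lintegral_const_mul _ (measurable_one.indicator (bb_meas ξ t k)),
            lintegral_indicator_one (bb_meas ξ t k)]
        · intro k
          exact ((measurable_one.indicator (bb_meas ξ t k)).const_mul _).aemeasurable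
    _ ≤ ∑' k : ℕ, ENNReal.ofReal (32 * t ^ 2 * rr Φ ξ t 0 * (3 / 4) ^ k) := by
        apply ENNReal.tsum_le_tsum
        intro k
        have h2 : nmu Φ (bb ξ t k) ≤ ENNReal.ofReal (2 * (rr Φ ξ t 0 * (1 / 2) ^ k)) := by
          refine (bb_le heven ξ t k).trans ?_
          have h3 : nmu Φ (slab ξ t k) = ENNReal.ofReal (rr Φ ξ t k) :=
            (ENNReal.ofReal_toReal (nmu_lt hint _).ne).symm
          rw [h3, ENNReal.ofReal_mul (by norm_num : (0:ℝ) ≤ 2)]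
          have : (2 : ℝ≥0∞) = ENNReal.ofReal 2 := by norm_num
          rw [this]
          gcongr
          exact rr_decay hΦ hconv hint hξ ht h01 k
        refine (mul_le_mul_right h2 _).trans ?_
        rw [← ENNReal.ofReal_mul (by positivity)]
        apply ENNReal.ofReal_le_ofReal
        have h5 := poly_geom k
        have h6 : (3 / 4 : ℝ) ^ k = (3 / 2) ^ k * (1 / 2) ^ k := by
          rw [← mul_pow]; norm_num
        rw [h6, mul_pow]
        have h7 : 0 ≤ t ^ 2 * (2 * (rr Φ ξ t 0 * (1 / 2) ^ k)) := by positivity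
        calc (2 * (k : ℝ) + 1) ^ 2 * t ^ 2 * (2 * (rr Φ ξ t 0 * (1 / 2) ^ k))
            = (2 * (k : ℝ) + 1) ^ 2 * (t ^ 2 * (2 * (rr Φ ξ t 0 * (1 / 2) ^ k))) := by ring
          _ ≤ (16 * (3 / 2) ^ k) * (t ^ 2 * (2 * (rr Φ ξ t 0 * (1 / 2) ^ k))) :=
              mul_le_mul_of_nonneg_right h5 h7
          _ = _ := by ring
    _ = ENNReal.ofReal (128 * t ^ 2 * rr Φ ξ t 0) := by
        have hs : Summable (fun k : ℕ => 32 * t ^ 2 * rr Φ ξ t 0 * (3 / 4 : ℝ) ^ k) :=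
          (summable_geometric_of_lt_one (by norm_num) (by norm_num)).mul_left _
        rw [← ENNReal.ofReal_tsum_of_nonneg (fun k => by positivity) hs, tsum_mul_left,
          tsum_geometric_of_lt_one (by norm_num) (by norm_num)]
        congr 1
        ring

theorem doubling {Φ : (Fin m → ℝ) → ℝ}
    (heven : ∀ x, Φ (-x) = Φ x)
    (ξ : (Fin m → ℝ) →ₗ[ℝ] ℝ) {t : ℝ} (ht : 0 < t)
    (h01 : nmu Φ (slab ξ t 0) ≤ 2 * nmu Φ (slab ξ t 1)) :
    2 * nmu Φ {x | |ξ x| ≤ t} ≤ nmu Φ {x | |ξ x| ≤ 3 * t} := by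
  have hsub : slab ξ t 0 ∪ (slab ξ t 1 ∪ (fun x => -x) ⁻¹' (slab ξ t 1)) ⊆
      {x | |ξ x| ≤ 3 * t} := by
    rintro x (hx | hx | hx)
    · have hx' : |ξ x| ≤ t := hx
      show |ξ x| ≤ 3 * t
      linarith
    · have hx' : (2 * ((0 : ℕ) : ℝ) + 1) * t < ξ x ∧ ξ x ≤ (2 * ((0 : ℕ) : ℝ) + 3) * t := hx
      show |ξ x| ≤ 3 * t
      rw [abs_le]
      push_cast at hx'
      constructor <;> linarith [hx'.1, hx'.2]
    · have hx' : (2 * ((0 : ℕ) : ℝ) + 1) * t < ξ (-x) ∧ ξ (-x) ≤ (2 * ((0 : ℕ) : ℝ) + 3) * t := hx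
      show |ξ x| ≤ 3 * t
      rw [abs_le]
      rw [map_neg] at hx'
      push_cast at hx'
      constructor <;> linarith [hx'.1, hx'.2]
  have hm1 := slab_meas ξ t 1
  have hm1' : MeasurableSet ((fun x : Fin m → ℝ => -x) ⁻¹' (slab ξ t 1)) :=
    hm1.preimage measurable_neg
  have hd1 : Disjoint (slab ξ t 1) ((fun x => -x) ⁻¹' (slab ξ t 1)) := by
    rw [Set.disjoint_left]
    intro x hx hx2
    have hx' : (2 * ((0 : ℕ) : ℝ) + 1) * t < ξ x ∧ ξ x ≤ (2 * ((0 : ℕ) : ℝ) + 3) * t := hx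
    have hx2' : (2 * ((0 : ℕ) : ℝ) + 1) * t < ξ (-x) ∧ ξ (-x) ≤ (2 * ((0 : ℕ) : ℝ) + 3) * t := hx2
    rw [map_neg] at hx2'
    push_cast at hx' hx2'
    linarith [hx'.1, hx2'.1]
  have hd0 : Disjoint (slab ξ t 0) (slab ξ t 1 ∪ (fun x => -x) ⁻¹' (slab ξ t 1)) := by
    rw [Set.disjoint_left]
    intro x hx hx2
    have hx0 : |ξ x| ≤ t := hx
    rw [abs_le] at hx0
    rcases hx2 with hx2 | hx2
    · have hx' : (2 * ((0 : ℕ) : ℝ) + 1) * t < ξ x ∧ ξ x ≤ (2 * ((0 : ℕ) : ℝ) + 3) * t := hx2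
      push_cast at hx'
      linarith [hx'.1, hx0.2]
    · have hx2' : (2 * ((0 : ℕ) : ℝ) + 1) * t < ξ (-x) ∧
        ξ (-x) ≤ (2 * ((0 : ℕ) : ℝ) + 3) * t := hx2
      rw [map_neg] at hx2'
      push_cast at hx2'
      linarith [hx2'.1, hx0.1]
  have hmeas := measure_mono (μ := nmu Φ) hsub
  rw [measure_union hd0 (hm1.union hm1'), measure_union hd1 hm1', nmu_neg heven hm1] at hmeas
  refine le_trans ?_ hmeas
  have : nmu Φ {x | |ξ x| ≤ t} = nmu Φ (slab ξ t 0) := rfl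
  rw [this, two_mul]
  gcongr
  rw [← two_mul]
  exact h01

theorem small_ball {Φ : (Fin m → ℝ) → ℝ} (hΦ : Measurable Φ)
    (heven : ∀ x, Φ (-x) = Φ x)
    (hconv : ∀ x y, 2 * Φ (fun i => (x i + y i) / 2) ≤ Φ x + Φ y)
    (hint : Integrable (fun x => Real.exp (-Φ x)))
    {ξ : (Fin m → ℝ) →ₗ[ℝ] ℝ} (hξ : ξ ≠ 0) {σ : ℝ} (hσ : 0 < σ)
    (hmom : ∫⁻ x, ENNReal.ofReal (ξ x ^ 2) ∂(nmu Φ) =
      ENNReal.ofReal (σ ^ 2) * nmu Φ univ)
    {t : ℝ} (ht : 0 < t) (hts : t < σ / 12) :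
    2 * nmu Φ {x | |ξ x| ≤ t} ≤ nmu Φ {x | |ξ x| ≤ 3 * t} := by
  apply doubling heven ξ ht
  by_contra hcon
  push Not at hcon
  have h01 : 2 * rr Φ ξ t 1 ≤ rr Φ ξ t 0 := by
    have := ENNReal.toReal_mono (nmu_lt hint _).ne hcon.le
    rw [ENNReal.toReal_mul] at this
    simpa [rr] using this
  have h2 := second_moment hΦ heven hconv hint hξ ht h01
  rw [hmom] at h2
  have hpos : 0 < rr Φ ξ t 0 :=
    ENNReal.toReal_pos (slab_pos hΦ hξ ht 0).ne' (nmu_lt hint _).ne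
  have h3 : ENNReal.ofReal (rr Φ ξ t 0) ≤ nmu Φ univ := by
    rw [rr, ENNReal.ofReal_toReal (nmu_lt hint _).ne]
    exact measure_mono (subset_univ _)
  have h4 : ENNReal.ofReal (σ ^ 2) * ENNReal.ofReal (rr Φ ξ t 0) ≤
      ENNReal.ofReal (128 * t ^ 2 * rr Φ ξ t 0) :=
    (mul_le_mul_right h3 _).trans h2
  rw [← ENNReal.ofReal_mul (by positivity)] at h4
  rw [ENNReal.ofReal_le_ofReal_iff (by positivity)] at h4
  have h5 : σ ^ 2 ≤ 128 * t ^ 2 := le_of_mul_le_mul_right h4 hpos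
  nlinarith

theorem small_ball_geom {Φ : (Fin m → ℝ) → ℝ} (hΦ : Measurable Φ)
    (heven : ∀ x, Φ (-x) = Φ x)
    (hconv : ∀ x y, 2 * Φ (fun i => (x i + y i) / 2) ≤ Φ x + Φ y)
    (hint : Integrable (fun x => Real.exp (-Φ x)))
    {ξ : (Fin m → ℝ) →ₗ[ℝ] ℝ} (hξ : ξ ≠ 0) {σ : ℝ} (hσ : 0 < σ)
    (hmom : ∫⁻ x, ENNReal.ofReal (ξ x ^ 2) ∂(nmu Φ) =
      ENNReal.ofReal (σ ^ 2) * nmu Φ univ) (k : ℕ) :
    nmu Φ {x | |ξ x| ≤ (1 / 3) ^ k * (σ / 12)} ≤ ENNReal.ofReal ((1 / 2) ^ k) * nmu Φ univ := by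
  induction k with
  | zero =>
    simp only [pow_zero, ENNReal.ofReal_one, one_mul]
    exact measure_mono (subset_univ _)
  | succ k ih =>
    have ht : 0 < (1 / 3 : ℝ) ^ (k + 1) * (σ / 12) := by positivity
    have hts : (1 / 3 : ℝ) ^ (k + 1) * (σ / 12) < σ / 12 := by
      have : (1 / 3 : ℝ) ^ (k + 1) < 1 := pow_lt_one₀ (by norm_num) (by norm_num) (by omega)
      have h : 0 < σ / 12 := by positivity
      nlinarith
    have h := small_ball hΦ heven hconv hint hξ hσ hmom ht hts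
    have e : 3 * ((1 / 3 : ℝ) ^ (k + 1) * (σ / 12)) = (1 / 3) ^ k * (σ / 12) := by
      rw [pow_succ]; ring
    rw [e] at h
    have h2 := h.trans ih
    have e2 : ENNReal.ofReal ((1 / 2 : ℝ) ^ k) * nmu Φ univ =
        2 * (ENNReal.ofReal ((1 / 2 : ℝ) ^ (k + 1)) * nmu Φ univ) := by
      rw [← mul_assoc]
      congr 1
      have : (2 : ℝ≥0∞) = ENNReal.ofReal 2 := by norm_num
      rw [this, ← ENNReal.ofReal_mul (by norm_num)]
      congr 1
      rw [pow_succ]; ring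
    rw [e2] at h2
    exact (ENNReal.mul_le_mul_iff_right (by norm_num) (by norm_num)).mp h2

/-- pointwise bound of the negative power -/
theorem neg_pow_bound {s : ℝ} (hs : 0 < s) (y : ℝ) :
    ENNReal.ofReal (|y| ^ (-(1 / 2) : ℝ)) ≤ ENNReal.ofReal (s ^ (-(1 / 2) : ℝ)) +
      ∑' k : ℕ, ENNReal.ofReal (s ^ (-(1 / 2) : ℝ) * (7 / 4) ^ (k + 1)) *
        {z : ℝ | |z| ≤ (1 / 3) ^ k * s}.indicator 1 y := by
  rcases eq_or_ne y 0 with hy | hy
  · subst hy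
    rw [abs_zero, Real.zero_rpow (by norm_num)]
    simp
  · have hy0 : 0 < |y| := abs_pos.mpr hy
    rcases le_or_gt s |y| with h | h
    · refine le_trans ?_ le_self_add
      apply ENNReal.ofReal_le_ofReal
      exact Real.rpow_le_rpow_of_nonpos hs h (by norm_num)
    · -- find k with (1/3)^(k+1) s < |y| ≤ (1/3)^k s
      have hex : ∃ n : ℕ, (1 / 3 : ℝ) ^ n * s < |y| := by
        obtain ⟨n, hn⟩ := exists_pow_lt_of_lt_one (div_pos hy0 hs) (by norm_num : (1 / 3 : ℝ) < 1)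
        exact ⟨n, by rwa [lt_div_iff₀ hs] at hn⟩
      classical
      have h0 : Nat.find hex ≠ 0 := by
        intro h0
        have := Nat.find_spec hex
        rw [h0] at this
        simp at this
        linarith
      obtain ⟨k, hk⟩ := Nat.exists_eq_succ_of_ne_zero h0
      have h1 : (1 / 3 : ℝ) ^ (k + 1) * s < |y| := by
        have := Nat.find_spec hex
        rw [hk] at this
        exact this
      have h2 : |y| ≤ (1 / 3 : ℝ) ^ k * s := by
        have := Nat.find_min hex (m := k) (by omega)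
        exact not_lt.mp this
      refine le_trans ?_ le_add_self
      refine le_trans ?_ (ENNReal.le_tsum k)
      rw [Set.indicator_of_mem (show y ∈ {z : ℝ | |z| ≤ (1 / 3) ^ k * s} from h2),
        Pi.one_apply, mul_one]
      apply ENNReal.ofReal_le_ofReal
      have h3 : |y| ^ (-(1 / 2) : ℝ) ≤ ((1 / 3 : ℝ) ^ (k + 1) * s) ^ (-(1 / 2) : ℝ) :=
        Real.rpow_le_rpow_of_nonpos (by positivity) h1.le (by norm_num)
      refine h3.trans ?_
      rw [Real.mul_rpow (by positivity) hs.le, mul_comm]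
      apply mul_le_mul_of_nonneg_left _ (by positivity)
      have h4 : ((1 / 3 : ℝ) ^ (k + 1)) ^ (-(1 / 2) : ℝ) =
          ((1 / 3 : ℝ) ^ (-(1 / 2) : ℝ)) ^ (k + 1) := by
        rw [← Real.rpow_natCast, ← Real.rpow_mul (by norm_num), mul_comm,
          Real.rpow_mul (by norm_num), Real.rpow_natCast]
      rw [h4]
      apply pow_le_pow_left₀ (by positivity)
      rw [Real.rpow_neg (by norm_num), ← Real.sqrt_eq_rpow]
      rw [inv_le_comm₀ (by positivity) (by norm_num)]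
      apply Real.le_sqrt_of_sq_le
      norm_num

theorem lint_bound {Φ : (Fin m → ℝ) → ℝ} (hΦ : Measurable Φ)
    (heven : ∀ x, Φ (-x) = Φ x)
    (hconv : ∀ x y, 2 * Φ (fun i => (x i + y i) / 2) ≤ Φ x + Φ y)
    (hint : Integrable (fun x => Real.exp (-Φ x)))
    {ξ : (Fin m → ℝ) →ₗ[ℝ] ℝ} (hξ : ξ ≠ 0) {σ : ℝ} (hσ : 0 < σ)
    (hmom : ∫⁻ x, ENNReal.ofReal (ξ x ^ 2) ∂(nmu Φ) =
      ENNReal.ofReal (σ ^ 2) * nmu Φ univ) :
    ∫⁻ x, ENNReal.ofReal (|ξ x| ^ (-(1 / 2) : ℝ)) ∂(nmu Φ) ≤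
      ENNReal.ofReal (60 * σ ^ (-(1 / 2) : ℝ)) * nmu Φ univ := by
  set s : ℝ := σ / 12 with hs
  have hs0 : 0 < s := by positivity
  have hcont := xi_cont ξ
  have hset : ∀ k : ℕ, MeasurableSet {x : Fin m → ℝ | |ξ x| ≤ (1 / 3) ^ k * s} := fun k =>
    (isClosed_le hcont.abs continuous_const).measurableSet
  calc ∫⁻ x, ENNReal.ofReal (|ξ x| ^ (-(1 / 2) : ℝ)) ∂(nmu Φ)
      ≤ ∫⁻ x, (ENNReal.ofReal (s ^ (-(1 / 2) : ℝ)) +
        ∑' k : ℕ, ENNReal.ofReal (s ^ (-(1 / 2) : ℝ) * (7 / 4) ^ (k + 1)) *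
        {x : Fin m → ℝ | |ξ x| ≤ (1 / 3) ^ k * s}.indicator 1 x) ∂(nmu Φ) := by
        apply lintegral_mono
        intro x
        exact neg_pow_bound hs0 (ξ x)
    _ = ENNReal.ofReal (s ^ (-(1 / 2) : ℝ)) * nmu Φ univ +
        ∑' k : ℕ, ENNReal.ofReal (s ^ (-(1 / 2) : ℝ) * (7 / 4) ^ (k + 1)) *
          nmu Φ {x : Fin m → ℝ | |ξ x| ≤ (1 / 3) ^ k * s} := by
        rw [lintegral_add_left measurable_const, lintegral_const, lintegral_tsum]
        · congr 1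
          congr 1
          funext k
          rw [lintegral_const_mul _ (measurable_one.indicator (hset k)),
            lintegral_indicator_one (hset k)]
        · intro k
          exact ((measurable_one.indicator (hset k)).const_mul _).aemeasurable
    _ ≤ ENNReal.ofReal (s ^ (-(1 / 2) : ℝ)) * nmu Φ univ +
        ∑' k : ℕ, ENNReal.ofReal (s ^ (-(1 / 2) : ℝ) * (7 / 4) * (7 / 8) ^ k) *
          nmu Φ univ := by
        refine add_le_add le_rfl (ENNReal.tsum_le_tsum fun k => ?_)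
        calc ENNReal.ofReal (s ^ (-(1 / 2) : ℝ) * (7 / 4) ^ (k + 1)) *
              nmu Φ {x : Fin m → ℝ | |ξ x| ≤ (1 / 3) ^ k * s}
            ≤ ENNReal.ofReal (s ^ (-(1 / 2) : ℝ) * (7 / 4) ^ (k + 1)) *
              (ENNReal.ofReal ((1 / 2) ^ k) * nmu Φ univ) := by
              gcongr
              exact small_ball_geom hΦ heven hconv hint hξ hσ hmom k
          _ = _ := by
              rw [← mul_assoc, ← ENNReal.ofReal_mul (by positivity)]
              congr 2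
              have : (7 / 8 : ℝ) ^ k = (7 / 4) ^ k * (1 / 2) ^ k := by
                rw [← mul_pow]; norm_num
              rw [this, pow_succ]
              ring
    _ = ENNReal.ofReal (15 * s ^ (-(1 / 2) : ℝ)) * nmu Φ univ := by
        rw [ENNReal.tsum_mul_right]
        have hsum : Summable (fun k : ℕ => s ^ (-(1 / 2) : ℝ) * (7 / 4) * (7 / 8 : ℝ) ^ k) :=
          (summable_geometric_of_lt_one (by norm_num) (by norm_num)).mul_left _
        rw [← ENNReal.ofReal_tsum_of_nonneg (fun k => by positivity) hsum, tsum_mul_left,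
          tsum_geometric_of_lt_one (by norm_num) (by norm_num), ← add_mul,
          ← ENNReal.ofReal_add (by positivity) (by positivity)]
        congr 2
        ring
    _ ≤ ENNReal.ofReal (60 * σ ^ (-(1 / 2) : ℝ)) * nmu Φ univ := by
        refine mul_le_mul_left (ENNReal.ofReal_le_ofReal ?_) _
        rw [hs, Real.div_rpow hσ.le (by norm_num)]
        have h12 : (4 : ℝ)⁻¹ ≤ (12 : ℝ) ^ (-(1 / 2) : ℝ) := by
          rw [Real.rpow_neg (by norm_num), ← Real.sqrt_eq_rpow]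
          apply inv_anti₀ (by positivity)
          rw [Real.sqrt_le_left (by norm_num)]
          norm_num
        have hp : 0 < (12 : ℝ) ^ (-(1 / 2) : ℝ) := by positivity
        have hσp : 0 < σ ^ (-(1 / 2) : ℝ) := by positivity
        rw [mul_div_assoc', div_le_iff₀ hp]
        nlinarith

theorem lint_dens {Φ : (Fin m → ℝ) → ℝ} (hΦ : Measurable Φ) {g : (Fin m → ℝ) → ℝ}
    (hg : Measurable g) :
    ∫⁻ x, ENNReal.ofReal (g x) ∂(nmu Φ) =
      ∫⁻ x, ENNReal.ofReal (Real.exp (-Φ x) * g x) := by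
  unfold nmu
  rw [lintegral_withDensity_eq_lintegral_mul _ (dens_meas hΦ) hg.ennreal_ofReal]
  congr 1
  funext x
  simp only [Pi.mul_apply]
  unfold dens
  rw [ENNReal.ofReal_mul (Real.exp_pos _).le]


theorem neg_moment : ∃ C : ℝ, 0 < C ∧ ∀ (m : ℕ) (Φ : (Fin m → ℝ) → ℝ), Measurable Φ →
    (∀ x, Φ (-x) = Φ x) → (∀ x y, 2 * Φ (fun i => (x i + y i) / 2) ≤ Φ x + Φ y) →
    Integrable (fun x => Real.exp (-Φ x)) → ∀ (ξ : (Fin m → ℝ) →ₗ[ℝ] ℝ) (σ : ℝ), 0 < σ →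
    Integrable (fun x => Real.exp (-Φ x) * ξ x ^ 2) →
    ∫ x, Real.exp (-Φ x) * ξ x ^ 2 = σ ^ 2 * ∫ x, Real.exp (-Φ x) →
    Integrable (fun x => Real.exp (-Φ x) * |ξ x| ^ (-(1 / 2) : ℝ)) ∧
      ∫ x, Real.exp (-Φ x) * |ξ x| ^ (-(1 / 2) : ℝ) ≤
        C * σ ^ (-(1 / 2) : ℝ) * ∫ x, Real.exp (-Φ x) := by
  refine ⟨60, by norm_num, ?_⟩
  intro m Φ hΦ heven hconv hint ξ σ hσ hint2 hmom
  have hcont := xi_cont ξ
  have hexp : Measurable (fun x => Real.exp (-Φ x)) := by fun_prop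
  have hexpint : 0 < ∫ x, Real.exp (-Φ x) := by
    rw [integral_pos_iff_support_of_nonneg (fun x => (Real.exp_pos _).le) hint]
    have : Function.support (fun x => Real.exp (-Φ x)) = univ := by
      ext x; simp [Real.exp_ne_zero]
    rw [this]
    exact isOpen_univ.measure_pos volume univ_nonempty
  have hξ : ξ ≠ 0 := by
    rintro rfl
    simp at hmom
    rcases hmom with h | h
    · exact hσ.ne' h
    · exact hexpint.ne' h
  have hZ : nmu Φ univ = ENNReal.ofReal (∫ x, Real.exp (-Φ x)) := by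
    rw [ofReal_integral_eq_lintegral_ofReal hint (Filter.Eventually.of_forall
      (fun x => (Real.exp_pos _).le))]
    unfold nmu
    rw [withDensity_apply _ MeasurableSet.univ, Measure.restrict_univ]
    rfl
  have hmom' : ∫⁻ x, ENNReal.ofReal (ξ x ^ 2) ∂(nmu Φ) =
      ENNReal.ofReal (σ ^ 2) * nmu Φ univ := by
    rw [lint_dens hΦ (hcont.measurable.pow_const 2),
      ← ofReal_integral_eq_lintegral_ofReal hint2 (Filter.Eventually.of_forall
      (fun x => by positivity)), hmom, hZ, ENNReal.ofReal_mul (by positivity)]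
  have hb := lint_bound hΦ heven hconv hint hξ hσ hmom'
  have hmeas : Measurable (fun x => |ξ x| ^ (-(1 / 2) : ℝ)) := by
    have := hcont.measurable
    fun_prop
  rw [lint_dens hΦ hmeas, hZ, ← ENNReal.ofReal_mul (by positivity)] at hb
  have hint3 : Integrable (fun x => Real.exp (-Φ x) * |ξ x| ^ (-(1 / 2) : ℝ)) := by
    refine ⟨(hexp.mul hmeas).aestronglyMeasurable, ?_⟩
    rw [hasFiniteIntegral_iff_ofReal (Filter.Eventually.of_forall (fun x => by positivity))]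
    exact lt_of_le_of_lt hb ENNReal.ofReal_lt_top
  refine ⟨hint3, ?_⟩
  rw [← ofReal_integral_eq_lintegral_ofReal hint3 (Filter.Eventually.of_forall
      (fun x => by positivity))] at hb
  rwa [ENNReal.ofReal_le_ofReal_iff (by positivity)] at hb

end Pool.Agent.Helper590_Face.JC
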