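import Pool.Agent.Helper590_Face.U.Slope


set_option autoImplicit false

namespace Pool.Agent.Helper590_Face.JS3

theorem scalar2 {p : ℝ} (hp : |p - 2| ≤ 1 / 16) (a b : ℝ) :
    |a| ^ p + p * sp p a * b + 1 / 4 * ((|a| + |b|) ^ (p - 2) * b ^ 2) ≤ |a + b| ^ p := by
  have hp1 := abs_le.mp hp
  have hp0 : 1 < p := by linarith [hp1.1]
  set M0 := |a| + |b| with hM0
  set C := M0 ^ (p - 2) with hC
  have hM0n : 0 ≤ M0 := by positivity
  have hCn : 0 ≤ C := Real.rpow_nonneg hM0n _
  rcases eq_or_ne b 0 with rfl | hb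
  · simp
  have hM0p : 0 < M0 := by
    have := abs_pos.mpr hb
    have := abs_nonneg a
    linarith
  let h : ℝ → ℝ := fun s => |a + s * b| ^ p - s * (p * sp p a * b) - 1 / 4 * (C * b ^ 2) * s ^ 3
  have hder : ∀ s, HasDerivAt h ((p * |a + s * b| ^ (p - 2) * (a + s * b)) * b
      - (p * sp p a * b) - 3 / 4 * (C * b ^ 2) * s ^ 2) s := by
    intro s
    have h1 := hasDerivAt_abs_rpow (a + s * b) hp0
    have h2 : HasDerivAt (fun s : ℝ => a + s * b) b s := by
      simpa using ((hasDerivAt_id s).mul_const b).const_add a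
    have h3 := h1.comp s h2
    have h4 : HasDerivAt (fun s : ℝ => s * (p * sp p a * b)) (p * sp p a * b) s := by
      simpa using (hasDerivAt_id s).mul_const (p * sp p a * b)
    have h5 : HasDerivAt (fun s : ℝ => 1 / 4 * (C * b ^ 2) * s ^ 3) (3 / 4 * (C * b ^ 2) * s ^ 2) s := by
      have h7 := (hasDerivAt_pow 3 s).const_mul (1 / 4 * (C * b ^ 2))
      refine h7.congr_deriv ?_
      push_cast
      ring
    exact (h3.sub h4).sub h5
  have hmono : MonotoneOn h (Set.Icc 0 1) := by
    refine monotoneOn_of_deriv_nonneg (convex_Icc 0 1) ?_ ?_ ?_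
    · exact fun s _ => (hder s).continuousAt.continuousWithinAt
    · exact fun s _ => (hder s).differentiableAt.differentiableWithinAt
    · intro s hs
      rw [interior_Icc] at hs
      rw [(hder s).deriv]
      have hs0 := hs.1
      have hs1 := hs.2
      have hsl := JS1.slope hp (a + s * b) a
      set M := max |a + s * b| |a| with hM
      have k1 : |a + s * b| ≤ M := le_max_left _ _
      have k2 : |a| ≤ M := le_max_right _ _
      have hMn : 0 ≤ M := (abs_nonneg a).trans k2
      have k0 : s * |b| ≤ 2 * M := by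
        have e1 : s * |b| = |a + s * b - a| := by
          rw [add_sub_cancel_left, abs_mul, abs_of_pos hs0]
        have e2 : |a + s * b - a| ≤ |a + s * b| + |a| := abs_sub _ _
        linarith
      have hbp := abs_pos.mpr hb
      have hMp : 0 < M := by
        have : 0 < s * |b| := by positivity
        linarith
      have hMM0 : M ≤ M0 := by
        apply max_le
        · refine (abs_add_le _ _).trans ?_
          rw [hM0, abs_mul, abs_of_pos hs0]
          nlinarith
        · rw [hM0]; linarith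
      have hD : 0 ≤ M ^ (p - 2) := Real.rpow_nonneg hMn _
      -- key
      have hkey : 5 / 12 * (s * C) ≤ M ^ (p - 2) ∧ 0 ≤ M ^ (p - 2) := by
        refine ⟨?_, hD⟩
        rcases le_total p 2 with h2 | h2
        · have e1 : C ≤ M ^ (p - 2) := Real.rpow_le_rpow_of_nonpos hMp hMM0 (by linarith)
          have e2 : s * C ≤ C := by nlinarith
          nlinarith
        · have e1 : s / 4 * M0 ≤ M := by
            have : s * |a| ≤ |a| := by
              have := abs_nonneg a
              nlinarith
            rw [hM0]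
            nlinarith
          have e2 : (s / 4 * M0) ^ (p - 2) ≤ M ^ (p - 2) :=
            Real.rpow_le_rpow (by positivity) e1 (by linarith)
          have e3 : (s / 4 * M0) ^ (p - 2) = s ^ (p - 2) * (1 / 4 : ℝ) ^ (p - 2) * C := by
            rw [Real.mul_rpow (by positivity) hM0n, show s / 4 = s * (1 / 4) by ring,
              Real.mul_rpow hs0.le (by norm_num)]
          have e4 : s ≤ s ^ (p - 2) := by
            have := Real.rpow_le_rpow_of_exponent_ge hs0 hs1.le (show p - 2 ≤ 1 by linarith [hp1.2])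
            rwa [Real.rpow_one] at this
          have e5 : (1 / 2 : ℝ) ≤ (1 / 4 : ℝ) ^ (p - 2) := by
            have e6 := Real.rpow_le_rpow_of_exponent_ge (x := (1 / 4 : ℝ)) (by norm_num) (by norm_num)
              (show p - 2 ≤ 1 / 2 by linarith [hp1.2])
            have e7 : (1 / 4 : ℝ) ^ (1 / 2 : ℝ) = 1 / 2 := by
              rw [show (1 / 4 : ℝ) = (1 / 2) ^ (2 : ℝ) by norm_num, ← Real.rpow_mul (by norm_num)]
              norm_num
            rwa [e7] at e6
          have e8 : s * (1 / 2) ≤ s ^ (p - 2) * (1 / 4 : ℝ) ^ (p - 2) :=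
            mul_le_mul e4 e5 (by norm_num) (Real.rpow_nonneg hs0.le _)
          have e9 : s * (1 / 2) * C ≤ s ^ (p - 2) * (1 / 4 : ℝ) ^ (p - 2) * C :=
            mul_le_mul_of_nonneg_right e8 hCn
          have e10 : 0 ≤ s * C := by positivity
          nlinarith
      obtain ⟨hkey, -⟩ := hkey
      have k3 : p * |a + s * b| ^ (p - 2) * (a + s * b) = p * sp p (a + s * b) := by
        rw [sp]; ring
      rw [k3]
      have e0 : a + s * b - a = s * b := by ring
      rw [e0] at hsl
      -- multiply by s * b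
      have f1 : (1 - |p - 2|) * M ^ (p - 2) * (s * b) ^ 2 ≤ (sp p (a + s * b) - sp p a) * (s * b) := by
        have g1 := (abs_le.mp hsl).1
        have g2 := (abs_le.mp hsl).2
        set D := M ^ (p - 2) with hDdef
        set X := sp p (a + s * b) - sp p a with hX
        rcases le_total 0 (s * b) with hsb | hsb
        · rw [abs_of_nonneg hsb] at g1 g2
          have := mul_le_mul_of_nonneg_right g1 hsb
          nlinarith
        · rw [abs_of_nonpos hsb] at g1 g2
          have := mul_le_mul_of_nonpos_right g2 hsb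
          nlinarith
      have f2 : (1 - |p - 2|) * M ^ (p - 2) * (s * b ^ 2) ≤ (sp p (a + s * b) - sp p a) * b := by
        have : s * ((1 - |p - 2|) * M ^ (p - 2) * (s * b ^ 2)) ≤ s * ((sp p (a + s * b) - sp p a) * b) := by
          nlinarith
        exact le_of_mul_le_mul_left this hs0
      have f3 : (15 / 16 : ℝ) * (M ^ (p - 2) * (s * b ^ 2)) ≤ (sp p (a + s * b) - sp p a) * b := by
        have : 0 ≤ M ^ (p - 2) * (s * b ^ 2) := by positivity
        nlinarith
      have f4 : (31 / 16 : ℝ) * (15 / 16 * (M ^ (p - 2) * (s * b ^ 2))) ≤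
          p * ((sp p (a + s * b) - sp p a) * b) := by
        have g0 : 0 ≤ 15 / 16 * (M ^ (p - 2) * (s * b ^ 2)) := by positivity
        exact mul_le_mul (by linarith [hp1.1]) f3 g0 (by linarith)
      have f5 : 5 / 12 * (s * C) * (s * b ^ 2) ≤ M ^ (p - 2) * (s * b ^ 2) :=
        mul_le_mul_of_nonneg_right hkey (by positivity)
      have f6 : 0 ≤ C * b ^ 2 * s ^ 2 := by positivity
      have f7 : p * sp p (a + s * b) * b - p * sp p a * b
          = p * ((sp p (a + s * b) - sp p a) * b) := by ring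
      have f8 : 5 / 12 * (s * C) * (s * b ^ 2) = 5 / 12 * (C * b ^ 2 * s ^ 2) := by ring
      have f9 : 3 / 4 * (C * b ^ 2) * s ^ 2 = 3 / 4 * (C * b ^ 2 * s ^ 2) := by ring
      rw [f8] at f5
      rw [f7, f9]
      linarith
  have hfin := hmono (Set.left_mem_Icc.mpr zero_le_one) (Set.right_mem_Icc.mpr zero_le_one) zero_le_one
  simp only [h] at hfin
  norm_num at hfin
  linarith

theorem midconv {p : ℝ} (hp : |p - 2| ≤ 1 / 16) (a b : ℝ) :
    1 / 8 * ((max |a| |b|) ^ (p - 2) * (a - b) ^ 2) ≤ |a| ^ p + |b| ^ p - 2 * |(a + b) / 2| ^ p := by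
  have h1 := scalar2 hp ((a + b) / 2) ((a - b) / 2)
  have h2 := scalar2 hp ((a + b) / 2) (-((a - b) / 2))
  have e1 : (a + b) / 2 + (a - b) / 2 = a := by ring
  have e2 : (a + b) / 2 + -((a - b) / 2) = b := by ring
  rw [e1] at h1
  rw [e2, abs_neg] at h2
  have e3 : |(a + b) / 2| + |(a - b) / 2| = max |a| |b| := by
    rcases abs_cases ((a + b) / 2) with ⟨h3, h3'⟩ | ⟨h3, h3'⟩ <;>
    rcases abs_cases ((a - b) / 2) with ⟨h4, h4'⟩ | ⟨h4, h4'⟩ <;>
    rcases abs_cases a with ⟨h5, h5'⟩ | ⟨h5, h5'⟩ <;>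
    rcases abs_cases b with ⟨h6, h6'⟩ | ⟨h6, h6'⟩ <;>
    rcases max_cases |a| |b| with ⟨h7, h7'⟩ | ⟨h7, h7'⟩ <;>
    linarith
  rw [e3] at h1 h2
  nlinarith

end Pool.Agent.Helper590_Face.JS3
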