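import Pool.Agent.Helper590_Face.U.Est
import Pool.Agent.Helper590_Face.U.Neg
import Pool.Agent.Helper590_Face.U.Scalar2

set_option autoImplicit false

namespace Pool.Agent.Helper590_Face.G1



open MeasureTheory Set
open scoped ENNReal

variable {m n : ℕ}


theorem gen_meas (L : (Fin m → ℝ) →ₗ[ℝ] (Fin n → ℝ)) : MeasurableSet (gen L) := by
  have h : gen L = ⋂ i, {x | L x i = 0 → ∀ z, L z i = 0} := by
    ext x
    simp only [gen, mem_ofPred_eq, mem_iInter]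
  rw [h]
  refine MeasurableSet.iInter fun i => ?_
  by_cases hz : ∀ z, L z i = 0
  · have : {x : Fin m → ℝ | L x i = 0 → ∀ z, L z i = 0} = univ :=
      eq_univ_of_forall fun x _ => hz
    rw [this]
    exact MeasurableSet.univ
  · have : {x : Fin m → ℝ | L x i = 0 → ∀ z, L z i = 0} = {x | L x i = 0}ᶜ := by
      ext x
      simp only [mem_ofPred_eq, mem_compl_iff]
      exact ⟨fun h1 h2 => hz (h1 h2), fun h1 h2 => absurd h2 h1⟩
    rw [this]
    exact (measurableSet_eq_fun (PG.lincoord L i).meas measurable_const).compl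

theorem gen_null (L : (Fin m → ℝ) →ₗ[ℝ] (Fin n → ℝ)) : volume (gen L)ᶜ = 0 := by
  have h : (gen L)ᶜ = ⋃ i, {x | L x i = 0 → ∀ z, L z i = 0}ᶜ := by
    rw [← compl_iInter]
    congr 1
    ext x
    simp only [gen, mem_ofPred_eq, mem_iInter]
  rw [h]
  refine measure_iUnion_null fun i => ?_
  by_cases hz : ∀ z, L z i = 0
  · have : {x : Fin m → ℝ | L x i = 0 → ∀ z, L z i = 0} = univ :=
      eq_univ_of_forall fun x _ => hz
    rw [this]
    simp
  · set S : Submodule ℝ (Fin m → ℝ) := LinearMap.ker ((LinearMap.proj i) ∘ₗ L : (Fin m → ℝ) →ₗ[ℝ] ℝ)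
      with hS
    have hS1 : S ≠ ⊤ := by
      intro he
      apply hz
      intro z
      have : z ∈ S := he ▸ Submodule.mem_top
      exact this
    have hS2 : {x : Fin m → ℝ | L x i = 0 → ∀ z, L z i = 0}ᶜ = (S : Set (Fin m → ℝ)) := by
      ext x
      simp only [mem_ofPred_eq, mem_compl_iff]
      constructor
      · intro h1
        by_contra h2
        exact h1 fun h3 => absurd h3 h2
      · intro h1 h2
        exact hz (h2 h1)
    rw [hS2]
    exact Measure.addHaar_submodule volume S hS1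

theorem sg_eq_zero {p : ℝ} (hp : 1 < p) (L : (Fin m → ℝ) →ₗ[ℝ] (Fin n → ℝ))
    (hL : Function.Injective L) (i : Fin n) (h : sg p L i = 0) : ∀ z, L z i = 0 := by
  have hz := zz_pos hp L hL
  have h1 : ∫ x, L x i ^ 2 ∂(gm p L) = 0 :=
    le_antisymm (Real.sqrt_eq_zero'.1 h) (integral_nonneg fun x => sq_nonneg _)
  rw [integral_gm] at h1
  have h2 : ∫ x, Real.exp (-(ph p L x)) * L x i ^ 2 = 0 := by
    rcases mul_eq_zero.1 h1 with h3 | h3
    · exact absurd h3 (inv_ne_zero hz.ne')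
    · exact h3
  have h3 : Integrable (fun x => Real.exp (-(ph p L x)) * L x i ^ 2) :=
    (integrable_gm_iff hp L hL _).1 (((PG.lincoord L i).pow 2).int hp L hL)
  have h4 := (integral_eq_zero_iff_of_nonneg
    (fun x => mul_nonneg (Real.exp_pos _).le (sq_nonneg _)) h3).1 h2
  have h5 : (fun x : Fin m → ℝ => L x i) =ᵐ[volume] (fun _ => (0 : ℝ)) := by
    filter_upwards [h4] with x hx
    simp only [Pi.zero_apply] at hx
    rcases mul_eq_zero.1 hx with h6 | h6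
    · exact absurd h6 (Real.exp_ne_zero _)
    · exact pow_eq_zero_iff (two_ne_zero) |>.1 h6
  have hc : Continuous (fun x : Fin m → ℝ => L x i) :=
    (continuous_apply i).comp (LinearMap.continuous_of_finiteDimensional L)
  have h6 := (Continuous.ae_eq_iff_eq volume hc continuous_const).1 h5
  exact fun z => congrFun h6 z

theorem th_sq_le (t : ℝ) : th t ^ 2 ≤ 3 + t ^ 2 + |t| ^ (-(1 / 2) : ℝ) := by
  rcases eq_or_ne t 0 with rfl | ht
  · simp only [th, abs_zero]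
    rw [Real.zero_rpow (by norm_num), Real.zero_rpow (by norm_num), Real.zero_rpow (by norm_num)]
    norm_num
  · have hp : 0 < |t| := abs_pos.2 ht
    have e1 : (|t| ^ (1 / 4 : ℝ)) ^ 2 = |t| ^ (1 / 2 : ℝ) := by
      rw [← Real.rpow_natCast, ← Real.rpow_mul hp.le]
      norm_num
    have e2 : (|t| ^ (-(1 / 4) : ℝ)) ^ 2 = |t| ^ (-(1 / 2) : ℝ) := by
      rw [← Real.rpow_natCast, ← Real.rpow_mul hp.le]
      norm_num
    have e3 : |t| ^ (1 / 4 : ℝ) * |t| ^ (-(1 / 4) : ℝ) = 1 := by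
      rw [← Real.rpow_add hp]
      norm_num
    have e4 : |t| ^ (1 / 2 : ℝ) ≤ 1 + t ^ 2 := by
      rcases le_total |t| 1 with h | h
      · have : |t| ^ (1 / 2 : ℝ) ≤ 1 := Real.rpow_le_one hp.le h (by norm_num)
        have : 0 ≤ t ^ 2 := sq_nonneg t
        linarith
      · have : |t| ^ (1 / 2 : ℝ) ≤ |t| ^ ((2 : ℕ) : ℝ) :=
          Real.rpow_le_rpow_of_exponent_le h (by norm_num)
        rw [Real.rpow_natCast, sq_abs] at this
        linarith
    have e5 : th t ^ 2 = (|t| ^ (1 / 4 : ℝ)) ^ 2 + 2 * (|t| ^ (1 / 4 : ℝ) * |t| ^ (-(1 / 4) : ℝ)) +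
        (|t| ^ (-(1 / 4) : ℝ)) ^ 2 := by
      rw [th]
      ring
    rw [e5, e1, e2, e3]
    linarith

theorem measurable_th : Measurable th := by
  unfold th
  exact (continuous_abs.measurable.pow_const _).add (continuous_abs.measurable.pow_const _)

theorem midph {m n : ℕ} {p : ℝ} (hp : |p - 2| ≤ 1 / 16) (L : (Fin m → ℝ) →ₗ[ℝ] (Fin n → ℝ))
    (x y : Fin m → ℝ) : 2 * ph p L (fun i => (x i + y i) / 2) ≤ ph p L x + ph p L y := by
  have e1 : (fun i => (x i + y i) / 2) = (1 / 2 : ℝ) • (x + y) := by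
    ext j
    simp only [Pi.smul_apply, Pi.add_apply, smul_eq_mul]
    ring
  have e2 : ∀ j, L (fun i => (x i + y i) / 2) j = (L x j + L y j) / 2 := by
    intro j
    rw [e1, map_smul, map_add, Pi.smul_apply, Pi.add_apply, smul_eq_mul]
    ring
  simp only [ph, e2]
  rw [Finset.mul_sum, ← Finset.sum_add_distrib]
  refine Finset.sum_le_sum fun j _ => ?_
  have h1 := JS3.midconv hp (L x j) (L y j)
  have h2 : 0 ≤ 1 / 8 * ((max |L x j| |L y j|) ^ (p - 2) * (L x j - L y j) ^ 2) := by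
    have : 0 ≤ max |L x j| |L y j| := le_max_of_le_left (abs_nonneg _)
    positivity
  linarith

theorem sg_sq (p : ℝ) (L : (Fin m → ℝ) →ₗ[ℝ] (Fin n → ℝ)) (i : Fin n) :
    sg p L i ^ 2 = ∫ x, L x i ^ 2 ∂(gm p L) := by
  rw [sg, Real.sq_sqrt (integral_nonneg fun x => sq_nonneg _)]

theorem neg_mom_gm : ∃ C : ℝ, 0 < C ∧ ∀ (m n : ℕ) (p : ℝ) (L : (Fin m → ℝ) →ₗ[ℝ] (Fin n → ℝ)),
    |p - 2| ≤ 1 / 16 → Function.Injective L → ∀ i, 0 < sg p L i →
    Integrable (fun x => |L x i| ^ (-(1 / 2) : ℝ)) (gm p L) ∧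
      ∫ x, |L x i| ^ (-(1 / 2) : ℝ) ∂(gm p L) ≤ C * sg p L i ^ (-(1 / 2) : ℝ) := by
  obtain ⟨C0, hC0, hneg⟩ := JC.neg_moment
  refine ⟨C0, hC0, ?_⟩
  intro m n p L hp hL i hσ
  have hp1 : 1 < p := by
    have := (abs_le.1 hp).1
    linarith
  have hz := zz_pos hp1 L hL
  have hsq : Integrable (fun x => L x i ^ 2) (gm p L) := ((PG.lincoord L i).pow 2).int hp1 L hL
  have hsq' := (integrable_gm_iff hp1 L hL _).1 hsq
  have hmom : ∫ x, Real.exp (-(ph p L x)) * (L x i) ^ 2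
      = sg p L i ^ 2 * ∫ x, Real.exp (-(ph p L x)) := by
    rw [sg_sq, integral_gm]
    have : (∫ x, Real.exp (-(ph p L x))) = zz p L := rfl
    rw [this, mul_right_comm, inv_mul_cancel₀ hz.ne', one_mul]
  have key := hneg m (fun x => ph p L x) (measurable_ph L) (fun x => ph_neg L x) (midph hp L)
    (integrable_w hp1 L hL) ((LinearMap.proj i) ∘ₗ L) (sg p L i) hσ
  have e1 : ∀ x, ((LinearMap.proj i) ∘ₗ L : (Fin m → ℝ) →ₗ[ℝ] ℝ) x = L x i := fun x => rfl
  simp only [e1] at key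
  obtain ⟨hI, hle⟩ := key hsq' hmom
  refine ⟨(integrable_gm_iff hp1 L hL _).2 hI, ?_⟩
  rw [integral_gm, inv_mul_le_iff₀ hz, mul_comm (zz p L)]
  exact hle

theorem th_div_le {σ : ℝ} (hσ : 0 < σ) (t : ℝ) : th (t / σ) ^ 2 ≤ 3 + (σ ^ 2)⁻¹ * t ^ 2 +
    (σ ^ (-(1 / 2) : ℝ))⁻¹ * |t| ^ (-(1 / 2) : ℝ) := by
  refine (th_sq_le _).trans (le_of_eq ?_)
  rw [abs_div, abs_of_pos hσ, Real.div_rpow (abs_nonneg _) hσ.le, div_pow]
  ring

theorem th_moment : ∃ C : ℝ, 1 ≤ C ∧ ∀ (m n : ℕ) (p : ℝ) (L : (Fin m → ℝ) →ₗ[ℝ] (Fin n → ℝ)),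
    |p - 2| ≤ 1 / 16 → Function.Injective L → ∀ i, 0 < sg p L i →
    Integrable (fun x => th (L x i / sg p L i) ^ 2) (gm p L) ∧
      ∫ x, th (L x i / sg p L i) ^ 2 ∂(gm p L) ≤ C := by
  obtain ⟨C0, hC0, hneg⟩ := neg_mom_gm
  refine ⟨4 + C0, by linarith, ?_⟩
  intro m n p L hp hL i hσ
  have hp1 : 1 < p := by
    have := (abs_le.1 hp).1
    linarith
  obtain ⟨hI, hle⟩ := hneg m n p L hp hL i hσ
  have hσ2 := sg_sq p L i
  have hsq : Integrable (fun x => L x i ^ 2) (gm p L) := ((PG.lincoord L i).pow 2).int hp1 L hL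
  generalize sg p L i = σ at *
  have hσp : 0 < σ ^ (-(1 / 2) : ℝ) := Real.rpow_pos_of_pos hσ _
  have hG1 : Integrable (fun x => (σ ^ 2)⁻¹ * L x i ^ 2) (gm p L) := hsq.const_mul _
  have hG2 : Integrable (fun x => (σ ^ (-(1 / 2) : ℝ))⁻¹ * |L x i| ^ (-(1 / 2) : ℝ)) (gm p L) :=
    hI.const_mul _
  have := prob_gm hp1 L hL
  have hG0 : Integrable (fun _ : Fin m → ℝ => (3 : ℝ)) (gm p L) := integrable_const _
  have hG : Integrable (fun x => 3 + (σ ^ 2)⁻¹ * L x i ^ 2 +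
      (σ ^ (-(1 / 2) : ℝ))⁻¹ * |L x i| ^ (-(1 / 2) : ℝ)) (gm p L) := (hG0.add hG1).add hG2
  have hmeas : Measurable (fun x => th (L x i / σ) ^ 2) :=
    (measurable_th.comp ((PG.lincoord L i).meas.div_const σ)).pow_const 2
  have hint : Integrable (fun x => th (L x i / σ) ^ 2) (gm p L) := by
    refine hG.mono' hmeas.aestronglyMeasurable (Filter.Eventually.of_forall fun x => ?_)
    rw [Real.norm_eq_abs, abs_of_nonneg (sq_nonneg _)]
    exact th_div_le hσ _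
  refine ⟨hint, (integral_mono hint hG (fun x => th_div_le hσ _)).trans ?_⟩
  have h8 : ∫ x, (3 + (σ ^ 2)⁻¹ * L x i ^ 2 +
      (σ ^ (-(1 / 2) : ℝ))⁻¹ * |L x i| ^ (-(1 / 2) : ℝ)) ∂(gm p L) =
      3 + (σ ^ 2)⁻¹ * (∫ x, L x i ^ 2 ∂(gm p L)) +
      (σ ^ (-(1 / 2) : ℝ))⁻¹ * (∫ x, |L x i| ^ (-(1 / 2) : ℝ) ∂(gm p L)) := by
    have hG01 : Integrable (fun x => 3 + (σ ^ 2)⁻¹ * L x i ^ 2) (gm p L) := hG0.add hG1
    rw [integral_add hG01 hG2, integral_add hG0 hG1, integral_const_mul,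
      integral_const_mul, integral_const]
    simp only [probReal_univ, smul_eq_mul, one_mul]
  have h7 : (σ ^ (-(1 / 2) : ℝ))⁻¹ * ∫ x, |L x i| ^ (-(1 / 2) : ℝ) ∂(gm p L) ≤ C0 := by
    rw [inv_mul_le_iff₀ hσp, mul_comm]
    exact hle
  rw [h8, ← hσ2, inv_mul_cancel₀ (by positivity)]
  linarith

end Pool.Agent.Helper590_Face.G1
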