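import Pool.Agent.Helper590_Face.U.Est
import Pool.Agent.Helper590_Face.U.Star12
import Pool.Agent.Helper590_Face.U.ThMoment

set_option autoImplicit false

namespace Pool.Agent.Helper590_Face.G3

open Pool.Agent.Helper590_Face.G1


open MeasureTheory Set
open scoped ENNReal

variable {m n : ℕ}

theorem ug3_measurable_th : Measurable th := by
  unfold th
  exact ((measurable_id.abs).pow_const _).add ((measurable_id.abs).pow_const _)

theorem ug3_th_nonneg (t : ℝ) : 0 ≤ th t := by
  unfold th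
  positivity

theorem ug3_sg_zero_of_zero (p : ℝ) (L : (Fin m → ℝ) →ₗ[ℝ] (Fin n → ℝ)) (i : Fin n)
    (h : ∀ z, L z i = 0) : sg p L i = 0 := by
  unfold sg
  simp [h]

/-- Cauchy-Schwarz for termwise bounds -/
theorem ug3_cs_pair {ι : Type*} (s : Finset ι) (t A B : ι → ℝ) (hA : ∀ i ∈ s, 0 ≤ A i)
    (hB : ∀ i ∈ s, 0 ≤ B i) (h : ∀ i ∈ s, t i ^ 2 ≤ A i * B i) :
    (∑ i ∈ s, t i) ^ 2 ≤ (∑ i ∈ s, A i) * ∑ i ∈ s, B i :=
  Finset.sum_sq_le_sum_mul_sum_of_sq_le_mul s hA hB h

theorem ug3_measurable_term (p : ℝ) (L : (Fin m → ℝ) →ₗ[ℝ] (Fin n → ℝ)) (c : Fin n → ℝ) :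
    Measurable (fun x : Fin m → ℝ => ∑ i, om p L i * (c i * th (L x i / sg p L i))) := by
  refine Finset.measurable_sum _ (fun i _ => ?_)
  have h1 : Measurable (fun x : Fin m → ℝ => L x i) := (PG.lincoord L i).meas
  exact ((ug3_measurable_th.comp (h1.div_const _)).const_mul _).const_mul _

theorem ug3_nonneg_term (p : ℝ) (L : (Fin m → ℝ) →ₗ[ℝ] (Fin n → ℝ)) (c : Fin n → ℝ) (hc : ∀ i, 0 ≤ c i)
    (x : Fin m → ℝ) : 0 ≤ ∑ i, om p L i * (c i * th (L x i / sg p L i)) :=
  Finset.sum_nonneg (fun i _ => mul_nonneg (om_nonneg p L i) (mul_nonneg (hc i) (ug3_th_nonneg _)))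

/-- for generic `x` the coordinates of positive deviation do not vanish -/
theorem ug3_gen_ne {p : ℝ} {L : (Fin m → ℝ) →ₗ[ℝ] (Fin n → ℝ)} {x : Fin m → ℝ} (hx : x ∈ gen L)
    {i : Fin n} (hi : 0 < sg p L i) : L x i ≠ 0 := by
  intro h
  have h1 := ug3_sg_zero_of_zero p L i (hx i h)
  linarith


theorem pair_F0 {p : ℝ} (hp : |p - 2| ≤ 1 / 16) (hp2 : p ≠ 2)
    (L : (Fin m → ℝ) →ₗ[ℝ] (Fin n → ℝ)) (hL : Function.Injective L) (k : Fin n → ℝ) :
    Pair p L (F0 p L k)
      (fun x => 1089 * (p - 2) ^ 2 * ∑ i, om p L i * (k i ^ 2 * th (L x i / sg p L i))) := by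
  have hp1 : 1 < p := by
    have := (abs_le.1 hp).1
    linarith
  refine ⟨?_, ?_, ?_⟩
  · exact (ug3_measurable_term p L (fun i => k i ^ 2)).const_mul _
  · intro x
    exact mul_nonneg (by positivity) (ug3_nonneg_term p L (fun i => k i ^ 2) (fun i => sq_nonneg _) x)
  · intro x hx y hy
    have e1 : F0 p L k x - F0 p L k y =
        ∑ i, (sp p (L x i) - sp p (L y i) - om p L i * (L x i - L y i)) * k i := by
      unfold F0
      rw [← Finset.sum_sub_distrib]
      refine Finset.sum_congr rfl (fun i _ => ?_)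
      ring
    have e2 : (1089 * (p - 2) ^ 2 * ∑ i, om p L i * (k i ^ 2 * th (L x i / sg p L i)) +
        1089 * (p - 2) ^ 2 * ∑ i, om p L i * (k i ^ 2 * th (L y i / sg p L i))) =
        ∑ i, 1089 * (p - 2) ^ 2 * (om p L i * (k i ^ 2 *
          (th (L x i / sg p L i) + th (L y i / sg p L i)))) := by
      rw [← mul_add, ← Finset.sum_add_distrib, Finset.mul_sum]
      refine Finset.sum_congr rfl (fun i _ => ?_)
      ring
    show (F0 p L k x - F0 p L k y) ^ 2 ≤ qf p L x y *
      (1089 * (p - 2) ^ 2 * ∑ i, om p L i * (k i ^ 2 * th (L x i / sg p L i)) +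
        1089 * (p - 2) ^ 2 * ∑ i, om p L i * (k i ^ 2 * th (L y i / sg p L i)))
    rw [e1, e2]
    unfold qf
    apply ug3_cs_pair
    · intro i _
      positivity
    · intro i _
      have h1 := om_nonneg p L i
      have h2 := ug3_th_nonneg (L x i / sg p L i)
      have h3 := ug3_th_nonneg (L y i / sg p L i)
      positivity
    · intro i _
      rcases (sg_nonneg p L i).eq_or_lt with h | h
      · have h1 := sg_eq_zero hp1 L hL i h.symm
        rw [h1 x, h1 y]
        simp
      · have h1 := JS2.star1 hp h (ug3_gen_ne hx h) (ug3_gen_ne hy h)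
        have h2 : om p L i = sg p L i ^ (p - 2) := rfl
        rw [h2, mul_pow]
        have h3 := mul_le_mul_of_nonneg_right h1 (sq_nonneg (k i))
        refine h3.trans (le_of_eq ?_)
        ring

theorem pair_lin {p : ℝ} (hp : |p - 2| ≤ 1 / 16) (hp2 : p ≠ 2)
    (L : (Fin m → ℝ) →ₗ[ℝ] (Fin n → ℝ)) (hL : Function.Injective L) (hpos : Pos p L)
    (u : Fin m → ℝ) :
    Pair p L (fun x => ∑ a, u a * x a)
      (fun x => ∑ i, om p L i * (L u i ^ 2 * th (L x i / sg p L i))) := by
  have hp1 : 1 < p := by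
    have := (abs_le.1 hp).1
    linarith
  refine ⟨?_, ?_, ?_⟩
  · exact ug3_measurable_term p L (fun i => L u i ^ 2)
  · intro x
    exact ug3_nonneg_term p L (fun i => L u i ^ 2) (fun i => sq_nonneg _) x
  · intro x hx y hy
    have e1 : (∑ a, u a * x a) - ∑ a, u a * y a =
        ∑ i, om p L i * (L u i * (L x i - L y i)) := by
      rw [← hpos u x, ← hpos u y, ← Finset.sum_sub_distrib]
      refine Finset.sum_congr rfl (fun i _ => ?_)
      ring
    have e2 : ((∑ i, om p L i * (L u i ^ 2 * th (L x i / sg p L i))) +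
        ∑ i, om p L i * (L u i ^ 2 * th (L y i / sg p L i))) =
        ∑ i, (om p L i * (L u i ^ 2 * (th (L x i / sg p L i) + th (L y i / sg p L i)))) := by
      rw [← Finset.sum_add_distrib]
      refine Finset.sum_congr rfl (fun i _ => ?_)
      ring
    show ((∑ a, u a * x a) - ∑ a, u a * y a) ^ 2 ≤ qf p L x y *
      ((∑ i, om p L i * (L u i ^ 2 * th (L x i / sg p L i))) +
        ∑ i, om p L i * (L u i ^ 2 * th (L y i / sg p L i)))
    rw [e1, e2]
    unfold qf
    apply ug3_cs_pair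
    · intro i _
      positivity
    · intro i _
      have h1 := om_nonneg p L i
      have h2 := ug3_th_nonneg (L x i / sg p L i)
      have h3 := ug3_th_nonneg (L y i / sg p L i)
      positivity
    · intro i _
      rcases (sg_nonneg p L i).eq_or_lt with h | h
      · have h1 := sg_eq_zero hp1 L hL i h.symm
        rw [h1 x, h1 y, h1 u]
        simp
      · have h1 := JS2.star2 hp h (ug3_gen_ne hx h) (ug3_gen_ne hy h)
        have h2 : om p L i = sg p L i ^ (p - 2) := rfl
        rw [h2]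
        have h3 := mul_le_mul_of_nonneg_right h1 (sq_nonneg (L u i))
        have h4 : (sg p L i ^ (p - 2) * (L u i * (L x i - L y i))) ^ 2 =
            (sg p L i ^ (p - 2) * (L x i - L y i)) ^ 2 * L u i ^ 2 := by ring
        rw [h4]
        refine h3.trans (le_of_eq ?_)
        ring

end Pool.Agent.Helper590_Face.G3
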