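import Mathlib
import Pool.Agent.Helper734.IB.PL


set_option autoImplicit false

namespace Pool.Agent.Helper590_Face.JB

open MeasureTheory Set
open scoped ENNReal

/-- `2 + t² ≤ e^t + e^{-t}`. -/
theorem lemV_cosh (t : ℝ) : 2 + t ^ 2 ≤ Real.exp t + Real.exp (-t) := by
  have h1 : Real.exp t + Real.exp (-t) = 2 + 4 * Real.sinh (t / 2) ^ 2 := by
    rw [Real.sinh_eq]
    have ha : Real.exp t = Real.exp (t / 2) ^ 2 := by
      rw [← Real.exp_nat_mul]; congr 1; push_cast; ring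
    have hb : Real.exp (-t) = Real.exp (-(t / 2)) ^ 2 := by
      rw [← Real.exp_nat_mul]; congr 1; push_cast; ring
    have hc : Real.exp (t / 2) * Real.exp (-(t / 2)) = 1 := by
      rw [← Real.exp_add]; simp
    rw [ha, hb]
    nlinarith [hc]
  have h2 : (t / 2) ^ 2 ≤ Real.sinh (t / 2) ^ 2 := by
    rw [sq_le_sq]
    rcases le_total 0 (t / 2) with h | h
    · rw [abs_of_nonneg h, abs_of_nonneg (Real.sinh_nonneg_iff.2 h)]
      exact Real.self_le_sinh_iff.2 h
    · rw [abs_of_nonpos h, abs_of_nonpos (Real.sinh_nonpos_iff.2 h)]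
      have := Real.sinh_le_self_iff.2 h
      linarith
  rw [h1]
  nlinarith [h2]

/-- the exponent inequality behind Prekopa-Leindler -/
theorem lemV_exp {a b p q c G1 G2 η : ℝ} (hc : 0 ≤ c) (hr : 0 ≤ a + b)
    (hp : (G1 - G2) ^ 2 ≤ c * (a + b)) (hcd : c = p + q) :
    (η * G1 - η ^ 2 / 4 * a) + (-η * G2 - η ^ 2 / 4 * b) ≤ p + q := by
  subst hcd
  by_contra hcon
  push Not at hcon
  set r := η ^ 2 * (a + b) with hrdef
  have hr0 : 0 ≤ r := mul_nonneg (sq_nonneg _) hr
  have ht : (p + q) + r / 4 < η * (G1 - G2) := by rw [hrdef]; nlinarith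
  have h1 : (η * (G1 - G2)) ^ 2 ≤ (p + q) * r := by
    rw [hrdef]
    have := mul_le_mul_of_nonneg_left hp (sq_nonneg η)
    nlinarith
  have h2 : ((p + q) + r / 4) ^ 2 < (η * (G1 - G2)) ^ 2 := by
    apply sq_lt_sq'
    · nlinarith
    · exact ht
  nlinarith [sq_nonneg ((p + q) - r / 4)]

theorem lemV {m : ℕ} (Φ G R : (Fin m → ℝ) → ℝ) (hΦ : Measurable Φ) (hG : Measurable G)
    (hR : Measurable R) (hR0 : ∀ x, 0 ≤ R x)
    (hc : ∀ x y, 2 * Φ (fun i => (x i + y i) / 2) ≤ Φ x + Φ y)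
    (S : Set (Fin m → ℝ)) (hS : MeasurableSet S) (hS0 : volume Sᶜ = 0)
    (hpair : ∀ x ∈ S, ∀ y ∈ S,
      (G x - G y) ^ 2 ≤ (Φ x + Φ y - 2 * Φ (fun i => (x i + y i) / 2)) * (R x + R y))
    (hw : ∫⁻ x, ENNReal.ofReal (Real.exp (-Φ x)) ≠ ∞) :
    ∫⁻ x, ∫⁻ y, ENNReal.ofReal (Real.exp (-Φ x) * Real.exp (-Φ y) * (G x - G y) ^ 2) ≤
      (∫⁻ x, ENNReal.ofReal (Real.exp (-Φ x))) *
        ∫⁻ x, ENNReal.ofReal (Real.exp (-Φ x) * R x) := by
  classical
  set P : Measure ((Fin m → ℝ) × (Fin m → ℝ)) := (volume : Measure (Fin m → ℝ)).prod volume with hP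
  set Z : ℝ≥0∞ := ∫⁻ x, ENNReal.ofReal (Real.exp (-Φ x)) with hZ
  set A : ℝ≥0∞ := ∫⁻ x, ENNReal.ofReal (Real.exp (-Φ x) * R x) with hA
  have mw : Measurable (fun x => ENNReal.ofReal (Real.exp (-Φ x))) := by fun_prop
  have mwR : Measurable (fun x => ENNReal.ofReal (Real.exp (-Φ x) * R x)) := by fun_prop
  -- the main inequality for a fixed η
  have key : ∀ η : ℝ, 0 < η →
      ∫⁻ z, ENNReal.ofReal (Real.exp (-(η ^ 2 / 4) * (R z.1 + R z.2)) *
        (Real.exp (-Φ z.1) * Real.exp (-Φ z.2) * (G z.1 - G z.2) ^ 2)) ∂P ≤ Z * A := by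
    intro η hη
    set f0 : (Fin m → ℝ) → ℝ≥0∞ := fun x =>
      ENNReal.ofReal (Real.exp (η * G x - η ^ 2 / 4 * R x - Φ x)) with hf0
    set g0 : (Fin m → ℝ) → ℝ≥0∞ := fun x =>
      ENNReal.ofReal (Real.exp (-η * G x - η ^ 2 / 4 * R x - Φ x)) with hg0
    have mf0 : Measurable f0 := by rw [hf0]; fun_prop
    have mg0 : Measurable g0 := by rw [hg0]; fun_prop
    have hae : ∀ᵐ x ∂(volume : Measure (Fin m → ℝ)), x ∈ S := by
      rw [ae_iff]; exact hS0
    have hPL : (∫⁻ x, f0 x) * (∫⁻ x, g0 x) ≤ Z ^ 2 := by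
      have h := Pool.Agent.Helper734.IB.pln m (S.indicator f0) (S.indicator g0)
        (fun x => ENNReal.ofReal (Real.exp (-Φ x))) (mf0.indicator hS) (mg0.indicator hS) mw ?_
      · have e1 : ∫⁻ x, S.indicator f0 x = ∫⁻ x, f0 x := by
          apply lintegral_congr_ae
          filter_upwards [hae] with x hx
          simp [hx]
        have e2 : ∫⁻ x, S.indicator g0 x = ∫⁻ x, g0 x := by
          apply lintegral_congr_ae
          filter_upwards [hae] with x hx
          simp [hx]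
        rw [e1, e2] at h
        exact h
      · intro s t
        by_cases hs : s ∈ S
        · by_cases ht : t ∈ S
          · rw [Set.indicator_of_mem hs, Set.indicator_of_mem ht]
            show ENNReal.ofReal _ * ENNReal.ofReal _ ≤ ENNReal.ofReal _ ^ 2
            rw [← ENNReal.ofReal_mul (Real.exp_nonneg _), ← ENNReal.ofReal_pow (Real.exp_nonneg _),
              ← Real.exp_add, ← Real.exp_nat_mul]
            apply ENNReal.ofReal_le_ofReal
            apply Real.exp_le_exp.2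
            have h1 := hpair s hs t ht
            have h2 := hc s t
            have h3 := lemV_exp (a := R s) (b := R t) (p := Φ s + Φ t)
              (q := -(2 * Φ (fun i => (s i + t i) / 2))) (G1 := G s) (G2 := G t) (η := η)
              (c := Φ s + Φ t - 2 * Φ (fun i => (s i + t i) / 2)) (by linarith)
              (add_nonneg (hR0 s) (hR0 t)) h1 (by ring)
            push_cast
            linarith
          · rw [Set.indicator_of_notMem ht]; simp
        · rw [Set.indicator_of_notMem hs]; simp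
    -- double integrals
    have hE1 : ∫⁻ z, f0 z.1 * g0 z.2 ∂P = (∫⁻ x, f0 x) * (∫⁻ x, g0 x) :=
      lintegral_prod_mul mf0.aemeasurable mg0.aemeasurable
    have hE2 : ∫⁻ z, g0 z.1 * f0 z.2 ∂P = (∫⁻ x, g0 x) * (∫⁻ x, f0 x) :=
      lintegral_prod_mul mg0.aemeasurable mf0.aemeasurable
    -- notation
    set W : (Fin m → ℝ) × (Fin m → ℝ) → ℝ := fun z =>
      Real.exp (-(η ^ 2 / 4) * (R z.1 + R z.2)) * (Real.exp (-Φ z.1) * Real.exp (-Φ z.2)) with hW
    have hW0 : ∀ z, 0 ≤ W z := fun z => by rw [hW]; positivity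
    have mW : Measurable W := by rw [hW]; fun_prop
    set J : ℝ≥0∞ := ∫⁻ z, ENNReal.ofReal (W z) ∂P with hJ
    set I : ℝ≥0∞ := ∫⁻ z, ENNReal.ofReal (Real.exp (-(η ^ 2 / 4) * (R z.1 + R z.2)) *
        (Real.exp (-Φ z.1) * Real.exp (-Φ z.2) * (G z.1 - G z.2) ^ 2)) ∂P with hI
    -- upper bound of the integrals by `2 Z²`
    have hup : 2 * J + ENNReal.ofReal (η ^ 2) * I ≤ 2 * Z ^ 2 := by
      have hpt : ∀ z : (Fin m → ℝ) × (Fin m → ℝ),
          2 * ENNReal.ofReal (W z) + ENNReal.ofReal (η ^ 2) *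
            ENNReal.ofReal (Real.exp (-(η ^ 2 / 4) * (R z.1 + R z.2)) *
              (Real.exp (-Φ z.1) * Real.exp (-Φ z.2) * (G z.1 - G z.2) ^ 2)) ≤
          f0 z.1 * g0 z.2 + g0 z.1 * f0 z.2 := by
        intro z
        have h2 : (2 : ℝ≥0∞) = ENNReal.ofReal 2 := by simp
        rw [h2, ← ENNReal.ofReal_mul (by norm_num), ← ENNReal.ofReal_mul (sq_nonneg _),
          ← ENNReal.ofReal_add (by have := hW0 z; positivity) (by positivity)]
        show _ ≤ ENNReal.ofReal _ * ENNReal.ofReal _ + ENNReal.ofReal _ * ENNReal.ofReal _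
        rw [← ENNReal.ofReal_mul (Real.exp_nonneg _), ← ENNReal.ofReal_mul (Real.exp_nonneg _),
          ← ENNReal.ofReal_add (by positivity) (by positivity)]
        apply ENNReal.ofReal_le_ofReal
        have hch := lemV_cosh (η * (G z.1 - G z.2))
        have hm := mul_le_mul_of_nonneg_right hch (hW0 z)
        have e1 : Real.exp (η * G z.1 - η ^ 2 / 4 * R z.1 - Φ z.1) *
            Real.exp (-η * G z.2 - η ^ 2 / 4 * R z.2 - Φ z.2) =
            Real.exp (η * (G z.1 - G z.2)) * W z := by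
          rw [hW]; simp only
          rw [← Real.exp_add, ← Real.exp_add, ← Real.exp_add, ← Real.exp_add]
          congr 1; ring
        have e2 : Real.exp (-η * G z.1 - η ^ 2 / 4 * R z.1 - Φ z.1) *
            Real.exp (η * G z.2 - η ^ 2 / 4 * R z.2 - Φ z.2) =
            Real.exp (-(η * (G z.1 - G z.2))) * W z := by
          rw [hW]; simp only
          rw [← Real.exp_add, ← Real.exp_add, ← Real.exp_add, ← Real.exp_add]
          congr 1; ring
        rw [e1, e2, ← add_mul]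
        refine le_trans (le_of_eq ?_) hm
        rw [hW]; simp only
        ring
      calc 2 * J + ENNReal.ofReal (η ^ 2) * I
          = ∫⁻ z, (2 * ENNReal.ofReal (W z) + ENNReal.ofReal (η ^ 2) *
            ENNReal.ofReal (Real.exp (-(η ^ 2 / 4) * (R z.1 + R z.2)) *
              (Real.exp (-Φ z.1) * Real.exp (-Φ z.2) * (G z.1 - G z.2) ^ 2))) ∂P := by
            rw [lintegral_add_left (by fun_prop), lintegral_const_mul _ (by fun_prop),
              lintegral_const_mul _ (by fun_prop)]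
        _ ≤ ∫⁻ z, (f0 z.1 * g0 z.2 + g0 z.1 * f0 z.2) ∂P := lintegral_mono hpt
        _ = (∫⁻ x, f0 x) * (∫⁻ x, g0 x) + (∫⁻ x, g0 x) * (∫⁻ x, f0 x) := by
            rw [lintegral_add_left (by fun_prop), hE1, hE2]
        _ ≤ 2 * Z ^ 2 := by
            rw [mul_comm (∫⁻ x, g0 x) (∫⁻ x, f0 x), ← two_mul]
            gcongr
    have hlow : 2 * Z ^ 2 ≤ 2 * J + ENNReal.ofReal (η ^ 2) * (Z * A) := by
      have hpt : ∀ z : (Fin m → ℝ) × (Fin m → ℝ),
          2 * (ENNReal.ofReal (Real.exp (-Φ z.1)) * ENNReal.ofReal (Real.exp (-Φ z.2))) ≤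
          2 * ENNReal.ofReal (W z) + ENNReal.ofReal (η ^ 2 / 2) *
            (ENNReal.ofReal (Real.exp (-Φ z.1)) * ENNReal.ofReal (Real.exp (-Φ z.2) * R z.2) +
             ENNReal.ofReal (Real.exp (-Φ z.1) * R z.1) * ENNReal.ofReal (Real.exp (-Φ z.2))) := by
        intro z
        have h2 : (2 : ℝ≥0∞) = ENNReal.ofReal 2 := by simp
        have hz1 := hR0 z.1
        have hz2 := hR0 z.2
        have hWz := hW0 z
        have hp1 : 0 ≤ Real.exp (-Φ z.1) * R z.1 := mul_nonneg (Real.exp_nonneg _) hz1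
        have hp2 : 0 ≤ Real.exp (-Φ z.2) * R z.2 := mul_nonneg (Real.exp_nonneg _) hz2
        rw [h2, ← ENNReal.ofReal_mul (Real.exp_nonneg _), ← ENNReal.ofReal_mul (Real.exp_nonneg _),
          ← ENNReal.ofReal_mul hp1, ← ENNReal.ofReal_mul (by norm_num),
          ← ENNReal.ofReal_mul (by norm_num),
          ← ENNReal.ofReal_add (mul_nonneg (Real.exp_nonneg _) hp2)
            (mul_nonneg hp1 (Real.exp_nonneg _)),
          ← ENNReal.ofReal_mul (by positivity), ← ENNReal.ofReal_add (by positivity) (by positivity)]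
        apply ENNReal.ofReal_le_ofReal
        have h1 := Real.add_one_le_exp (-(η ^ 2 / 4) * (R z.1 + R z.2))
        have hpos : 0 ≤ Real.exp (-Φ z.1) * Real.exp (-Φ z.2) := by positivity
        have hm := mul_le_mul_of_nonneg_right h1 hpos
        rw [hW]; simp only
        nlinarith [hm]
      have hEa : ∫⁻ z, ENNReal.ofReal (Real.exp (-Φ z.1)) *
          ENNReal.ofReal (Real.exp (-Φ z.2) * R z.2) ∂P = Z * A :=
        lintegral_prod_mul mw.aemeasurable mwR.aemeasurable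
      have hEb : ∫⁻ z, ENNReal.ofReal (Real.exp (-Φ z.1) * R z.1) *
          ENNReal.ofReal (Real.exp (-Φ z.2)) ∂P = A * Z :=
        lintegral_prod_mul mwR.aemeasurable mw.aemeasurable
      have hEc : ∫⁻ z, ENNReal.ofReal (Real.exp (-Φ z.1)) *
          ENNReal.ofReal (Real.exp (-Φ z.2)) ∂P = Z * Z :=
        lintegral_prod_mul mw.aemeasurable mw.aemeasurable
      calc 2 * Z ^ 2 = ∫⁻ z, 2 * (ENNReal.ofReal (Real.exp (-Φ z.1)) *
            ENNReal.ofReal (Real.exp (-Φ z.2))) ∂P := by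
            rw [lintegral_const_mul _ (by fun_prop), hEc, sq]
        _ ≤ ∫⁻ z, (2 * ENNReal.ofReal (W z) + ENNReal.ofReal (η ^ 2 / 2) *
            (ENNReal.ofReal (Real.exp (-Φ z.1)) * ENNReal.ofReal (Real.exp (-Φ z.2) * R z.2) +
             ENNReal.ofReal (Real.exp (-Φ z.1) * R z.1) * ENNReal.ofReal (Real.exp (-Φ z.2)))) ∂P :=
            lintegral_mono hpt
        _ = 2 * J + ENNReal.ofReal (η ^ 2 / 2) * (Z * A + A * Z) := by
            rw [lintegral_add_left (by fun_prop), lintegral_const_mul _ (by fun_prop),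
              lintegral_const_mul _ (by fun_prop), lintegral_add_left (by fun_prop), hEa, hEb]
        _ = 2 * J + ENNReal.ofReal (η ^ 2) * (Z * A) := by
            rw [mul_comm A Z, ← two_mul, ← mul_assoc]
            congr 2
            have h2 : (2 : ℝ≥0∞) = ENNReal.ofReal 2 := by simp
            rw [h2, ← ENNReal.ofReal_mul (by positivity)]
            congr 1; ring
    have hZJ : J ≤ Z ^ 2 := by
      have hEc : ∫⁻ z, ENNReal.ofReal (Real.exp (-Φ z.1)) *
          ENNReal.ofReal (Real.exp (-Φ z.2)) ∂P = Z * Z :=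
        lintegral_prod_mul mw.aemeasurable mw.aemeasurable
      rw [sq, ← hEc]
      apply lintegral_mono
      intro z
      simp only
      rw [← ENNReal.ofReal_mul (Real.exp_nonneg _)]
      apply ENNReal.ofReal_le_ofReal
      rw [hW]; simp only
      have hz1 := hR0 z.1
      have hz2 := hR0 z.2
      have : Real.exp (-(η ^ 2 / 4) * (R z.1 + R z.2)) ≤ 1 := by
        apply Real.exp_le_one_iff.2
        have : 0 ≤ η ^ 2 / 4 * (R z.1 + R z.2) := by positivity
        linarith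
      exact mul_le_of_le_one_left (by positivity) this
    have hJfin : 2 * J ≠ ∞ := by
      apply ENNReal.mul_ne_top (by simp)
      exact ne_top_of_le_ne_top (ENNReal.pow_ne_top hw) hZJ
    have hcancel : ENNReal.ofReal (η ^ 2) * I ≤ ENNReal.ofReal (η ^ 2) * (Z * A) :=
      (ENNReal.add_le_add_iff_left hJfin).1 (hup.trans hlow)
    have hη2 : ENNReal.ofReal (η ^ 2) ≠ 0 := by
      rw [ne_eq, ENNReal.ofReal_eq_zero, not_le]; positivity
    exact (ENNReal.mul_le_mul_iff_right hη2 ENNReal.ofReal_ne_top).1 hcancel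
  -- the limit η → 0
  have hprod : ∫⁻ x, ∫⁻ y, ENNReal.ofReal (Real.exp (-Φ x) * Real.exp (-Φ y) * (G x - G y) ^ 2) =
      ∫⁻ z, ENNReal.ofReal (Real.exp (-Φ z.1) * Real.exp (-Φ z.2) * (G z.1 - G z.2) ^ 2) ∂P := by
    rw [hP, lintegral_prod _ (by fun_prop)]
  rw [hprod]
  have hFatou := lintegral_liminf_le (μ := P) (u := Filter.atTop) (f := fun (k : ℕ) (z : (Fin m → ℝ) × (Fin m → ℝ)) =>
      ENNReal.ofReal (Real.exp (-((1 / ((k : ℝ) + 1)) ^ 2 / 4) * (R z.1 + R z.2)) *
        (Real.exp (-Φ z.1) * Real.exp (-Φ z.2) * (G z.1 - G z.2) ^ 2))) (by intro k; fun_prop)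
  have hlim : ∀ z : (Fin m → ℝ) × (Fin m → ℝ), Filter.Tendsto (fun k : ℕ =>
      ENNReal.ofReal (Real.exp (-((1 / ((k : ℝ) + 1)) ^ 2 / 4) * (R z.1 + R z.2)) *
        (Real.exp (-Φ z.1) * Real.exp (-Φ z.2) * (G z.1 - G z.2) ^ 2))) Filter.atTop
      (nhds (ENNReal.ofReal (Real.exp (-Φ z.1) * Real.exp (-Φ z.2) * (G z.1 - G z.2) ^ 2))) := by
    intro z
    apply ENNReal.tendsto_ofReal
    have h0 : Filter.Tendsto (fun k : ℕ => (1 / ((k : ℝ) + 1))) Filter.atTop (nhds 0) :=
      tendsto_one_div_add_atTop_nhds_zero_nat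
    have hcont : Continuous (fun η : ℝ => Real.exp (-(η ^ 2 / 4) * (R z.1 + R z.2)) *
        (Real.exp (-Φ z.1) * Real.exp (-Φ z.2) * (G z.1 - G z.2) ^ 2)) := by fun_prop
    have h1 := (hcont.tendsto 0).comp h0
    simp only [Function.comp_def] at h1
    simpa using h1
  calc ∫⁻ z, ENNReal.ofReal (Real.exp (-Φ z.1) * Real.exp (-Φ z.2) * (G z.1 - G z.2) ^ 2) ∂P
      = ∫⁻ z, Filter.liminf (fun k : ℕ =>
        ENNReal.ofReal (Real.exp (-((1 / ((k : ℝ) + 1)) ^ 2 / 4) * (R z.1 + R z.2)) *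
        (Real.exp (-Φ z.1) * Real.exp (-Φ z.2) * (G z.1 - G z.2) ^ 2))) Filter.atTop ∂P := by
        apply lintegral_congr
        intro z
        exact (hlim z).liminf_eq.symm
    _ ≤ Filter.liminf (fun k : ℕ => ∫⁻ z,
        ENNReal.ofReal (Real.exp (-((1 / ((k : ℝ) + 1)) ^ 2 / 4) * (R z.1 + R z.2)) *
        (Real.exp (-Φ z.1) * Real.exp (-Φ z.2) * (G z.1 - G z.2) ^ 2)) ∂P) Filter.atTop := hFatou
    _ ≤ Filter.liminf (fun _ : ℕ => Z * A) Filter.atTop := by
        refine Filter.liminf_le_liminf ?_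
        filter_upwards with k
        exact key _ (by positivity)
    _ = Z * A := by simp

end Pool.Agent.Helper590_Face.JB
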