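import Pool.Agent.Helper590_Face.U.Est
import Pool.Agent.Helper590_Face.U.LemV
import Pool.Agent.Helper590_Face.U.Scalar2
import Pool.Agent.Helper590_Face.U.ThMoment

set_option autoImplicit false

namespace Pool.Agent.Helper590_Face.G2

open Pool.Agent.Helper590_Face.G1


open MeasureTheory Set
open scoped ENNReal

variable {m n : ℕ}


theorem ug2_qf_nonneg (p : ℝ) (L : (Fin m → ℝ) →ₗ[ℝ] (Fin n → ℝ)) (x y : Fin m → ℝ) :
    0 ≤ qf p L x y := by
  unfold qf
  refine Finset.sum_nonneg fun i _ => mul_nonneg (Real.rpow_nonneg ?_ _) (sq_nonneg _)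
  exact (abs_nonneg _).trans (le_max_left _ _)

theorem ug2_mid {p : ℝ} (hp : |p - 2| ≤ 1 / 16) (L : (Fin m → ℝ) →ₗ[ℝ] (Fin n → ℝ))
    (x y : Fin m → ℝ) :
    1 / 8 * qf p L x y ≤ ph p L x + ph p L y - 2 * ph p L (fun i => (x i + y i) / 2) := by
  have h1 : (fun i => (x i + y i) / 2) = (1 / 2 : ℝ) • (x + y) := by
    funext i
    simp only [Pi.smul_apply, Pi.add_apply, smul_eq_mul]
    ring
  have h2 : ∀ i, L (fun i => (x i + y i) / 2) i = (L x i + L y i) / 2 := by
    intro i
    rw [h1, map_smul, map_add]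
    simp only [Pi.smul_apply, Pi.add_apply, smul_eq_mul]
    ring
  unfold qf ph
  rw [Finset.mul_sum, Finset.mul_sum, ← Finset.sum_add_distrib, ← Finset.sum_sub_distrib]
  refine Finset.sum_le_sum fun i _ => ?_
  rw [h2]
  exact JS3.midconv hp (L x i) (L y i)

theorem ug2_var {p : ℝ} (hp : |p - 2| ≤ 1 / 16) (L : (Fin m → ℝ) →ₗ[ℝ] (Fin n → ℝ))
    (hL : Function.Injective L) {G R : (Fin m → ℝ) → ℝ} (hG : PG G) (h : Pair p L G R)
    (hR : Integrable R (gm p L)) :
    ∫ x, G x ^ 2 ∂(gm p L) - (∫ x, G x ∂(gm p L)) ^ 2 ≤ 4 * ∫ x, R x ∂(gm p L) := by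
  have hp1 := abs_le.mp hp
  have hp0 : 1 < p := by linarith [hp1.1]
  have hZ := zz_pos hp0 L hL
  have iw := integrable_w hp0 L hL
  have iG : Integrable (fun x => Real.exp (-(ph p L x)) * G x) :=
    (integrable_gm_iff hp0 L hL _).1 (hG.int hp0 L hL)
  have iG2 : Integrable (fun x => Real.exp (-(ph p L x)) * G x ^ 2) :=
    (integrable_gm_iff hp0 L hL _).1 ((hG.pow 2).int hp0 L hL)
  have iR : Integrable (fun x => Real.exp (-(ph p L x)) * R x) :=
    (integrable_gm_iff hp0 L hL _).1 hR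
  have hw0 : ∀ x, 0 ≤ Real.exp (-(ph p L x)) := fun x => (Real.exp_pos _).le
  have hmain := JB.lemV (ph p L) G (fun x => 8 * R x) (measurable_ph L) hG.meas
    (h.meas.const_mul 8) (fun x => mul_nonneg (by norm_num) (h.nonneg x))
    (fun x y => by
      have h1 := ug2_mid hp L x y
      have h2 := ug2_qf_nonneg p L x y
      linarith) (gen L) (gen_meas L) (gen_null L)
    (fun x hx y hy => by
      have h1 := ug2_mid hp L x y
      have h3 : 0 ≤ R x + R y := add_nonneg (h.nonneg x) (h.nonneg y)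
      have h4 := h.le x hx y hy
      have h5 := mul_le_mul_of_nonneg_right h1 h3
      linarith)
    (by
      rw [← ofReal_integral_eq_lintegral_ofReal iw (Filter.Eventually.of_forall hw0)]
      exact ENNReal.ofReal_ne_top)
  -- the integrals
  set Z := zz p L with hZdef
  have eZ : ∫ x, Real.exp (-(ph p L x)) = Z := rfl
  set a := ∫ x, Real.exp (-(ph p L x)) * G x with ha
  set b := ∫ x, Real.exp (-(ph p L x)) * G x ^ 2 with hb
  set c := ∫ x, Real.exp (-(ph p L x)) * R x with hc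
  have hinner : ∀ x, ∫⁻ y, ENNReal.ofReal (Real.exp (-(ph p L x)) * Real.exp (-(ph p L y)) *
      (G x - G y) ^ 2) = ENNReal.ofReal (Real.exp (-(ph p L x)) * G x ^ 2 * Z -
        2 * (Real.exp (-(ph p L x)) * G x) * a + Real.exp (-(ph p L x)) * b) := by
    intro x
    have i1 : Integrable (fun y => (Real.exp (-(ph p L x)) * G x ^ 2) * Real.exp (-(ph p L y))) :=
      iw.const_mul _
    have i2 : Integrable (fun y => (2 * (Real.exp (-(ph p L x)) * G x)) *
      (Real.exp (-(ph p L y)) * G y)) := iG.const_mul _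
    have i3 : Integrable (fun y => Real.exp (-(ph p L x)) * (Real.exp (-(ph p L y)) * G y ^ 2)) :=
      iG2.const_mul _
    have e : (fun y => Real.exp (-(ph p L x)) * Real.exp (-(ph p L y)) * (G x - G y) ^ 2) =
        fun y => (Real.exp (-(ph p L x)) * G x ^ 2) * Real.exp (-(ph p L y)) -
          (2 * (Real.exp (-(ph p L x)) * G x)) * (Real.exp (-(ph p L y)) * G y) +
          Real.exp (-(ph p L x)) * (Real.exp (-(ph p L y)) * G y ^ 2) := by
      funext y
      ring
    have i12 : Integrable (fun y => (Real.exp (-(ph p L x)) * G x ^ 2) * Real.exp (-(ph p L y)) -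
          (2 * (Real.exp (-(ph p L x)) * G x)) * (Real.exp (-(ph p L y)) * G y)) := i1.sub i2
    have i123 : Integrable (fun y => Real.exp (-(ph p L x)) * Real.exp (-(ph p L y)) *
        (G x - G y) ^ 2) := by
      rw [e]
      exact i12.add i3
    rw [← ofReal_integral_eq_lintegral_ofReal i123
      (Filter.Eventually.of_forall fun y => by positivity), e, integral_add i12 i3,
      integral_sub i1 i2, integral_const_mul, integral_const_mul, integral_const_mul, eZ, ← ha,
      ← hb]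
  have hnn : ∀ x, 0 ≤ Real.exp (-(ph p L x)) * G x ^ 2 * Z -
        2 * (Real.exp (-(ph p L x)) * G x) * a + Real.exp (-(ph p L x)) * b := by
    intro x
    have i1 : Integrable (fun y => (Real.exp (-(ph p L x)) * G x ^ 2) * Real.exp (-(ph p L y))) :=
      iw.const_mul _
    have i2 : Integrable (fun y => (2 * (Real.exp (-(ph p L x)) * G x)) *
      (Real.exp (-(ph p L y)) * G y)) := iG.const_mul _
    have i3 : Integrable (fun y => Real.exp (-(ph p L x)) * (Real.exp (-(ph p L y)) * G y ^ 2)) :=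
      iG2.const_mul _
    have i12 : Integrable (fun y => (Real.exp (-(ph p L x)) * G x ^ 2) * Real.exp (-(ph p L y)) -
          (2 * (Real.exp (-(ph p L x)) * G x)) * (Real.exp (-(ph p L y)) * G y)) := i1.sub i2
    have e2 : ∫ y, ((Real.exp (-(ph p L x)) * G x ^ 2) * Real.exp (-(ph p L y)) -
          (2 * (Real.exp (-(ph p L x)) * G x)) * (Real.exp (-(ph p L y)) * G y) +
          Real.exp (-(ph p L x)) * (Real.exp (-(ph p L y)) * G y ^ 2)) =
        Real.exp (-(ph p L x)) * G x ^ 2 * Z -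
        2 * (Real.exp (-(ph p L x)) * G x) * a + Real.exp (-(ph p L x)) * b := by
      rw [integral_add i12 i3, integral_sub i1 i2, integral_const_mul, integral_const_mul,
        integral_const_mul, eZ, ← ha, ← hb]
    rw [← e2]
    refine integral_nonneg fun y => ?_
    have e3 : (Real.exp (-(ph p L x)) * G x ^ 2) * Real.exp (-(ph p L y)) -
          (2 * (Real.exp (-(ph p L x)) * G x)) * (Real.exp (-(ph p L y)) * G y) +
          Real.exp (-(ph p L x)) * (Real.exp (-(ph p L y)) * G y ^ 2) =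
          Real.exp (-(ph p L x)) * Real.exp (-(ph p L y)) * (G x - G y) ^ 2 := by ring
    show 0 ≤ (Real.exp (-(ph p L x)) * G x ^ 2) * Real.exp (-(ph p L y)) -
          (2 * (Real.exp (-(ph p L x)) * G x)) * (Real.exp (-(ph p L y)) * G y) +
          Real.exp (-(ph p L x)) * (Real.exp (-(ph p L y)) * G y ^ 2)
    rw [e3]
    positivity
  have j1 : Integrable (fun x => Real.exp (-(ph p L x)) * G x ^ 2 * Z) := iG2.mul_const _
  have j2 : Integrable (fun x => 2 * (Real.exp (-(ph p L x)) * G x) * a) :=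
    (iG.const_mul 2).mul_const a
  have j3 : Integrable (fun x => Real.exp (-(ph p L x)) * b) := iw.mul_const b
  have j12 : Integrable (fun x => Real.exp (-(ph p L x)) * G x ^ 2 * Z -
      2 * (Real.exp (-(ph p L x)) * G x) * a) := j1.sub j2
  have j123 : Integrable (fun x => Real.exp (-(ph p L x)) * G x ^ 2 * Z -
      2 * (Real.exp (-(ph p L x)) * G x) * a + Real.exp (-(ph p L x)) * b) := j12.add j3
  have hL1 : ∫⁻ x, ∫⁻ y, ENNReal.ofReal (Real.exp (-(ph p L x)) * Real.exp (-(ph p L y)) *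
      (G x - G y) ^ 2) = ENNReal.ofReal (b * Z - 2 * a * a + Z * b) := by
    simp only [hinner]
    rw [← ofReal_integral_eq_lintegral_ofReal j123 (Filter.Eventually.of_forall hnn),
      integral_add j12 j3, integral_sub j1 j2, integral_mul_const, integral_mul_const,
      integral_mul_const, integral_const_mul, eZ]
  have k8 : Integrable (fun x => Real.exp (-(ph p L x)) * (8 * R x)) := by
    have : (fun x => Real.exp (-(ph p L x)) * (8 * R x)) =
        fun x => 8 * (Real.exp (-(ph p L x)) * R x) := by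
      funext x
      ring
    rw [this]
    exact iR.const_mul 8
  have hR1 : ∫⁻ x, ENNReal.ofReal (Real.exp (-(ph p L x)) * (8 * R x)) =
      ENNReal.ofReal (8 * c) := by
    rw [← ofReal_integral_eq_lintegral_ofReal k8 (Filter.Eventually.of_forall fun x =>
      mul_nonneg (hw0 x) (mul_nonneg (by norm_num) (h.nonneg x)))]
    congr 1
    rw [hc, ← integral_const_mul]
    refine integral_congr_ae (Filter.Eventually.of_forall fun x => ?_)
    simp only
    ring
  have hR2 : ∫⁻ x, ENNReal.ofReal (Real.exp (-(ph p L x))) = ENNReal.ofReal Z := by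
    rw [← ofReal_integral_eq_lintegral_ofReal iw (Filter.Eventually.of_forall hw0), eZ]
  rw [hL1, hR1, hR2, ← ENNReal.ofReal_mul hZ.le] at hmain
  have hc0 : 0 ≤ c := integral_nonneg fun x => mul_nonneg (hw0 x) (h.nonneg x)
  have hineq : b * Z - 2 * a * a + Z * b ≤ Z * (8 * c) :=
    (ENNReal.ofReal_le_ofReal_iff (by positivity)).1 hmain
  rw [integral_gm, integral_gm, integral_gm, ← ha, ← hb, ← hc, ← hZdef]
  have e1 : Z⁻¹ * b - (Z⁻¹ * a) ^ 2 = Z⁻¹ ^ 2 * (b * Z - a * a) := by
    field_simp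
  have e2 : 4 * (Z⁻¹ * c) = Z⁻¹ ^ 2 * (Z * (4 * c)) := by
    field_simp
  rw [e1, e2]
  refine mul_le_mul_of_nonneg_left ?_ (by positivity)
  linarith

theorem var2 {p : ℝ} (hp : |p - 2| ≤ 1 / 16) (L : (Fin m → ℝ) →ₗ[ℝ] (Fin n → ℝ))
    (hL : Function.Injective L) {G R : (Fin m → ℝ) → ℝ} (hG : PG G) (h : Pair p L G R)
    (hR : Integrable R (gm p L)) (h0 : ∫ x, G x ∂(gm p L) = 0) :
    ∫ x, G x ^ 2 ∂(gm p L) ≤ 4 * ∫ x, R x ∂(gm p L) := by
  have h1 := ug2_var hp L hL hG h hR
  rw [h0] at h1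
  simpa using h1

theorem var4 {p : ℝ} (hp : |p - 2| ≤ 1 / 16) (L : (Fin m → ℝ) →ₗ[ℝ] (Fin n → ℝ))
    (hL : Function.Injective L) {G R : (Fin m → ℝ) → ℝ} (hG : PG G) (h : Pair p L G R)
    (hR : Integrable (fun x => R x ^ 2) (gm p L)) (h0 : ∫ x, G x ∂(gm p L) = 0) :
    ∫ x, G x ^ 4 ∂(gm p L) ≤ 288 * ∫ x, R x ^ 2 ∂(gm p L) := by
  have hp1 := abs_le.mp hp
  have hp0 : 1 < p := by linarith [hp1.1]
  have := prob_gm hp0 L hL
  have iR : Integrable R (gm p L) := by
    refine Integrable.mono' ((integrable_const (1 : ℝ)).add hR) h.meas.aestronglyMeasurable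
      (Filter.Eventually.of_forall fun x => ?_)
    rw [Real.norm_eq_abs, abs_of_nonneg (h.nonneg x)]
    simp only [Pi.add_apply]
    nlinarith [sq_nonneg (R x - 1), h.nonneg x]
  have iG4 : Integrable (fun x => G x ^ 4) (gm p L) := (hG.pow 4).int hp0 L hL
  have hpair : Pair p L (fun x => G x ^ 2) (fun x => 32 * R x ^ 2 + 1 / 8 * G x ^ 4) := by
    refine ⟨?_, ?_, ?_⟩
    · exact ((h.meas.pow_const 2).const_mul 32).add ((hG.meas.pow_const 4).const_mul (1 / 8))
    · intro x
      positivity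
    · intro x hx y hy
      have h1 := h.le x hx y hy
      have hq := ug2_qf_nonneg p L x y
      have h2 : 0 ≤ R x + R y := add_nonneg (h.nonneg x) (h.nonneg y)
      have e1 : (G x ^ 2 - G y ^ 2) ^ 2 = (G x - G y) ^ 2 * (G x + G y) ^ 2 := by ring
      show (G x ^ 2 - G y ^ 2) ^ 2 ≤ qf p L x y *
        ((32 * R x ^ 2 + 1 / 8 * G x ^ 4) + (32 * R y ^ 2 + 1 / 8 * G y ^ 4))
      rw [e1]
      calc (G x - G y) ^ 2 * (G x + G y) ^ 2
          ≤ (qf p L x y * (R x + R y)) * (G x + G y) ^ 2 :=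
            mul_le_mul_of_nonneg_right h1 (sq_nonneg _)
        _ = qf p L x y * ((R x + R y) * (G x + G y) ^ 2) := by ring
        _ ≤ qf p L x y *
            ((32 * R x ^ 2 + 1 / 8 * G x ^ 4) + (32 * R y ^ 2 + 1 / 8 * G y ^ 4)) := by
            refine mul_le_mul_of_nonneg_left ?_ hq
            have k1 : (G x + G y) ^ 2 ≤ 2 * (G x ^ 2 + G y ^ 2) := by
              nlinarith [sq_nonneg (G x - G y)]
            have k2 := mul_le_mul_of_nonneg_left k1 h2
            have k3 : (R x + R y) * (2 * (G x ^ 2 + G y ^ 2)) ≤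
                16 * (R x + R y) ^ 2 + 1 / 16 * (G x ^ 2 + G y ^ 2) ^ 2 := by
              nlinarith [sq_nonneg (4 * (R x + R y) - 1 / 4 * (G x ^ 2 + G y ^ 2))]
            have k4 : (R x + R y) ^ 2 ≤ 2 * (R x ^ 2 + R y ^ 2) := by
              nlinarith [sq_nonneg (R x - R y)]
            have k5 : (G x ^ 2 + G y ^ 2) ^ 2 ≤ 2 * (G x ^ 4 + G y ^ 4) := by
              nlinarith [sq_nonneg (G x ^ 2 - G y ^ 2)]
            linarith
  have i2 : Integrable (fun x => 32 * R x ^ 2 + 1 / 8 * G x ^ 4) (gm p L) :=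
    (hR.const_mul 32).add (iG4.const_mul (1 / 8))
  have h1 := ug2_var hp L hL (hG.pow 2) hpair i2
  have h2 := var2 hp L hL hG h iR h0
  have e4 : ∀ x, (G x ^ 2) ^ 2 = G x ^ 4 := fun x => by ring
  simp only [e4] at h1
  rw [integral_add (hR.const_mul 32) (iG4.const_mul (1 / 8)), integral_const_mul,
    integral_const_mul] at h1
  have h3 : (∫ x, R x ∂(gm p L)) ^ 2 ≤ ∫ x, R x ^ 2 ∂(gm p L) := by
    set r := ∫ x, R x ∂(gm p L) with hr
    have h4 : 0 ≤ ∫ x, (R x - r) ^ 2 ∂(gm p L) := integral_nonneg fun x => sq_nonneg _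
    have e5 : (fun x => (R x - r) ^ 2) = fun x => R x ^ 2 - 2 * r * R x + r ^ 2 := by
      funext x
      ring
    have j1 : Integrable (fun x => R x ^ 2 - 2 * r * R x) (gm p L) := hR.sub (iR.const_mul _)
    rw [e5, integral_add j1 (integrable_const _), integral_sub hR (iR.const_mul _),
      integral_const_mul, ← hr, integral_const] at h4
    simp only [probReal_univ, one_smul, smul_eq_mul, one_mul] at h4
    nlinarith
  have h5 : 0 ≤ ∫ x, G x ^ 2 ∂(gm p L) := integral_nonneg fun x => sq_nonneg _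
  have h6 : (∫ x, G x ^ 2 ∂(gm p L)) ^ 2 ≤ (4 * ∫ x, R x ∂(gm p L)) ^ 2 :=
    pow_le_pow_left₀ h5 h2 2
  have h7 : (4 * ∫ x, R x ∂(gm p L)) ^ 2 = 16 * (∫ x, R x ∂(gm p L)) ^ 2 := by ring
  linarith

end Pool.Agent.Helper590_Face.G2
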