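import Pool.Agent.Helper590_Face.U.Est
import Pool.Agent.Helper590_Face.U.ThMoment
import Pool.Agent.Helper590_Face.U.Var
import Pool.Agent.Helper590_Face.U.Pairs

set_option autoImplicit false

namespace Pool.Agent.Helper590_Face.G4

open Pool.Agent.Helper590_Face.G1
open Pool.Agent.Helper590_Face.G2
open Pool.Agent.Helper590_Face.G3


open MeasureTheory Set
open scoped ENNReal

variable {m n : ℕ}


/-- second moment of the weighted sums -/
theorem mom4_aux {C : ℝ} (hC : 1 ≤ C) {p : ℝ} (hp : 1 < p) (hp2 : p ≠ 2)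
    (L : (Fin m → ℝ) →ₗ[ℝ] (Fin n → ℝ))
    (hth : ∀ i, 0 < sg p L i → Integrable (fun x => th (L x i / sg p L i) ^ 2) (gm p L) ∧
      ∫ x, th (L x i / sg p L i) ^ 2 ∂(gm p L) ≤ C)
    (c : ℝ) (k : Fin n → ℝ)
    (hmeas : Measurable (fun x => c * ∑ i, om p L i * (k i ^ 2 * th (L x i / sg p L i)))) :
    Integrable (fun x => (c * ∑ i, om p L i * (k i ^ 2 * th (L x i / sg p L i))) ^ 2) (gm p L) ∧
      ∫ x, (c * ∑ i, om p L i * (k i ^ 2 * th (L x i / sg p L i))) ^ 2 ∂(gm p L) ≤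
        c ^ 2 * C * (∑ i, om p L i * k i ^ 2) ^ 2 := by
  have hw : ∀ i, 0 ≤ om p L i * k i ^ 2 := fun i => mul_nonneg (om_nonneg p L i) (sq_nonneg _)
  have hW : 0 ≤ ∑ i, om p L i * k i ^ 2 := Finset.sum_nonneg fun i _ => hw i
  -- each term
  have hterm : ∀ i, Integrable (fun x => (om p L i * k i ^ 2) * th (L x i / sg p L i) ^ 2)
      (gm p L) ∧ ∫ x, (om p L i * k i ^ 2) * th (L x i / sg p L i) ^ 2 ∂(gm p L) ≤
        (om p L i * k i ^ 2) * C := by
    intro i
    rcases (sg_nonneg p L i).lt_or_eq with h | h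
    · obtain ⟨h1, h2⟩ := hth i h
      refine ⟨h1.const_mul _, ?_⟩
      rw [integral_const_mul]
      exact mul_le_mul_of_nonneg_left h2 (hw i)
    · have h1 : om p L i = 0 := by
        rw [om, ← h]
        exact Real.zero_rpow (sub_ne_zero.2 hp2)
      simp [h1]
  have hdom : ∀ x, (c * ∑ i, om p L i * (k i ^ 2 * th (L x i / sg p L i))) ^ 2 ≤
      (c ^ 2 * ∑ i, om p L i * k i ^ 2) *
        ∑ i, (om p L i * k i ^ 2) * th (L x i / sg p L i) ^ 2 := by
    intro x
    have h1 : (∑ i, om p L i * (k i ^ 2 * th (L x i / sg p L i))) ^ 2 ≤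
        (∑ i, om p L i * k i ^ 2) *
          ∑ i, (om p L i * k i ^ 2) * th (L x i / sg p L i) ^ 2 := by
      apply Finset.sum_sq_le_sum_mul_sum_of_sq_le_mul
      · exact fun i _ => hw i
      · exact fun i _ => mul_nonneg (hw i) (sq_nonneg _)
      · intro i _
        exact le_of_eq (by ring)
    rw [mul_pow, mul_assoc]
    exact mul_le_mul_of_nonneg_left h1 (sq_nonneg _)
  have hint : Integrable (fun x => (c ^ 2 * ∑ i, om p L i * k i ^ 2) *
      ∑ i, (om p L i * k i ^ 2) * th (L x i / sg p L i) ^ 2) (gm p L) :=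
    (integrable_finsetSum _ fun i _ => (hterm i).1).const_mul _
  have hR : Integrable (fun x => (c * ∑ i, om p L i * (k i ^ 2 * th (L x i / sg p L i))) ^ 2)
      (gm p L) := by
    refine hint.mono' (hmeas.pow_const 2).aestronglyMeasurable ?_
    refine Filter.Eventually.of_forall fun x => ?_
    rw [Real.norm_eq_abs, abs_of_nonneg (sq_nonneg _)]
    exact hdom x
  refine ⟨hR, ?_⟩
  calc ∫ x, (c * ∑ i, om p L i * (k i ^ 2 * th (L x i / sg p L i))) ^ 2 ∂(gm p L)
      ≤ ∫ x, (c ^ 2 * ∑ i, om p L i * k i ^ 2) *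
        ∑ i, (om p L i * k i ^ 2) * th (L x i / sg p L i) ^ 2 ∂(gm p L) :=
        integral_mono hR hint hdom
    _ = (c ^ 2 * ∑ i, om p L i * k i ^ 2) *
        ∑ i, ∫ x, (om p L i * k i ^ 2) * th (L x i / sg p L i) ^ 2 ∂(gm p L) := by
        rw [integral_const_mul, integral_finsetSum _ fun i _ => (hterm i).1]
    _ ≤ (c ^ 2 * ∑ i, om p L i * k i ^ 2) * ∑ i, (om p L i * k i ^ 2) * C := by
        refine mul_le_mul_of_nonneg_left (Finset.sum_le_sum fun i _ => (hterm i).2) ?_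
        exact mul_nonneg (sq_nonneg _) hW
    _ = _ := by
        rw [← Finset.sum_mul]
        ring

theorem mom4 : ∃ K : ℝ, 1 ≤ K ∧ ∀ (m n : ℕ) (p : ℝ) (L : (Fin m → ℝ) →ₗ[ℝ] (Fin n → ℝ)),
    |p - 2| ≤ 1 / 16 → p ≠ 2 → Function.Injective L →
    (∀ k, ∫ x, F0 p L k x ^ 4 ∂(gm p L) ≤ K * (p - 2) ^ 4 * nk p L k ^ 2) ∧
    (Pos p L → ∀ u : Fin m → ℝ, ∫ x, (∑ a, u a * x a) ^ 4 ∂(gm p L) ≤ K * (∑ a, u a ^ 2) ^ 2) := by
  obtain ⟨C, hC, hth⟩ := th_moment
  refine ⟨288 * 1089 ^ 2 * C, by nlinarith, ?_⟩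
  intro m n p L hp hp2 hL
  have hp1 : 1 < p := by
    have := (abs_le.1 hp).1
    linarith
  have hth' := fun i hi => hth m n p L hp hL i hi
  constructor
  · intro k
    have hG : PG (F0 p L k) := by
      unfold F0
      exact PG.sum _ fun i _ => (((PG.lincoord L i).sp' hp1).sub
        ((PG.lincoord L i).const_mul _)).mul (PG.const _)
    have hodd : ∀ x, F0 p L k (-x) = -F0 p L k x := by
      intro x
      unfold F0
      rw [← Finset.sum_neg_distrib]
      refine Finset.sum_congr rfl fun i _ => ?_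
      rw [map_neg, Pi.neg_apply, sp_neg]
      ring
    have hpair := pair_F0 hp hp2 L hL k
    obtain ⟨h1, h2⟩ := mom4_aux hC hp1 hp2 L hth' (1089 * (p - 2) ^ 2) k hpair.meas
    have h3 := var4 hp L hL hG hpair h1 (integral_gm_odd L _ hodd)
    refine h3.trans ?_
    have h4 : (1089 * (p - 2) ^ 2) ^ 2 * C * (∑ i, om p L i * k i ^ 2) ^ 2 =
        1089 ^ 2 * C * (p - 2) ^ 4 * nk p L k ^ 2 := by
      rw [nk]
      ring
    rw [h4] at h2
    calc _ ≤ 288 * (1089 ^ 2 * C * (p - 2) ^ 4 * nk p L k ^ 2) := by gcongr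
      _ = _ := by ring
  · intro hpos u
    have hG : PG (fun x : Fin m → ℝ => ∑ a, u a * x a) :=
      PG.sum _ fun a _ => (PG.coord a).const_mul _
    have hodd : ∀ x : Fin m → ℝ, (∑ a, u a * (-x) a) = -∑ a, u a * x a := by
      intro x
      rw [← Finset.sum_neg_distrib]
      refine Finset.sum_congr rfl fun a _ => ?_
      rw [Pi.neg_apply]
      ring
    have hpair := pair_lin hp hp2 L hL hpos u
    have hone : (fun x => (1 : ℝ) * ∑ i, om p L i * (L u i ^ 2 * th (L x i / sg p L i))) =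
        fun x => ∑ i, om p L i * (L u i ^ 2 * th (L x i / sg p L i)) := by
      funext x
      rw [one_mul]
    obtain ⟨h1, h2⟩ := mom4_aux hC hp1 hp2 L hth' 1 (fun i => L u i) (by
      rw [hone]
      exact hpair.meas)
    simp only [one_mul, one_pow] at h1 h2
    have h3 := var4 hp L hL hG hpair h1 (integral_gm_odd L _ hodd)
    refine h3.trans ?_
    have h4 : ∑ i, om p L i * L u i ^ 2 = ∑ a, u a ^ 2 := by
      have := hpos u u
      simpa [sq] using this
    rw [h4] at h2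
    have h5 : 0 ≤ (∑ a, u a ^ 2) ^ 2 := sq_nonneg _
    calc _ ≤ 288 * (C * (∑ a, u a ^ 2) ^ 2) := by gcongr
      _ ≤ _ := by nlinarith [mul_nonneg (by linarith : (0 : ℝ) ≤ C) h5]

end Pool.Agent.Helper590_Face.G4
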