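import Pool.Agent.Helper590_Face.U.Est
import Pool.Agent.Helper590_Face.U.ThMoment
import Pool.Agent.Helper590_Face.U.Mom4

set_option autoImplicit false

namespace Pool.Agent.Helper590_Face.G5

open Pool.Agent.Helper590_Face.G1
open Pool.Agent.Helper590_Face.G4


open MeasureTheory Set
open scoped ENNReal

variable {m n : ℕ}

namespace UG5b

section
variable {p : ℝ} (hp : 1 < p) (L : (Fin m → ℝ) →ₗ[ℝ] (Fin n → ℝ)) (hL : Function.Injective L)

include hp hL in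
theorem cs {f g : (Fin m → ℝ) → ℝ} (hf : PG f) (hg : PG g) :
    (∫ x, f x * g x ∂(gm p L)) ^ 2 ≤ (∫ x, f x ^ 2 ∂(gm p L)) * (∫ x, g x ^ 2 ∂(gm p L)) := by
  have h : ∀ t : ℝ, 0 ≤ (∫ x, g x ^ 2 ∂(gm p L)) * (t * t) +
      (2 * ∫ x, f x * g x ∂(gm p L)) * t + ∫ x, f x ^ 2 ∂(gm p L) := by
    intro t
    have h1 : 0 ≤ ∫ x, (f x + t * g x) ^ 2 ∂(gm p L) := integral_nonneg fun x => sq_nonneg _
    have h2 : ∀ x, (f x + t * g x) ^ 2 = (t * t) * g x ^ 2 + ((2 * t) * (f x * g x) + f x ^ 2) := by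
      intro x; ring
    simp only [h2] at h1
    have i1 : Integrable (fun x => (t * t) * g x ^ 2) (gm p L) :=
      PG.int hp L hL ((hg.pow 2).const_mul _)
    have i2 : Integrable (fun x => (2 * t) * (f x * g x)) (gm p L) :=
      PG.int hp L hL ((hf.mul hg).const_mul _)
    have i3 : Integrable (fun x => f x ^ 2) (gm p L) := PG.int hp L hL (hf.pow 2)
    have i23 : Integrable (fun x => (2 * t) * (f x * g x) + f x ^ 2) (gm p L) := i2.add i3
    rw [integral_add i1 i23, integral_add i2 i3, integral_const_mul,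
      integral_const_mul] at h1
    linarith
  have := discrim_le_zero h
  unfold discrim at this
  nlinarith

theorem pgF0 (hp : 1 < p) (k : Fin n → ℝ) : PG (fun x => F0 p L k x) := by
  unfold F0
  refine PG.sum _ fun i _ => ?_
  exact ((PG.sp' hp (PG.lincoord L i)).sub ((PG.lincoord L i).const_mul _)).mul (PG.const _)

theorem pgQ (hp : 1 < p) (k : Fin n → ℝ) : PG (fun x => ∑ i, sp p (L x i) * k i) := by
  refine PG.sum _ fun i _ => ?_
  exact (PG.sp' hp (PG.lincoord L i)).mul (PG.const _)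

theorem pgU (u : Fin m → ℝ) : PG (fun x : Fin m → ℝ => ∑ a, u a * x a) := by
  refine PG.sum _ fun i _ => ?_
  exact (PG.coord i).const_mul _

theorem nk_nonneg (k : Fin n → ℝ) : 0 ≤ nk p L k :=
  Finset.sum_nonneg fun i _ => mul_nonneg (om_nonneg p L i) (sq_nonneg _)

theorem le_of_sq {a b : ℝ} (hb : 0 ≤ b) (h : a ^ 2 ≤ b ^ 2) : a ≤ b :=
  (le_abs_self _).trans (abs_le_of_sq_le_sq h hb)

include hp hL in
/-- second moments from fourth moments -/
theorem mom2 {K : ℝ} (hK : 0 ≤ K) (k : Fin n → ℝ)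
    (h4 : ∫ x, F0 p L k x ^ 4 ∂(gm p L) ≤ K * (p - 2) ^ 4 * nk p L k ^ 2) :
    ∫ x, F0 p L k x ^ 2 ∂(gm p L) ≤ Real.sqrt K * (p - 2) ^ 2 * nk p L k := by
  have := prob_gm hp L hL
  have h := cs hp L hL ((pgF0 L hp k).pow 2) (PG.const (m := m) 1)
  have e1 : ∀ x : Fin m → ℝ, F0 p L k x ^ 2 * 1 = F0 p L k x ^ 2 := fun x => mul_one _
  have e2 : ∀ x : Fin m → ℝ, (F0 p L k x ^ 2) ^ 2 = F0 p L k x ^ 4 := fun x => by ring
  simp only [e1, e2] at h
  have e3 : ∫ _x : Fin m → ℝ, (1:ℝ) ^ 2 ∂(gm p L) = 1 := by simp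
  rw [e3, mul_one] at h
  refine le_of_sq (by have := nk_nonneg (p := p) L k; positivity) ?_
  refine h.trans (h4.trans (le_of_eq ?_))
  rw [mul_pow, mul_pow, Real.sq_sqrt hK]
  ring

include hp hL in
/-- integral of a product with a linear functional -/
theorem int_lin {f : (Fin m → ℝ) → ℝ} (hf : PG f) (u : Fin m → ℝ) :
    ∫ x, f x * (∑ a, u a * x a) ∂(gm p L) = ∑ a, u a * ∫ x, f x * x a ∂(gm p L) := by
  have h : ∀ x : Fin m → ℝ, f x * (∑ a, u a * x a) = ∑ a, u a * (f x * x a) := by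
    intro x
    rw [Finset.mul_sum]
    exact Finset.sum_congr rfl fun a _ => by ring
  simp only [h]
  rw [integral_finsetSum]
  · exact Finset.sum_congr rfl fun a _ => integral_const_mul _ _
  · intro a _
    exact PG.int hp L hL ((hf.mul (PG.coord a)).const_mul _)

include hp hL in
theorem ibp_gm (u : Fin m → ℝ) (a : Fin m) :
    p * ∫ x, (∑ i, sp p (L x i) * L u i) * x a ∂(gm p L) = u a := by
  have h := (JE.ibp hp L hL u a).2
  have hz := zz_pos hp L hL
  rw [integral_gm]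
  have e : ∫ x, Real.exp (-(ph p L x)) = zz p L := rfl
  rw [e] at h
  rw [mul_left_comm, h]
  field_simp

theorem Q_eq (k : Fin n → ℝ) (x : Fin m → ℝ) :
    ∑ i, sp p (L x i) * k i = F0 p L k x + ∑ i, om p L i * (L x i * k i) := by
  unfold F0
  rw [← Finset.sum_add_distrib]
  exact Finset.sum_congr rfl fun i _ => by ring

theorem J_eq (k : Fin n → ℝ) (x : Fin m → ℝ) :
    ∑ i, om p L i * (L x i * k i) = ∑ a, J0 p L k a * x a := by
  unfold J0
  have h : ∀ i, om p L i * (L x i * k i) = ∑ a, om p L i * (k i * L (Pi.single a 1) i) * x a := by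
    intro i
    rw [L_apply L x i, Finset.sum_mul, Finset.mul_sum]
    exact Finset.sum_congr rfl fun a _ => by ring
  simp only [h]
  rw [Finset.sum_comm]
  exact Finset.sum_congr rfl fun a _ => by rw [Finset.sum_mul]

end

end UG5b


theorem cov_kernel : ∃ (ε K : ℝ), 0 < ε ∧ ε ≤ 1 / 16 ∧ 1 ≤ K ∧
    ∀ (m n : ℕ) (p : ℝ) (L : (Fin m → ℝ) →ₗ[ℝ] (Fin n → ℝ)),
    |p - 2| ≤ ε → p ≠ 2 → Function.Injective L → Pos p L →
    (∀ u : Fin m → ℝ, ∑ a, u a ^ 2 ≤ 9 * ∫ x, (∑ a, u a * x a) ^ 2 ∂(gm p L)) ∧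
    (∀ k, inK p L k → ∑ a, J0 p L k a ^ 2 ≤ K * (p - 2) ^ 2 * nk p L k) ∧
    (∀ k, inK p L k → ∫ x, (∑ i, sp p (L x i) * k i) ^ 4 ∂(gm p L) ≤
      K * (p - 2) ^ 4 * nk p L k ^ 2) := by
  obtain ⟨K₀, hK1, hK⟩ := mom4
  have hK0 : 0 < K₀ := by linarith
  set S := Real.sqrt K₀ with hS
  have hS1 : 1 ≤ S := by rw [hS]; exact Real.one_le_sqrt.2 hK1
  have hSS : S ^ 2 = K₀ := Real.sq_sqrt hK0.le
  have hSK : S ≤ K₀ := by nlinarith
  refine ⟨1 / (16 * K₀), 8 * (K₀ + 81 * K₀ ^ 2), by positivity, ?_, by nlinarith, ?_⟩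
  · rw [div_le_div_iff₀ (by positivity) (by norm_num)]
    linarith
  intro m n p L hpe hp2 hL hPos
  have hε : 1 / (16 * K₀) ≤ 1 / 16 := by
    rw [div_le_div_iff₀ (by positivity) (by norm_num)]
    linarith
  have hp16 : |p - 2| ≤ 1 / 16 := hpe.trans hε
  have hpb := abs_le.1 hp16
  have hp : 1 < p := by linarith [hpb.1]
  obtain ⟨hF4, hU4⟩ := hK m n p L hp16 hp2 hL
  have hU4 := hU4 hPos
  have he2 : S * (p - 2) ^ 2 ≤ 1 / 2 := by
    have h1 : (p - 2) ^ 2 ≤ (1 / (16 * K₀)) ^ 2 := by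
      rw [← sq_abs (p - 2)]
      exact pow_le_pow_left₀ (abs_nonneg _) hpe 2
    have h2 : S * (p - 2) ^ 2 ≤ K₀ * (1 / (16 * K₀)) ^ 2 :=
      mul_le_mul hSK h1 (sq_nonneg _) hK0.le
    have h3 : K₀ * (1 / (16 * K₀)) ^ 2 = 1 / (256 * K₀) := by
      field_simp; norm_num
    have h4 : 1 / (256 * K₀) ≤ 1 / 2 := by
      rw [div_le_div_iff₀ (by positivity) (by norm_num)]
      linarith
    linarith
  have hF2 : ∀ k, ∫ x, F0 p L k x ^ 2 ∂(gm p L) ≤ S * (p - 2) ^ 2 * nk p L k :=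
    fun k => UG5b.mom2 hp L hL hK0.le k (hF4 k)
  -- part 1
  have part1 : ∀ u : Fin m → ℝ, ∑ a, u a ^ 2 ≤ 9 * ∫ x, (∑ a, u a * x a) ^ 2 ∂(gm p L) := by
    intro u
    set T := ∑ a, u a ^ 2 with hT
    set Y := ∫ x, (∑ a, u a * x a) ^ 2 ∂(gm p L) with hY
    set A := ∫ x, F0 p L (L u) x * (∑ a, u a * x a) ∂(gm p L) with hA
    have hT0 : 0 ≤ T := Finset.sum_nonneg fun a _ => sq_nonneg _
    have hY0 : 0 ≤ Y := integral_nonneg fun x => sq_nonneg _
    have hnk : nk p L (L u) = T := by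
      have := hPos u u
      unfold nk
      rw [hT]
      calc ∑ i, om p L i * L u i ^ 2 = ∑ i, om p L i * (L u i * L u i) :=
            Finset.sum_congr rfl fun i _ => by ring
        _ = ∑ a, u a * u a := this
        _ = ∑ a, u a ^ 2 := Finset.sum_congr rfl fun a _ => by ring
    have e1 : p * ∫ x, (∑ i, sp p (L x i) * L u i) * (∑ a, u a * x a) ∂(gm p L) = T := by
      rw [UG5b.int_lin hp L hL (UG5b.pgQ L hp (L u)) u, Finset.mul_sum, hT]
      refine Finset.sum_congr rfl fun a _ => ?_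
      have := UG5b.ibp_gm hp L hL u a
      calc p * (u a * ∫ x, (∑ i, sp p (L x i) * L u i) * x a ∂(gm p L))
          = u a * (p * ∫ x, (∑ i, sp p (L x i) * L u i) * x a ∂(gm p L)) := by ring
        _ = u a ^ 2 := by rw [this]; ring
    have e2 : ∫ x, (∑ i, sp p (L x i) * L u i) * (∑ a, u a * x a) ∂(gm p L) = A + Y := by
      have h : ∀ x : Fin m → ℝ, (∑ i, sp p (L x i) * L u i) * (∑ a, u a * x a) =
          F0 p L (L u) x * (∑ a, u a * x a) + (∑ a, u a * x a) ^ 2 := by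
        intro x
        rw [UG5b.Q_eq, hPos x u]
        have : ∑ a, x a * u a = ∑ a, u a * x a := Finset.sum_congr rfl fun a _ => by ring
        rw [this]; ring
      simp only [h]
      exact integral_add (PG.int hp L hL ((UG5b.pgF0 L hp (L u)).mul (UG5b.pgU u)))
        (PG.int hp L hL ((UG5b.pgU u).pow 2))
    rw [e2] at e1
    have e3 : A ^ 2 ≤ (S * (p - 2) ^ 2 * T) * Y := by
      have h := UG5b.cs hp L hL (UG5b.pgF0 L hp (L u)) (UG5b.pgU u)
      have h2 := hF2 (L u)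
      rw [hnk] at h2
      exact h.trans (mul_le_mul_of_nonneg_right h2 hY0)
    have hp0 : 0 < p := by linarith
    have e4 : p * A ≤ T / 2 + p ^ 2 * (S * (p - 2) ^ 2) * Y / 2 := by
      refine UG5b.le_of_sq (by positivity) ?_
      have h1 : (p * A) ^ 2 ≤ p ^ 2 * ((S * (p - 2) ^ 2 * T) * Y) := by
        rw [mul_pow]
        exact mul_le_mul_of_nonneg_left e3 (sq_nonneg _)
      have h2 := sq_nonneg (T / 2 - p ^ 2 * (S * (p - 2) ^ 2) * Y / 2)
      nlinarith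
    have e5 : p ^ 2 * (S * (p - 2) ^ 2) * Y ≤ 9 / 2 * (1 / 2) * Y := by
      have h1 : p ^ 2 ≤ 9 / 2 := by nlinarith [hpb.2]
      have h2 : 0 ≤ S * (p - 2) ^ 2 := by positivity
      gcongr
    have e6 : p * Y ≤ 33 / 16 * Y := by
      have : p ≤ 33 / 16 := by linarith [hpb.2]
      gcongr
    nlinarith
  -- part 2
  have part2 : ∀ k, inK p L k → ∑ a, J0 p L k a ^ 2 ≤ 9 * S * (p - 2) ^ 2 * nk p L k := by
    intro k hk
    set E := ∫ x, (∑ a, J0 p L k a * x a) ^ 2 ∂(gm p L) with hE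
    have hE0 : 0 ≤ E := integral_nonneg fun x => sq_nonneg _
    have h1 := part1 (J0 p L k)
    have h2 : ∫ x, (∑ i, sp p (L x i) * k i) * (∑ a, J0 p L k a * x a) ∂(gm p L) = 0 := by
      rw [UG5b.int_lin hp L hL (UG5b.pgQ L hp k) (J0 p L k)]
      refine Finset.sum_eq_zero fun a _ => ?_
      rw [hk a, mul_zero]
    have h3 : ∫ x, (∑ i, sp p (L x i) * k i) * (∑ a, J0 p L k a * x a) ∂(gm p L) =
        ∫ x, F0 p L k x * (∑ a, J0 p L k a * x a) ∂(gm p L) + E := by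
      have h : ∀ x : Fin m → ℝ, (∑ i, sp p (L x i) * k i) * (∑ a, J0 p L k a * x a) =
          F0 p L k x * (∑ a, J0 p L k a * x a) + (∑ a, J0 p L k a * x a) ^ 2 := by
        intro x
        rw [UG5b.Q_eq, UG5b.J_eq]
        ring
      simp only [h]
      exact integral_add (PG.int hp L hL ((UG5b.pgF0 L hp k).mul (UG5b.pgU _)))
        (PG.int hp L hL ((UG5b.pgU _).pow 2))
    have h4 := UG5b.cs hp L hL (UG5b.pgF0 L hp k) (UG5b.pgU (J0 p L k))
    have h5 := hF2 k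
    set B := ∫ x, F0 p L k x * (∑ a, J0 p L k a * x a) ∂(gm p L) with hB
    set F := ∫ x, F0 p L k x ^ 2 ∂(gm p L) with hF
    have h6 : B = -E := by linarith
    rw [h6] at h4
    have h7 : E ≤ F := by
      rcases hE0.eq_or_lt with h | h
      · rw [← h]
        exact integral_nonneg fun x => sq_nonneg _
      · have : E * E ≤ F * E := by nlinarith
        exact le_of_mul_le_mul_right this h
    calc ∑ a, J0 p L k a ^ 2 ≤ 9 * E := h1
      _ ≤ 9 * (S * (p - 2) ^ 2 * nk p L k) := by linarith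
      _ = _ := by ring
  refine ⟨part1, ?_, ?_⟩
  · intro k hk
    refine (part2 k hk).trans ?_
    have h1 := UG5b.nk_nonneg (p := p) L k
    have h2 : 9 * S ≤ 8 * (K₀ + 81 * K₀ ^ 2) := by nlinarith
    gcongr
  · intro k hk
    have h1 := hF4 k
    have h2 := hU4 (J0 p L k)
    have h3 := part2 k hk
    have hn := UG5b.nk_nonneg (p := p) L k
    have h4 : (∑ a, J0 p L k a ^ 2) ^ 2 ≤ 81 * K₀ * (p - 2) ^ 4 * nk p L k ^ 2 := by
      have h0 : 0 ≤ ∑ a, J0 p L k a ^ 2 := Finset.sum_nonneg fun a _ => sq_nonneg _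
      calc (∑ a, J0 p L k a ^ 2) ^ 2 ≤ (9 * S * (p - 2) ^ 2 * nk p L k) ^ 2 :=
            pow_le_pow_left₀ h0 h3 2
        _ = 81 * S ^ 2 * (p - 2) ^ 4 * nk p L k ^ 2 := by ring
        _ = _ := by rw [hSS]
    have h5 : ∫ x, (∑ i, sp p (L x i) * k i) ^ 4 ∂(gm p L) ≤
        8 * (∫ x, F0 p L k x ^ 4 ∂(gm p L)) + 8 * ∫ x, (∑ a, J0 p L k a * x a) ^ 4 ∂(gm p L) := by
      rw [← integral_const_mul, ← integral_const_mul, ← integral_add]
      · refine integral_mono (PG.int hp L hL ((UG5b.pgQ L hp k).pow 4)) ?_ ?_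
        · exact (PG.int hp L hL (((UG5b.pgF0 L hp k).pow 4).const_mul 8)).add
            (PG.int hp L hL (((UG5b.pgU _).pow 4).const_mul 8))
        · intro x
          simp only
          rw [UG5b.Q_eq, UG5b.J_eq]
          set a := F0 p L k x
          set b := ∑ a, J0 p L k a * x a
          nlinarith [sq_nonneg (a - b), sq_nonneg (a + b), sq_nonneg (a ^ 2 - b ^ 2),
            sq_nonneg ((a - b) ^ 2), mul_nonneg (sq_nonneg (a - b)) (sq_nonneg (a + b)),
            sq_nonneg (a * b), mul_nonneg (sq_nonneg (a - b)) (sq_nonneg a),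
            mul_nonneg (sq_nonneg (a - b)) (sq_nonneg b)]
      · exact PG.int hp L hL (((UG5b.pgF0 L hp k).pow 4).const_mul 8)
      · exact PG.int hp L hL (((UG5b.pgU _).pow 4).const_mul 8)
    calc ∫ x, (∑ i, sp p (L x i) * k i) ^ 4 ∂(gm p L)
        ≤ 8 * (K₀ * (p - 2) ^ 4 * nk p L k ^ 2) + 8 * (K₀ * (∑ a, J0 p L k a ^ 2) ^ 2) := by
          linarith
      _ ≤ 8 * (K₀ * (p - 2) ^ 4 * nk p L k ^ 2) +
          8 * (K₀ * (81 * K₀ * (p - 2) ^ 4 * nk p L k ^ 2)) := by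
          gcongr
      _ = 8 * (K₀ + 81 * K₀ ^ 2) * (p - 2) ^ 4 * nk p L k ^ 2 := by ring

end Pool.Agent.Helper590_Face.G5
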