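import Pool.Agent.Helper590_Face.U.Est
import Pool.Agent.Helper590_Face.U.ThMoment
import Pool.Agent.Helper590_Face.U.Mom4
import Pool.Agent.Helper590_Face.U.CovKernel

set_option autoImplicit false

namespace Pool.Agent.Helper590_Face.G7

open Pool.Agent.Helper590_Face.G1
open Pool.Agent.Helper590_Face.G4
open Pool.Agent.Helper590_Face.G5


open MeasureTheory Set
open scoped ENNReal

variable {m n : ℕ}


/-- pointwise bound for the second order term -/
theorem hhl_point {Y al w T s S lam : ℝ} (hs : 0 < s) (hS : 0 < S) (hSs : S ≤ s ^ 2)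
    (hlam : 0 < lam) (hw : 0 ≤ w) (hwT : w ≤ T) :
    2 / lam * Y ^ 2 - 1 / (2 * lam ^ 2) * (5 / S * Y ^ 4 +
      4 * S / 5 * (4 + al ^ 2 + T ^ 2 + (Y ^ 4 / S ^ 2 + 1) / 2))
      ≤ Y ^ 2 / (2 + |al| + w + |Y / s|) := by
  set b := |Y / s| with hb
  have hb0 : 0 ≤ b := abs_nonneg _
  have hb2 : b ^ 2 = Y ^ 2 / s ^ 2 := by rw [hb, sq_abs, div_pow]
  set D := 2 + |al| + w + b with hD
  have ha0 : 0 ≤ |al| := abs_nonneg _
  have ha2 : |al| ^ 2 = al ^ 2 := sq_abs _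
  have hD0 : 0 < D := by positivity
  -- b ^ 2 ≤ (Y ^ 4 / S ^ 2 + 1) / 2
  have h1 : b ^ 2 ≤ (Y ^ 4 / S ^ 2 + 1) / 2 := by
    have e1 : Y ^ 2 / s ^ 2 ≤ Y ^ 2 / S := by
      apply div_le_div_of_nonneg_left (by positivity) hS hSs
    have e2 : Y ^ 4 / S ^ 2 = (Y ^ 2 / S) ^ 2 := by
      rw [div_pow]; ring
    rw [hb2, e2]
    nlinarith [sq_nonneg (Y ^ 2 / S - 1)]
  -- D ^ 2
  have h2 : D ^ 2 ≤ 4 * (4 + al ^ 2 + T ^ 2 + (Y ^ 4 / S ^ 2 + 1) / 2) := by
    have e1 : D ^ 2 ≤ 4 * (2 ^ 2 + |al| ^ 2 + w ^ 2 + b ^ 2) := by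
      rw [hD]
      nlinarith [sq_nonneg (2 - |al|), sq_nonneg (2 - w), sq_nonneg (2 - b),
        sq_nonneg (|al| - w), sq_nonneg (|al| - b), sq_nonneg (w - b)]
    have e2 : w ^ 2 ≤ T ^ 2 := pow_le_pow_left₀ hw hwT 2
    rw [ha2] at e1
    linarith
  -- Y ^ 2 D
  have h3 : 2 * (Y ^ 2 * D) ≤ 5 / S * Y ^ 4 + S / 5 * D ^ 2 := by
    have e1 : 5 / S * Y ^ 4 + S / 5 * D ^ 2 - 2 * (Y ^ 2 * D)
        = 5 / S * (Y ^ 2 - S / 5 * D) ^ 2 := by
      field_simp
      ring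
    have e2 : 0 ≤ 5 / S * (Y ^ 2 - S / 5 * D) ^ 2 := by positivity
    linarith
  have h4 : 2 / lam * Y ^ 2 - 1 / lam ^ 2 * (Y ^ 2 * D) ≤ Y ^ 2 / D := by
    have e1 : Y ^ 2 / D - (2 / lam * Y ^ 2 - 1 / lam ^ 2 * (Y ^ 2 * D))
        = Y ^ 2 / D * (1 - D / lam) ^ 2 := by
      field_simp
      ring
    have e2 : 0 ≤ Y ^ 2 / D * (1 - D / lam) ^ 2 := by positivity
    linarith
  have h5 : 1 / lam ^ 2 * (Y ^ 2 * D) ≤ 1 / (2 * lam ^ 2) * (5 / S * Y ^ 4 +
      4 * S / 5 * (4 + al ^ 2 + T ^ 2 + (Y ^ 4 / S ^ 2 + 1) / 2)) := by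
    have e0 : S / 5 * D ^ 2 ≤ S / 5 * (4 * (4 + al ^ 2 + T ^ 2 + (Y ^ 4 / S ^ 2 + 1) / 2)) :=
      mul_le_mul_of_nonneg_left h2 (by positivity)
    have e1 : 2 * (Y ^ 2 * D) ≤ 5 / S * Y ^ 4 +
      4 * S / 5 * (4 + al ^ 2 + T ^ 2 + (Y ^ 4 / S ^ 2 + 1) / 2) := by
      have e3 : S / 5 * (4 * (4 + al ^ 2 + T ^ 2 + (Y ^ 4 / S ^ 2 + 1) / 2))
        = 4 * S / 5 * (4 + al ^ 2 + T ^ 2 + (Y ^ 4 / S ^ 2 + 1) / 2) := by ring
      linarith
    have e2 : 1 / lam ^ 2 * (Y ^ 2 * D) = 1 / (2 * lam ^ 2) * (2 * (Y ^ 2 * D)) := by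
      field_simp
    rw [e2]
    exact mul_le_mul_of_nonneg_left e1 (by positivity)
  linarith

theorem hhl_th (t : ℝ) : |t| ^ (-(1 / 4) : ℝ) ≤ th t := by
  unfold th
  have : 0 ≤ |t| ^ (1 / 4 : ℝ) := Real.rpow_nonneg (abs_nonneg _) _
  linarith

/-- integrability of the row term -/
theorem hhl_int {X : Type*} [MeasurableSpace X] {μ : Measure X} {Y A : X → ℝ} {s : ℝ}
    (mY : Measurable Y) (mA : Measurable A) (hY2 : Integrable (fun x => Y x ^ 2) μ) :
    Integrable (fun x => Y x ^ 2 / (2 + |A x / s| + |A x / s| ^ (-(1 / 4) : ℝ) + |Y x / s|)) μ := by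
  refine hY2.mono' ?_ (Filter.Eventually.of_forall fun x => ?_)
  · apply Measurable.aestronglyMeasurable
    have m1 : Measurable (fun x => |A x / s|) :=
      continuous_abs.measurable.comp (mA.div_const s)
    have m2 : Measurable (fun x => |Y x / s|) :=
      continuous_abs.measurable.comp (mY.div_const s)
    exact (mY.pow_const 2).div (((m1.const_add 2).add (m1.pow_const _)).add m2)
  · have h1 : 0 ≤ |A x / s| ^ (-(1 / 4) : ℝ) := Real.rpow_nonneg (abs_nonneg _) _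
    have h2 : 0 ≤ |A x / s| := abs_nonneg _
    have h3 : 0 ≤ |Y x / s| := abs_nonneg _
    rw [Real.norm_eq_abs, abs_of_nonneg (by positivity)]
    apply div_le_self (by positivity)
    linarith

/-- the row bound -/
theorem hhl_row {X : Type*} [MeasurableSpace X] {μ : Measure X} [IsProbabilityMeasure μ]
    {Y A : X → ℝ} {s S K : ℝ}
    (hs : 0 < s) (hS : 0 < S) (hSs : S ≤ s ^ 2) (hK : 1 ≤ K)
    (mY : Measurable Y) (mA : Measurable A)
    (hY2 : Integrable (fun x => Y x ^ 2) μ) (hY4 : Integrable (fun x => Y x ^ 4) μ)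
    (hA2 : Integrable (fun x => A x ^ 2) μ)
    (hT : Integrable (fun x => th (A x / s) ^ 2) μ)
    (e1 : S ≤ 9 * ∫ x, Y x ^ 2 ∂μ) (e2 : ∫ x, Y x ^ 4 ∂μ ≤ K * S ^ 2)
    (e3 : ∫ x, A x ^ 2 ∂μ = s ^ 2) (e4 : ∫ x, th (A x / s) ^ 2 ∂μ ≤ K) :
    S / (486 * K) ≤
      ∫ x, Y x ^ 2 / (2 + |A x / s| + |A x / s| ^ (-(1 / 4) : ℝ) + |Y x / s|) ∂μ := by
  have hK0 : 0 < K := by linarith
  set lam : ℝ := 54 * K with hlam
  have hlam0 : 0 < lam := by positivity
  let g : X → ℝ := fun x => 2 / lam * Y x ^ 2 - 1 / (2 * lam ^ 2) * (5 / S * Y x ^ 4 +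
      4 * S / 5 * (4 + (A x / s) ^ 2 + th (A x / s) ^ 2 + (Y x ^ 4 / S ^ 2 + 1) / 2))
  have hg : ∀ x, g x = 2 / lam * Y x ^ 2
      + (-(1 / (2 * lam ^ 2) * (5 / S + 2 / (5 * S)))) * Y x ^ 4
      + (-(1 / (2 * lam ^ 2) * (4 * S / 5) / s ^ 2)) * A x ^ 2
      + (-(1 / (2 * lam ^ 2) * (4 * S / 5))) * th (A x / s) ^ 2
      + (-(1 / (2 * lam ^ 2) * (4 * S / 5) * (9 / 2))) := by
    intro x
    simp only [g]
    have : S ≠ 0 := hS.ne'
    field_simp
    ring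
  have i1 := hY2.const_mul (2 / lam)
  have i2 := hY4.const_mul (-(1 / (2 * lam ^ 2) * (5 / S + 2 / (5 * S))))
  have i3 := hA2.const_mul (-(1 / (2 * lam ^ 2) * (4 * S / 5) / s ^ 2))
  have i4 := hT.const_mul (-(1 / (2 * lam ^ 2) * (4 * S / 5)))
  have i5 : Integrable (fun _ : X => (-(1 / (2 * lam ^ 2) * (4 * S / 5) * (9 / 2)))) μ :=
    integrable_const _
  have hgi : Integrable g μ := by
    have h := (((i1.add i2).add i3).add i4).add i5
    refine h.congr (Filter.Eventually.of_forall fun x => ?_)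
    simp only [Pi.add_apply]
    exact (hg x).symm
  have hgv : ∫ x, g x ∂μ = 2 / lam * (∫ x, Y x ^ 2 ∂μ)
      + (-(1 / (2 * lam ^ 2) * (5 / S + 2 / (5 * S)))) * (∫ x, Y x ^ 4 ∂μ)
      + (-(1 / (2 * lam ^ 2) * (4 * S / 5) / s ^ 2)) * (∫ x, A x ^ 2 ∂μ)
      + (-(1 / (2 * lam ^ 2) * (4 * S / 5))) * (∫ x, th (A x / s) ^ 2 ∂μ)
      + (-(1 / (2 * lam ^ 2) * (4 * S / 5) * (9 / 2))) := by
    have h0 : ∫ x, g x ∂μ = ∫ x, (2 / lam * Y x ^ 2
      + (-(1 / (2 * lam ^ 2) * (5 / S + 2 / (5 * S)))) * Y x ^ 4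
      + (-(1 / (2 * lam ^ 2) * (4 * S / 5) / s ^ 2)) * A x ^ 2
      + (-(1 / (2 * lam ^ 2) * (4 * S / 5))) * th (A x / s) ^ 2
      + (-(1 / (2 * lam ^ 2) * (4 * S / 5) * (9 / 2)))) ∂μ :=
      integral_congr_ae (Filter.Eventually.of_forall hg)
    have k2 : Integrable (fun x => 2 / lam * Y x ^ 2
      + (-(1 / (2 * lam ^ 2) * (5 / S + 2 / (5 * S)))) * Y x ^ 4) μ := i1.add i2
    have k3 : Integrable (fun x => 2 / lam * Y x ^ 2
      + (-(1 / (2 * lam ^ 2) * (5 / S + 2 / (5 * S)))) * Y x ^ 4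
      + (-(1 / (2 * lam ^ 2) * (4 * S / 5) / s ^ 2)) * A x ^ 2) μ := k2.add i3
    have k4 : Integrable (fun x => 2 / lam * Y x ^ 2
      + (-(1 / (2 * lam ^ 2) * (5 / S + 2 / (5 * S)))) * Y x ^ 4
      + (-(1 / (2 * lam ^ 2) * (4 * S / 5) / s ^ 2)) * A x ^ 2
      + (-(1 / (2 * lam ^ 2) * (4 * S / 5))) * th (A x / s) ^ 2) μ := k3.add i4
    rw [h0, integral_add k4 i5, integral_add k3 i4, integral_add k2 i3, integral_add i1 i2,
      integral_const_mul, integral_const_mul, integral_const_mul, integral_const_mul]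
    simp
  have hle : ∫ x, g x ∂μ ≤
      ∫ x, Y x ^ 2 / (2 + |A x / s| + |A x / s| ^ (-(1 / 4) : ℝ) + |Y x / s|) ∂μ := by
    refine integral_mono hgi (hhl_int mY mA hY2) fun x => ?_
    exact hhl_point hs hS hSs hlam0 (Real.rpow_nonneg (abs_nonneg _) _) (hhl_th _)
  refine le_trans ?_ hle
  rw [hgv, e3]
  have hs2 : 0 < s ^ 2 := by positivity
  have f1 : 2 / lam * (S / 9) ≤ 2 / lam * (∫ x, Y x ^ 2 ∂μ) :=
    mul_le_mul_of_nonneg_left (by linarith) (by positivity)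
  have f2 : 1 / (2 * lam ^ 2) * (5 / S + 2 / (5 * S)) * (∫ x, Y x ^ 4 ∂μ)
      ≤ 1 / (2 * lam ^ 2) * (5 / S + 2 / (5 * S)) * (K * S ^ 2) :=
    mul_le_mul_of_nonneg_left e2 (by positivity)
  have f3 : 1 / (2 * lam ^ 2) * (4 * S / 5) * (∫ x, th (A x / s) ^ 2 ∂μ)
      ≤ 1 / (2 * lam ^ 2) * (4 * S / 5) * K :=
    mul_le_mul_of_nonneg_left e4 (by positivity)
  have f4 : 1 / (2 * lam ^ 2) * (4 * S / 5) / s ^ 2 * s ^ 2
      = 1 / (2 * lam ^ 2) * (4 * S / 5) := by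
    field_simp
  have f5 : S / (486 * K) ≤ 2 / lam * (S / 9)
      - 1 / (2 * lam ^ 2) * (5 / S + 2 / (5 * S)) * (K * S ^ 2)
      - 1 / (2 * lam ^ 2) * (4 * S / 5)
      - 1 / (2 * lam ^ 2) * (4 * S / 5) * K
      - 1 / (2 * lam ^ 2) * (4 * S / 5) * (9 / 2) := by
    have g1 : 1 / (2 * lam ^ 2) * (5 / S + 2 / (5 * S)) * (K * S ^ 2)
        = 1 / (2 * lam ^ 2) * (27 / 5 * (K * S)) := by
      field_simp
      ring
    have g2 : 1 / (2 * lam ^ 2) * (4 * S / 5) * (11 / 2)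
        ≤ 1 / (2 * lam ^ 2) * (4 * S / 5) * (11 / 2) * K :=
      le_mul_of_one_le_right (by positivity) hK
    have g3 : 2 / lam * (S / 9) = S / (243 * K) := by
      rw [hlam]
      field_simp
      norm_num
    have g4 : 1 / (2 * lam ^ 2) * (27 / 5 * (K * S))
        + 1 / (2 * lam ^ 2) * (4 * S / 5) * K
        + 1 / (2 * lam ^ 2) * (4 * S / 5) * (11 / 2) * K = 106 / 10 / (5832) * (S / K) := by
      rw [hlam]
      field_simp
      norm_num
    have g5 : 0 ≤ S / K := by positivity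
    have g6 : S / (243 * K) = 1 / 243 * (S / K) := by
      field_simp
    have g7 : S / (486 * K) = 1 / 486 * (S / K) := by
      field_simp
    rw [g1, g3, g6, g7]
    nlinarith
  linarith

theorem hh_lower : ∃ (ε c : ℝ), 0 < ε ∧ ε ≤ 1 / 16 ∧ 0 < c ∧
    ∀ (m n : ℕ) (p : ℝ) (L : (Fin m → ℝ) →ₗ[ℝ] (Fin n → ℝ)),
    |p - 2| ≤ ε → p ≠ 2 → Function.Injective L → Pos p L →
    ∃ r : ℝ, 0 < r ∧ ∀ B : (Fin m → ℝ) →ₗ[ℝ] (Fin n → ℝ), nB p L B ≤ r →
      c * nB p L B ≤ ∫ x, hh p L B x ∂(gm p L) := by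
  obtain ⟨C, hC1, hC⟩ := th_moment
  obtain ⟨K₁, hK1, hK⟩ := mom4
  obtain ⟨ε, K₂, hε, hε16, -, hcov⟩ := cov_kernel
  set K := max C K₁ with hKdef
  have hKone : 1 ≤ K := le_max_of_le_left hC1
  have hK0 : 0 < K := by linarith
  refine ⟨ε, 1 / 4 * (1 / (486 * K)), hε, hε16, by positivity, ?_⟩
  intro m n p L hp hp2 hL hPos
  have hp16 : |p - 2| ≤ 1 / 16 := hp.trans hε16
  have hp1 : 1 < p := by
    have := (abs_le.mp hp16).1
    linarith
  have := prob_gm hp1 L hL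
  obtain ⟨hcv, -, -⟩ := hcov m n p L hp hp2 hL hPos
  obtain ⟨-, h4'⟩ := hK m n p L hp16 hp2 hL
  have h4 := h4' hPos
  -- weights
  have hom : ∀ i, 0 < sg p L i → 0 < om p L i := fun i hi => Real.rpow_pos_of_pos hi _
  have hom0 : ∀ i, sg p L i = 0 → om p L i = 0 := by
    intro i hi
    rw [om, hi]
    exact Real.zero_rpow (sub_ne_zero.2 hp2)
  -- the radius
  obtain ⟨r, hr0, hr⟩ : ∃ r : ℝ, 0 < r ∧ ∀ i, 0 < sg p L i → r ≤ om p L i * sg p L i ^ 2 := by
    have h1 : ∀ i : Fin n, ∀ᶠ r in nhdsWithin (0 : ℝ) (Ioi 0),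
        0 < sg p L i → r ≤ om p L i * sg p L i ^ 2 := by
      intro i
      by_cases hi : 0 < sg p L i
      · have h2 : 0 < om p L i * sg p L i ^ 2 := mul_pos (hom i hi) (by positivity)
        filter_upwards [Ioc_mem_nhdsGT h2] with r hr _
        exact hr.2
      · exact Filter.Eventually.of_forall fun r h => absurd h hi
    have h3 := (Filter.eventually_all.2 h1).and self_mem_nhdsWithin
    obtain ⟨r, hr1, hr2⟩ := h3.exists
    exact ⟨r, hr2, hr1⟩
  refine ⟨r, hr0, fun B hB => ?_⟩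
  -- rows
  set S : Fin n → ℝ := fun i => ∑ a, B (Pi.single a 1) i ^ 2 with hSdef
  have hS0 : ∀ i, 0 ≤ S i := fun i => Finset.sum_nonneg fun a _ => sq_nonneg _
  have hnB : nB p L B = ∑ i, om p L i * S i := by
    unfold nB nk
    rw [Finset.sum_comm]
    refine Finset.sum_congr rfl fun i _ => ?_
    rw [hSdef, Finset.mul_sum]
  have hBx : ∀ x i, B x i = ∑ a, B (Pi.single a 1) i * x a := by
    intro x i
    have h : x = ∑ k, x k • (Pi.single k 1 : Fin m → ℝ) := by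
      ext j
      simp [Pi.single_apply]
    conv_lhs => rw [h]
    rw [map_sum]
    simp [mul_comm]
  have hrow : ∀ i, om p L i * (S i / (486 * K)) ≤ om p L i *
      ∫ x, B x i ^ 2 / (2 + |L x i / sg p L i| + |L x i / sg p L i| ^ (-(1 / 4) : ℝ)
        + |B x i / sg p L i|) ∂(gm p L) := by
    intro i
    rcases (sg_nonneg p L i).eq_or_lt with hi | hi
    · rw [hom0 i hi.symm]
      simp
    · refine mul_le_mul_of_nonneg_left ?_ (om_nonneg p L i)
      rcases (hS0 i).eq_or_lt with hSi | hSi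
      · rw [← hSi, zero_div]
        refine integral_nonneg fun x => ?_
        have h1 : 0 ≤ |L x i / sg p L i| ^ (-(1 / 4) : ℝ) := Real.rpow_nonneg (abs_nonneg _) _
        positivity
      · have hle : S i ≤ sg p L i ^ 2 := by
          have h1 : om p L i * S i ≤ nB p L B := by
            rw [hnB]
            exact Finset.single_le_sum (f := fun i => om p L i * S i)
              (fun j _ => mul_nonneg (om_nonneg p L j) (hS0 j)) (Finset.mem_univ i)
          have h2 := hr i hi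
          have h3 : om p L i * S i ≤ om p L i * sg p L i ^ 2 := by linarith
          exact le_of_mul_le_mul_left h3 (hom i hi)
        obtain ⟨t1, t2⟩ := hC m n p L hp16 hL i hi
        have pB := PG.lincoord B i
        have pL := PG.lincoord L i
        refine hhl_row (A := fun x => L x i) (Y := fun x => B x i) hi hSi hle hKone pB.meas
          pL.meas ((pB.pow 2).int hp1 L hL) ((pB.pow 4).int hp1 L hL)
          ((pL.pow 2).int hp1 L hL) t1 ?_ ?_ ?_ (t2.trans (le_max_left _ _))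
        · have := hcv (fun a => B (Pi.single a 1) i)
          simp only [← hBx] at this
          exact this
        · have := h4 (fun a => B (Pi.single a 1) i)
          simp only [← hBx] at this
          refine this.trans ?_
          have h5 : K₁ ≤ K := le_max_right _ _
          exact mul_le_mul_of_nonneg_right h5 (sq_nonneg _)
        · rw [sg, Real.sq_sqrt]
          exact integral_nonneg fun x => sq_nonneg _
  have hint : ∀ i, Integrable (fun x => om p L i * (B x i ^ 2 / (2 + |L x i / sg p L i| +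
      |L x i / sg p L i| ^ (-(1 / 4) : ℝ) + |B x i / sg p L i|))) (gm p L) := by
    intro i
    have pB := PG.lincoord B i
    have pL := PG.lincoord L i
    exact (hhl_int pB.meas pL.meas ((pB.pow 2).int hp1 L hL)).const_mul _
  have hfin : ∫ x, hh p L B x ∂(gm p L) = 1 / 4 * ∑ i, om p L i *
      ∫ x, B x i ^ 2 / (2 + |L x i / sg p L i| + |L x i / sg p L i| ^ (-(1 / 4) : ℝ)
        + |B x i / sg p L i|) ∂(gm p L) := by
    unfold hh
    rw [integral_const_mul, integral_finsetSum _ fun i _ => hint i]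
    simp only [integral_const_mul]
  rw [hfin, hnB, mul_assoc]
  refine mul_le_mul_of_nonneg_left ?_ (by norm_num)
  rw [Finset.mul_sum]
  refine Finset.sum_le_sum fun i _ => ?_
  refine le_trans (le_of_eq ?_) (hrow i)
  ring

end Pool.Agent.Helper590_Face.G7
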