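import Pool.Agent.Helper590_Face.U.Est
import Pool.Agent.Helper590_Face.U.ThMoment
import Pool.Agent.Helper590_Face.U.Var
import Pool.Agent.Helper590_Face.U.Pairs
import Pool.Agent.Helper590_Face.U.Mom4
import Pool.Agent.Helper590_Face.U.CovKernel

set_option autoImplicit false

namespace Pool.Agent.Helper590_Face.G6

open Pool.Agent.Helper590_Face.G1
open Pool.Agent.Helper590_Face.G2
open Pool.Agent.Helper590_Face.G3
open Pool.Agent.Helper590_Face.G4
open Pool.Agent.Helper590_Face.G5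


open MeasureTheory Set
open scoped ENNReal

variable {m n : ℕ}


/-- signed power and linear feedback vector -/
noncomputable def Uv (p : ℝ) (L B : (Fin m → ℝ) →ₗ[ℝ] (Fin n → ℝ)) (x : Fin m → ℝ) (a : Fin m) : ℝ :=
  J0 p L (B x) a + ∑ j, sp p (L x j) * B (Pi.single a 1) j

theorem mx_sumJ (p : ℝ) (L : (Fin m → ℝ) →ₗ[ℝ] (Fin n → ℝ)) (k : Fin n → ℝ) (w : Fin m → ℝ) :
    ∑ i, om p L i * (L w i * k i) = ∑ a, w a * J0 p L k a := by
  have h : ∀ i, om p L i * (L w i * k i)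
      = ∑ a, w a * (om p L i * (k i * L (Pi.single a 1) i)) := by
    intro i
    rw [L_apply L w i, Finset.sum_mul, Finset.mul_sum]
    exact Finset.sum_congr rfl fun a _ => by ring
  simp only [h, J0, Finset.mul_sum]
  rw [Finset.sum_comm]

theorem mx_sumS (B : (Fin m → ℝ) →ₗ[ℝ] (Fin n → ℝ)) (c : Fin n → ℝ) (w : Fin m → ℝ) :
    ∑ i, c i * B w i = ∑ a, w a * ∑ j, c j * B (Pi.single a 1) j := by
  have h : ∀ i, c i * B w i = ∑ a, w a * (c i * B (Pi.single a 1) i) := by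
    intro i
    rw [L_apply B w i, Finset.mul_sum]
    exact Finset.sum_congr rfl fun a _ => by ring
  simp only [h, Finset.mul_sum]
  rw [Finset.sum_comm]

theorem mx_J0_add (p : ℝ) (L : (Fin m → ℝ) →ₗ[ℝ] (Fin n → ℝ)) (k k' : Fin n → ℝ) (a : Fin m) :
    J0 p L (k + k') a = J0 p L k a + J0 p L k' a := by
  simp only [J0, Pi.add_apply, ← Finset.sum_add_distrib]
  exact Finset.sum_congr rfl fun i _ => by ring

theorem mx_id (p : ℝ) (L B : (Fin m → ℝ) →ₗ[ℝ] (Fin n → ℝ)) (x y : Fin m → ℝ) :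
    (∑ i, sp p (L x i) * B x i) - ∑ i, sp p (L y i) * B y i
      = 1 / 2 * (F0 p L (B (x + y)) x - F0 p L (B (x + y)) y)
        + 1 / 2 * ((∑ a, (Uv p L B x a + Uv p L B y a) * x a)
          - ∑ a, (Uv p L B x a + Uv p L B y a) * y a) := by
  have e1 : (∑ a, (Uv p L B x a + Uv p L B y a) * x a)
      - ∑ a, (Uv p L B x a + Uv p L B y a) * y a
      = (∑ a, (x - y) a * J0 p L (B (x + y)) a)
        + ∑ a, (x - y) a * ∑ j, (sp p (L x j) + sp p (L y j)) * B (Pi.single a 1) j := by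
    rw [← Finset.sum_sub_distrib, ← Finset.sum_add_distrib]
    refine Finset.sum_congr rfl fun a _ => ?_
    simp only [Uv, map_add, mx_J0_add, Pi.sub_apply, add_mul, Finset.sum_add_distrib]
    ring
  rw [e1, ← mx_sumJ, ← mx_sumS]
  simp only [F0, map_add, map_sub, Pi.add_apply, Pi.sub_apply]
  rw [← Finset.sum_sub_distrib, ← Finset.sum_sub_distrib, ← Finset.sum_add_distrib,
    Finset.mul_sum, Finset.mul_sum, ← Finset.sum_add_distrib]
  exact Finset.sum_congr rfl fun i _ => by ring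

theorem mx_th_nonneg (t : ℝ) : 0 ≤ th t := by unfold th; positivity

theorem mx_th_meas : Measurable th := by
  unfold th
  exact (continuous_abs.measurable.pow_const _).add (continuous_abs.measurable.pow_const _)

theorem mx_split {a a' t t' β : ℝ} (ht : 0 ≤ t) (ht' : 0 ≤ t') (hβ : 0 < β) :
    (a + a') ^ 2 * (t + t') ≤ 2 * ((a ^ 4 / β + β * t ^ 2) + (a' ^ 4 / β + β * t' ^ 2)) := by
  have h1 : (a + a') ^ 2 * (t + t') ≤ (2 * a ^ 2 + 2 * a' ^ 2) * (t + t') := by
    apply mul_le_mul_of_nonneg_right _ (by linarith)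
    nlinarith [sq_nonneg (a - a')]
  have h2 : ∀ a t : ℝ, a ^ 2 * t ≤ (a ^ 4 / β + β * t ^ 2) / 2 := by
    intro a t
    have h3 : 0 ≤ (a ^ 2 - β * t) ^ 2 / β := by positivity
    have h4 : (a ^ 2 - β * t) ^ 2 / β = a ^ 4 / β - 2 * (a ^ 2 * t) + β * t ^ 2 := by
      field_simp
      ring
    linarith
  have k1 := h2 a t
  have k2 := h2 a t'
  have k3 := h2 a' t
  have k4 := h2 a' t'
  nlinarith

theorem mx_qf_nonneg (p : ℝ) (L : (Fin m → ℝ) →ₗ[ℝ] (Fin n → ℝ)) (x y : Fin m → ℝ) :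
    0 ≤ qf p L x y := by
  unfold qf
  refine Finset.sum_nonneg fun i _ => mul_nonneg (Real.rpow_nonneg ?_ _) (sq_nonneg _)
  exact le_max_of_le_left (abs_nonneg _)

theorem mx_term {Ct : ℝ} (hCt : ∀ (m n : ℕ) (p : ℝ) (L : (Fin m → ℝ) →ₗ[ℝ] (Fin n → ℝ)),
    |p - 2| ≤ 1 / 16 → Function.Injective L → ∀ i, 0 < sg p L i →
    Integrable (fun x => th (L x i / sg p L i) ^ 2) (gm p L) ∧
      ∫ x, th (L x i / sg p L i) ^ 2 ∂(gm p L) ≤ Ct)
    {p : ℝ} (hp : |p - 2| ≤ 1 / 16) (hp2 : p ≠ 2) (L : (Fin m → ℝ) →ₗ[ℝ] (Fin n → ℝ))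
    (hL : Function.Injective L) (i : Fin n) {f : (Fin m → ℝ) → ℝ} (hf : PG f) {β M : ℝ}
    (hβ : 0 < β) (hM : ∫ x, f x ∂(gm p L) ≤ M) :
    Integrable (fun x => om p L i * (f x / β + β * th (L x i / sg p L i) ^ 2)) (gm p L) ∧
      ∫ x, om p L i * (f x / β + β * th (L x i / sg p L i) ^ 2) ∂(gm p L)
        ≤ om p L i * (M / β + β * Ct) := by
  have hp1 : 1 < p := by
    have := (abs_le.1 hp).1
    linarith
  rcases (sg_nonneg p L i).eq_or_lt with h | h
  · have h0 : om p L i = 0 := by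
      unfold om
      rw [← h, Real.zero_rpow (sub_ne_zero.2 hp2)]
    simp [h0]
  · obtain ⟨h1, h2⟩ := hCt m n p L hp hL i h
    have h3 : Integrable f (gm p L) := hf.int hp1 L hL
    have h4 : Integrable (fun x => f x / β + β * th (L x i / sg p L i) ^ 2) (gm p L) :=
      (h3.div_const β).add (h1.const_mul β)
    refine ⟨h4.const_mul _, ?_⟩
    rw [integral_const_mul]
    refine mul_le_mul_of_nonneg_left ?_ (om_nonneg p L i)
    rw [integral_add (h3.div_const β) (h1.const_mul β), integral_div, integral_const_mul]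
    have h5 : (∫ x, f x ∂(gm p L)) / β ≤ M / β := by gcongr
    have h6 : β * ∫ x, th (L x i / sg p L i) ^ 2 ∂(gm p L) ≤ β * Ct :=
      mul_le_mul_of_nonneg_left h2 hβ.le
    linarith

theorem mx_PG_U {p : ℝ} (hp1 : 1 < p) (L B : (Fin m → ℝ) →ₗ[ℝ] (Fin n → ℝ)) (i : Fin n) :
    PG (fun x => L (Uv p L B x) i) := by
  have h1 : ∀ a, PG (fun x => Uv p L B x a) := by
    intro a
    unfold Uv J0
    refine PG.add ?_ ?_
    · exact PG.sum _ fun j _ => PG.const_mul _ ((PG.lincoord B j).mul (PG.const _))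
    · exact PG.sum _ fun j _ => (PG.sp' hp1 (PG.lincoord L j)).mul (PG.const _)
  have h2 : (fun x => L (Uv p L B x) i)
      = fun x => ∑ a, Uv p L B x a * L (Pi.single a 1) i := by
    funext x
    exact L_apply L _ i
  rw [h2]
  exact PG.sum _ fun a _ => (h1 a).mul (PG.const _)

theorem mx_J0_sum (p : ℝ) (L B : (Fin m → ℝ) →ₗ[ℝ] (Fin n → ℝ)) (x : Fin m → ℝ) :
    J0 p L (B x) = ∑ b, x b • J0 p L (B (Pi.single b 1)) := by
  funext a
  rw [Finset.sum_apply]
  simp only [J0, Pi.smul_apply, smul_eq_mul, Finset.mul_sum]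
  rw [Finset.sum_comm]
  refine Finset.sum_congr rfl fun i _ => ?_
  rw [L_apply B x i, Finset.sum_mul, Finset.mul_sum]
  exact Finset.sum_congr rfl fun b _ => by ring

theorem mx_LU (p : ℝ) (L B : (Fin m → ℝ) →ₗ[ℝ] (Fin n → ℝ)) (x : Fin m → ℝ) (i : Fin n) :
    L (Uv p L B x) i = (∑ b, L (J0 p L (B (Pi.single b 1))) i * x b)
      + ∑ j, sp p (L x j) * B (fun a => L (Pi.single a 1) i) j := by
  have e0 : Uv p L B x = J0 p L (B x) + fun a => ∑ j, sp p (L x j) * B (Pi.single a 1) j := rfl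
  rw [e0, map_add, Pi.add_apply]
  congr 1
  · rw [mx_J0_sum, map_sum, Finset.sum_apply]
    refine Finset.sum_congr rfl fun b _ => ?_
    rw [map_smul, Pi.smul_apply, smul_eq_mul]
    ring
  · rw [L_apply L _ i]
    simp only [Finset.sum_mul]
    rw [Finset.sum_comm]
    refine Finset.sum_congr rfl fun j _ => ?_
    rw [L_apply B _ j, Finset.mul_sum]
    exact Finset.sum_congr rfl fun a _ => by ring

theorem mx_four (P Q : ℝ) : (P + Q) ^ 4 ≤ 8 * (P ^ 4 + Q ^ 4) := by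
  nlinarith [sq_nonneg (P ^ 2 - Q ^ 2), sq_nonneg (P - Q), sq_nonneg (P + Q),
    mul_nonneg (sq_nonneg (P - Q)) (sq_nonneg (P + Q)),
    mul_nonneg (sq_nonneg (P - Q)) (sq_nonneg (P - Q)),
    mul_nonneg (sq_nonneg (P - Q)) (add_nonneg (sq_nonneg P) (sq_nonneg Q))]

theorem mx_nB (p : ℝ) (L B : (Fin m → ℝ) →ₗ[ℝ] (Fin n → ℝ)) :
    nB p L B = ∑ i, om p L i * ∑ a, B (Pi.single a 1) i ^ 2 := by
  simp only [nB, nk, Finset.mul_sum]
  rw [Finset.sum_comm]

theorem mx_nB_nonneg (p : ℝ) (L B : (Fin m → ℝ) →ₗ[ℝ] (Fin n → ℝ)) : 0 ≤ nB p L B := by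
  rw [mx_nB]
  exact Finset.sum_nonneg fun i _ => mul_nonneg (om_nonneg p L i)
    (Finset.sum_nonneg fun a _ => sq_nonneg _)

theorem mx_nk_nonneg (p : ℝ) (L : (Fin m → ℝ) →ₗ[ℝ] (Fin n → ℝ)) (k : Fin n → ℝ) :
    0 ≤ nk p L k :=
  Finset.sum_nonneg fun i _ => mul_nonneg (om_nonneg p L i) (sq_nonneg _)

theorem mx_r {K : ℝ} (p : ℝ) (L B : (Fin m → ℝ) →ₗ[ℝ] (Fin n → ℝ)) (hpos : Pos p L)
    (hJ : ∀ k, inK p L k → ∑ a, J0 p L k a ^ 2 ≤ K * (p - 2) ^ 2 * nk p L k)
    (hB : ∀ x, inK p L (B x)) :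
    ∑ i, om p L i * ∑ b, L (J0 p L (B (Pi.single b 1))) i ^ 2 ≤ K * (p - 2) ^ 2 * nB p L B := by
  have h1 : ∑ i, om p L i * ∑ b, L (J0 p L (B (Pi.single b 1))) i ^ 2
      = ∑ b, ∑ a, J0 p L (B (Pi.single b 1)) a ^ 2 := by
    simp only [Finset.mul_sum]
    rw [Finset.sum_comm]
    refine Finset.sum_congr rfl fun b _ => ?_
    have h := hpos (J0 p L (B (Pi.single b 1))) (J0 p L (B (Pi.single b 1)))
    simp only [← sq] at h
    exact h
  rw [h1, nB, Finset.mul_sum]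
  exact Finset.sum_le_sum fun b _ => hJ _ (hB _)

theorem mx_v (p : ℝ) (L B : (Fin m → ℝ) →ₗ[ℝ] (Fin n → ℝ)) (hpos : Pos p L) :
    ∑ i, om p L i * nk p L (B (fun a => L (Pi.single a 1) i)) = nB p L B := by
  have h1 : ∀ i j, B (fun a => L (Pi.single a 1) i) j = L (fun a => B (Pi.single a 1) j) i := by
    intro i j
    rw [L_apply B _ j, L_apply L _ i]
    exact Finset.sum_congr rfl fun a _ => by ring
  rw [mx_nB]
  simp only [nk, h1, Finset.mul_sum]
  rw [Finset.sum_comm]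
  refine Finset.sum_congr rfl fun j _ => ?_
  have h := hpos (fun a => B (Pi.single a 1) j) (fun a => B (Pi.single a 1) j)
  simp only [← sq] at h
  rw [← Finset.mul_sum, ← h, Finset.mul_sum]
  exact Finset.sum_congr rfl fun i _ => by ring

theorem mx_PG_G {p : ℝ} (hp1 : 1 < p) (L B : (Fin m → ℝ) →ₗ[ℝ] (Fin n → ℝ)) :
    PG (fun x => ∑ i, sp p (L x i) * B x i) :=
  PG.sum _ fun i _ => (PG.sp' hp1 (PG.lincoord L i)).mul (PG.lincoord B i)

theorem mx_G0 {p : ℝ} (hp1 : 1 < p) (L B : (Fin m → ℝ) →ₗ[ℝ] (Fin n → ℝ))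
    (hL : Function.Injective L) (hB : ∀ x, inK p L (B x)) :
    ∫ x, (∑ i, sp p (L x i) * B x i) ∂(gm p L) = 0 := by
  have h1 : ∀ x : Fin m → ℝ, ∑ i, sp p (L x i) * B x i
      = ∑ a, (∑ j, sp p (L x j) * B (Pi.single a 1) j) * x a := by
    intro x
    rw [mx_sumS]
    exact Finset.sum_congr rfl fun a _ => by ring
  simp only [h1]
  rw [integral_finsetSum _ fun a _ => ?_]
  · exact Finset.sum_eq_zero fun a _ => hB (Pi.single a 1) a
  · refine PG.int hp1 L hL ?_
    exact (PG.sum _ fun j _ => (PG.sp' hp1 (PG.lincoord L j)).mul (PG.const _)).mul (PG.coord a)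

/-- the estimate with a parameter -/
theorem mx_main {Ct K K₁ : ℝ} (hCt1 : 1 ≤ Ct) (hK1 : 1 ≤ K) (hK₁1 : 1 ≤ K₁)
    (hCt : ∀ (m n : ℕ) (p : ℝ) (L : (Fin m → ℝ) →ₗ[ℝ] (Fin n → ℝ)),
    |p - 2| ≤ 1 / 16 → Function.Injective L → ∀ i, 0 < sg p L i →
    Integrable (fun x => th (L x i / sg p L i) ^ 2) (gm p L) ∧
      ∫ x, th (L x i / sg p L i) ^ 2 ∂(gm p L) ≤ Ct)
    {p : ℝ} (hp : |p - 2| ≤ 1 / 16) (hp2 : p ≠ 2) (L B : (Fin m → ℝ) →ₗ[ℝ] (Fin n → ℝ))
    (hL : Function.Injective L) (hpos : Pos p L)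
    (h4 : ∀ u : Fin m → ℝ, ∫ x, (∑ a, u a * x a) ^ 4 ∂(gm p L) ≤ K * (∑ a, u a ^ 2) ^ 2)
    (hJ : ∀ k, inK p L k → ∑ a, J0 p L k a ^ 2 ≤ K₁ * (p - 2) ^ 2 * nk p L k)
    (h4' : ∀ k, inK p L k → ∫ x, (∑ i, sp p (L x i) * k i) ^ 4 ∂(gm p L) ≤
      K₁ * (p - 2) ^ 4 * nk p L k ^ 2)
    (hB : ∀ x, inK p L (B x)) {η : ℝ} (hη : 0 < η) :
    ∫ x, (∑ i, sp p (L x i) * B x i) ^ 2 ∂(gm p L) ≤
      4356 * (p - 2) ^ 2 * ((K + Ct) * (nB p L B + η * ∑ i, om p L i)) +
      4 * ((8 * K + 8 * K₁ + Ct) * ((K₁ + 1) * (p - 2) ^ 2 * nB p L B + η * ∑ i, om p L i)) := by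
  have hp1 : 1 < p := by
    have := (abs_le.1 hp).1
    linarith
  set β : Fin n → ℝ := fun i => (∑ a, B (Pi.single a 1) i ^ 2) + η with hβd
  set τ : Fin n → ℝ := fun i => (∑ b, L (J0 p L (B (Pi.single b 1))) i ^ 2)
    + (p - 2) ^ 2 * nk p L (B (fun a => L (Pi.single a 1) i)) + η with hτd
  have hb0 : ∀ i, 0 ≤ ∑ a, B (Pi.single a 1) i ^ 2 := fun i =>
    Finset.sum_nonneg fun a _ => sq_nonneg _
  have hr0 : ∀ i, 0 ≤ ∑ b, L (J0 p L (B (Pi.single b 1))) i ^ 2 := fun i =>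
    Finset.sum_nonneg fun a _ => sq_nonneg _
  have hv0 : ∀ i, 0 ≤ (p - 2) ^ 2 * nk p L (B (fun a => L (Pi.single a 1) i)) := fun i =>
    mul_nonneg (sq_nonneg _) (mx_nk_nonneg _ _ _)
  have hβ : ∀ i, 0 < β i := fun i => by simp only [hβd]; linarith [hb0 i]
  have hτ : ∀ i, 0 < τ i := fun i => by simp only [hτd]; linarith [hr0 i, hv0 i]
  -- the two controls
  set RI : (Fin m → ℝ) → ℝ := fun x => ∑ i, om p L i * (B x i ^ 4 / β i
    + β i * th (L x i / sg p L i) ^ 2) with hRI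
  set RII : (Fin m → ℝ) → ℝ := fun x => ∑ i, om p L i * (L (Uv p L B x) i ^ 4 / τ i
    + τ i * th (L x i / sg p L i) ^ 2) with hRII
  have hthm : ∀ i, Measurable fun x : Fin m → ℝ => th (L x i / sg p L i) := fun i =>
    mx_th_meas.comp ((PG.lincoord L i).meas.div_const _)
  have mRI : Measurable RI := by
    refine Finset.measurable_sum _ fun i _ => ?_
    exact ((((PG.lincoord B i).pow 4).meas.div_const _).add
      (((hthm i).pow_const 2).const_mul _)).const_mul _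
  have mRII : Measurable RII := by
    refine Finset.measurable_sum _ fun i _ => ?_
    exact ((((mx_PG_U hp1 L B i).pow 4).meas.div_const _).add
      (((hthm i).pow_const 2).const_mul _)).const_mul _
  have nRI : ∀ x, 0 ≤ RI x := fun x => Finset.sum_nonneg fun i _ =>
    mul_nonneg (om_nonneg p L i) (add_nonneg (div_nonneg (by positivity) (hβ i).le)
      (mul_nonneg (hβ i).le (sq_nonneg _)))
  have nRII : ∀ x, 0 ≤ RII x := fun x => Finset.sum_nonneg fun i _ =>
    mul_nonneg (om_nonneg p L i) (add_nonneg (div_nonneg (by positivity) (hτ i).le)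
      (mul_nonneg (hτ i).le (sq_nonneg _)))
  have hPair : Pair p L (fun x => ∑ i, sp p (L x i) * B x i)
      (fun x => 1089 * (p - 2) ^ 2 * RI x + RII x) := by
    refine ⟨(mRI.const_mul _).add mRII, fun x => ?_, fun x hx y hy => ?_⟩
    · exact add_nonneg (mul_nonneg (by positivity) (nRI x)) (nRII x)
    · have q0 := mx_qf_nonneg p L x y
      have k1 := (pair_F0 hp hp2 L hL (B (x + y))).le x hx y hy
      have k2 := (pair_lin hp hp2 L hL hpos (Uv p L B x + Uv p L B y)).le x hx y hy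
      have s1 : (1089 * (p - 2) ^ 2 * ∑ i, om p L i * (B (x + y) i ^ 2 * th (L x i / sg p L i)))
          + (1089 * (p - 2) ^ 2 * ∑ i, om p L i * (B (x + y) i ^ 2 * th (L y i / sg p L i)))
          ≤ 2 * (1089 * (p - 2) ^ 2 * (RI x + RI y)) := by
        rw [← mul_add, ← Finset.sum_add_distrib]
        have : ∑ i, (om p L i * (B (x + y) i ^ 2 * th (L x i / sg p L i))
            + om p L i * (B (x + y) i ^ 2 * th (L y i / sg p L i))) ≤ 2 * (RI x + RI y) := by
          simp only [hRI]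
          rw [← Finset.sum_add_distrib, Finset.mul_sum]
          refine Finset.sum_le_sum fun i _ => ?_
          have h := mx_split (a := B x i) (a' := B y i) (mx_th_nonneg (L x i / sg p L i))
            (mx_th_nonneg (L y i / sg p L i)) (hβ i)
          have h' := mul_le_mul_of_nonneg_left h (om_nonneg p L i)
          have e : B (x + y) i = B x i + B y i := by rw [map_add, Pi.add_apply]
          rw [e]
          linarith
        have h' := mul_le_mul_of_nonneg_left this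
          (show (0 : ℝ) ≤ 1089 * (p - 2) ^ 2 by positivity)
        linarith
      have s2 : (∑ i, om p L i * (L (Uv p L B x + Uv p L B y) i ^ 2 * th (L x i / sg p L i)))
          + (∑ i, om p L i * (L (Uv p L B x + Uv p L B y) i ^ 2 * th (L y i / sg p L i)))
          ≤ 2 * (RII x + RII y) := by
        rw [← Finset.sum_add_distrib]
        simp only [hRII]
        rw [← Finset.sum_add_distrib, Finset.mul_sum]
        refine Finset.sum_le_sum fun i _ => ?_
        have h := mx_split (a := L (Uv p L B x) i) (a' := L (Uv p L B y) i)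
          (mx_th_nonneg (L x i / sg p L i)) (mx_th_nonneg (L y i / sg p L i)) (hτ i)
        have h' := mul_le_mul_of_nonneg_left h (om_nonneg p L i)
        have e : L (Uv p L B x + Uv p L B y) i = L (Uv p L B x) i + L (Uv p L B y) i := by
          rw [map_add, Pi.add_apply]
        rw [e]
        linarith
      have k1' := k1.trans (mul_le_mul_of_nonneg_left s1 q0)
      have k2' := k2.trans (mul_le_mul_of_nonneg_left s2 q0)
      rw [mx_id]
      have k3 : ∀ I J : ℝ, (1 / 2 * I + 1 / 2 * J) ^ 2 ≤ 1 / 2 * I ^ 2 + 1 / 2 * J ^ 2 := by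
        intro I J
        nlinarith [sq_nonneg (I - J)]
      refine (k3 _ _).trans ?_
      simp only [Pi.add_apply] at k2'
      linarith
  have tI := fun i => mx_term hCt hp hp2 L hL i ((PG.lincoord B i).pow 4) (hβ i)
    (M := K * (∑ a, B (Pi.single a 1) i ^ 2) ^ 2) (by
      have h := h4 (fun a => B (Pi.single a 1) i)
      have e : (fun x : Fin m → ℝ => B x i ^ 4)
          = fun x => (∑ a, B (Pi.single a 1) i * x a) ^ 4 := by
        funext x
        rw [L_apply B x i]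
        congr 1
        exact Finset.sum_congr rfl fun a _ => by ring
      rw [e]
      exact h)
  have tII := fun i => mx_term hCt hp hp2 L hL i ((mx_PG_U hp1 L B i).pow 4) (hτ i)
    (M := 8 * (K + K₁) * τ i ^ 2) (by
      let P : (Fin m → ℝ) → ℝ := fun x => ∑ b, L (J0 p L (B (Pi.single b 1))) i * x b
      let Q : (Fin m → ℝ) → ℝ := fun x =>
        ∑ j, sp p (L x j) * B (fun a => L (Pi.single a 1) i) j
      have ePQ : (fun x => L (Uv p L B x) i ^ 4) = fun x => (P x + Q x) ^ 4 := by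
        funext x
        rw [mx_LU p L B x i]
      rw [ePQ]
      have pP : PG P := PG.sum _ fun b _ => PG.const_mul _ (PG.coord b)
      have pQ : PG Q := PG.sum _ fun j _ => (PG.sp' hp1 (PG.lincoord L j)).mul (PG.const _)
      have i1 : Integrable (fun x => P x ^ 4) (gm p L) := (pP.pow 4).int hp1 L hL
      have i2 : Integrable (fun x => Q x ^ 4) (gm p L) := (pQ.pow 4).int hp1 L hL
      have i3 : Integrable (fun x => (P x + Q x) ^ 4) (gm p L) := ((pP.add pQ).pow 4).int hp1 L hL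
      have j1 : ∫ x, P x ^ 4 ∂(gm p L) ≤ K * τ i ^ 2 := by
        refine (h4 (fun b => L (J0 p L (B (Pi.single b 1))) i)).trans ?_
        refine mul_le_mul_of_nonneg_left ?_ (by linarith)
        refine pow_le_pow_left₀ (hr0 i) ?_ 2
        simp only [hτd]
        linarith [hv0 i]
      have j2 : ∫ x, Q x ^ 4 ∂(gm p L) ≤ K₁ * τ i ^ 2 := by
        refine (h4' _ (hB (fun a => L (Pi.single a 1) i))).trans ?_
        have e : K₁ * (p - 2) ^ 4 * nk p L (B (fun a => L (Pi.single a 1) i)) ^ 2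
            = K₁ * ((p - 2) ^ 2 * nk p L (B (fun a => L (Pi.single a 1) i))) ^ 2 := by ring
        rw [e]
        refine mul_le_mul_of_nonneg_left ?_ (by linarith)
        refine pow_le_pow_left₀ (hv0 i) ?_ 2
        simp only [hτd]
        linarith [hr0 i]
      have j3 : ∫ x, (P x + Q x) ^ 4 ∂(gm p L) ≤ ∫ x, 8 * (P x ^ 4 + Q x ^ 4) ∂(gm p L) :=
        integral_mono i3 ((i1.add i2).const_mul 8) fun x => mx_four _ _
      rw [integral_const_mul, integral_add i1 i2] at j3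
      linarith)
  have iRI : Integrable RI (gm p L) := integrable_finsetSum _ fun i _ => (tI i).1
  have iRII : Integrable RII (gm p L) := integrable_finsetSum _ fun i _ => (tII i).1
  have eRI : ∫ x, RI x ∂(gm p L) ≤ (K + Ct) * (nB p L B + η * ∑ i, om p L i) := by
    simp only [hRI]
    rw [integral_finsetSum _ fun i _ => (tI i).1]
    have h1 : (K + Ct) * (nB p L B + η * ∑ i, om p L i)
        = ∑ i, om p L i * ((K + Ct) * β i) := by
      rw [mx_nB, Finset.mul_sum, ← Finset.sum_add_distrib, Finset.mul_sum]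
      refine Finset.sum_congr rfl fun i _ => ?_
      simp only [hβd]
      ring
    rw [h1]
    refine Finset.sum_le_sum fun i _ => (tI i).2.trans ?_
    refine mul_le_mul_of_nonneg_left ?_ (om_nonneg p L i)
    have h2 : K * (∑ a, B (Pi.single a 1) i ^ 2) ^ 2 / β i ≤ K * β i := by
      rw [div_le_iff₀ (hβ i), mul_assoc]
      refine mul_le_mul_of_nonneg_left ?_ (by linarith)
      rw [sq]
      have h3 : ∑ a, B (Pi.single a 1) i ^ 2 ≤ β i := by simp only [hβd]; linarith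
      exact mul_le_mul h3 h3 (hb0 i) (hβ i).le
    linarith
  have eRII : ∫ x, RII x ∂(gm p L) ≤ (8 * K + 8 * K₁ + Ct) *
      ((K₁ + 1) * (p - 2) ^ 2 * nB p L B + η * ∑ i, om p L i) := by
    simp only [hRII]
    rw [integral_finsetSum _ fun i _ => (tII i).1]
    have h1 : ∑ i, om p L i * τ i
        ≤ (K₁ + 1) * (p - 2) ^ 2 * nB p L B + η * ∑ i, om p L i := by
      have h2 := mx_r p L B hpos hJ hB
      have h3 := mx_v p L B hpos
      have h4 : ∑ i, om p L i * τ i = (∑ i, om p L i * ∑ b, L (J0 p L (B (Pi.single b 1))) i ^ 2)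
          + (p - 2) ^ 2 * (∑ i, om p L i * nk p L (B (fun a => L (Pi.single a 1) i)))
          + η * ∑ i, om p L i := by
        rw [Finset.mul_sum, Finset.mul_sum, ← Finset.sum_add_distrib, ← Finset.sum_add_distrib]
        refine Finset.sum_congr rfl fun i _ => ?_
        simp only [hτd]
        ring
      rw [h4, h3]
      linarith
    have h5 : 0 ≤ 8 * K + 8 * K₁ + Ct := by linarith
    refine le_trans ?_ (mul_le_mul_of_nonneg_left h1 h5)
    rw [Finset.mul_sum]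
    refine Finset.sum_le_sum fun i _ => (tII i).2.trans ?_
    have h6 : 8 * (K + K₁) * τ i ^ 2 / τ i = 8 * (K + K₁) * τ i := by
      have := (hτ i).ne'
      field_simp
    rw [h6]
    have e : om p L i * (8 * (K + K₁) * τ i + τ i * Ct)
        = (8 * K + 8 * K₁ + Ct) * (om p L i * τ i) := by ring
    rw [e]
  have hvar := var2 hp L hL (mx_PG_G hp1 L B) hPair ((iRI.const_mul _).add iRII)
    (mx_G0 hp1 L B hL hB)
  rw [integral_add (iRI.const_mul _) iRII, integral_const_mul] at hvar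
  refine hvar.trans ?_
  have h7 := mul_le_mul_of_nonneg_left eRI (show (0 : ℝ) ≤ 4356 * (p - 2) ^ 2 by positivity)
  linarith

theorem main_est : ∃ (ε C : ℝ), 0 < ε ∧ ε ≤ 1 / 16 ∧ 1 ≤ C ∧
    ∀ (m n : ℕ) (p : ℝ) (L B : (Fin m → ℝ) →ₗ[ℝ] (Fin n → ℝ)),
    |p - 2| ≤ ε → p ≠ 2 → Function.Injective L → Pos p L → (∀ x, inK p L (B x)) →
    ∫ x, (∑ i, sp p (L x i) * B x i) ^ 2 ∂(gm p L) ≤ C * (p - 2) ^ 2 * nB p L B := by
  obtain ⟨Ct, hCt1, hCt⟩ := th_moment
  obtain ⟨K, hK1, hK⟩ := mom4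
  obtain ⟨ε, K₁, hε, hε1, hK₁1, hcov⟩ := cov_kernel
  refine ⟨ε, 4356 * (K + Ct) + 4 * ((8 * K + 8 * K₁ + Ct) * (K₁ + 1)), hε, hε1, ?_, ?_⟩
  · nlinarith
  intro m n p L B hp hp2 hL hpos hB
  have hp' : |p - 2| ≤ 1 / 16 := hp.trans hε1
  have hm := hK m n p L hp' hp2 hL
  have hc := hcov m n p L hp hp2 hL hpos
  have hmain := fun (η : ℝ) (hη : 0 < η) => mx_main hCt1 hK1 hK₁1 hCt hp' hp2 L B hL hpos
    (hm.2 hpos) hc.2.1 hc.2.2 hB hη
  have hW : 0 ≤ ∑ i, om p L i := Finset.sum_nonneg fun i _ => om_nonneg p L i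
  set W := ∑ i, om p L i with hWd
  set D := 4356 * (p - 2) ^ 2 * ((K + Ct) * W) + 4 * ((8 * K + 8 * K₁ + Ct) * W) with hD
  have hD0 : 0 ≤ D := by
    have : 0 ≤ K + Ct := by linarith
    have : 0 ≤ 8 * K + 8 * K₁ + Ct := by linarith
    positivity
  refine le_of_forall_pos_le_add fun δ hδ => ?_
  have h := hmain (δ / (D + 1)) (by positivity)
  have h8 : δ / (D + 1) * D ≤ δ := by
    rw [div_mul_eq_mul_div, div_le_iff₀ (by positivity)]
    nlinarith
  have h9 : 4356 * (p - 2) ^ 2 * ((K + Ct) * (nB p L B + δ / (D + 1) * W)) +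
      4 * ((8 * K + 8 * K₁ + Ct) * ((K₁ + 1) * (p - 2) ^ 2 * nB p L B + δ / (D + 1) * W))
      = (4356 * (K + Ct) + 4 * ((8 * K + 8 * K₁ + Ct) * (K₁ + 1))) * (p - 2) ^ 2 * nB p L B
        + δ / (D + 1) * D := by
    rw [hD]
    ring
  rw [h9] at h
  linarith

end Pool.Agent.Helper590_Face.G6
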