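import Pool.Agent.Helper590_Face.U.Est
import Pool.Agent.Helper590_Face.U.Scalar2
import Pool.Agent.Helper590_Face.U.ThMoment

set_option autoImplicit false

namespace Pool.Agent.Helper590_Face.G9

open Pool.Agent.Helper590_Face.G1


open MeasureTheory Set
open scoped ENNReal

variable {m n : ℕ}

theorem ps_weight {p : ℝ} (hp : |p - 2| ≤ 1 / 16) {α β : ℝ} (hα : α ≠ 0) :
    1 / (2 + |α| + |α| ^ (-(1 / 4) : ℝ) + |β|) ≤ (|α| + |β|) ^ (p - 2) := by
  have hp1 := abs_le.mp hp
  have hα' : 0 < |α| := abs_pos.mpr hα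
  have hβ' : 0 ≤ |β| := abs_nonneg β
  have hq : 0 < |α| ^ (-(1 / 4) : ℝ) := Real.rpow_pos_of_pos hα' _
  have hT : 0 < |α| + |β| := by linarith
  have hD : 1 ≤ 2 + |α| + |α| ^ (-(1 / 4) : ℝ) + |β| := by linarith
  have hDp : 0 < 2 + |α| + |α| ^ (-(1 / 4) : ℝ) + |β| := by linarith
  have h1D : 1 / (2 + |α| + |α| ^ (-(1 / 4) : ℝ) + |β|) ≤ 1 := by
    rw [div_le_one hDp]; exact hD
  rcases le_or_gt p 2 with h2 | h2
  · rcases le_or_gt 1 (|α| + |β|) with h3 | h3
    · have h4 : (|α| + |β|) ^ (-1 : ℝ) ≤ (|α| + |β|) ^ (p - 2) :=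
        Real.rpow_le_rpow_of_exponent_le h3 (by linarith)
      refine le_trans ?_ h4
      rw [Real.rpow_neg_one, ← one_div]
      exact one_div_le_one_div_of_le hT (by linarith)
    · refine h1D.trans ?_
      exact Real.one_le_rpow_of_pos_of_le_one_of_nonpos hT h3.le (by linarith)
  · have h3 : |α| ^ (p - 2) ≤ (|α| + |β|) ^ (p - 2) :=
      Real.rpow_le_rpow hα'.le (by linarith) (by linarith)
    refine le_trans ?_ h3
    rcases le_or_gt 1 |α| with h4 | h4
    · exact h1D.trans (Real.one_le_rpow h4 (by linarith))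
    · have h5 : |α| ^ (1 / 4 : ℝ) ≤ |α| ^ (p - 2) :=
        Real.rpow_le_rpow_of_exponent_ge hα' h4.le (by linarith)
      refine le_trans ?_ h5
      have h6 : |α| ^ (1 / 4 : ℝ) = 1 / |α| ^ (-(1 / 4) : ℝ) := by
        rw [Real.rpow_neg hα'.le, one_div (_)⁻¹, inv_inv]
      rw [h6]
      exact one_div_le_one_div_of_le hq (by linarith)


theorem ph_second {p : ℝ} (hp : |p - 2| ≤ 1 / 16) (hp2 : p ≠ 2)
    (L : (Fin m → ℝ) →ₗ[ℝ] (Fin n → ℝ)) (hL : Function.Injective L)
    (B : (Fin m → ℝ) →ₗ[ℝ] (Fin n → ℝ)) (x : Fin m → ℝ) (hx : x ∈ gen L) :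
    ph p L x + p * (∑ i, sp p (L x i) * B x i) + hh p L B x +
      ∑ i, (if sg p L i = 0 then |B x i| ^ p else 0) ≤ ph p (⇑(L + B)) x := by
  have hp1 := abs_le.mp hp
  have hp0 : 1 < p := by linarith [hp1.1]
  unfold ph hh
  rw [Finset.mul_sum, Finset.mul_sum, ← Finset.sum_add_distrib, ← Finset.sum_add_distrib,
    ← Finset.sum_add_distrib]
  refine Finset.sum_le_sum fun i _ => ?_
  have hLB : (L + B) x i = L x i + B x i := rfl
  rw [hLB]
  rcases eq_or_ne (sg p L i) 0 with h0 | h0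
  · have ha := sg_eq_zero hp0 L hL i h0 x
    have hom : om p L i = 0 := by
      unfold om
      rw [h0]
      exact Real.zero_rpow (sub_ne_zero.mpr hp2)
    rw [if_pos h0, ha, hom, sp_zero, zero_mul, zero_mul, mul_zero, mul_zero, abs_zero,
      Real.zero_rpow (by linarith), zero_add, zero_add, zero_add, zero_add]
  · rw [if_neg h0, add_zero]
    have hs : 0 < sg p L i := lt_of_le_of_ne (sg_nonneg p L i) (Ne.symm h0)
    have ha : L x i ≠ 0 := by
      intro ha
      have hz := hx i ha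
      apply h0
      unfold sg
      simp [hz]
    have hsc := JS3.scalar2 hp (L x i) (B x i)
    set a := L x i with ha_def
    set b := B x i with hb_def
    set s := sg p L i with hs_def
    have hw := ps_weight (p := p) hp (α := a / s) (β := b / s) (div_ne_zero ha hs.ne')
    have e1 : |a| + |b| = s * (|a / s| + |b / s|) := by
      rw [abs_div, abs_div, abs_of_pos hs]
      field_simp
    have e2 : (|a| + |b|) ^ (p - 2) = om p L i * (|a / s| + |b / s|) ^ (p - 2) := by
      rw [e1, Real.mul_rpow hs.le (by positivity)]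
      rfl
    have hom := om_nonneg p L i
    have key : om p L i * (b ^ 2 / (2 + |a / s| + |a / s| ^ (-(1 / 4) : ℝ) + |b / s|)) ≤
        (|a| + |b|) ^ (p - 2) * b ^ 2 := by
      rw [e2, mul_assoc]
      refine mul_le_mul_of_nonneg_left ?_ hom
      rw [div_eq_mul_one_div, mul_comm]
      exact mul_le_mul_of_nonneg_right hw (sq_nonneg b)
    have : p * (sp p a * b) = p * sp p a * b := by ring
    rw [this]
    linarith

end Pool.Agent.Helper590_Face.G9
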