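import Pool.Agent.Helper590_Face.U.Est
import Pool.Agent.Helper590_Face.U.ThMoment

set_option autoImplicit false

namespace Pool.Agent.Helper590_Face.G8

open Pool.Agent.Helper590_Face.G1


open MeasureTheory Set
open scoped ENNReal

variable {m n : ℕ}

namespace UG8

theorem exp_neg_le {H : ℝ} (hH : 0 ≤ H) : Real.exp (-H) ≤ 1 - H + H ^ 2 := by
  have h1 : 1 + H ≤ Real.exp H := by linarith [Real.add_one_le_exp H]
  have h2 : Real.exp (-H) * Real.exp H = 1 := by rw [← Real.exp_add]; simp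
  have h4 : Real.exp (-H) * (1 + H) ≤ 1 := by
    calc _ ≤ Real.exp (-H) * Real.exp H := by gcongr
      _ = 1 := h2
  have h5 : (1 - H + H ^ 2) * (1 + H) = 1 + H ^ 3 := by ring
  have h6 : 0 ≤ H ^ 3 := by positivity
  by_contra hc
  push Not at hc
  have : (1 - H + H ^ 2) * (1 + H) < Real.exp (-H) * (1 + H) :=
    mul_lt_mul_of_pos_right hc (by linarith)
  linarith

theorem pointwise (u H : ℝ) (hH : 0 ≤ H) :
    Real.exp (-u - H) ≤ 1 - u + u ^ 2 - H + (|u| ^ 3 + |u| * H + H ^ 2) * Real.exp |u| := by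
  have e1 : Real.exp (-u - H) = Real.exp (-u) * Real.exp (-H) := by
    rw [← Real.exp_add]; ring_nf
  have h1 := exp_neg_le hH
  have h2 : 1 - u ≤ Real.exp (-u) := by linarith [Real.add_one_le_exp (-u)]
  have h3 : Real.exp (-u) ≤ Real.exp |u| := Real.exp_le_exp.2 (neg_le_abs u)
  have h4 := exp_le_quad (-u)
  rw [abs_neg] at h4
  have h5 : Real.exp |u| ≤ 1 + |u| * Real.exp |u| := by
    have h6 : 1 - |u| ≤ Real.exp (-|u|) := by linarith [Real.add_one_le_exp (-|u|)]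
    have h7 : Real.exp |u| * Real.exp (-|u|) = 1 := by rw [← Real.exp_add]; simp
    have h8 : Real.exp |u| * (1 - |u|) ≤ Real.exp |u| * Real.exp (-|u|) :=
      mul_le_mul_of_nonneg_left h6 (Real.exp_pos _).le
    linarith
  have hE : 1 ≤ Real.exp |u| := Real.one_le_exp (abs_nonneg u)
  have k1 : Real.exp (-u) * Real.exp (-H) ≤ Real.exp (-u) * (1 - H + H ^ 2) :=
    mul_le_mul_of_nonneg_left h1 (Real.exp_pos _).le
  have k2 : u ^ 2 * Real.exp |u| ≤ u ^ 2 + |u| ^ 3 * Real.exp |u| := by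
    have : u ^ 2 * Real.exp |u| ≤ u ^ 2 * (1 + |u| * Real.exp |u|) :=
      mul_le_mul_of_nonneg_left h5 (sq_nonneg _)
    have e : u ^ 2 * (1 + |u| * Real.exp |u|) = u ^ 2 + |u| ^ 3 * Real.exp |u| := by
      rw [← sq_abs u]; ring
    linarith
  have k3 : (1 - u) * H ≤ Real.exp (-u) * H := mul_le_mul_of_nonneg_right h2 hH
  have k4 : u * H ≤ |u| * H * Real.exp |u| := by
    have a1 : u * H ≤ |u| * H := mul_le_mul_of_nonneg_right (le_abs_self u) hH
    have a2 : |u| * H * 1 ≤ |u| * H * Real.exp |u| :=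
      mul_le_mul_of_nonneg_left hE (mul_nonneg (abs_nonneg _) hH)
    linarith
  have k5 : Real.exp (-u) * H ^ 2 ≤ Real.exp |u| * H ^ 2 :=
    mul_le_mul_of_nonneg_right h3 (sq_nonneg _)
  rw [e1]
  have k6 : (-u) ^ 2 * Real.exp |u| = u ^ 2 * Real.exp |u| := by ring
  nlinarith

theorem B_sq_le (B : (Fin m → ℝ) →ₗ[ℝ] (Fin n → ℝ)) (x : Fin m → ℝ) (i : Fin n) :
    B x i ^ 2 ≤ m * ‖x‖ ^ 2 * ∑ a, B (Pi.single a 1) i ^ 2 := by
  rw [L_apply B x i]
  have h := Finset.sum_mul_sq_le_sq_mul_sq Finset.univ x (fun a => B (Pi.single a 1) i)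
  refine h.trans ?_
  have h2 : ∑ a, x a ^ 2 ≤ m * ‖x‖ ^ 2 := by
    calc ∑ a, x a ^ 2 ≤ ∑ a : Fin m, ‖x‖ ^ 2 := by
          apply Finset.sum_le_sum
          intro a _
          have := norm_le_pi_norm x a
          rw [Real.norm_eq_abs] at this
          rw [← sq_abs]
          gcongr
      _ = _ := by simp
  exact mul_le_mul_of_nonneg_right h2 (Finset.sum_nonneg fun _ _ => sq_nonneg _)

theorem nk_le (p : ℝ) (L B : (Fin m → ℝ) →ₗ[ℝ] (Fin n → ℝ)) (x : Fin m → ℝ) :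
    nk p L (B x) ≤ m * ‖x‖ ^ 2 * nB p L B := by
  unfold nB nk
  calc ∑ i, om p L i * B x i ^ 2
      ≤ ∑ i, om p L i * (m * ‖x‖ ^ 2 * ∑ a, B (Pi.single a 1) i ^ 2) :=
        Finset.sum_le_sum fun i _ => mul_le_mul_of_nonneg_left (B_sq_le B x i) (om_nonneg p L i)
    _ = m * ‖x‖ ^ 2 * ∑ a, ∑ i, om p L i * B (Pi.single a 1) i ^ 2 := by
        rw [Finset.sum_comm, Finset.mul_sum]
        refine Finset.sum_congr rfl fun i _ => ?_
        rw [← Finset.mul_sum]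
        ring

theorem nk_nonneg (p : ℝ) (L : (Fin m → ℝ) →ₗ[ℝ] (Fin n → ℝ)) (k : Fin n → ℝ) : 0 ≤ nk p L k :=
  Finset.sum_nonneg fun i _ => mul_nonneg (om_nonneg p L i) (sq_nonneg _)

theorem nB_nonneg (p : ℝ) (L B : (Fin m → ℝ) →ₗ[ℝ] (Fin n → ℝ)) : 0 ≤ nB p L B :=
  Finset.sum_nonneg fun _ _ => nk_nonneg p L _

theorem den_ge (p : ℝ) (L B : (Fin m → ℝ) →ₗ[ℝ] (Fin n → ℝ)) (x : Fin m → ℝ) (i : Fin n) :
    2 ≤ 2 + |L x i / sg p L i| + |L x i / sg p L i| ^ (-(1 / 4) : ℝ) + |B x i / sg p L i| := by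
  have h1 : 0 ≤ |L x i / sg p L i| := abs_nonneg _
  have h2 : 0 ≤ |L x i / sg p L i| ^ (-(1 / 4) : ℝ) := Real.rpow_nonneg h1 _
  have h3 : 0 ≤ |B x i / sg p L i| := abs_nonneg _
  linarith

theorem hh_nonneg (p : ℝ) (L B : (Fin m → ℝ) →ₗ[ℝ] (Fin n → ℝ)) (x : Fin m → ℝ) :
    0 ≤ hh p L B x := by
  unfold hh
  refine mul_nonneg (by norm_num) (Finset.sum_nonneg fun i _ => mul_nonneg (om_nonneg p L i) ?_)
  exact div_nonneg (sq_nonneg _) (by linarith [den_ge p L B x i])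

theorem hh_le (p : ℝ) (L B : (Fin m → ℝ) →ₗ[ℝ] (Fin n → ℝ)) (x : Fin m → ℝ) :
    hh p L B x ≤ m * ‖x‖ ^ 2 * nB p L B := by
  have h1 : hh p L B x ≤ 1 / 4 * nk p L (B x) := by
    unfold hh nk
    refine mul_le_mul_of_nonneg_left (Finset.sum_le_sum fun i _ =>
      mul_le_mul_of_nonneg_left ?_ (om_nonneg p L i)) (by norm_num)
    exact div_le_self (sq_nonneg _) (by linarith [den_ge p L B x i])
  have h2 := nk_le p L B x
  have h3 := nk_nonneg p L (B x)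
  linarith

theorem term_le {p : ℝ} (hp : 1 < p) (L : (Fin m → ℝ) →ₗ[ℝ] (Fin n → ℝ))
    (hL : Function.Injective L) (B : (Fin m → ℝ) →ₗ[ℝ] (Fin n → ℝ)) (x : Fin m → ℝ) (i : Fin n) :
    |sp p (L x i) * B x i| ≤
      |L x i| ^ (p - 1) * ((Real.sqrt (om p L i))⁻¹ * (Real.sqrt m * ‖x‖ * Real.sqrt (nB p L B))) := by
  rcases (om_nonneg p L i).eq_or_lt with h0 | h0
  · have hs : sg p L i = 0 := by
      by_contra hne
      have hpos : 0 < sg p L i := lt_of_le_of_ne (sg_nonneg p L i) (Ne.symm hne)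
      have : 0 < om p L i := Real.rpow_pos_of_pos hpos _
      linarith
    have hz := sg_eq_zero hp L hL i hs x
    rw [hz, sp_zero, zero_mul, abs_zero]
    positivity
  · rw [abs_mul, abs_sp hp]
    refine mul_le_mul_of_nonneg_left ?_ (Real.rpow_nonneg (abs_nonneg _) _)
    have h1 : om p L i * B x i ^ 2 ≤ m * ‖x‖ ^ 2 * nB p L B := by
      refine le_trans ?_ (nk_le p L B x)
      unfold nk
      exact Finset.single_le_sum (f := fun i => om p L i * B x i ^ 2)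
        (fun j _ => mul_nonneg (om_nonneg p L j) (sq_nonneg _)) (Finset.mem_univ i)
    have h2 := Real.sqrt_le_sqrt h1
    rw [Real.sqrt_mul h0.le, Real.sqrt_sq_eq_abs, Real.sqrt_mul (by positivity),
      Real.sqrt_mul (by positivity), Real.sqrt_sq (norm_nonneg _)] at h2
    have h3 : 0 < Real.sqrt (om p L i) := Real.sqrt_pos.2 h0
    rw [inv_mul_eq_div, le_div_iff₀ h3]
    linarith

theorem norm_rpow_mul {p : ℝ} (hp : 1 < p) (x : Fin m → ℝ) : ‖x‖ ^ (p - 1) * ‖x‖ = ‖x‖ ^ p := by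
  rcases (norm_nonneg x).eq_or_lt with h | h
  · rw [← h, Real.zero_rpow (by linarith), Real.zero_rpow (by linarith), mul_zero]
  · nth_rewrite 2 [← Real.rpow_one ‖x‖]
    rw [← Real.rpow_add h]
    ring_nf

/-- bound of the first order term -/
theorem u_le {p : ℝ} (hp : 1 < p) (L : (Fin m → ℝ) →ₗ[ℝ] (Fin n → ℝ))
    (hL : Function.Injective L) : ∃ C : ℝ, 0 ≤ C ∧ ∀ (B : (Fin m → ℝ) →ₗ[ℝ] (Fin n → ℝ)) x,
      |p * ∑ i, sp p (L x i) * B x i| ≤ C * Real.sqrt (nB p L B) * ‖x‖ ^ p := by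
  obtain ⟨M, hM, hMb⟩ := JE.abs_apply_le L
  refine ⟨p * ∑ i, M ^ (p - 1) * ((Real.sqrt (om p L i))⁻¹ * Real.sqrt m), ?_, fun B x => ?_⟩
  · have : 0 ≤ p := by linarith
    positivity
  · rw [abs_mul, abs_of_pos (by linarith : (0 : ℝ) < p)]
    have h1 : |∑ i, sp p (L x i) * B x i| ≤ ∑ i, M ^ (p - 1) * ((Real.sqrt (om p L i))⁻¹ *
        Real.sqrt m) * (Real.sqrt (nB p L B) * ‖x‖ ^ p) := by
      refine (Finset.abs_sum_le_sum_abs _ _).trans (Finset.sum_le_sum fun i _ => ?_)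
      refine (term_le hp L hL B x i).trans ?_
      have h2 : |L x i| ^ (p - 1) ≤ M ^ (p - 1) * ‖x‖ ^ (p - 1) := by
        rw [← Real.mul_rpow hM (norm_nonneg _)]
        exact Real.rpow_le_rpow (abs_nonneg _) (hMb x i) (by linarith)
      calc |L x i| ^ (p - 1) * ((Real.sqrt (om p L i))⁻¹ * (Real.sqrt m * ‖x‖ * Real.sqrt (nB p L B)))
          ≤ (M ^ (p - 1) * ‖x‖ ^ (p - 1)) *
            ((Real.sqrt (om p L i))⁻¹ * (Real.sqrt m * ‖x‖ * Real.sqrt (nB p L B))) :=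
            mul_le_mul_of_nonneg_right h2 (by positivity)
        _ = M ^ (p - 1) * ((Real.sqrt (om p L i))⁻¹ * Real.sqrt m) *
            (Real.sqrt (nB p L B) * (‖x‖ ^ (p - 1) * ‖x‖)) := by ring
        _ = _ := by rw [norm_rpow_mul hp]
    rw [← Finset.sum_mul] at h1
    calc p * |∑ i, sp p (L x i) * B x i| ≤ p * ((∑ i, M ^ (p - 1) * ((Real.sqrt (om p L i))⁻¹ *
        Real.sqrt m)) * (Real.sqrt (nB p L B) * ‖x‖ ^ p)) :=
          mul_le_mul_of_nonneg_left h1 (by linarith)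
      _ = _ := by ring

/-- lower bound of the potential -/
theorem ph_lower' {p : ℝ} (hp : 1 < p) (L : (Fin m → ℝ) →ₗ[ℝ] (Fin n → ℝ))
    (hL : Function.Injective L) : ∃ c : ℝ, 0 < c ∧ ∀ x, c * ‖x‖ ^ p ≤ ph p L x := by
  obtain ⟨K, hK, hA⟩ := LinearMap.exists_antilipschitzWith L (LinearMap.ker_eq_bot.2 hL)
  have hK' : (0 : ℝ) < K := by exact_mod_cast hK
  refine ⟨((K : ℝ)⁻¹) ^ p, by positivity, fun x => ?_⟩
  have h1 : ‖x‖ ≤ K * ‖L x‖ := by
    have := hA.le_mul_dist x 0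
    simpa using this
  have h2 : (K : ℝ)⁻¹ * ‖x‖ ≤ ‖L x‖ := by
    rw [inv_mul_le_iff₀ hK']
    exact h1
  rw [← Real.mul_rpow (by positivity) (norm_nonneg _)]
  have h3 : ((K : ℝ)⁻¹ * ‖x‖) ^ p ≤ ‖L x‖ ^ p :=
    Real.rpow_le_rpow (by positivity) h2 (by linarith)
  refine h3.trans ?_
  unfold ph
  rcases isEmpty_or_nonempty (Fin n) with hn | hn
  · have : ‖L x‖ = 0 := by
      rw [norm_eq_zero]
      exact Subsingleton.elim _ _
    rw [this, Real.zero_rpow (by linarith)]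
    exact Finset.sum_nonneg fun i _ => Real.rpow_nonneg (abs_nonneg _) _
  · obtain ⟨i, hi⟩ : ∃ i, ‖L x‖ = ‖L x i‖ := by
      obtain ⟨i, -, hi⟩ := Finset.exists_mem_eq_sup' (s := (Finset.univ : Finset (Fin n)))
        Finset.univ_nonempty (fun i => ‖L x i‖)
      refine ⟨i, le_antisymm ?_ (norm_le_pi_norm _ i)⟩
      rw [pi_norm_le_iff_of_nonneg (norm_nonneg _)]
      intro j
      rw [← hi]
      exact Finset.le_sup' (fun i => ‖L x i‖) (Finset.mem_univ j)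
    rw [hi, Real.norm_eq_abs]
    exact Finset.single_le_sum (f := fun i => |L x i| ^ p)
      (fun j _ => Real.rpow_nonneg (abs_nonneg _) _) (Finset.mem_univ i)

/-- integrability of the majorant -/
theorem integrable_half {p : ℝ} (hp : 1 < p) (L : (Fin m → ℝ) →ₗ[ℝ] (Fin n → ℝ))
    (hL : Function.Injective L) (k : ℕ) :
    Integrable (fun x => Real.exp (ph p L x / 2) * (1 + ‖x‖) ^ k) (gm p L) := by
  rw [integrable_gm_iff hp L hL]
  set c : ℝ := (1 / 2 : ℝ) ^ (1 / p) with hc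
  have hc0 : 0 < c := by positivity
  have hcp : c ^ p = 1 / 2 := by
    rw [hc, ← Real.rpow_mul (by norm_num)]
    rw [one_div_mul_cancel (by linarith), Real.rpow_one]
  have hinj : Function.Injective (c • L) := by
    intro x y h
    apply hL
    have h' : c • L x = c • L y := by simpa using h
    exact smul_right_injective _ hc0.ne' h'
  have hph : ∀ x, ph p (c • L) x = ph p L x / 2 := by
    intro x
    unfold ph
    rw [Finset.sum_div]
    refine Finset.sum_congr rfl fun i _ => ?_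
    have : (c • L) x i = c * L x i := by simp
    rw [this, abs_mul, Real.mul_rpow (abs_nonneg _) (abs_nonneg _), abs_of_pos hc0, hcp]
    ring
  have h := JE.integrable_pg hp (c • L) hinj (fun x => (1 + ‖x‖) ^ k)
    (by fun_prop) 1 k (fun x => by rw [abs_of_nonneg (by positivity), one_mul])
  refine h.congr (Filter.Eventually.of_forall fun x => ?_)
  simp only
  have e : ph p (⇑(c • L)) x = ph p L x / 2 := hph x
  rw [e, ← mul_assoc, ← Real.exp_add]
  congr 2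
  ring

theorem measurable_hh (p : ℝ) (L B : (Fin m → ℝ) →ₗ[ℝ] (Fin n → ℝ)) :
    Measurable (fun x => hh p L B x) := by
  unfold hh
  refine Measurable.const_mul (Finset.measurable_sum _ fun i _ => ?_) _
  have h1 : Measurable (fun x => L x i) := (PG.lincoord L i).meas
  have h2 : Measurable (fun x => B x i) := (PG.lincoord B i).meas
  have h3 : Measurable (fun x => |L x i / sg p L i|) :=
    continuous_abs.measurable.comp (h1.div_const _)
  have h4 : Measurable (fun x => |B x i / sg p L i|) :=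
    continuous_abs.measurable.comp (h2.div_const _)
  refine Measurable.const_mul (Measurable.div (h2.pow_const 2) ?_) _
  exact ((measurable_const.add h3).add (h3.pow_const _)).add h4

theorem pg_hh (p : ℝ) (L B : (Fin m → ℝ) →ₗ[ℝ] (Fin n → ℝ)) : PG (fun x => hh p L B x) := by
  refine ⟨measurable_hh p L B, m * nB p L B, 2, mul_nonneg (by positivity) (nB_nonneg p L B),
    fun x => ?_⟩
  rw [abs_of_nonneg (hh_nonneg p L B x)]
  refine (hh_le p L B x).trans ?_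
  have h1 : ‖x‖ ^ 2 ≤ (1 + ‖x‖) ^ 2 := by
    have := norm_nonneg x
    gcongr
    linarith
  have h2 := nB_nonneg p L B
  calc m * ‖x‖ ^ 2 * nB p L B = m * nB p L B * ‖x‖ ^ 2 := by ring
    _ ≤ _ := mul_le_mul_of_nonneg_left h1 (by positivity)

theorem pg_u {p : ℝ} (hp : 1 < p) (L B : (Fin m → ℝ) →ₗ[ℝ] (Fin n → ℝ)) :
    PG (fun x => ∑ i, sp p (L x i) * B x i) :=
  PG.sum _ fun i _ => (PG.sp' hp (PG.lincoord L i)).mul (PG.lincoord B i)

/-- the first order term has mean zero -/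
theorem mean_u {p : ℝ} (hp : 1 < p) (L : (Fin m → ℝ) →ₗ[ℝ] (Fin n → ℝ))
    (hL : Function.Injective L) (B : (Fin m → ℝ) →ₗ[ℝ] (Fin n → ℝ))
    (hB : ∀ x, inK p L (B x)) : ∫ x, (∑ i, sp p (L x i) * B x i) ∂(gm p L) = 0 := by
  have h1 : ∀ x, (∑ i, sp p (L x i) * B x i) =
      ∑ a, (∑ i, sp p (L x i) * B (Pi.single a 1) i) * x a := by
    intro x
    simp only [Finset.sum_mul]
    rw [Finset.sum_comm]
    refine Finset.sum_congr rfl fun i _ => ?_
    rw [L_apply B x i, Finset.mul_sum]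
    refine Finset.sum_congr rfl fun a _ => ?_
    ring
  simp only [h1]
  rw [integral_finsetSum]
  · exact Finset.sum_eq_zero fun a _ => hB (Pi.single a 1) a
  · intro a _
    refine PG.int hp L hL ?_
    exact (PG.sum _ fun i _ => (PG.sp' hp (PG.lincoord L i)).mul (PG.const _)).mul (PG.coord a)

end UG8


theorem remainder {p : ℝ} (hp : |p - 2| ≤ 1 / 16) (hp2 : p ≠ 2)
    (L : (Fin m → ℝ) →ₗ[ℝ] (Fin n → ℝ)) (hL : Function.Injective L) :
    ∃ (r C : ℝ), 0 < r ∧ 0 < C ∧ ∀ B : (Fin m → ℝ) →ₗ[ℝ] (Fin n → ℝ),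
      nB p L B ≤ r ^ 2 → (∀ x, inK p L (B x)) →
      Integrable (fun x => Real.exp (-(p * ∑ i, sp p (L x i) * B x i) - hh p L B x)) (gm p L) ∧
      ∫ x, Real.exp (-(p * ∑ i, sp p (L x i) * B x i) - hh p L B x) ∂(gm p L) ≤
        1 - ∫ x, hh p L B x ∂(gm p L) + p ^ 2 * ∫ x, (∑ i, sp p (L x i) * B x i) ^ 2 ∂(gm p L)
          + C * (nB p L B * Real.sqrt (nB p L B)) := by
  have hpa := abs_le.1 hp
  have hp1 : 1 < p := by linarith [hpa.1]
  have hp3 : p ≤ 3 := by linarith [hpa.2]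
  obtain ⟨C₁, hC₁, hu⟩ := UG8.u_le hp1 L hL
  obtain ⟨c, hc, hlow⟩ := UG8.ph_lower' hp1 L hL
  have hW := UG8.integrable_half hp1 L hL 9
  set W : (Fin m → ℝ) → ℝ := fun x => Real.exp (ph p L x / 2) * (1 + ‖x‖) ^ 9 with hWdef
  have hW0 : ∀ x, 0 ≤ W x := fun x => by positivity
  have hIW : 0 ≤ ∫ x, W x ∂(gm p L) := integral_nonneg hW0
  set C₂ : ℝ := C₁ ^ 3 + C₁ * m + (m : ℝ) ^ 2 with hC₂
  have hC₂0 : 0 ≤ C₂ := by positivity
  refine ⟨min 1 (c / (2 * (C₁ + 1))), C₂ * ∫ x, W x ∂(gm p L) + 1, ?_, by positivity, ?_⟩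
  · exact lt_min one_pos (by positivity)
  intro B hB hK
  set ρ := Real.sqrt (nB p L B) with hρ
  have hnB := UG8.nB_nonneg p L B
  have hρ0 : 0 ≤ ρ := Real.sqrt_nonneg _
  have hρ2 : ρ ^ 2 = nB p L B := Real.sq_sqrt hnB
  have hρr : ρ ≤ min 1 (c / (2 * (C₁ + 1))) := by
    rw [hρ]
    refine Real.sqrt_le_iff.2 ⟨?_, hB⟩
    exact le_min zero_le_one (by positivity)
  have hρ1 : ρ ≤ 1 := hρr.trans (min_le_left _ _)
  have hρc : C₁ * ρ ≤ c / 2 := by
    have h1 : ρ ≤ c / (2 * (C₁ + 1)) := hρr.trans (min_le_right _ _)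
    rw [le_div_iff₀ (by positivity)] at h1
    nlinarith
  set u : (Fin m → ℝ) → ℝ := fun x => p * ∑ i, sp p (L x i) * B x i with hudef
  set H : (Fin m → ℝ) → ℝ := fun x => hh p L B x with hHdef
  have hH0 : ∀ x, 0 ≤ H x := UG8.hh_nonneg p L B
  have hpt : ∀ x, Real.exp (-(u x) - H x) ≤ 1 - u x + u x ^ 2 - H x + C₂ * ρ ^ 3 * W x := by
    intro x
    refine (UG8.pointwise (u x) (H x) (hH0 x)).trans ?_
    have hX1 : (1 : ℝ) ≤ 1 + ‖x‖ := by linarith [norm_nonneg x]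
    set X := 1 + ‖x‖ with hX
    have hX0 : 0 ≤ X := by linarith
    have hxX : ‖x‖ ≤ X := by rw [hX]; linarith
    have hxp : ‖x‖ ^ p ≤ X ^ 3 := by
      calc ‖x‖ ^ p ≤ X ^ p := Real.rpow_le_rpow (norm_nonneg _) hxX (by linarith)
        _ ≤ X ^ (3 : ℝ) := Real.rpow_le_rpow_of_exponent_le hX1 hp3
        _ = X ^ 3 := by norm_cast
    have hxp0 : 0 ≤ ‖x‖ ^ p := Real.rpow_nonneg (norm_nonneg _) _
    have hux : |u x| ≤ C₁ * ρ * ‖x‖ ^ p := hu B x
    have hux' : |u x| ≤ C₁ * ρ * X ^ 3 := hux.trans (by gcongr)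
    have hHx : H x ≤ m * ρ ^ 2 * X ^ 2 := by
      refine (UG8.hh_le p L B x).trans ?_
      rw [← hρ2]
      calc (m : ℝ) * ‖x‖ ^ 2 * ρ ^ 2 ≤ m * X ^ 2 * ρ ^ 2 := by gcongr
        _ = _ := by ring
    have hE : Real.exp |u x| ≤ Real.exp (ph p L x / 2) := by
      refine Real.exp_le_exp.2 (hux.trans ?_)
      have h1 := hlow x
      have h2 : C₁ * ρ * ‖x‖ ^ p ≤ c / 2 * ‖x‖ ^ p := mul_le_mul_of_nonneg_right hρc hxp0
      linarith
    have hbr : |u x| ^ 3 + |u x| * H x + H x ^ 2 ≤ C₂ * ρ ^ 3 * X ^ 9 := by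
      have hXp : ∀ k : ℕ, k ≤ 9 → X ^ k ≤ X ^ 9 := fun k hk => pow_le_pow_right₀ hX1 hk
      have a1 : |u x| ^ 3 ≤ C₁ ^ 3 * ρ ^ 3 * X ^ 9 := by
        calc |u x| ^ 3 ≤ (C₁ * ρ * X ^ 3) ^ 3 := by gcongr
          _ = _ := by ring
      have a2 : |u x| * H x ≤ C₁ * m * ρ ^ 3 * X ^ 9 := by
        calc |u x| * H x ≤ (C₁ * ρ * X ^ 3) * (m * ρ ^ 2 * X ^ 2) :=
              mul_le_mul hux' hHx (hH0 x) (by positivity)
          _ = C₁ * m * ρ ^ 3 * X ^ 5 := by ring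
          _ ≤ _ := mul_le_mul_of_nonneg_left (hXp 5 (by norm_num)) (by positivity)
      have a3 : H x ^ 2 ≤ (m : ℝ) ^ 2 * ρ ^ 3 * X ^ 9 := by
        calc H x ^ 2 ≤ (m * ρ ^ 2 * X ^ 2) ^ 2 := by
              have := hH0 x
              gcongr
          _ = (m : ℝ) ^ 2 * (ρ ^ 3 * ρ) * X ^ 4 := by ring
          _ ≤ (m : ℝ) ^ 2 * (ρ ^ 3 * 1) * X ^ 9 := by
              have := hXp 4 (by norm_num)
              gcongr
          _ = _ := by ring
      calc _ ≤ C₁ ^ 3 * ρ ^ 3 * X ^ 9 + C₁ * m * ρ ^ 3 * X ^ 9 + (m : ℝ) ^ 2 * ρ ^ 3 * X ^ 9 := by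
            linarith
        _ = _ := by rw [hC₂]; ring
    have hbr2 : (|u x| ^ 3 + |u x| * H x + H x ^ 2) * Real.exp |u x| ≤ C₂ * ρ ^ 3 * W x := by
      have h0 : 0 ≤ |u x| ^ 3 + |u x| * H x + H x ^ 2 := by
        have := hH0 x
        positivity
      calc _ ≤ (C₂ * ρ ^ 3 * X ^ 9) * Real.exp (ph p L x / 2) :=
            mul_le_mul hbr hE (Real.exp_pos _).le (by positivity)
        _ = _ := by rw [hWdef]; ring
    linarith
  have hup : PG u := (UG8.pg_u hp1 L B).const_mul p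
  have hHp : PG H := UG8.pg_hh p L B
  have := prob_gm hp1 L hL
  have iu := hup.int hp1 L hL
  have iu2 := (hup.pow 2).int hp1 L hL
  have iH := hHp.int hp1 L hL
  have j1 : Integrable (fun x => 1 - u x) (gm p L) := (integrable_const 1).sub iu
  have j2 : Integrable (fun x => 1 - u x + u x ^ 2) (gm p L) := j1.add iu2
  have j3 : Integrable (fun x => 1 - u x + u x ^ 2 - H x) (gm p L) := j2.sub iH
  have j4 : Integrable (fun x => C₂ * ρ ^ 3 * W x) (gm p L) := hW.const_mul _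
  have i1 : Integrable (fun x => 1 - u x + u x ^ 2 - H x + C₂ * ρ ^ 3 * W x) (gm p L) :=
    j3.add j4
  have iexp : Integrable (fun x => Real.exp (-(u x) - H x)) (gm p L) := by
    refine i1.mono' ?_ (Filter.Eventually.of_forall fun x => ?_)
    · exact (Real.measurable_exp.comp ((hup.meas.neg).sub hHp.meas)).aestronglyMeasurable
    · rw [Real.norm_eq_abs, abs_of_pos (Real.exp_pos _)]
      exact hpt x
  refine ⟨iexp, ?_⟩
  have hmono := integral_mono iexp i1 hpt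
  refine hmono.trans ?_
  have e1 : ∫ x, (1 - u x + u x ^ 2 - H x + C₂ * ρ ^ 3 * W x) ∂(gm p L) =
      1 - ∫ x, u x ∂(gm p L) + ∫ x, u x ^ 2 ∂(gm p L) - ∫ x, H x ∂(gm p L) +
        C₂ * ρ ^ 3 * ∫ x, W x ∂(gm p L) := by
    have j5 : ∫ x, C₂ * ρ ^ 3 * W x ∂(gm p L) = C₂ * ρ ^ 3 * ∫ x, W x ∂(gm p L) :=
      integral_const_mul _ _
    have j6 : ∫ _x, (1 : ℝ) ∂(gm p L) = 1 := by simp
    rw [integral_add j3 j4, integral_sub j2 iH, integral_add j1 iu2,
      integral_sub (integrable_const 1) iu, j5, j6]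
  have e2 : ∫ x, u x ∂(gm p L) = 0 := by
    rw [hudef, integral_const_mul, UG8.mean_u hp1 L hL B hK, mul_zero]
  have e3 : ∫ x, u x ^ 2 ∂(gm p L) = p ^ 2 * ∫ x, (∑ i, sp p (L x i) * B x i) ^ 2 ∂(gm p L) := by
    rw [← integral_const_mul]
    congr 1
    ext x
    rw [hudef]
    ring
  rw [e1, e2, e3]
  have e4 : ρ ^ 3 = nB p L B * ρ := by rw [← hρ2]; ring
  have e5 : 0 ≤ nB p L B * ρ := by positivity
  rw [e4]
  nlinarith

end Pool.Agent.Helper590_Face.G8
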