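import Pool.Agent.Helper590_Face.U.Est
import Pool.Agent.Helper590_Face.U.ThMoment
import Pool.Agent.Helper590_Face.U.MainEst
import Pool.Agent.Helper590_Face.U.HhLower
import Pool.Agent.Helper590_Face.U.Remainder
import Pool.Agent.Helper590_Face.U.PhSecond

set_option autoImplicit false

namespace Pool.Agent.Helper590_Face.G10a

open Pool.Agent.Helper590_Face.G1
open Pool.Agent.Helper590_Face.G6
open Pool.Agent.Helper590_Face.G7
open Pool.Agent.Helper590_Face.G8
open Pool.Agent.Helper590_Face.G9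


open MeasureTheory Set
open scoped ENNReal

variable {m n : ℕ}


namespace UG10a

theorem B_apply (B : (Fin m → ℝ) →ₗ[ℝ] (Fin n → ℝ)) (i : Fin n)
    (h : ∀ a, B (Pi.single a 1) i = 0) (x : Fin m → ℝ) : B x i = 0 := by
  have hx : x = ∑ k, x k • (Pi.single k 1 : Fin m → ℝ) := by
    ext j
    simp [Pi.single_apply]
  rw [hx, map_sum, Finset.sum_apply]
  refine Finset.sum_eq_zero fun k _ => ?_
  rw [map_smul, Pi.smul_apply, h k, smul_zero]

theorem hh_nonneg (p : ℝ) (L B : (Fin m → ℝ) →ₗ[ℝ] (Fin n → ℝ)) (x : Fin m → ℝ) :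
    0 ≤ hh p L B x := by
  unfold hh
  refine mul_nonneg (by norm_num) (Finset.sum_nonneg fun i _ => ?_)
  refine mul_nonneg (om_nonneg p L i) (div_nonneg (sq_nonneg _) ?_)
  have h1 := abs_nonneg (L x i / sg p L i)
  have h2 := Real.rpow_nonneg h1 (-(1 / 4) : ℝ)
  have h3 := abs_nonneg (B x i / sg p L i)
  linarith

theorem nB_nonneg (p : ℝ) (L B : (Fin m → ℝ) →ₗ[ℝ] (Fin n → ℝ)) : 0 ≤ nB p L B := by
  unfold nB nk
  exact Finset.sum_nonneg fun a _ => Finset.sum_nonneg fun i _ =>
    mul_nonneg (om_nonneg p L i) (sq_nonneg _)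

theorem nB_le (p : ℝ) (L B : (Fin m → ℝ) →ₗ[ℝ] (Fin n → ℝ)) (r : ℝ) (hr : 0 ≤ r)
    (h : ∀ a i, |B (Pi.single a 1) i| < r) :
    nB p L B ≤ (∑ _a : Fin m, ∑ i : Fin n, om p L i) * r ^ 2 := by
  unfold nB nk
  rw [Finset.sum_mul]
  refine Finset.sum_le_sum fun a _ => ?_
  rw [Finset.sum_mul]
  refine Finset.sum_le_sum fun i _ => ?_
  refine mul_le_mul_of_nonneg_left ?_ (om_nonneg p L i)
  rw [sq_le_sq, abs_of_nonneg hr]
  exact (h a i).le

end UG10a

open UG10a in
theorem strict_local_pos : ∃ ε : ℝ, 0 < ε ∧ ε ≤ 1 / 16 ∧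
    ∀ (m n : ℕ) (p : ℝ) (L : (Fin m → ℝ) →ₗ[ℝ] (Fin n → ℝ)),
    |p - 2| ≤ ε → p ≠ 2 → Function.Injective L → Pos p L →
    ∃ r : ℝ, 0 < r ∧ ∀ B : (Fin m → ℝ) →ₗ[ℝ] (Fin n → ℝ), (∀ x, inK p L (B x)) → B ≠ 0 →
      (∀ a i, |B (Pi.single a 1) i| < r) → zz p (⇑(L + B)) < zz p L := by
  obtain ⟨ε₁, C, hε₁, hε₁', hC, hmain⟩ := main_est
  obtain ⟨ε₂, c, hε₂, hε₂', hc, hhhl⟩ := hh_lower
  have hC0 : 0 < C := by linarith
  refine ⟨min (min ε₁ ε₂) (c / (10 * C)), by positivity, ?_, ?_⟩
  · exact (min_le_left _ _).trans ((min_le_left _ _).trans hε₁')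
  intro m n p L hp hp2 hL hPos
  have hp1 : |p - 2| ≤ ε₁ := hp.trans ((min_le_left _ _).trans (min_le_left _ _))
  have hp2' : |p - 2| ≤ ε₂ := hp.trans ((min_le_left _ _).trans (min_le_right _ _))
  have hp3 : |p - 2| ≤ c / (10 * C) := hp.trans (min_le_right _ _)
  have hp16 : |p - 2| ≤ 1 / 16 := hp1.trans hε₁'
  have hpb := abs_le.1 hp16
  have hpgt : 1 < p := by linarith [hpb.1]
  obtain ⟨r₁, hr₁, hh1⟩ := hhhl m n p L hp2' hp2 hL hPos
  obtain ⟨r₂, C', hr₂, hC', hrem⟩ := remainder hp16 hp2 L hL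
  set W : ℝ := (∑ _a : Fin m, ∑ i : Fin n, om p L i) + 1 with hW
  have hW0 : 0 < W := by
    have : 0 ≤ ∑ _a : Fin m, ∑ i : Fin n, om p L i :=
      Finset.sum_nonneg fun a _ => Finset.sum_nonneg fun i _ => om_nonneg p L i
    linarith
  set δ : ℝ := min (min r₁ (r₂ ^ 2)) ((c / (4 * C')) ^ 2) with hδ
  have hδ0 : 0 < δ := by positivity
  refine ⟨min 1 (δ / W), by positivity, ?_⟩
  intro B hB hB0 hBr
  set q := nB p L B with hq
  have hq0 : 0 ≤ q := nB_nonneg p L B
  have hr0 : 0 < min 1 (δ / W) := by positivity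
  have hqδ : q ≤ δ := by
    have h1 := nB_le p L B (min 1 (δ / W)) hr0.le hBr
    have h2 : (min 1 (δ / W)) ^ 2 ≤ δ / W := by
      have h3 : min 1 (δ / W) ≤ 1 := min_le_left _ _
      have h4 : min 1 (δ / W) ≤ δ / W := min_le_right _ _
      nlinarith
    have h5 : (∑ _a : Fin m, ∑ i : Fin n, om p L i) ≤ W := by rw [hW]; linarith
    calc q ≤ (∑ _a : Fin m, ∑ i : Fin n, om p L i) * (min 1 (δ / W)) ^ 2 := h1
      _ ≤ W * (δ / W) := by gcongr
      _ = δ := by field_simp
  have hqr₁ : q ≤ r₁ := hqδ.trans ((min_le_left _ _).trans (min_le_left _ _))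
  have hqr₂ : q ≤ r₂ ^ 2 := hqδ.trans ((min_le_left _ _).trans (min_le_right _ _))
  have hqs : C' * Real.sqrt q ≤ c / 4 := by
    have h1 : q ≤ (c / (4 * C')) ^ 2 := hqδ.trans (min_le_right _ _)
    have h2 : Real.sqrt q ≤ c / (4 * C') := by
      rw [← Real.sqrt_sq (by positivity : 0 ≤ c / (4 * C'))]
      exact Real.sqrt_le_sqrt h1
    calc C' * Real.sqrt q ≤ C' * (c / (4 * C')) := by gcongr
      _ = c / 4 := by field_simp
  have hgen : ∀ᵐ x ∂(volume : Measure (Fin m → ℝ)), x ∈ gen L := by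
    rw [ae_iff]
    exact gen_null L
  have hwL := integrable_w hpgt L hL
  have hzL := zz_pos hpgt L hL
  rcases hq0.eq_or_lt with h0 | hpos
  · -- the degenerate case
    have hom : ∀ i a, om p L i * B (Pi.single a 1) i ^ 2 = 0 := by
      have h1 : ∑ a : Fin m, ∑ i : Fin n, om p L i * B (Pi.single a 1) i ^ 2 = 0 := by
        have : nB p L B = 0 := by rw [← hq]; exact h0.symm
        simpa only [nB, nk] using this
      intro i a
      have h2 := (Finset.sum_eq_zero_iff_of_nonneg (fun a _ => Finset.sum_nonneg fun i _ =>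
        mul_nonneg (om_nonneg p L i) (sq_nonneg (B (Pi.single a 1) i)))).1 h1 a
          (Finset.mem_univ a)
      exact (Finset.sum_eq_zero_iff_of_nonneg (fun i _ =>
        mul_nonneg (om_nonneg p L i) (sq_nonneg (B (Pi.single a 1) i)))).1 h2 i
          (Finset.mem_univ i)
    have hBz : ∀ i, sg p L i ≠ 0 → ∀ x, B x i = 0 := by
      intro i hi x
      refine B_apply B i (fun a => ?_) x
      have h1 : 0 < sg p L i := lt_of_le_of_ne (sg_nonneg p L i) (Ne.symm hi)
      have h2 : 0 < om p L i := Real.rpow_pos_of_pos h1 _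
      have h3 := hom i a
      rcases mul_eq_zero.1 h3 with h | h
      · exact absurd h h2.ne'
      · exact pow_eq_zero_iff (by norm_num) |>.1 h
    obtain ⟨z, i₀, hz⟩ : ∃ z i₀, B z i₀ ≠ 0 := by
      by_contra hcon
      push Not at hcon
      exact hB0 (LinearMap.ext fun z => funext fun i => hcon z i)
    have hi₀ : sg p L i₀ = 0 := by
      by_contra hne
      exact hz (hBz i₀ hne z)
    have hu : ∀ x, ∑ i, sp p (L x i) * B x i = 0 := by
      intro x
      refine Finset.sum_eq_zero fun i _ => ?_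
      by_cases hi : sg p L i = 0
      · rw [sg_eq_zero hpgt L hL i hi x, sp_zero, zero_mul]
      · rw [hBz i hi x, mul_zero]
    have hkey : ∀ x ∈ gen L, ph p L x + |B x i₀| ^ p ≤ ph p (⇑(L + B)) x := by
      intro x hx
      have h1 := ph_second hp16 hp2 L hL B x hx
      rw [hu x, mul_zero, add_zero] at h1
      have h2 := hh_nonneg p L B x
      have h3 : |B x i₀| ^ p ≤ ∑ i, (if sg p L i = 0 then |B x i| ^ p else 0) := by
        have h4 := Finset.single_le_sum
          (f := fun i => if sg p L i = 0 then |B x i| ^ p else 0)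
          (fun i _ => by
            show (0 : ℝ) ≤ if sg p L i = 0 then |B x i| ^ p else 0
            split_ifs
            · positivity
            · exact le_rfl) (Finset.mem_univ i₀)
        simpa only [hi₀, if_true] using h4
      linarith
    have hle : ∀ᵐ x ∂(volume : Measure (Fin m → ℝ)),
        Real.exp (-(ph p (⇑(L + B)) x)) ≤ Real.exp (-(ph p L x)) := by
      filter_upwards [hgen] with x hx
      apply Real.exp_le_exp.2
      have h1 := hkey x hx
      have h2 : 0 ≤ |B x i₀| ^ p := by positivity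
      linarith
    have hmeas : AEStronglyMeasurable (fun x => Real.exp (-(ph p (⇑(L + B)) x)))
        (volume : Measure (Fin m → ℝ)) :=
      (Real.measurable_exp.comp (measurable_ph (p := p) (L + B)).neg).aestronglyMeasurable
    have hwB : Integrable (fun x => Real.exp (-(ph p (⇑(L + B)) x))) := by
      refine hwL.mono' hmeas ?_
      filter_upwards [hle] with x hx
      rw [Real.norm_eq_abs, abs_of_pos (Real.exp_pos _)]
      exact hx
    unfold zz
    rw [← sub_pos, ← integral_sub hwL hwB, integral_pos_iff_support_of_nonneg_ae]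
    · have hopen : IsOpen {x : Fin m → ℝ | B x i₀ ≠ 0} := by
        have hcont : Continuous fun x : Fin m → ℝ => B x i₀ :=
          LinearMap.continuous_of_finiteDimensional ((LinearMap.proj i₀) ∘ₗ B)
        exact isOpen_ne_fun hcont continuous_const
      have hpos1 : 0 < volume {x : Fin m → ℝ | B x i₀ ≠ 0} :=
        hopen.measure_pos volume ⟨z, hz⟩
      have hpos2 : 0 < volume ({x : Fin m → ℝ | B x i₀ ≠ 0} \ (gen L)ᶜ) := by
        rw [measure_sdiff_null (gen_null L)]
        exact hpos1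
      refine hpos2.trans_le (measure_mono ?_)
      intro x hx
      have hx1 : B x i₀ ≠ 0 := hx.1
      have hx2 : x ∈ gen L := by
        by_contra h
        exact hx.2 h
      rw [Function.mem_support]
      have h1 := hkey x hx2
      have h2 : 0 < |B x i₀| ^ p := Real.rpow_pos_of_pos (abs_pos.2 hx1) _
      have h3 : Real.exp (-(ph p (⇑(L + B)) x)) < Real.exp (-(ph p L x)) :=
        Real.exp_lt_exp.2 (by linarith)
      exact (sub_pos.2 h3).ne'
    · filter_upwards [hle] with x hx
      show (0 : ℝ) ≤ Real.exp (-(ph p (⇑L) x)) - Real.exp (-(ph p (⇑(L + B)) x))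
      linarith
    · exact hwL.sub hwB
  · -- the main case
    obtain ⟨hint, hbd⟩ := hrem B hqr₂ hB
    have h1 := hmain m n p L B hp1 hp2 hL hPos hB
    have h2 := hh1 B hqr₁
    rw [← hq] at h1 h2 hbd
    set Eh := ∫ x, hh p L B x ∂(gm p L) with hEh
    set E2 := ∫ x, (∑ i, sp p (L x i) * B x i) ^ 2 ∂(gm p L) with hE2
    -- the comparison of the integrals
    have hcmp : zz p (⇑(L + B)) ≤ zz p L *
        ∫ x, Real.exp (-(p * ∑ i, sp p (L x i) * B x i) - hh p L B x) ∂(gm p L) := by
      rw [integral_gm, ← mul_assoc, mul_inv_cancel₀ hzL.ne', one_mul]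
      unfold zz
      refine integral_mono_of_nonneg
        (Filter.Eventually.of_forall fun x => (Real.exp_pos _).le) ?_ ?_
      · exact (integrable_gm_iff hpgt L hL _).1 hint
      · filter_upwards [hgen] with x hx
        rw [← Real.exp_add]
        apply Real.exp_le_exp.2
        have h3 := ph_second hp16 hp2 L hL B x hx
        have h4 : 0 ≤ ∑ i, (if sg p L i = 0 then |B x i| ^ p else 0) :=
          Finset.sum_nonneg fun i _ => by
            split_ifs
            · positivity
            · exact le_rfl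
        linarith
    refine hcmp.trans_lt ?_
    have hlt1 : ∫ x, Real.exp (-(p * ∑ i, sp p (L x i) * B x i) - hh p L B x) ∂(gm p L) < 1 := by
      refine hbd.trans_lt ?_
      have hp5 : p ^ 2 ≤ 5 := by nlinarith [hpb.1, hpb.2]
      have hE2' : p ^ 2 * E2 ≤ c / 2 * q := by
        have ha : (p - 2) ^ 2 ≤ c / (10 * C) := by
          rw [← sq_abs]
          have := abs_nonneg (p - 2)
          nlinarith
        have hb : C * (p - 2) ^ 2 ≤ c / 10 := by
          calc C * (p - 2) ^ 2 ≤ C * (c / (10 * C)) := by gcongr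
            _ = c / 10 := by field_simp
        calc p ^ 2 * E2 ≤ p ^ 2 * (C * (p - 2) ^ 2 * q) := by gcongr
          _ ≤ 5 * (c / 10 * q) := by gcongr
          _ = c / 2 * q := by ring
      have hq3 : C' * (q * Real.sqrt q) ≤ c / 4 * q := by
        calc C' * (q * Real.sqrt q) = (C' * Real.sqrt q) * q := by ring
          _ ≤ c / 4 * q := by gcongr
      have : 0 < c * q := by positivity
      linarith
    calc zz p L * ∫ x, Real.exp (-(p * ∑ i, sp p (L x i) * B x i) - hh p L B x) ∂(gm p L)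
        < zz p L * 1 := by gcongr
      _ = zz p L := mul_one _

end Pool.Agent.Helper590_Face.G10a
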