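import Pool.Agent.Helper590_Face.U.Est
import Pool.Agent.Helper590_Face.U.Position
import Pool.Agent.Helper590_Face.U.ThMoment
import Pool.Agent.Helper590_Face.U.StrictPos

set_option autoImplicit false

namespace Pool.Agent.Helper590_Face.G10b

open Pool.Agent.Helper590_Face.G1
open Pool.Agent.Helper590_Face.G10a


open MeasureTheory Set
open scoped ENNReal

variable {m n : ℕ}


theorem u10_cov (g : (Fin m → ℝ) ≃ₗ[ℝ] (Fin m → ℝ)) :
    ∃ c : ℝ, 0 < c ∧ ∀ f : (Fin m → ℝ) → ℝ, ∫ x, f (g x) = c * ∫ x, f x := by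
  have hdet : LinearMap.det (g : (Fin m → ℝ) →ₗ[ℝ] (Fin m → ℝ)) ≠ 0 := g.isUnit_det'.ne_zero
  refine ⟨|(LinearMap.det (g : (Fin m → ℝ) →ₗ[ℝ] (Fin m → ℝ)))⁻¹|,
    abs_pos.2 (inv_ne_zero hdet), fun f => ?_⟩
  have hme : MeasurableEmbedding (g : (Fin m → ℝ) → (Fin m → ℝ)) :=
    g.toContinuousLinearEquiv.toHomeomorph.measurableEmbedding
  have h1 := hme.integral_map (μ := (volume : Measure (Fin m → ℝ))) f
  have h2 : Measure.map (g : (Fin m → ℝ) → (Fin m → ℝ)) (volume : Measure (Fin m → ℝ)) =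
      ENNReal.ofReal |(LinearMap.det (g : (Fin m → ℝ) →ₗ[ℝ] (Fin m → ℝ)))⁻¹| • volume :=
    Measure.map_linearMap_addHaar_eq_smul_addHaar (volume : Measure (Fin m → ℝ)) hdet
  rw [← h1, h2, integral_smul_measure, ENNReal.toReal_ofReal (abs_nonneg _), smul_eq_mul]

theorem u10_int {p : ℝ} (L : (Fin m → ℝ) →ₗ[ℝ] (Fin n → ℝ))
    (g : (Fin m → ℝ) ≃ₗ[ℝ] (Fin m → ℝ)) (f : (Fin m → ℝ) → ℝ) :
    ∫ x, f (g x) ∂(gm p (L ∘ₗ (g : (Fin m → ℝ) →ₗ[ℝ] (Fin m → ℝ)))) = ∫ x, f x ∂(gm p L) := by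
  obtain ⟨c, hc, h⟩ := u10_cov g
  rw [integral_gm, integral_gm]
  have h1 : zz p (L ∘ₗ (g : (Fin m → ℝ) →ₗ[ℝ] (Fin m → ℝ))) = c * zz p L :=
    h fun x => Real.exp (-(ph p L x))
  have h2 : ∫ x, Real.exp (-(ph p (L ∘ₗ (g : (Fin m → ℝ) →ₗ[ℝ] (Fin m → ℝ))) x)) * f (g x) =
      c * ∫ x, Real.exp (-(ph p L x)) * f x := h fun x => Real.exp (-(ph p L x)) * f x
  rw [h1, h2, mul_inv]
  field_simp

theorem u10_coord (T : (Fin m → ℝ) →ₗ[ℝ] (Fin n → ℝ)) (x : Fin m → ℝ) (i : Fin n) :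
    T x i = ∑ b, x b * T (Pi.single b 1) i := by
  have h : x = ∑ k, x k • (Pi.single k 1 : Fin m → ℝ) := by
    ext j
    simp [Pi.single_apply]
  conv_lhs => rw [h]
  rw [map_sum]
  simp

theorem strict_local : ∃ ε : ℝ, 0 < ε ∧ ε ≤ 1 / 16 ∧
    ∀ (m n : ℕ) (p : ℝ) (L : (Fin m → ℝ) →ₗ[ℝ] (Fin n → ℝ)),
    |p - 2| ≤ ε → p ≠ 2 → Function.Injective L →
    ∃ r : ℝ, 0 < r ∧ ∀ B : (Fin m → ℝ) →ₗ[ℝ] (Fin n → ℝ), (∀ x, inK p L (B x)) → B ≠ 0 →
      (∀ a i, |B (Pi.single a 1) i| < r) → zz p (⇑(L + B)) < zz p L := by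
  obtain ⟨ε, hε, hε1, hmain⟩ := strict_local_pos
  refine ⟨ε, hε, hε1, ?_⟩
  intro m n p L hp hp2 hL
  have hp' := abs_le.mp (hp.trans hε1)
  have hp0 : 1 < p := by linarith [hp'.1]
  have hpos : ∀ x, x ≠ 0 → 0 < ∑ i, om p L i * L x i ^ 2 := by
    intro x hx
    have hLx : L x ≠ 0 := by
      intro h
      exact hx (hL (by rw [h, map_zero]))
    obtain ⟨i, hi⟩ : ∃ i, L x i ≠ 0 := by
      by_contra! hc
      exact hLx (funext hc)
    have hsg : 0 < sg p L i := by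
      refine lt_of_le_of_ne (sg_nonneg p L i) (Ne.symm ?_)
      intro h
      exact hi (sg_eq_zero hp0 L hL i h x)
    have hom : 0 < om p L i := Real.rpow_pos_of_pos hsg _
    refine Finset.sum_pos' (fun j _ => mul_nonneg (om_nonneg p L j) (sq_nonneg _))
      ⟨i, Finset.mem_univ _, ?_⟩
    positivity
  obtain ⟨g, hg⟩ := JF.position L (om p L) hpos
  set L' : (Fin m → ℝ) →ₗ[ℝ] (Fin n → ℝ) := L ∘ₗ (g : (Fin m → ℝ) →ₗ[ℝ] (Fin m → ℝ)) with hL'
  have hL'i : Function.Injective L' := hL.comp g.injective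
  have hsg : ∀ i, sg p L' i = sg p L i := by
    intro i
    unfold sg
    rw [← u10_int (p := p) L g (fun x => L x i ^ 2)]
    rfl
  have hom : ∀ i, om p L' i = om p L i := by
    intro i
    unfold om
    rw [hsg]
  have hPos : Pos p L' := by
    intro x y
    rw [← hg x y]
    refine Finset.sum_congr rfl fun i _ => ?_
    rw [hom]
    rfl
  have hK : ∀ k, inK p L k → inK p L' k := by
    intro k hk a
    have e1 : ∫ x, (∑ i, sp p (L' x i) * k i) * x a ∂(gm p L') =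
        ∫ x, (∑ i, sp p (L x i) * k i) * (g.symm x) a ∂(gm p L) := by
      rw [← u10_int (p := p) L g (fun x => (∑ i, sp p (L x i) * k i) * (g.symm x) a)]
      simp only [LinearEquiv.symm_apply_apply]
      rfl
    have e2 : ∀ x, (∑ i, sp p (L x i) * k i) * (g.symm x) a =
        ∑ b, (g.symm (Pi.single b 1)) a * ((∑ i, sp p (L x i) * k i) * x b) := by
      intro x
      rw [show (g.symm x) a = ∑ b, x b * g.symm (Pi.single b 1) a from
        u10_coord (g.symm : (Fin m → ℝ) →ₗ[ℝ] (Fin m → ℝ)) x a, Finset.mul_sum]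
      refine Finset.sum_congr rfl fun b _ => ?_
      ring
    have hPG : PG (fun x => ∑ i, sp p (L x i) * k i) :=
      PG.sum _ fun i _ => (PG.sp' hp0 (PG.lincoord L i)).mul (PG.const (k i))
    rw [e1]
    simp only [e2]
    rw [integral_finsetSum _ fun b _ =>
      ((hPG.mul (PG.coord b)).int hp0 L hL).const_mul ((g.symm (Pi.single b 1)) a)]
    refine Finset.sum_eq_zero fun b _ => ?_
    rw [integral_const_mul, hk b, mul_zero]
  obtain ⟨r, hr, hmain2⟩ := hmain m n p L' hp hp2 hL'i hPos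
  set K : ℝ := ∑ a, ∑ b, |g (Pi.single a 1) b| with hKdef
  have hK0 : 0 ≤ K := Finset.sum_nonneg fun a _ => Finset.sum_nonneg fun b _ => abs_nonneg _
  refine ⟨r / (1 + K), by positivity, fun B hB hB0 hBr => ?_⟩
  have h1 := hmain2 (B ∘ₗ (g : (Fin m → ℝ) →ₗ[ℝ] (Fin m → ℝ))) (fun x => hK _ (hB (g x))) ?_ ?_
  · obtain ⟨c, hc, h⟩ := u10_cov g
    have z1 : zz p L' = c * zz p L := h fun x => Real.exp (-(ph p L x))
    have z2 : zz p (⇑(L' + B ∘ₗ (g : (Fin m → ℝ) →ₗ[ℝ] (Fin m → ℝ)))) = c * zz p (⇑(L + B)) :=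
      h fun x => Real.exp (-(ph p (⇑(L + B)) x))
    rw [z1, z2] at h1
    exact lt_of_mul_lt_mul_left h1 hc.le
  · intro h0
    apply hB0
    ext1 x
    have h2 := LinearMap.congr_fun h0 (g.symm (Pi.single x 1))
    simp only [LinearMap.comp_apply, LinearEquiv.coe_coe, LinearEquiv.apply_symm_apply,
      LinearMap.zero_apply] at h2
    ext1
    simpa using h2
  · intro a i
    show |B (g (Pi.single a 1)) i| < r
    rw [u10_coord B (g (Pi.single a 1)) i]
    have k1 : |∑ b, g (Pi.single a 1) b * B (Pi.single b 1) i| ≤ K * (r / (1 + K)) := by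
      refine (Finset.abs_sum_le_sum_abs _ _).trans ?_
      have k2 : ∑ b, |g (Pi.single a 1) b * B (Pi.single b 1) i| ≤
          (∑ b, |g (Pi.single a 1) b|) * (r / (1 + K)) := by
        rw [Finset.sum_mul]
        refine Finset.sum_le_sum fun b _ => ?_
        rw [abs_mul]
        exact mul_le_mul_of_nonneg_left (hBr b i).le (abs_nonneg _)
      refine k2.trans (mul_le_mul_of_nonneg_right ?_ (by positivity))
      exact Finset.single_le_sum (f := fun a => ∑ b, |g (Pi.single a 1) b|)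
        (fun a _ => Finset.sum_nonneg fun b _ => abs_nonneg _) (Finset.mem_univ a)
    refine lt_of_le_of_lt k1 ?_
    rw [← mul_div_assoc, div_lt_iff₀ (by positivity)]
    nlinarith

end Pool.Agent.Helper590_Face.G10b
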