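import Pool.Agent.Helper590_Face.U.Def


set_option autoImplicit false

namespace Pool.Agent.Helper590_Face.JD2

open MeasureTheory Set

lemma zz_cont_coercive_norm_le {n : ℕ} {p : ℝ} (hp : 0 < p) (y : Fin n → ℝ) :
    ‖y‖ ^ p ≤ ∑ i, |y i| ^ p := by
  have hS : 0 ≤ ∑ i, |y i| ^ p := Finset.sum_nonneg fun i _ => Real.rpow_nonneg (abs_nonneg _) _
  have h1 : ‖y‖ ≤ (∑ i, |y i| ^ p) ^ (1 / p) := by
    rw [pi_norm_le_iff_of_nonneg (Real.rpow_nonneg hS _)]
    intro i
    rw [Real.norm_eq_abs]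
    have h2 : |y i| ^ p ≤ ∑ i, |y i| ^ p :=
      Finset.single_le_sum (f := fun i => |y i| ^ p) (fun i _ => Real.rpow_nonneg (abs_nonneg _) _)
        (Finset.mem_univ i)
    calc |y i| = (|y i| ^ p) ^ (1 / p) := by
          rw [← Real.rpow_mul (abs_nonneg _), mul_one_div_cancel hp.ne', Real.rpow_one]
      _ ≤ _ := Real.rpow_le_rpow (Real.rpow_nonneg (abs_nonneg _) _) h2 (by positivity)
  calc ‖y‖ ^ p ≤ ((∑ i, |y i| ^ p) ^ (1 / p)) ^ p := Real.rpow_le_rpow (norm_nonneg _) h1 hp.le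
    _ = ∑ i, |y i| ^ p := by
        rw [← Real.rpow_mul hS, one_div_mul_cancel hp.ne', Real.rpow_one]

/-- the dominating function -/
lemma zz_cont_coercive_integrable {m : ℕ} {c : ℝ} (hc : 0 < c) :
    Integrable (fun x : Fin m → ℝ => Real.exp 1 * Real.exp (-(c * ‖x‖))) := by
  have h0 : Integrable (fun x : Fin m → ℝ => (1 + ‖x‖) ^ (-((m : ℝ) + 1))) := by
    apply integrable_one_add_norm
    simp
  have hcp : 0 < c ^ (m + 1) := by positivity
  refine Integrable.const_mul ?_ _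
  refine Integrable.mono' (h0.const_mul (Real.exp c * (m + 1).factorial / c ^ (m + 1)))
    (by fun_prop) (Filter.Eventually.of_forall fun x => ?_)
  rw [Real.norm_eq_abs, abs_of_pos (Real.exp_pos _)]
  have ht : 0 < 1 + ‖x‖ := by positivity
  have h1 := Real.pow_div_factorial_le_exp (c * (1 + ‖x‖)) (by positivity) (m + 1)
  have hr : (1 + ‖x‖) ^ (-((m : ℝ) + 1)) = ((1 + ‖x‖) ^ (m + 1))⁻¹ := by
    rw [Real.rpow_neg ht.le]
    congr 1
    rw [← Real.rpow_natCast]
    congr 1
    push_cast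
    rfl
  rw [hr]
  have hf : (0 : ℝ) < (m + 1).factorial := by exact_mod_cast Nat.factorial_pos _
  have h2 : Real.exp (c * (1 + ‖x‖)) = Real.exp c * Real.exp (c * ‖x‖) := by
    rw [← Real.exp_add]; ring_nf
  rw [h2, div_le_iff₀ hf, mul_pow] at h1
  rw [Real.exp_neg, inv_le_iff_one_le_mul₀ (Real.exp_pos _)]
  have h3 : 0 < (1 + ‖x‖) ^ (m + 1) := by positivity
  rw [div_mul_eq_mul_div, div_mul_eq_mul_div, le_div_iff₀ hcp, one_mul, ← div_eq_mul_inv,
    div_mul_eq_mul_div, le_div_iff₀ h3]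
  linarith [h1]

lemma zz_cont_coercive_cont {m n : ℕ} {p : ℝ} (hp : 1 < p) (A : (Fin m → ℝ) →L[ℝ] (Fin n → ℝ)) :
    Continuous (fun x => Real.exp (-(ph p A x))) := by
  unfold ph
  refine Real.continuous_exp.comp (Continuous.neg ?_)
  refine continuous_finset_sum _ fun i _ => ?_
  refine Continuous.rpow_const ?_ fun x => Or.inr (by linarith)
  exact ((continuous_apply i).comp A.continuous).abs

lemma zz_cont_coercive_bound {m n : ℕ} {p c : ℝ} (hp : 1 < p) (hc : 0 < c)
    (A : (Fin m → ℝ) →L[ℝ] (Fin n → ℝ)) (hA : ∀ x, c * ‖x‖ ≤ ‖A x‖) (x : Fin m → ℝ) :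
    ‖Real.exp (-(ph p A x))‖ ≤ Real.exp 1 * Real.exp (-(c * ‖x‖)) := by
  rw [Real.norm_eq_abs, abs_of_pos (Real.exp_pos _), ← Real.exp_add]
  apply Real.exp_le_exp.2
  have h1 : ‖A x‖ ^ p ≤ ph p A x := zz_cont_coercive_norm_le (by linarith) _
  have h2 : ‖A x‖ - 1 ≤ ‖A x‖ ^ p := by
    by_cases h : 1 ≤ ‖A x‖
    · have := Real.rpow_le_rpow_of_exponent_le h hp.le
      rw [Real.rpow_one] at this
      linarith
    · push Not at h
      have := Real.rpow_nonneg (norm_nonneg (A x)) p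
      linarith
  have h3 := hA x
  linarith

theorem zz_cont_coercive {m n : ℕ} {p c : ℝ} (hp : 1 < p) (hc : 0 < c) :
    ContinuousOn (fun A : (Fin m → ℝ) →L[ℝ] (Fin n → ℝ) => zz p A)
      {A : (Fin m → ℝ) →L[ℝ] (Fin n → ℝ) | ∀ x, c * ‖x‖ ≤ ‖A x‖} ∧
    ∀ η : ℝ, 0 < η → Bornology.IsBounded
      {A : (Fin m → ℝ) →L[ℝ] (Fin n → ℝ) | (∀ x, c * ‖x‖ ≤ ‖A x‖) ∧ η ≤ zz p A} := by
  constructor
  · unfold zz
    intro A₀ hA₀
    refine continuousWithinAt_of_dominated (bound := fun x => Real.exp 1 * Real.exp (-(c * ‖x‖)))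
      (Filter.Eventually.of_forall fun A => (zz_cont_coercive_cont hp A).aestronglyMeasurable) ?_
      (zz_cont_coercive_integrable hc) (Filter.Eventually.of_forall fun x => ?_)
    · filter_upwards [self_mem_nhdsWithin] with A hA
      exact Filter.Eventually.of_forall fun x => zz_cont_coercive_bound hp hc A hA x
    · refine Continuous.continuousWithinAt ?_
      unfold ph
      refine Real.continuous_exp.comp (Continuous.neg ?_)
      refine continuous_finset_sum _ fun i _ => ?_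
      refine Continuous.rpow_const ?_ fun x => Or.inr (by linarith)
      refine Continuous.abs ?_
      exact (continuous_apply i).comp (ContinuousLinearMap.apply ℝ (Fin n → ℝ) x).continuous
  · intro η hη
    by_contra hcon
    rw [isBounded_iff_forall_norm_le] at hcon
    push Not at hcon
    choose A hA hAn using fun k : ℕ => hcon (k : ℝ)
    have hpos : ∀ k, 0 < ‖A k‖ := fun k => lt_of_le_of_lt (Nat.cast_nonneg k) (hAn k)
    haveI : ProperSpace ((Fin m → ℝ) →L[ℝ] (Fin n → ℝ)) := FiniteDimensional.proper_real _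
    have hU : ∀ k, (‖A k‖)⁻¹ • A k ∈ Metric.sphere (0 : (Fin m → ℝ) →L[ℝ] (Fin n → ℝ)) 1 := by
      intro k
      rw [mem_sphere_zero_iff_norm, norm_smul, norm_inv, norm_norm]
      exact inv_mul_cancel₀ (hpos k).ne'
    obtain ⟨U, hU1, φ, hφ, hlim⟩ := (isCompact_sphere _ _).tendsto_subseq hU
    rw [mem_sphere_zero_iff_norm] at hU1
    have hker : (LinearMap.ker (U : (Fin m → ℝ) →ₗ[ℝ] (Fin n → ℝ))) ≠ ⊤ := by
      intro h
      have h1 : (U : (Fin m → ℝ) →ₗ[ℝ] (Fin n → ℝ)) = 0 := LinearMap.ker_eq_top.1 h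
      have h2 : U = 0 := by
        ext1 x
        exact DFunLike.congr_fun h1 x
      rw [h2, norm_zero] at hU1
      exact zero_ne_one hU1
    have hnull := Measure.addHaar_submodule (volume : Measure (Fin m → ℝ)) _ hker
    have hae : ∀ᵐ x : Fin m → ℝ, U x ≠ 0 := by
      rw [ae_iff]
      convert hnull using 2
      ext x
      simp
    have hT : Filter.Tendsto (fun k => ∫ x, Real.exp (-(ph p (A (φ k)) x))) Filter.atTop
        (nhds (∫ _x : Fin m → ℝ, (0 : ℝ))) := by
      refine tendsto_integral_of_dominated_convergence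
        (fun x => Real.exp 1 * Real.exp (-(c * ‖x‖)))
        (fun k => (zz_cont_coercive_cont hp (A (φ k))).aestronglyMeasurable)
        (zz_cont_coercive_integrable hc)
        (fun k => Filter.Eventually.of_forall fun x =>
          zz_cont_coercive_bound hp hc _ (hA (φ k)).1 x) ?_
      filter_upwards [hae] with x hx
      have h1 : Filter.Tendsto (fun k => ‖((‖A (φ k)‖)⁻¹ • A (φ k)) x‖) Filter.atTop (nhds ‖U x‖) := by
        have h2 := ((ContinuousLinearMap.apply ℝ (Fin n → ℝ) x).continuous.tendsto U).comp hlim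
        exact h2.norm
      have h3 : Filter.Tendsto (fun k => ‖A (φ k)‖) Filter.atTop Filter.atTop := by
        refine Filter.tendsto_atTop_mono (fun k => (hAn (φ k)).le) ?_
        exact tendsto_natCast_atTop_atTop.comp hφ.tendsto_atTop
      have h4 : Filter.Tendsto (fun k => ‖A (φ k)‖ * ‖((‖A (φ k)‖)⁻¹ • A (φ k)) x‖) Filter.atTop
          Filter.atTop := h3.atTop_mul_pos (norm_pos_iff.2 hx) h1
      have h5 : ∀ k, ‖A (φ k)‖ * ‖((‖A (φ k)‖)⁻¹ • A (φ k)) x‖ = ‖A (φ k) x‖ := by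
        intro k
        rw [ContinuousLinearMap.smul_apply, norm_smul, norm_inv, norm_norm, ← mul_assoc,
          mul_inv_cancel₀ (hpos (φ k)).ne', one_mul]
      simp only [h5] at h4
      have h6 : Filter.Tendsto (fun k => ‖A (φ k) x‖ ^ p) Filter.atTop Filter.atTop :=
        (tendsto_rpow_atTop (by linarith)).comp h4
      have h7 : Filter.Tendsto (fun k => ph p (A (φ k)) x) Filter.atTop Filter.atTop :=
        Filter.tendsto_atTop_mono (fun k => zz_cont_coercive_norm_le (by linarith) _) h6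
      exact Real.tendsto_exp_neg_atTop_nhds_zero.comp h7
    rw [integral_zero] at hT
    have hge : ∀ k, η ≤ ∫ x, Real.exp (-(ph p (A (φ k)) x)) := fun k => (hA (φ k)).2
    have := ge_of_tendsto' hT hge
    linarith

end Pool.Agent.Helper590_Face.JD2
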