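import Pool.Agent.Helper590_Face.U.Def


set_option autoImplicit false

namespace Pool.Agent.Helper590_Face.JD1

open MeasureTheory Set

theorem sp_continuous {p : ℝ} (hp : 1 < p) : Continuous (sp p) := by
  have h1 : ContDiff ℝ 1 (fun x : ℝ => ‖x‖ ^ p) := contDiff_norm_rpow hp
  have h2 : Continuous (deriv (fun x : ℝ => ‖x‖ ^ p)) := h1.continuous_deriv le_rfl
  have h3 : deriv (fun x : ℝ => ‖x‖ ^ p) = fun x => p * |x| ^ (p - 2) * x := by
    funext x
    exact (hasDerivAt_abs_rpow x hp).deriv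
  rw [h3] at h2
  have h4 : sp p = fun x => p⁻¹ * (p * |x| ^ (p - 2) * x) := by
    funext x
    unfold sp
    field_simp
  rw [h4]
  exact continuous_const.mul h2

theorem sp_bound {p : ℝ} (hp : 1 < p) (t : ℝ) : |sp p t| ≤ |t| ^ (p - 1) := by
  unfold sp
  rcases eq_or_ne t 0 with rfl | ht
  · simp only [mul_zero, abs_zero]
    exact Real.rpow_nonneg le_rfl _
  · have h0 : 0 < |t| := abs_pos.2 ht
    rw [abs_mul, abs_of_nonneg (Real.rpow_nonneg h0.le _)]
    have : |t| ^ (p - 1) = |t| ^ (p - 2) * |t| := by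
      rw [← Real.rpow_add_one h0.ne']
      congr 1
      ring
    rw [this]

/-- tangent line inequality -/
theorem tangent {p : ℝ} (hp : 1 < p) (u v : ℝ) : |u| ^ p - |v| ^ p ≤ p * (sp p u * (u - v)) := by
  have hp0 : 0 < p := by linarith
  rcases eq_or_ne u 0 with rfl | hu
  · unfold sp
    simp only [abs_zero, mul_zero, zero_mul]
    rw [Real.zero_rpow hp0.ne']
    have := Real.rpow_nonneg (abs_nonneg v) p
    linarith
  · have h0 : 0 < |u| := abs_pos.2 hu
    have hq : p.HolderConjugate (p / (p - 1)) := Real.HolderConjugate.conjExponent hp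
    have hy := Real.young_inequality_of_nonneg (abs_nonneg v)
      (Real.rpow_nonneg h0.le (p - 1)) hq
    rw [← Real.rpow_mul h0.le] at hy
    have e1 : (p - 1) * (p / (p - 1)) = p := by
      have : p - 1 ≠ 0 := by linarith
      field_simp
    rw [e1] at hy
    have e2 : |u| ^ (p - 2) * u * u = |u| ^ p := by
      have : u * u = |u| ^ (2 : ℝ) := by
        rw [Real.rpow_two, sq_abs, sq]
      rw [mul_assoc, this, ← Real.rpow_add h0]
      congr 1
      ring
    have e3 : |u| ^ (p - 2) * u * v ≤ |v| * |u| ^ (p - 1) := by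
      have h4 : |u| ^ (p - 1) = |u| ^ (p - 2) * |u| := by
        rw [← Real.rpow_add_one h0.ne']
        congr 1
        ring
      rw [h4, mul_assoc]
      have h5 : u * v ≤ |u| * |v| := by
        rw [← abs_mul]
        exact le_abs_self _
      have := mul_le_mul_of_nonneg_left h5 (Real.rpow_nonneg h0.le (p - 2))
      linarith
    have e4 : p * (|v| ^ p / p + |u| ^ p / (p / (p - 1))) = |v| ^ p + (p - 1) * |u| ^ p := by
      have : p - 1 ≠ 0 := by linarith
      field_simp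
    have h6 := mul_le_mul_of_nonneg_left (e3.trans hy) hp0.le
    rw [e4] at h6
    unfold sp
    nlinarith

theorem norm_rpow_le {n : ℕ} {p : ℝ} (hp : 1 < p) (y : Fin n → ℝ) :
    ‖y‖ ^ p ≤ ∑ i, |y i| ^ p := by
  have hp0 : 0 < p := by linarith
  have hS : 0 ≤ ∑ i, |y i| ^ p := Finset.sum_nonneg fun i _ => Real.rpow_nonneg (abs_nonneg _) _
  have h1 : ‖y‖ ≤ (∑ i, |y i| ^ p) ^ (1 / p) := by
    rw [pi_norm_le_iff_of_nonneg (Real.rpow_nonneg hS _)]
    intro i
    have h2 : |y i| ^ p ≤ ∑ i, |y i| ^ p :=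
      Finset.single_le_sum (f := fun i => |y i| ^ p) (fun i _ => Real.rpow_nonneg (abs_nonneg _) _)
        (Finset.mem_univ i)
    have h3 := Real.rpow_le_rpow (Real.rpow_nonneg (abs_nonneg _) _) h2
      (show (0 : ℝ) ≤ 1 / p by positivity)
    rw [← Real.rpow_mul (abs_nonneg _), mul_one_div_cancel hp0.ne', Real.rpow_one] at h3
    exact h3
  have h4 := Real.rpow_le_rpow (norm_nonneg _) h1 hp0.le
  rw [← Real.rpow_mul hS, one_div_mul_cancel hp0.ne', Real.rpow_one] at h4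
  exact h4

/-- decay -/
theorem exp_decay {p c : ℝ} (hp : 1 < p) (hc : 0 < c) (M : ℕ) : ∃ C : ℝ, 0 ≤ C ∧ ∀ y : ℝ, 0 ≤ y →
    Real.exp (-(c * y) ^ p) ≤ C * ((1 + y) ^ M)⁻¹ := by
  rcases Nat.eq_zero_or_pos M with rfl | hM
  · refine ⟨1, zero_le_one, fun y hy => ?_⟩
    rw [pow_zero, inv_one, mul_one, Real.exp_le_one_iff]
    have : 0 ≤ (c * y) ^ p := Real.rpow_nonneg (by positivity) _
    linarith
  · have hMR : (0 : ℝ) < M := by exact_mod_cast hM
    refine ⟨Real.exp 1 * ((M / c) ^ M * Real.exp c), by positivity, fun y hy => ?_⟩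
    have h1 : c * y - 1 ≤ (c * y) ^ p := by
      have h0 : 0 ≤ c * y := by positivity
      rcases le_or_gt 1 (c * y) with h | h
      · have := Real.self_le_rpow_of_one_le h hp.le
        linarith
      · have := Real.rpow_nonneg h0 p
        linarith
    have h2 : Real.exp (-(c * y) ^ p) ≤ Real.exp 1 * Real.exp (-(c * y)) := by
      rw [← Real.exp_add]
      apply Real.exp_le_exp.2
      linarith
    have h3 : (1 + y) ^ M ≤ (M / c) ^ M * Real.exp (c * (1 + y)) := by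
      have h4 : 1 + y ≤ M / c * Real.exp (c * (1 + y) / M) := by
        have h5 : c * (1 + y) / M ≤ Real.exp (c * (1 + y) / M) := by
          have := Real.add_one_le_exp (c * (1 + y) / M)
          linarith
        calc 1 + y = M / c * (c * (1 + y) / M) := by field_simp
          _ ≤ _ := mul_le_mul_of_nonneg_left h5 (by positivity)
      have h6 := pow_le_pow_left₀ (by linarith) h4 M
      rw [mul_pow, ← Real.exp_nat_mul] at h6
      have h7 : (M : ℝ) * (c * (1 + y) / M) = c * (1 + y) := by field_simp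
      rwa [h7] at h6
    have h8 : 0 < (1 + y) ^ M := by positivity
    rw [← div_eq_mul_inv, le_div_iff₀ h8]
    calc Real.exp (-(c * y) ^ p) * (1 + y) ^ M ≤
          (Real.exp 1 * Real.exp (-(c * y))) * ((M / c) ^ M * Real.exp (c * (1 + y))) :=
          mul_le_mul h2 h3 h8.le (by positivity)
      _ = Real.exp 1 * ((M / c) ^ M * (Real.exp (-(c * y)) * Real.exp (c * (1 + y)))) := by ring
      _ = Real.exp 1 * ((M / c) ^ M * Real.exp c) := by
          rw [← Real.exp_add]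
          congr 3
          ring

theorem integrable_decay {m : ℕ} {p c : ℝ} (hp : 1 < p) (hc : 0 < c) (k : ℕ) :
    Integrable (fun x : Fin m → ℝ => Real.exp (-(c * ‖x‖) ^ p) * (1 + ‖x‖) ^ k) := by
  obtain ⟨C, hC0, hC⟩ := exp_decay hp hc (m + 1 + k)
  have h1 : Integrable (fun x : Fin m → ℝ => C * (1 + ‖x‖) ^ (-((m : ℝ) + 1))) := by
    refine (integrable_one_add_norm ?_).const_mul C
    simp
  refine h1.mono' ?_ (Filter.Eventually.of_forall fun x => ?_)
  · refine Continuous.aestronglyMeasurable ?_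
    have : Continuous fun x : Fin m → ℝ => (c * ‖x‖) ^ p :=
      (continuous_const.mul continuous_norm).rpow_const fun x => Or.inr (by linarith)
    exact (Real.continuous_exp.comp this.neg).mul ((continuous_const.add continuous_norm).pow k)
  · have hx := norm_nonneg x
    have h0 : 0 < 1 + ‖x‖ := by linarith
    rw [Real.norm_eq_abs, abs_of_nonneg (by positivity)]
    have h2 := mul_le_mul_of_nonneg_right (hC ‖x‖ hx) (pow_nonneg h0.le k)
    refine h2.trans (le_of_eq ?_)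
    rw [pow_add, mul_assoc]
    congr 1
    have e : ((m : ℝ) + 1) = ((m + 1 : ℕ) : ℝ) := by push_cast; ring
    rw [Real.rpow_neg h0.le, e, Real.rpow_natCast]
    have h3 : (1 + ‖x‖) ^ k ≠ 0 := by positivity
    have h4 : (1 + ‖x‖) ^ (m + 1) ≠ 0 := by positivity
    field_simp

theorem regular_point {m n : ℕ} {p : ℝ} (hp : 1 < p) (A₀ B : (Fin m → ℝ) →L[ℝ] (Fin n → ℝ))
    (hA₀ : Function.Injective A₀)
    (hD : ∫ x, Real.exp (-(ph p A₀ x)) * ∑ i, sp p (A₀ x i) * B x i < 0) :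
    ∃ (r δ : ℝ), 0 < r ∧ 0 < δ ∧ ∀ A : (Fin m → ℝ) →L[ℝ] (Fin n → ℝ), dist A A₀ < r →
      ∀ s ∈ Icc (0 : ℝ) r, zz p A + δ * s ≤ zz p (A + s • B : (Fin m → ℝ) →L[ℝ] (Fin n → ℝ)) := by
  have hp0 : 0 < p := by linarith
  -- the constant `c`
  obtain ⟨K, hK0, hK⟩ := (A₀ : (Fin m → ℝ) →ₗ[ℝ] (Fin n → ℝ)).exists_antilipschitzWith
    (LinearMap.ker_eq_bot.2 hA₀)
  have hKR : (0 : ℝ) < K := by exact_mod_cast hK0
  obtain ⟨c, hc⟩ : ∃ c : ℝ, c = (K : ℝ)⁻¹ / 2 := ⟨_, rfl⟩
  have hc0 : 0 < c := by rw [hc]; positivity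
  have hA0 : ∀ x, 2 * c * ‖x‖ ≤ ‖A₀ x‖ := by
    intro x
    have h1 := hK.le_mul_dist x 0
    rw [dist_zero_right] at h1
    have h2 : dist ((A₀ : (Fin m → ℝ) →ₗ[ℝ] (Fin n → ℝ)) x)
        ((A₀ : (Fin m → ℝ) →ₗ[ℝ] (Fin n → ℝ)) 0) = ‖A₀ x‖ := by
      rw [map_zero, dist_zero_right]
      rfl
    rw [h2] at h1
    rw [hc]
    have h3 : 2 * ((K : ℝ)⁻¹ / 2) * ‖x‖ = (K : ℝ)⁻¹ * ‖x‖ := by ring
    rw [h3, inv_mul_le_iff₀ hKR]
    exact h1
  have hAc : ∀ A : (Fin m → ℝ) →L[ℝ] (Fin n → ℝ), dist A A₀ ≤ c → ∀ x, c * ‖x‖ ≤ ‖A x‖ := by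
    intro A hA x
    have h1 : ‖(A - A₀) x‖ ≤ c * ‖x‖ := by
      refine ((A - A₀).le_opNorm x).trans ?_
      rw [← dist_eq_norm]
      exact mul_le_mul_of_nonneg_right hA (norm_nonneg _)
    have h2 : ‖A₀ x‖ ≤ ‖A x‖ + ‖(A - A₀) x‖ := by
      have : A₀ x = A x - (A - A₀) x := by simp
      rw [this]
      exact norm_sub_le _ _
    have h3 := hA0 x
    linarith
  have hph : ∀ A : (Fin m → ℝ) →L[ℝ] (Fin n → ℝ), dist A A₀ ≤ c → ∀ x,
      (c * ‖x‖) ^ p ≤ ph p A x := by
    intro A hA x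
    refine (Real.rpow_le_rpow (by positivity) (hAc A hA x) hp0.le).trans ?_
    exact norm_rpow_le hp (A x)
  have hphc : ∀ A : (Fin m → ℝ) →L[ℝ] (Fin n → ℝ), Continuous (ph p A) := by
    intro A
    unfold ph
    refine continuous_finset_sum _ fun i _ => ?_
    exact ((continuous_apply i).comp A.continuous).abs.rpow_const fun x => Or.inr hp0.le
  have hexpint : ∀ A : (Fin m → ℝ) →L[ℝ] (Fin n → ℝ), dist A A₀ ≤ c →
      Integrable (fun x => Real.exp (-(ph p A x))) := by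
    intro A hA
    refine (integrable_decay (m := m) hp hc0 0).mono'
      (Real.continuous_exp.comp (hphc A).neg).aestronglyMeasurable
      (Filter.Eventually.of_forall fun x => ?_)
    rw [Real.norm_eq_abs, abs_of_pos (Real.exp_pos _), pow_zero, mul_one]
    apply Real.exp_le_exp.2
    have := hph A hA x
    linarith
  -- the derivative
  obtain ⟨k, hk⟩ := exists_nat_ge (p - 1)
  obtain ⟨R, hR⟩ : ∃ R : ℝ, R = ‖A₀‖ + 1 := ⟨_, rfl⟩
  have hR1 : 1 ≤ R := by rw [hR]; have := norm_nonneg A₀; linarith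
  have hspb : ∀ A' : (Fin m → ℝ) →L[ℝ] (Fin n → ℝ), dist A' A₀ ≤ 1 → ∀ x,
      |∑ i, sp p (A' x i) * B x i| ≤ (n * R ^ k * ‖B‖) * (1 + ‖x‖) ^ (k + 1) := by
    intro A' hA' x
    have hx := norm_nonneg x
    have hA'n : ‖A'‖ ≤ R := by
      rw [hR]
      have : A' = A₀ + (A' - A₀) := by abel
      rw [this]
      refine (norm_add_le _ _).trans ?_
      rw [← dist_eq_norm]
      linarith
    have h1 : ∀ i, |sp p (A' x i)| ≤ R ^ k * (1 + ‖x‖) ^ k := by
      intro i
      refine (sp_bound hp _).trans ?_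
      have h2 : |A' x i| ≤ R * (1 + ‖x‖) := by
        have h3 : |A' x i| ≤ ‖A' x‖ := norm_le_pi_norm (A' x) i
        have h4 := A'.le_opNorm x
        have h5 : ‖A'‖ * ‖x‖ ≤ R * (1 + ‖x‖) := by nlinarith [norm_nonneg A']
        linarith
      have h6 : 1 ≤ R * (1 + ‖x‖) := by nlinarith
      calc |A' x i| ^ (p - 1) ≤ (R * (1 + ‖x‖)) ^ (p - 1) :=
            Real.rpow_le_rpow (abs_nonneg _) h2 (by linarith)
        _ ≤ (R * (1 + ‖x‖)) ^ (k : ℝ) := Real.rpow_le_rpow_of_exponent_le h6 hk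
        _ = R ^ k * (1 + ‖x‖) ^ k := by rw [Real.rpow_natCast, mul_pow]
    have h2 : ∀ i, |B x i| ≤ ‖B‖ * (1 + ‖x‖) := by
      intro i
      have h3 : |B x i| ≤ ‖B x‖ := norm_le_pi_norm (B x) i
      have h4 := B.le_opNorm x
      have h5 := norm_nonneg B
      nlinarith
    calc |∑ i, sp p (A' x i) * B x i| ≤ ∑ i, |sp p (A' x i) * B x i| :=
          Finset.abs_sum_le_sum_abs _ _
      _ ≤ ∑ _i : Fin n, (R ^ k * (1 + ‖x‖) ^ k) * (‖B‖ * (1 + ‖x‖)) := by
          refine Finset.sum_le_sum fun i _ => ?_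
          rw [abs_mul]
          exact mul_le_mul (h1 i) (h2 i) (abs_nonneg _) (by positivity)
      _ = (n * R ^ k * ‖B‖) * (1 + ‖x‖) ^ (k + 1) := by
          rw [Finset.sum_const, Finset.card_univ, Fintype.card_fin, nsmul_eq_mul]
          ring
  have hsumc : ∀ A' : (Fin m → ℝ) →L[ℝ] (Fin n → ℝ),
      Continuous (fun x => ∑ i, sp p (A' x i) * B x i) := by
    intro A'
    refine continuous_finset_sum _ fun i _ => ?_
    exact ((sp_continuous hp).comp ((continuous_apply i).comp A'.continuous)).mul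
      ((continuous_apply i).comp B.continuous)
  have hbd : ∀ A A' : (Fin m → ℝ) →L[ℝ] (Fin n → ℝ), dist A A₀ ≤ c → dist A' A₀ ≤ 1 → ∀ x,
      ‖Real.exp (-(ph p A x)) * ∑ i, sp p (A' x i) * B x i‖ ≤
        (n * R ^ k * ‖B‖) * (Real.exp (-(c * ‖x‖) ^ p) * (1 + ‖x‖) ^ (k + 1)) := by
    intro A A' hA hA' x
    rw [norm_mul, Real.norm_eq_abs, Real.norm_eq_abs, abs_of_pos (Real.exp_pos _)]
    have h1 : Real.exp (-(ph p A x)) ≤ Real.exp (-(c * ‖x‖) ^ p) := by
      apply Real.exp_le_exp.2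
      have := hph A hA x
      linarith
    calc Real.exp (-(ph p A x)) * |∑ i, sp p (A' x i) * B x i| ≤
          Real.exp (-(c * ‖x‖) ^ p) * ((n * R ^ k * ‖B‖) * (1 + ‖x‖) ^ (k + 1)) :=
          mul_le_mul h1 (hspb A' hA' x) (abs_nonneg _) (Real.exp_pos _).le
      _ = _ := by ring
  have hbint : Integrable (fun x : Fin m → ℝ =>
      (n * R ^ k * ‖B‖) * (Real.exp (-(c * ‖x‖) ^ p) * (1 + ‖x‖) ^ (k + 1))) :=
    (integrable_decay hp hc0 (k + 1)).const_mul _
  have hmeas : ∀ A A' : (Fin m → ℝ) →L[ℝ] (Fin n → ℝ), AEStronglyMeasurable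
      (fun x => Real.exp (-(ph p A x)) * ∑ i, sp p (A' x i) * B x i) volume := fun A A' =>
    ((Real.continuous_exp.comp (hphc A).neg).mul (hsumc A')).aestronglyMeasurable
  have hcont : ContinuousAt (fun q : ((Fin m → ℝ) →L[ℝ] (Fin n → ℝ)) ×
      ((Fin m → ℝ) →L[ℝ] (Fin n → ℝ)) =>
      ∫ x, Real.exp (-(ph p q.1 x)) * ∑ i, sp p (q.2 x i) * B x i) (A₀, A₀) := by
    refine MeasureTheory.continuousAt_of_dominated
      (bound := fun x => (n * R ^ k * ‖B‖) * (Real.exp (-(c * ‖x‖) ^ p) * (1 + ‖x‖) ^ (k + 1)))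
      (Filter.Eventually.of_forall fun q => hmeas q.1 q.2) ?_ hbint
      (Filter.Eventually.of_forall fun x => ?_)
    · have h1 : ∀ᶠ q : ((Fin m → ℝ) →L[ℝ] (Fin n → ℝ)) × ((Fin m → ℝ) →L[ℝ] (Fin n → ℝ)) in
          nhds (A₀, A₀), dist q (A₀, A₀) < min c 1 :=
        Metric.ball_mem_nhds _ (lt_min hc0 one_pos)
      filter_upwards [h1] with q hq
      rw [Prod.dist_eq, max_lt_iff] at hq
      exact Filter.Eventually.of_forall fun x => hbd q.1 q.2
        (hq.1.le.trans (min_le_left _ _)) (hq.2.le.trans (min_le_right _ _)) x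
    · have ev : ∀ i, Continuous (fun q : ((Fin m → ℝ) →L[ℝ] (Fin n → ℝ)) => q x i) := by
        intro i
        exact (continuous_apply i).comp (ContinuousLinearMap.apply ℝ (Fin n → ℝ) x).continuous
      refine Continuous.continuousAt (Continuous.mul ?_ ?_)
      · refine Real.continuous_exp.comp (Continuous.neg ?_)
        unfold ph
        refine continuous_finset_sum _ fun i _ => ?_
        exact ((ev i).comp continuous_fst).abs.rpow_const fun q => Or.inr hp0.le
      · refine continuous_finset_sum _ fun i _ => ?_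
        exact ((sp_continuous hp).comp ((ev i).comp continuous_snd)).mul continuous_const
  obtain ⟨D, hDdef⟩ : ∃ D : ℝ, D = ∫ x, Real.exp (-(ph p A₀ x)) * ∑ i, sp p (A₀ x i) * B x i :=
    ⟨_, rfl⟩
  rw [← hDdef] at hD
  have hnear : ∀ᶠ q : ((Fin m → ℝ) →L[ℝ] (Fin n → ℝ)) × ((Fin m → ℝ) →L[ℝ] (Fin n → ℝ)) in
      nhds (A₀, A₀), (∫ x, Real.exp (-(ph p q.1 x)) * ∑ i, sp p (q.2 x i) * B x i) < D / 2 := by
    refine hcont.eventually (Iio_mem_nhds ?_)
    simp only
    rw [← hDdef]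
    linarith
  rw [Metric.eventually_nhds_iff] at hnear
  obtain ⟨ε, hε0, hε⟩ := hnear
  obtain ⟨ρ, hρ⟩ : ∃ ρ : ℝ, ρ = min ε (min c 1) := ⟨_, rfl⟩
  have hρ0 : 0 < ρ := by rw [hρ]; exact lt_min hε0 (lt_min hc0 one_pos)
  have hB0 := norm_nonneg B
  obtain ⟨r, hr⟩ : ∃ r : ℝ, r = ρ / (2 * (1 + ‖B‖)) := ⟨_, rfl⟩
  have hr0 : 0 < r := by rw [hr]; positivity
  have hrρ : r * (1 + ‖B‖) = ρ / 2 := by rw [hr]; field_simp
  refine ⟨r, p * (-(D / 2)), hr0, by nlinarith, ?_⟩
  intro A hA s hs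
  have hAρ : dist A A₀ < ρ := by nlinarith
  obtain ⟨A', hA'⟩ : ∃ A' : (Fin m → ℝ) →L[ℝ] (Fin n → ℝ), A' = A + s • B := ⟨_, rfl⟩
  have hA'ρ : dist A' A₀ < ρ := by
    have h1 : dist A' A₀ ≤ dist A' A + dist A A₀ := dist_triangle _ _ _
    have h2 : dist A' A = s * ‖B‖ := by
      rw [hA', dist_eq_norm, add_sub_cancel_left, norm_smul, Real.norm_eq_abs, abs_of_nonneg hs.1]
    have h3 : s * ‖B‖ ≤ r * ‖B‖ := mul_le_mul_of_nonneg_right hs.2 hB0
    nlinarith
  have hρε : ρ ≤ ε := by rw [hρ]; exact min_le_left _ _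
  have hρc : ρ ≤ c := by rw [hρ]; exact (min_le_right _ _).trans (min_le_left _ _)
  have hρ1 : ρ ≤ 1 := by rw [hρ]; exact (min_le_right _ _).trans (min_le_right _ _)
  have hval := hε (y := (A, A')) (by
    rw [Prod.dist_eq, max_lt_iff]
    exact ⟨hAρ.trans_le hρε, hA'ρ.trans_le hρε⟩)
  simp only at hval
  have hi1 : Integrable (fun x => Real.exp (-(ph p A x))) := hexpint A (hAρ.le.trans hρc)
  have hi2 : Integrable (fun x => Real.exp (-(ph p A' x))) := hexpint A' (hA'ρ.le.trans hρc)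
  have hi3 : Integrable (fun x => Real.exp (-(ph p A x)) * ∑ i, sp p (A' x i) * B x i) :=
    hbint.mono' (hmeas A A') (Filter.Eventually.of_forall fun x =>
      hbd A A' (hAρ.le.trans hρc) (hA'ρ.le.trans hρ1) x)
  have hpt : ∀ x, Real.exp (-(ph p A x)) -
      (s * p) * (Real.exp (-(ph p A x)) * ∑ i, sp p (A' x i) * B x i) ≤
      Real.exp (-(ph p A' x)) := by
    intro x
    have h1 : ph p A' x - ph p A x ≤ s * p * ∑ i, sp p (A' x i) * B x i := by
      unfold ph
      rw [← Finset.sum_sub_distrib, Finset.mul_sum]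
      refine Finset.sum_le_sum fun i _ => ?_
      refine (tangent hp (A' x i) (A x i)).trans (le_of_eq ?_)
      have : A' x i - A x i = s * B x i := by
        rw [hA']
        simp
      rw [this]
      ring
    have h2 := Real.add_one_le_exp (-(ph p A' x - ph p A x))
    have h3 : Real.exp (-(ph p A' x)) = Real.exp (-(ph p A x)) *
        Real.exp (-(ph p A' x - ph p A x)) := by
      rw [← Real.exp_add]
      congr 1
      ring
    rw [h3]
    have h4 := Real.exp_pos (-(ph p A x))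
    nlinarith
  have hint := integral_mono (hi1.sub (hi3.const_mul (s * p))) hi2 hpt
  have e1 : ∫ x, (Real.exp (-(ph p A x)) -
      (s * p) * (Real.exp (-(ph p A x)) * ∑ i, sp p (A' x i) * B x i)) =
      zz p A - (s * p) * ∫ x, Real.exp (-(ph p A x)) * ∑ i, sp p (A' x i) * B x i := by
    rw [integral_sub hi1 (hi3.const_mul (s * p)), integral_const_mul]
    rfl
  have hint2 : zz p A - (s * p) * ∫ x, Real.exp (-(ph p A x)) * ∑ i, sp p (A' x i) * B x i ≤
      zz p A' := by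
    rw [← e1]
    exact hint
  rw [← hA']
  have h5 : (s * p) * (∫ x, Real.exp (-(ph p A x)) * ∑ i, sp p (A' x i) * B x i) ≤
      (s * p) * (D / 2) := mul_le_mul_of_nonneg_left hval.le (mul_nonneg hs.1 hp0.le)
  nlinarith

end Pool.Agent.Helper590_Face.JD1
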