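import Pool.Agent.Helper590_Face.U.Est
import Pool.Agent.Helper590_Face.U.Zreg
import Pool.Agent.Helper590_Face.U.Zco
import Pool.Agent.Helper590_Face.U.Strict
import Pool.Agent.Helper590_Face.U.Mountain

set_option autoImplicit false

namespace Pool.Agent.Helper590_Face.G11

open Pool.Agent.Helper590_Face.G10b
open Pool.Agent.Helper590_Face.MP


open MeasureTheory Set
open scoped ENNReal

variable {m n : ℕ}

/-! ### Auxiliary results -/

section Aux

theorem global_max_pg {p : ℝ} (hp : 1 < p) (A : (Fin m → ℝ) →ₗ[ℝ] (Fin n → ℝ)) (k : Fin n → ℝ)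
    (a : Fin m) : PG (fun x => (∑ i, sp p (A x i) * k i) * x a) :=
  (PG.sum _ fun i _ => ((PG.lincoord A i).sp' hp).mul (PG.const (k i))).mul (PG.coord a)

/-- the moment map -/
noncomputable def global_max_T {p : ℝ} (hp : 1 < p) (A : (Fin m → ℝ) →ₗ[ℝ] (Fin n → ℝ))
    (hA : Function.Injective A) : (Fin n → ℝ) →ₗ[ℝ] (Fin m → ℝ) where
  toFun k a := ∫ x, (∑ i, sp p (A x i) * k i) * x a ∂(gm p A)
  map_add' k k' := by
    funext a
    simp only [Pi.add_apply]
    rw [← integral_add ((global_max_pg hp A k a).int hp A hA)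
      ((global_max_pg hp A k' a).int hp A hA)]
    refine integral_congr_ae (Filter.Eventually.of_forall fun x => ?_)
    simp only [mul_add, Finset.sum_add_distrib, add_mul]
  map_smul' c k := by
    funext a
    simp only [Pi.smul_apply, smul_eq_mul, RingHom.id_apply]
    rw [← integral_const_mul]
    refine integral_congr_ae (Filter.Eventually.of_forall fun x => ?_)
    simp only
    rw [← mul_assoc, Finset.mul_sum]
    congr 1
    exact Finset.sum_congr rfl fun i _ => by ring

theorem global_max_inK {p : ℝ} (hp : 1 < p) (A : (Fin m → ℝ) →ₗ[ℝ] (Fin n → ℝ))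
    (hA : Function.Injective A) (k : Fin n → ℝ) : inK p A k ↔ global_max_T hp A hA k = 0 :=
  ⟨fun h => funext h, fun h a => congrFun h a⟩

theorem global_max_inK' {p : ℝ} (hp : 1 < p) (A : (Fin m → ℝ) →ₗ[ℝ] (Fin n → ℝ))
    (hA : Function.Injective A) (k : Fin n → ℝ) : inK p A k ↔
      ∀ a, ∫ x, Real.exp (-(ph p A x)) * ((∑ i, sp p (A x i) * k i) * x a) = 0 := by
  have hz := zz_pos hp A hA
  refine forall_congr' fun a => ?_
  rw [integral_gm]
  constructor
  · intro h
    rcases mul_eq_zero.1 h with h | h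
    · exact absurd h (inv_ne_zero hz.ne')
    · exact h
  · intro h
    rw [h, mul_zero]

theorem global_max_TL {p : ℝ} (hp : 1 < p) (A : (Fin m → ℝ) →ₗ[ℝ] (Fin n → ℝ))
    (hA : Function.Injective A) (y : Fin m → ℝ) : p • global_max_T hp A hA (A y) = y := by
  funext a
  have hz := zz_pos hp A hA
  change p * ∫ x, (∑ i, sp p (A x i) * A y i) * x a ∂(gm p A) = y a
  have h := (JE.ibp hp A hA y a).2
  rw [integral_gm, mul_left_comm, h]
  change (zz p A)⁻¹ * (y a * zz p A) = y a
  field_simp

/-- the admissible perturbations -/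
noncomputable def global_max_E {p : ℝ} (hp : 1 < p) (A : (Fin m → ℝ) →ₗ[ℝ] (Fin n → ℝ))
    (hA : Function.Injective A) : Submodule ℝ ((Fin m → ℝ) →L[ℝ] (Fin n → ℝ)) where
  carrier := {B | ∀ x, inK p A (B x)}
  add_mem' := by
    intro B B' h h' x
    have h1 := h x
    have h2 := h' x
    rw [global_max_inK hp A hA] at h1 h2 ⊢
    rw [add_apply, map_add, h1, h2, add_zero]
  zero_mem' := by
    intro x
    rw [global_max_inK hp A hA]
    simp
  smul_mem' := by
    intro c B h x
    have h1 := h x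
    rw [global_max_inK hp A hA] at h1 ⊢
    rw [smul_apply, map_smul, h1, smul_zero]

theorem global_max_low {p : ℝ} (hp : 1 < p) (A : (Fin m → ℝ) →ₗ[ℝ] (Fin n → ℝ))
    (hA : Function.Injective A) : ∃ c : ℝ, 0 < c ∧ ∀ B ∈ global_max_E hp A hA, ∀ x,
      c * ‖x‖ ≤ ‖(LinearMap.toContinuousLinearMap A + B) x‖ := by
  set T := LinearMap.toContinuousLinearMap (global_max_T hp A hA) with hT
  have hp0 : 0 < p := by linarith
  have hM : 0 < p * (‖T‖ + 1) := by positivity
  refine ⟨(p * (‖T‖ + 1))⁻¹, by positivity, fun B hB x => ?_⟩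
  have h1 : T ((LinearMap.toContinuousLinearMap A + B) x) = global_max_T hp A hA (A x) := by
    have h2 := (global_max_inK hp A hA _).1 (hB x)
    change global_max_T hp A hA (A x + B x) = _
    rw [map_add, h2, add_zero]
  have h3 := global_max_TL hp A hA x
  rw [← h1] at h3
  have h4 : ‖x‖ ≤ p * (‖T‖ + 1) * ‖(LinearMap.toContinuousLinearMap A + B) x‖ := by
    calc ‖x‖ = ‖p • T ((LinearMap.toContinuousLinearMap A + B) x)‖ := by rw [h3]
      _ = p * ‖T ((LinearMap.toContinuousLinearMap A + B) x)‖ := by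
          rw [norm_smul, Real.norm_of_nonneg hp0.le]
      _ ≤ p * (‖T‖ * ‖(LinearMap.toContinuousLinearMap A + B) x‖) := by
          gcongr
          exact T.le_opNorm _
      _ ≤ p * ((‖T‖ + 1) * ‖(LinearMap.toContinuousLinearMap A + B) x‖) := by
          gcongr
          linarith
      _ = _ := by ring
  rw [inv_mul_le_iff₀ hM]
  exact h4

/-- the function to be maximised -/
noncomputable def global_max_f {p : ℝ} (hp : 1 < p) (A : (Fin m → ℝ) →ₗ[ℝ] (Fin n → ℝ))
    (hA : Function.Injective A) (B : global_max_E hp A hA) : ℝ :=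
  zz p (LinearMap.toContinuousLinearMap A + B.1 : (Fin m → ℝ) →L[ℝ] (Fin n → ℝ))

theorem global_max_inj {p : ℝ} (hp : 1 < p) (A : (Fin m → ℝ) →ₗ[ℝ] (Fin n → ℝ))
    (hA : Function.Injective A) (B : global_max_E hp A hA) : Function.Injective
      (((LinearMap.toContinuousLinearMap A + B.1 : (Fin m → ℝ) →L[ℝ] (Fin n → ℝ))) :
        (Fin m → ℝ) →ₗ[ℝ] (Fin n → ℝ)) := by
  obtain ⟨c, hc, h⟩ := global_max_low hp A hA
  rw [← LinearMap.ker_eq_bot, LinearMap.ker_eq_bot']
  intro x hx
  have h1 := h B.1 B.2 x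
  have h2 : (LinearMap.toContinuousLinearMap A + B.1) x = 0 := hx
  rw [h2, norm_zero] at h1
  have h3 : ‖x‖ ≤ 0 := by
    by_contra h4
    push Not at h4
    have : 0 < c * ‖x‖ := by positivity
    linarith
  exact norm_le_zero_iff.1 h3

theorem global_max_cont {p : ℝ} (hp : 1 < p) (A : (Fin m → ℝ) →ₗ[ℝ] (Fin n → ℝ))
    (hA : Function.Injective A) : Continuous (global_max_f hp A hA) ∧
      ∀ η : ℝ, 0 < η → IsCompact {B | η ≤ global_max_f hp A hA B} := by
  obtain ⟨c, hc, h⟩ := global_max_low hp A hA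
  obtain ⟨h1, h2⟩ := JD2.zz_cont_coercive (m := m) (n := n) hp hc
  have h3 : Continuous (fun B : global_max_E hp A hA =>
      (LinearMap.toContinuousLinearMap A + B.1 : (Fin m → ℝ) →L[ℝ] (Fin n → ℝ))) :=
    continuous_const.add continuous_subtype_val
  have hcont : Continuous (global_max_f hp A hA) :=
    h1.comp_continuous h3 fun B => h B.1 B.2
  refine ⟨hcont, fun η hη => ?_⟩
  apply Metric.isCompact_of_isClosed_isBounded
  · exact isClosed_le continuous_const hcont
  · obtain ⟨R, hR⟩ := (isBounded_iff_forall_norm_le).1 (h2 η hη)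
    rw [Metric.isBounded_iff]
    refine ⟨R + R, fun B hB B' hB' => ?_⟩
    have h4 := hR (LinearMap.toContinuousLinearMap A + B.1) ⟨h B.1 B.2, hB⟩
    have h5 := hR (LinearMap.toContinuousLinearMap A + B'.1) ⟨h B'.1 B'.2, hB'⟩
    have h6 : dist B B' = dist (LinearMap.toContinuousLinearMap A + B.1)
        (LinearMap.toContinuousLinearMap A + B'.1) := by
      rw [dist_add_left]; rfl
    rw [h6]
    exact (dist_le_norm_add_norm _ _).trans (add_le_add h4 h5)

theorem global_max_coord (B : (Fin m → ℝ) →L[ℝ] (Fin n → ℝ)) (a : Fin m) (i : Fin n) :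
    |B (Pi.single a 1) i| ≤ ‖B‖ := by
  have h1 : |B (Pi.single a 1) i| ≤ ‖B (Pi.single a 1)‖ := by
    have := norm_le_pi_norm (B (Pi.single a 1)) i
    rwa [Real.norm_eq_abs] at this
  have h2 := B.le_opNorm (Pi.single a 1)
  have h3 : ‖(Pi.single a 1 : Fin m → ℝ)‖ = 1 := by
    rw [Pi.norm_single, norm_one]
  rw [h3, mul_one] at h2
  exact h1.trans h2

end Aux


theorem global_max : ∃ ε : ℝ, 0 < ε ∧ ε ≤ 1 / 16 ∧
    ∀ (m n : ℕ) (p : ℝ) (L : (Fin m → ℝ) →ₗ[ℝ] (Fin n → ℝ)),
    |p - 2| ≤ ε → p ≠ 2 → Function.Injective L →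
    ∀ B : (Fin m → ℝ) →ₗ[ℝ] (Fin n → ℝ), (∀ x, inK p L (B x)) → zz p (⇑(L + B)) ≤ zz p L := by
  obtain ⟨ε, hε, hε', hloc⟩ := strict_local
  refine ⟨ε, hε, hε', ?_⟩
  intro m n p L hpε hp2 hL B hB
  have hp : 1 < p := by
    have := (abs_le.1 hpε).1
    linarith
  obtain ⟨hcont, hcomp⟩ := global_max_cont hp L hL
  set L' := LinearMap.toContinuousLinearMap L with hL'
  have hpos : ∀ x, 0 < global_max_f hp L hL x := fun x =>
    zz_pos hp _ (global_max_inj hp L hL x)
  have hcrit : ∀ z : global_max_E hp L hL,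
      (∃ (e : global_max_E hp L hL) (r δ : ℝ), 0 < r ∧ 0 < δ ∧ ∀ x, dist x z < r →
        ∀ s ∈ Icc (0 : ℝ) r,
        global_max_f hp L hL x + δ * s ≤ global_max_f hp L hL (x + s • e)) ∨
      (∃ r : ℝ, 0 < r ∧ ∀ x, x ≠ z → dist x z < r →
        global_max_f hp L hL x < global_max_f hp L hL z) := by
    intro z
    set A : (Fin m → ℝ) →L[ℝ] (Fin n → ℝ) := L' + z.1 with hAdef
    have hA : Function.Injective (A : (Fin m → ℝ) →ₗ[ℝ] (Fin n → ℝ)) := global_max_inj hp L hL z
    by_cases hcase : ∃ e : global_max_E hp L hL,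
        ∫ x, Real.exp (-(ph p A x)) * ∑ i, sp p (A x i) * e.1 x i < 0
    · left
      obtain ⟨e, he⟩ := hcase
      obtain ⟨r, δ, hr, hδ, hreg⟩ := JD1.regular_point hp A e.1 hA he
      refine ⟨e, r, δ, hr, hδ, fun x hx s hs => ?_⟩
      have h1 := hreg (L' + x.1) (by rw [hAdef, dist_add_left]; exact hx) s hs
      have h2 : L' + x.1 + s • e.1 = L' + (x + s • e).1 := by
        rw [add_assoc]; rfl
      rw [h2] at h1
      exact h1
    · right
      push Not at hcase
      have hzero : ∀ e : global_max_E hp L hL,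
          ∫ x, Real.exp (-(ph p A x)) * ∑ i, sp p (A x i) * e.1 x i = 0 := by
        intro e
        refine le_antisymm ?_ (hcase e)
        have h1 := hcase (-e)
        have h2 : ∀ x, Real.exp (-(ph p A x)) * ∑ i, sp p (A x i) * (-e).1 x i =
            -(Real.exp (-(ph p A x)) * ∑ i, sp p (A x i) * e.1 x i) := by
          intro x
          have : ∀ i, sp p (A x i) * (-e).1 x i = -(sp p (A x i) * e.1 x i) := by
            intro i
            change sp p (A x i) * (-(e.1 x i)) = _
            ring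
          simp only [this, Finset.sum_neg_distrib, mul_neg]
        simp only [h2, integral_neg] at h1
        linarith
      have hKK : ∀ k : Fin n → ℝ, inK p L k →
          inK p (A : (Fin m → ℝ) →ₗ[ℝ] (Fin n → ℝ)) k := by
        intro k hk
        rw [global_max_inK' hp _ hA]
        intro a
        let e' : (Fin m → ℝ) →L[ℝ] (Fin n → ℝ) :=
          LinearMap.toContinuousLinearMap ((LinearMap.proj a : (Fin m → ℝ) →ₗ[ℝ] ℝ).smulRight k)
        have he' : e' ∈ global_max_E hp L hL := by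
          intro x
          rw [global_max_inK hp L hL] at hk ⊢
          change global_max_T hp L hL (x a • k) = 0
          rw [map_smul, hk, smul_zero]
        have h1 := hzero ⟨e', he'⟩
        rw [← h1]
        refine integral_congr_ae (Filter.Eventually.of_forall fun x => ?_)
        change Real.exp (-(ph p A x)) * ((∑ i, sp p (A x i) * k i) * x a) =
          Real.exp (-(ph p A x)) * ∑ i, sp p (A x i) * (x a * k i)
        rw [Finset.sum_mul]
        congr 1
        exact Finset.sum_congr rfl fun i _ => by ring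
      obtain ⟨r, hr, hr'⟩ := hloc m n p (A : (Fin m → ℝ) →ₗ[ℝ] (Fin n → ℝ)) hpε hp2 hA
      refine ⟨r, hr, fun x hxz hd => ?_⟩
      have hd' : ‖x.1 - z.1‖ < r := by
        rw [← dist_eq_norm]; exact hd
      have h1 := hr' ((x.1 - z.1 : (Fin m → ℝ) →L[ℝ] (Fin n → ℝ)) :
        (Fin m → ℝ) →ₗ[ℝ] (Fin n → ℝ)) (fun y => hKK _ ((x - z).2 y)) (by
          intro h0
          apply hxz
          apply Subtype.ext
          have : x.1 - z.1 = 0 := by
            ext1 y
            exact LinearMap.congr_fun h0 y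
          exact sub_eq_zero.1 this) (fun a i => (global_max_coord _ a i).trans_lt hd')
      have h2 : (⇑((A : (Fin m → ℝ) →ₗ[ℝ] (Fin n → ℝ)) +
          ((x.1 - z.1 : (Fin m → ℝ) →L[ℝ] (Fin n → ℝ)) : (Fin m → ℝ) →ₗ[ℝ] (Fin n → ℝ)))) =
          ⇑(L' + x.1) := by
        funext y
        change (L' y + z.1 y) + (x.1 y - z.1 y) = L' y + x.1 y
        abel
      rw [h2] at h1
      exact h1
  have ha : ∃ r : ℝ, 0 < r ∧ ∀ x : global_max_E hp L hL, x ≠ 0 → dist x 0 < r →
      global_max_f hp L hL x < global_max_f hp L hL 0 := by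
    obtain ⟨r, hr, hr'⟩ := hloc m n p L hpε hp2 hL
    refine ⟨r, hr, fun x hx0 hd => ?_⟩
    have hd' : ‖x.1‖ < r := by
      have h1 : dist x.1 (0 : (Fin m → ℝ) →L[ℝ] (Fin n → ℝ)) < r := hd
      rwa [dist_zero_right] at h1
    have h1 := hr' (x.1 : (Fin m → ℝ) →ₗ[ℝ] (Fin n → ℝ)) (fun y => x.2 y) (by
      intro h0
      apply hx0
      apply Subtype.ext
      ext1 y
      exact LinearMap.congr_fun h0 y) (fun a i => (global_max_coord _ a i).trans_lt hd')
    have h2 : global_max_f hp L hL 0 = zz p L := by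
      unfold global_max_f
      congr 1
      funext y
      change L y + 0 = L y
      rw [add_zero]
    rw [h2]
    exact h1
  have hmain := mountain (global_max_f hp L hL) hcont hpos hcomp hcrit 0 ha
    ⟨LinearMap.toContinuousLinearMap B, fun x => hB x⟩
  have h2 : global_max_f hp L hL 0 = zz p L := by
    unfold global_max_f
    congr 1
    funext y
    change L y + 0 = L y
    rw [add_zero]
  rw [h2] at hmain
  exact hmain

end Pool.Agent.Helper590_Face.G11
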