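import Pool.Agent.Helper590_Face.U.Est
import Pool.Agent.Helper590_Face.Contr
import Pool.Agent.Helper590_Face.U.GlobalMax

set_option autoImplicit false

namespace Pool.Agent.Helper590_Face.G12

open Pool.Agent.Helper590_Face.G11


open MeasureTheory Set
open scoped ENNReal

variable {m n : ℕ}

/-- volume of the unit ball from the partition function -/
theorem vol_eq_zz {p : ℝ} (hp : 1 ≤ p) (hm : 0 < m) (L : (Fin m → ℝ) →ₗ[ℝ] (Fin n → ℝ))
    (hL : Function.Injective L) :
    volume {y | nrm p (L y) ≤ 1} = ENNReal.ofReal (zz p L / Real.Gamma ((m : ℝ) / p + 1)) := by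
  have : Nonempty (Fin m) := ⟨⟨0, hm⟩⟩
  have hp0 : 0 < p := by linarith
  set g : (Fin m → ℝ) → ℝ := fun x => nrm p (L x) with hg
  have g1 : g 0 = 0 := by simp [hg, nrm_zero hp0]
  have g2 : ∀ x, g (-x) = g x := by
    intro x
    simp [hg, nrm_neg]
  have g3 : ∀ x y, g (x + y) ≤ g x + g y := by
    intro x y
    simp only [hg, map_add]
    exact nrm_add_le hp (L x) (L y)
  have g4 : ∀ {x}, g x = 0 → x = 0 := by
    intro x hx
    exact (injective_iff_map_eq_zero L).mp hL x (nrm_eq_zero hp0 hx)
  have g5 : ∀ (r : ℝ) x, g (r • x) ≤ |r| * g x := by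
    intro r x
    simp only [hg, map_smul]
    rw [nrm_smul hp0]
  have e1 := measure_lt_one_eq_integral_div_gamma (volume : Measure (Fin m → ℝ)) g1 g2 g3 g4 g5
    (p := p) hp0
  have e2 := measure_le_eq_lt (volume : Measure (Fin m → ℝ)) g1 g2 g3 g4 g5 1
  rw [← e2] at e1
  have e3 : ∀ x, Real.exp (-(g x) ^ p) = Real.exp (-(ph p L x)) := by
    intro x
    congr 2
    rw [hg]
    exact nrm_rpow hp0 _
  simp only [e3, Module.finrank_fintype_fun_eq_card, Fintype.card_fin] at e1
  exact e1

theorem contractor_univ : ∃ ε : ℝ, 0 < ε ∧ ε ≤ 1 / 16 ∧ ∀ (m n : ℕ) (p : ℝ), 0 < m →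
    |p - 2| ≤ ε → p ≠ 2 →
    ∀ (E : (Fin m → ℝ) →ₗ[ℝ] (Fin n → ℝ)), Function.Injective E →
    ∃ pr : (Fin n → ℝ) →ₗ[ℝ] (Fin m → ℝ), pr ∘ₗ E = LinearMap.id ∧
      ∀ E' : (Fin m → ℝ) →ₗ[ℝ] (Fin n → ℝ),
        ENNReal.ofReal |LinearMap.det (pr ∘ₗ E')| * volume {y | nrm p (E' y) ≤ 1}
          ≤ volume {y | nrm p (E y) ≤ 1} := by
  obtain ⟨ε, hε, hε1, hmax⟩ := global_max
  refine ⟨ε, hε, hε1, ?_⟩
  intro m n p hm hpε hp2 E hE
  have hp1 : 1 < p := by
    have := (abs_le.1 hpε).1
    linarith
  have hp0 : 0 < p := by linarith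
  have hz := zz_pos hp1 E hE
  -- the linear map `T`
  let τ : Fin n → Fin m → ℝ := fun i a => ∫ x, sp p (E x i) * x a ∂(gm p E)
  let T : (Fin n → ℝ) →ₗ[ℝ] (Fin m → ℝ) :=
    { toFun := fun k a => ∑ i, k i * τ i a
      map_add' := by
        intro k l
        ext a
        simp [add_mul, Finset.sum_add_distrib]
      map_smul' := by
        intro c k
        ext a
        simp [mul_assoc, Finset.mul_sum] }
  have hTdef : ∀ k a, T k a = ∑ i, k i * τ i a := fun k a => rfl
  have hint : ∀ i a, Integrable (fun x => sp p (E x i) * x a) (gm p E) := fun i a =>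
    PG.int hp1 E hE ((PG.sp' hp1 (PG.lincoord E i)).mul (PG.coord a))
  have hT : ∀ k a, T k a = ∫ x, (∑ i, sp p (E x i) * k i) * x a ∂(gm p E) := by
    intro k a
    have e1 : ∀ x : Fin m → ℝ, (∑ i, sp p (E x i) * k i) * x a
        = ∑ i, k i * (sp p (E x i) * x a) := by
      intro x
      rw [Finset.sum_mul]
      refine Finset.sum_congr rfl fun i _ => ?_
      ring
    simp only [e1]
    rw [integral_finsetSum _ fun i _ => (hint i a).const_mul _, hTdef]
    refine Finset.sum_congr rfl fun i _ => ?_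
    rw [integral_const_mul]
  have hTE : ∀ y a, p * T (E y) a = y a := by
    intro y a
    have h1 := (JE.ibp hp1 E hE y a).2
    rw [hT, integral_gm]
    have h2 : ∫ x, Real.exp (-(ph p E x)) = zz p E := rfl
    rw [h2] at h1
    rw [mul_left_comm, h1]
    field_simp
  have hK : ∀ k, T k = 0 → inK p E k := by
    intro k hk a
    rw [← hT, hk]
    rfl
  refine ⟨p • T, ?_, ?_⟩
  · refine LinearMap.ext fun y => ?_
    ext a
    simp only [LinearMap.comp_apply, LinearMap.smul_apply, Pi.smul_apply, smul_eq_mul,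
      LinearMap.id_apply]
    exact hTE y a
  · intro E'
    set B : (Fin m → ℝ) →ₗ[ℝ] (Fin m → ℝ) := (p • T) ∘ₗ E' with hB
    rcases eq_or_ne (LinearMap.det B) 0 with h0 | h0
    · rw [h0, abs_zero, ENNReal.ofReal_zero, zero_mul]
      exact zero_le
    · let Be := LinearEquiv.ofIsUnitDet (f := B) (v := Pi.basisFun ℝ (Fin m))
        (v' := Pi.basisFun ℝ (Fin m)) (by
          have : (LinearMap.toMatrix (Pi.basisFun ℝ (Fin m)) (Pi.basisFun ℝ (Fin m)) B).det
            = LinearMap.det B := by
            rw [LinearMap.det_toMatrix]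
          rw [this]
          exact isUnit_iff_ne_zero.mpr h0)
      have hBe : ∀ y, Be y = B y := fun y => rfl
      set A := E' ∘ₗ Be.symm.toLinearMap - E with hAdef
      have hTEA : ∀ y, (p • T) ((E + A) y) = y := by
        intro y
        have h1 : (E + A) y = E' (Be.symm y) := by
          simp only [hAdef, add_sub_cancel, LinearMap.comp_apply, LinearEquiv.coe_coe]
        rw [h1]
        change B (Be.symm y) = y
        rw [← hBe, LinearEquiv.apply_symm_apply]
      have hTA : ∀ y, T (A y) = 0 := by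
        intro y
        have h1 := hTEA y
        rw [LinearMap.add_apply, map_add] at h1
        have h2 : (p • T) (E y) = y := by
          ext a
          simp only [LinearMap.smul_apply, Pi.smul_apply, smul_eq_mul]
          exact hTE y a
        rw [h2] at h1
        have h3 : p • T (A y) = 0 := by
          have := add_eq_left.1 h1
          exact this
        exact (smul_eq_zero.1 h3).resolve_left hp0.ne'
      have hzz := hmax m n p E hpε hp2 hE A (fun x => hK _ (hTA x))
      have hinj : Function.Injective (E + A) := by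
        intro y y' h
        rw [← hTEA y, h, hTEA y']
      have hv : volume {y | nrm p ((E + A) y) ≤ 1} ≤ volume {y | nrm p (E y) ≤ 1} := by
        rw [vol_eq_zz hp1.le hm _ hinj, vol_eq_zz hp1.le hm _ hE]
        have hG : 0 < Real.Gamma ((m : ℝ) / p + 1) := Real.Gamma_pos_of_pos (by positivity)
        gcongr
      have e1 : {y | nrm p (E' y) ≤ 1} = B ⁻¹' {y | nrm p ((E + A) y) ≤ 1} := by
        ext y
        simp only [mem_ofPred_eq, mem_preimage]
        have h2 : (E + A) (B y) = E' y := by
          simp only [hAdef, add_sub_cancel, LinearMap.comp_apply, LinearEquiv.coe_coe]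
          rw [← hBe, LinearEquiv.symm_apply_apply]
        rw [h2]
      rw [e1, Measure.addHaar_preimage_linearMap _ h0, ← mul_assoc,
        ← ENNReal.ofReal_mul (abs_nonneg _), ← abs_mul,
        mul_inv_cancel₀ h0, abs_one, ENNReal.ofReal_one, one_mul]
      exact hv

end Pool.Agent.Helper590_Face.G12
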