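import Pool.Agent.Helper590_Face.Uc

/-!
# Definitions for the dimension free argument
-/

set_option autoImplicit false

namespace Pool.Agent.Helper590_Face

open MeasureTheory Set

/-- the potential -/
noncomputable def ph {m n : ℕ} (p : ℝ) (L : (Fin m → ℝ) → (Fin n → ℝ)) (x : Fin m → ℝ) : ℝ :=
  ∑ i, |L x i| ^ p

/-- its partition function -/
noncomputable def zz {m n : ℕ} (p : ℝ) (L : (Fin m → ℝ) → (Fin n → ℝ)) : ℝ :=
  ∫ x, Real.exp (-(ph p L x))

/-- the weight function -/
noncomputable def th (t : ℝ) : ℝ := |t| ^ (1 / 4 : ℝ) + |t| ^ (-(1 / 4) : ℝ)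

end Pool.Agent.Helper590_Face
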