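import Pool.Agent.Helper590_Face.U.Gm

/-!
# Definitions for the estimates
-/

set_option autoImplicit false

namespace Pool.Agent.Helper590_Face

open MeasureTheory Set
open scoped ENNReal

variable {m n : ℕ}

/-- standard deviation of the `i`-th coordinate of `L x` -/
noncomputable def sg (p : ℝ) (L : (Fin m → ℝ) →ₗ[ℝ] (Fin n → ℝ)) (i : Fin n) : ℝ :=
  Real.sqrt (∫ x, L x i ^ 2 ∂(gm p L))

/-- weights -/
noncomputable def om (p : ℝ) (L : (Fin m → ℝ) →ₗ[ℝ] (Fin n → ℝ)) (i : Fin n) : ℝ :=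
  sg p L i ^ (p - 2)

/-- generic points: no coordinate functional of `L` that is not identically zero vanishes -/
def gen (L : (Fin m → ℝ) →ₗ[ℝ] (Fin n → ℝ)) : Set (Fin m → ℝ) :=
  {x | ∀ i, L x i = 0 → ∀ z, L z i = 0}

/-- the quadratic cost -/
noncomputable def qf (p : ℝ) (L : (Fin m → ℝ) →ₗ[ℝ] (Fin n → ℝ)) (x y : Fin m → ℝ) : ℝ :=
  ∑ i, (max |L x i| |L y i|) ^ (p - 2) * (L x i - L y i) ^ 2

/-- `R` controls the increments of `G` -/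
structure Pair (p : ℝ) (L : (Fin m → ℝ) →ₗ[ℝ] (Fin n → ℝ)) (G R : (Fin m → ℝ) → ℝ) : Prop where
  meas : Measurable R
  nonneg : ∀ x, 0 ≤ R x
  le : ∀ x ∈ gen L, ∀ y ∈ gen L, (G x - G y) ^ 2 ≤ qf p L x y * (R x + R y)

/-- normalised position -/
def Pos (p : ℝ) (L : (Fin m → ℝ) →ₗ[ℝ] (Fin n → ℝ)) : Prop :=
  ∀ x y, ∑ i, om p L i * (L x i * L y i) = ∑ a, x a * y a

/-- the kernel of the moment map -/
def inK (p : ℝ) (L : (Fin m → ℝ) →ₗ[ℝ] (Fin n → ℝ)) (k : Fin n → ℝ) : Prop :=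
  ∀ a, ∫ x, (∑ i, sp p (L x i) * k i) * x a ∂(gm p L) = 0

/-- weighted square norm on `Fin n → ℝ` -/
noncomputable def nk (p : ℝ) (L : (Fin m → ℝ) →ₗ[ℝ] (Fin n → ℝ)) (k : Fin n → ℝ) : ℝ :=
  ∑ i, om p L i * k i ^ 2

/-- weighted Hilbert-Schmidt norm squared -/
noncomputable def nB (p : ℝ) (L B : (Fin m → ℝ) →ₗ[ℝ] (Fin n → ℝ)) : ℝ :=
  ∑ a, nk p L (B (Pi.single a 1))

/-- nonlinear part -/
noncomputable def F0 (p : ℝ) (L : (Fin m → ℝ) →ₗ[ℝ] (Fin n → ℝ)) (k : Fin n → ℝ)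
    (x : Fin m → ℝ) : ℝ :=
  ∑ i, (sp p (L x i) - om p L i * L x i) * k i

/-- linear part -/
noncomputable def J0 (p : ℝ) (L : (Fin m → ℝ) →ₗ[ℝ] (Fin n → ℝ)) (k : Fin n → ℝ) (a : Fin m) : ℝ :=
  ∑ i, om p L i * (k i * L (Pi.single a 1) i)

/-- second order term -/
noncomputable def hh (p : ℝ) (L B : (Fin m → ℝ) →ₗ[ℝ] (Fin n → ℝ)) (x : Fin m → ℝ) : ℝ :=
  1 / 4 * ∑ i, om p L i * (B x i ^ 2 / (2 + |L x i / sg p L i| +
    |L x i / sg p L i| ^ (-(1 / 4) : ℝ) + |B x i / sg p L i|))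

theorem sg_nonneg (p : ℝ) (L : (Fin m → ℝ) →ₗ[ℝ] (Fin n → ℝ)) (i : Fin n) : 0 ≤ sg p L i :=
  Real.sqrt_nonneg _

theorem om_nonneg (p : ℝ) (L : (Fin m → ℝ) →ₗ[ℝ] (Fin n → ℝ)) (i : Fin n) : 0 ≤ om p L i :=
  Real.rpow_nonneg (sg_nonneg p L i) _

end Pool.Agent.Helper590_Face
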