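import Pool.Agent.Helper590_Face.U.ContrUniv
import Pool.Agent.Helper590_Face.Final

/-!
# The face inequality for `p` near `2`, uniformly in all dimensions
-/

set_option autoImplicit false

namespace Pool.Agent.Helper590_Face

open MeasureTheory Set Metric
open scoped ENNReal NNReal Topology

/-- There is `ε > 0` such that the face inequality holds in `ℓ^p_n` for all `m = d + 1`, all `n` and
all `p ≠ 2` with `|p - 2| ≤ ε`. -/
theorem face_universal : ∃ ε : ℝ, 0 < ε ∧ ∀ (n d : ℕ) (p : ℝ≥0∞) [Fact (1 ≤ p)],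
    |p.toReal - 2| ≤ ε → p.toReal ≠ 2 → ∀ P : Chain p n d, P.IsCycle → ∀ i₀ : Fin P.k,
      μH[((d + 1 : ℕ) : ℝ)] (P.face i₀).carrier ≤
        ∑ j ∈ Finset.univ.erase i₀, μH[((d + 1 : ℕ) : ℝ)] (P.face j).carrier := by
  obtain ⟨ε, hε, hε1, hcon⟩ := G12.contractor_univ
  refine ⟨ε, hε, ?_⟩
  intro n d p _ hp hp2 P hP i₀
  have hp0 : 0 < p.toReal := by
    have := abs_le.mp hp
    linarith
  let e := WithLp.linearEquiv p ℝ (Fin n → ℝ)
  have hnorm : ∀ x : Lp p n, ‖x‖ = nrm p.toReal (e x) := by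
    intro x
    rw [PiLp.norm_eq_sum hp0]
    simp only [nrm, Real.norm_eq_abs]
    rfl
  obtain ⟨pr, hpr, hdet⟩ := hcon (d + 1) n p.toReal (Nat.succ_pos d) hp hp2
    (e.toLinearMap ∘ₗ (P.face i₀).lin) (e.injective.comp (P.face i₀).lin_injective)
  refine face_of_contr P hP i₀ (pr ∘ₗ e.toLinearMap) ?_ ?_
  · rw [LinearMap.comp_assoc]
    exact hpr
  · intro j
    have h1 := hdet (e.toLinearMap ∘ₗ (P.face j).lin)
    simp only [hnorm]
    exact h1

end Pool.Agent.Helper590_Face
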