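import Pool.Agent.Helper590_Face.U.Ibp
import Pool.Agent.Helper590_Face.Star

/-!
# The probability measure `exp (-‖L x‖_p^p) dx / Z`
-/

set_option autoImplicit false

namespace Pool.Agent.Helper590_Face

open MeasureTheory Set
open scoped ENNReal

variable {m n : ℕ}

/-- polynomial growth -/
structure PG (f : (Fin m → ℝ) → ℝ) : Prop where
  meas : Measurable f
  bd : ∃ (C : ℝ) (k : ℕ), 0 ≤ C ∧ ∀ x, |f x| ≤ C * (1 + ‖x‖) ^ k

theorem one_le_pw (x : Fin m → ℝ) (k : ℕ) : 1 ≤ (1 + ‖x‖) ^ k :=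
  one_le_pow₀ (by linarith [norm_nonneg x])

theorem pw_mono (x : Fin m → ℝ) {k l : ℕ} (h : k ≤ l) : (1 + ‖x‖) ^ k ≤ (1 + ‖x‖) ^ l :=
  pow_le_pow_right₀ (by linarith [norm_nonneg x]) h

namespace PG

theorem const (c : ℝ) : PG (fun _ : Fin m → ℝ => c) :=
  ⟨measurable_const, |c|, 0, abs_nonneg _, fun x => by simp⟩

theorem mul {f g : (Fin m → ℝ) → ℝ} (hf : PG f) (hg : PG g) : PG (fun x => f x * g x) := by
  obtain ⟨C, k, hC, h1⟩ := hf.bd
  obtain ⟨D, l, hD, h2⟩ := hg.bd
  refine ⟨hf.meas.mul hg.meas, C * D, k + l, by positivity, fun x => ?_⟩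
  rw [abs_mul, pow_add]
  calc |f x| * |g x| ≤ (C * (1 + ‖x‖) ^ k) * (D * (1 + ‖x‖) ^ l) := by
        have := h1 x
        have := h2 x
        gcongr
    _ = _ := by ring

theorem add {f g : (Fin m → ℝ) → ℝ} (hf : PG f) (hg : PG g) : PG (fun x => f x + g x) := by
  obtain ⟨C, k, hC, h1⟩ := hf.bd
  obtain ⟨D, l, hD, h2⟩ := hg.bd
  refine ⟨hf.meas.add hg.meas, C + D, k + l, by positivity, fun x => ?_⟩
  have h3 := pw_mono x (Nat.le_add_right k l)
  have h4 := pw_mono x (Nat.le_add_left l k)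
  calc |f x + g x| ≤ |f x| + |g x| := abs_add_le _ _
    _ ≤ C * (1 + ‖x‖) ^ k + D * (1 + ‖x‖) ^ l := add_le_add (h1 x) (h2 x)
    _ ≤ C * (1 + ‖x‖) ^ (k + l) + D * (1 + ‖x‖) ^ (k + l) := by gcongr
    _ = _ := by ring

theorem neg {f : (Fin m → ℝ) → ℝ} (hf : PG f) : PG (fun x => -f x) := by
  obtain ⟨C, k, hC, h1⟩ := hf.bd
  exact ⟨hf.meas.neg, C, k, hC, fun x => by rw [abs_neg]; exact h1 x⟩

theorem sub {f g : (Fin m → ℝ) → ℝ} (hf : PG f) (hg : PG g) : PG (fun x => f x - g x) := by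
  simpa [sub_eq_add_neg] using hf.add hg.neg

theorem pow {f : (Fin m → ℝ) → ℝ} (hf : PG f) (k : ℕ) : PG (fun x => f x ^ k) := by
  induction k with
  | zero => simpa using const 1
  | succ k ih =>
    simp only [pow_succ]
    exact ih.mul hf

theorem sum {ι : Type*} (s : Finset ι) {f : ι → (Fin m → ℝ) → ℝ} (hf : ∀ i ∈ s, PG (f i)) :
    PG (fun x => ∑ i ∈ s, f i x) := by
  classical
  induction s using Finset.induction_on with
  | empty => simpa using const 0
  | insert a s ha ih =>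
    simp only [Finset.sum_insert ha]
    exact (hf a (Finset.mem_insert_self _ _)).add
      (ih fun i hi => hf i (Finset.mem_insert_of_mem hi))

theorem const_mul {f : (Fin m → ℝ) → ℝ} (c : ℝ) (hf : PG f) : PG (fun x => c * f x) :=
  (const c).mul hf

theorem absf {f : (Fin m → ℝ) → ℝ} (hf : PG f) : PG (fun x => |f x|) := by
  obtain ⟨C, k, hC, h1⟩ := hf.bd
  refine ⟨?_, C, k, hC, fun x => by rw [abs_abs]; exact h1 x⟩
  exact continuous_abs.measurable.comp hf.meas

theorem coord (a : Fin m) : PG (fun x : Fin m → ℝ => x a) := by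
  refine ⟨measurable_pi_apply a, 1, 1, zero_le_one, fun x => ?_⟩
  have := norm_le_pi_norm x a
  rw [Real.norm_eq_abs] at this
  rw [pow_one, one_mul]
  linarith

theorem lin (ξ : (Fin m → ℝ) →ₗ[ℝ] ℝ) : PG (fun x => ξ x) := by
  have h1 : ∀ x, ξ x = ∑ a, x a * ξ (Pi.single a 1) := by
    intro x
    have h : x = ∑ k, x k • (Pi.single k 1 : Fin m → ℝ) := by
      ext j
      simp [Pi.single_apply]
    conv_lhs => rw [h]
    rw [map_sum]
    simp
  have h2 : (fun x => ξ x) = fun x => ∑ a, x a * ξ (Pi.single a 1) := funext h1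
  rw [h2]
  exact sum _ fun a _ => (coord a).mul (const _)

theorem lincoord (L : (Fin m → ℝ) →ₗ[ℝ] (Fin n → ℝ)) (i : Fin n) : PG (fun x => L x i) :=
  lin ((LinearMap.proj i) ∘ₗ L)

theorem rpow_abs {f : (Fin m → ℝ) → ℝ} (hf : PG f) {s : ℝ} (hs : 0 ≤ s) :
    PG (fun x => |f x| ^ s) := by
  obtain ⟨k, hk⟩ := exists_nat_ge s
  have h1 : PG (fun x => 1 + |f x| ^ k) := (const 1).add (hf.absf.pow k)
  obtain ⟨C, l, hC, h2⟩ := h1.bd
  refine ⟨?_, C, l, hC, fun x => ?_⟩
  · exact (hf.absf.meas).pow_const s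
  refine le_trans ?_ (h2 x)
  have h3 : 0 ≤ |f x| := abs_nonneg _
  have h5 : 0 ≤ 1 + |f x| ^ k := by positivity
  rw [abs_of_nonneg (Real.rpow_nonneg h3 _), abs_of_nonneg h5]
  rcases le_total |f x| 1 with h | h
  · have : |f x| ^ s ≤ 1 := Real.rpow_le_one h3 h hs
    have : 0 ≤ |f x| ^ k := by positivity
    linarith
  · have : |f x| ^ s ≤ |f x| ^ (k : ℝ) := Real.rpow_le_rpow_of_exponent_le h hk
    rw [Real.rpow_natCast] at this
    linarith

theorem sp' {p : ℝ} (hp : 1 < p) {f : (Fin m → ℝ) → ℝ} (hf : PG f) : PG (fun x => sp p (f x)) := by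
  have h1 := hf.rpow_abs (s := p - 1) (by linarith)
  obtain ⟨C, l, hC, h2⟩ := h1.bd
  refine ⟨?_, C, l, hC, fun x => ?_⟩
  · simp only [sp]
    exact (hf.absf.meas.pow_const _).mul hf.meas
  · rw [abs_sp hp]
    have := h2 x
    rwa [abs_of_nonneg (Real.rpow_nonneg (abs_nonneg _) _)] at this

end PG

theorem measurable_ph {p : ℝ} (L : (Fin m → ℝ) →ₗ[ℝ] (Fin n → ℝ)) :
    Measurable (fun x => ph p L x) := by
  unfold ph
  refine Finset.measurable_sum _ fun i _ => ?_
  have h1 : Measurable (fun x => L x i) := (PG.lincoord L i).meas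
  have h2 : Measurable (fun x => |L x i|) := continuous_abs.measurable.comp h1
  exact h2.pow_const p

/-- the probability measure -/
noncomputable def gm (p : ℝ) (L : (Fin m → ℝ) → (Fin n → ℝ)) : Measure (Fin m → ℝ) :=
  (ENNReal.ofReal (zz p L))⁻¹ •
    (volume : Measure (Fin m → ℝ)).withDensity (fun x => ENNReal.ofReal (Real.exp (-(ph p L x))))

section
variable {p : ℝ} (hp : 1 < p) (L : (Fin m → ℝ) →ₗ[ℝ] (Fin n → ℝ)) (hL : Function.Injective L)

include hp hL in
theorem integrable_w : Integrable (fun x => Real.exp (-(ph p L x))) := by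
  have := JE.integrable_pg hp L hL (fun _ => 1) measurable_const 1 0 (fun x => by simp)
  simpa using this

include hp hL in
theorem zz_pos : 0 < zz p L :=
  integral_exp_pos (integrable_w hp L hL)

theorem measurable_dens : Measurable (fun x => ENNReal.ofReal (Real.exp (-(ph p L x)))) :=
  ENNReal.measurable_ofReal.comp (Real.measurable_exp.comp (measurable_ph L).neg)

theorem integral_gm (f : (Fin m → ℝ) → ℝ) :
    ∫ x, f x ∂(gm p L) = (zz p L)⁻¹ * ∫ x, Real.exp (-(ph p L x)) * f x := by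
  rw [gm, integral_smul_measure, integral_withDensity_eq_integral_toReal_smul
    (measurable_dens L) (Filter.Eventually.of_forall fun x => ENNReal.ofReal_lt_top)]
  have hz : 0 ≤ zz p L := integral_nonneg fun x => (Real.exp_pos _).le
  rw [ENNReal.toReal_inv, ENNReal.toReal_ofReal hz, smul_eq_mul]
  congr 1
  refine integral_congr_ae (Filter.Eventually.of_forall fun x => ?_)
  simp only [smul_eq_mul]
  rw [ENNReal.toReal_ofReal (Real.exp_pos _).le]

include hp hL in
theorem integrable_gm_iff (f : (Fin m → ℝ) → ℝ) :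
    Integrable f (gm p L) ↔ Integrable (fun x => Real.exp (-(ph p L x)) * f x) := by
  have hz := zz_pos hp L hL
  rw [gm, integrable_smul_measure, integrable_withDensity_iff_integrable_smul'
    (measurable_dens L) (Filter.Eventually.of_forall fun x => ENNReal.ofReal_lt_top)]
  · have h1 : ∀ x, (ENNReal.ofReal (Real.exp (-(ph p L x)))).toReal • f x
        = Real.exp (-(ph p L x)) * f x := by
      intro x
      rw [ENNReal.toReal_ofReal (Real.exp_pos _).le, smul_eq_mul]
    simp only [h1]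
  · simp
  · simpa using hz

include hp hL in
theorem PG.int {f : (Fin m → ℝ) → ℝ} (hf : PG f) : Integrable f (gm p L) := by
  rw [integrable_gm_iff hp L hL]
  obtain ⟨C, k, hC, h1⟩ := hf.bd
  exact JE.integrable_pg hp L hL f hf.meas C k h1

include hp hL in
theorem prob_gm : IsProbabilityMeasure (gm p L) := by
  constructor
  have hz := zz_pos hp L hL
  rw [gm, Measure.smul_apply, withDensity_apply _ MeasurableSet.univ, Measure.restrict_univ,
    ← ofReal_integral_eq_lintegral_ofReal (integrable_w hp L hL)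
      (Filter.Eventually.of_forall fun x => (Real.exp_pos _).le), smul_eq_mul]
  exact ENNReal.inv_mul_cancel (by simpa [zz] using hz) ENNReal.ofReal_ne_top

theorem ph_neg (x : Fin m → ℝ) : ph p L (-x) = ph p L x := by
  simp [ph, map_neg]

theorem integral_gm_neg (f : (Fin m → ℝ) → ℝ) :
    ∫ x, f (-x) ∂(gm p L) = ∫ x, f x ∂(gm p L) := by
  rw [integral_gm, integral_gm]
  congr 1
  rw [← integral_neg_eq_self]
  refine integral_congr_ae (Filter.Eventually.of_forall fun x => ?_)
  simp only [neg_neg, ph_neg]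

theorem integral_gm_odd (f : (Fin m → ℝ) → ℝ) (hf : ∀ x, f (-x) = -f x) :
    ∫ x, f x ∂(gm p L) = 0 := by
  have h1 := integral_gm_neg (p := p) L f
  simp only [hf, integral_neg] at h1
  linarith

/-- absolute continuity -/
theorem gm_null {S : Set (Fin m → ℝ)} (hS : volume S = 0) : gm p L S = 0 := by
  rw [gm, Measure.smul_apply, withDensity_absolutelyContinuous _ _ hS, smul_zero]

end

end Pool.Agent.Helper590_Face
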