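import Pool.Agent.Helper590_Face.U.Def


set_option autoImplicit false

namespace Pool.Agent.Helper590_Face.JE

open MeasureTheory Set

/-- lower bound of the potential -/
theorem ph_lower {m n : ℕ} {p : ℝ} (hp : 1 < p) (L : (Fin m → ℝ) →ₗ[ℝ] (Fin n → ℝ))
    (hL : Function.Injective L) : ∃ c : ℝ, 0 < c ∧ ∀ x, c * ‖x‖ - 1 ≤ ph p L x := by
  obtain ⟨K, hK, hA⟩ := LinearMap.exists_antilipschitzWith L (LinearMap.ker_eq_bot.2 hL)
  refine ⟨(K : ℝ)⁻¹, by positivity, fun x => ?_⟩
  have h1 : ‖x‖ ≤ K * ‖L x‖ := by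
    have := hA.le_mul_dist x 0
    simpa using this
  have hK' : (0 : ℝ) < K := by exact_mod_cast hK
  have h2 : (K : ℝ)⁻¹ * ‖x‖ ≤ ‖L x‖ := by
    rw [inv_mul_le_iff₀ hK']
    exact h1
  have hN : 0 ≤ ph p L x := Finset.sum_nonneg fun i _ => Real.rpow_nonneg (abs_nonneg _) _
  have h3 : ‖L x‖ ≤ (ph p L x) ^ (1 / p) := by
    rw [pi_norm_le_iff_of_nonneg (Real.rpow_nonneg hN _)]
    intro i
    have : |L x i| ^ p ≤ ph p L x :=
      Finset.single_le_sum (f := fun i => |L x i| ^ p)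
        (fun i _ => Real.rpow_nonneg (abs_nonneg _) _) (Finset.mem_univ i)
    have h4 : (|L x i| ^ p) ^ (1 / p) ≤ (ph p L x) ^ (1 / p) :=
      Real.rpow_le_rpow (Real.rpow_nonneg (abs_nonneg _) _) this (by positivity)
    rwa [← Real.rpow_mul (abs_nonneg _), mul_one_div_cancel (by linarith), Real.rpow_one] at h4
  have h5 : ‖L x‖ ^ p ≤ ph p L x := by
    have := Real.rpow_le_rpow (norm_nonneg _) h3 (by linarith : (0:ℝ) ≤ p)
    rwa [← Real.rpow_mul hN, one_div_mul_cancel (by linarith), Real.rpow_one] at this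
  have h6 : ‖L x‖ - 1 ≤ ‖L x‖ ^ p := by
    rcases le_total ‖L x‖ 1 with h | h
    · have : 0 ≤ ‖L x‖ ^ p := Real.rpow_nonneg (norm_nonneg _) _
      linarith
    · have := Real.rpow_le_rpow_of_exponent_le h hp.le
      rw [Real.rpow_one] at this
      linarith
  linarith

theorem exp_bound {c : ℝ} (hc : 0 < c) (J : ℕ) : ∃ D : ℝ, 0 ≤ D ∧ ∀ r : ℝ, 0 ≤ r →
    Real.exp (-(c * r - 1)) * (1 + r) ^ J ≤ D := by
  refine ⟨Real.exp (1 + c) * (J.factorial / c ^ J), by positivity, fun r hr => ?_⟩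
  have h := Real.pow_div_factorial_le_exp (c * (1 + r)) (by positivity) J
  rw [mul_pow] at h
  have h1 : (1 + r) ^ J ≤ Real.exp (c * (1 + r)) * (J.factorial / c ^ J) := by
    rw [div_le_iff₀ (by positivity)] at h
    rw [mul_div_assoc', le_div_iff₀ (by positivity)]
    linarith
  calc Real.exp (-(c * r - 1)) * (1 + r) ^ J
      ≤ Real.exp (-(c * r - 1)) * (Real.exp (c * (1 + r)) * (J.factorial / c ^ J)) :=
        mul_le_mul_of_nonneg_left h1 (Real.exp_nonneg _)
    _ = Real.exp (1 + c) * (J.factorial / c ^ J) := by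
        rw [← mul_assoc, ← Real.exp_add]
        congr 2
        ring

theorem integrable_pg {m n : ℕ} {p : ℝ} (hp : 1 < p) (L : (Fin m → ℝ) →ₗ[ℝ] (Fin n → ℝ))
    (hL : Function.Injective L) (f : (Fin m → ℝ) → ℝ) (hf : Measurable f) (C : ℝ) (k : ℕ)
    (hfC : ∀ x, |f x| ≤ C * (1 + ‖x‖) ^ k) :
    Integrable (fun x => Real.exp (-(ph p L x)) * f x) := by
  obtain ⟨c, hc, hlow⟩ := ph_lower hp L hL
  obtain ⟨D, hD, hDb⟩ := exp_bound hc (k + (m + 1))
  have hC : 0 ≤ C := by
    have := (abs_nonneg _).trans (hfC 0)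
    simpa using this
  have hmeas : Measurable (fun x => ph p L x) := by
    unfold ph
    have hLc : Continuous L := L.continuous_of_finiteDimensional
    refine Finset.measurable_sum _ fun i _ => ?_
    have : Measurable fun x => L x i := ((continuous_apply i).comp hLc).measurable
    exact (this.abs).pow_const p
  have hI : Integrable (fun x : Fin m → ℝ => (C * D) * (1 + ‖x‖) ^ (-((m : ℝ) + 1))) := by
    refine Integrable.const_mul ?_ _
    exact integrable_one_add_norm (by simp)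
  refine hI.mono' ?_ (Filter.Eventually.of_forall fun x => ?_)
  · exact ((Real.measurable_exp.comp hmeas.neg).mul hf).aestronglyMeasurable
  · have h1 : (0:ℝ) < 1 + ‖x‖ := by positivity
    rw [Real.norm_eq_abs, abs_mul, abs_of_nonneg (Real.exp_nonneg _), Real.rpow_neg h1.le]
    rw [← div_eq_mul_inv, le_div_iff₀ (Real.rpow_pos_of_pos h1 _)]
    have e1 : (1 + ‖x‖) ^ ((m : ℝ) + 1) = (1 + ‖x‖) ^ (m + 1) := by
      rw [← Real.rpow_natCast]; push_cast; rfl
    rw [e1]
    have h2 := hDb ‖x‖ (norm_nonneg x)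
    have h3 : Real.exp (-(ph p L x)) ≤ Real.exp (-(c * ‖x‖ - 1)) :=
      Real.exp_le_exp.2 (neg_le_neg (hlow x))
    calc Real.exp (-(ph p L x)) * |f x| * (1 + ‖x‖) ^ (m + 1)
        ≤ Real.exp (-(c * ‖x‖ - 1)) * (C * (1 + ‖x‖) ^ k) * (1 + ‖x‖) ^ (m + 1) := by
          gcongr
          exact hfC x
      _ = C * (Real.exp (-(c * ‖x‖ - 1)) * (1 + ‖x‖) ^ (k + (m + 1))) := by
          rw [pow_add]; ring
      _ ≤ C * D := mul_le_mul_of_nonneg_left h2 hC

theorem abs_apply_le {m n : ℕ} (L : (Fin m → ℝ) →ₗ[ℝ] (Fin n → ℝ)) :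
    ∃ M : ℝ, 0 ≤ M ∧ ∀ x i, |L x i| ≤ M * ‖x‖ := by
  let L' : (Fin m → ℝ) →L[ℝ] (Fin n → ℝ) := LinearMap.toContinuousLinearMap L
  refine ⟨‖L'‖, norm_nonneg _, fun x i => ?_⟩
  have h1 : ‖L' x‖ ≤ ‖L'‖ * ‖x‖ := L'.le_opNorm x
  have h2 : ‖L' x i‖ ≤ ‖L' x‖ := norm_le_pi_norm _ i
  exact h2.trans h1

theorem abs_sp {p : ℝ} (hp : 1 < p) (t : ℝ) : |sp p t| = |t| ^ (p - 1) := by
  unfold sp
  rcases eq_or_ne t 0 with rfl | ht
  · simp
    rw [Real.zero_rpow (by linarith)]
  · have ht' : 0 < |t| := abs_pos.2 ht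
    rw [abs_mul, abs_of_nonneg (Real.rpow_nonneg (abs_nonneg _) _)]
    have : |t| ^ (p - 2) * |t| = |t| ^ (p - 2) * |t| ^ (1 : ℝ) := by rw [Real.rpow_one]
    rw [this, ← Real.rpow_add ht']
    congr 1
    ring

theorem ibp {m n : ℕ} {p : ℝ} (hp : 1 < p) (L : (Fin m → ℝ) →ₗ[ℝ] (Fin n → ℝ))
    (hL : Function.Injective L) (y : Fin m → ℝ) (a : Fin m) :
    Integrable (fun x => Real.exp (-(ph p L x)) * ((∑ i, sp p (L x i) * L y i) * x a)) ∧
    p * ∫ x, Real.exp (-(ph p L x)) * ((∑ i, sp p (L x i) * L y i) * x a) =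
      y a * ∫ x, Real.exp (-(ph p L x)) := by
  have hLc : Continuous L := L.continuous_of_finiteDimensional
  have hLi : ∀ i, Measurable fun x => L x i := fun i =>
    ((continuous_apply i).comp hLc).measurable
  obtain ⟨M, hM, hMb⟩ := abs_apply_le L
  obtain ⟨k, hk⟩ := exists_nat_ge (p - 1)
  have hspb : ∀ x i, |sp p (L x i)| ≤ (M + 1) ^ k * (1 + ‖x‖) ^ k := by
    intro x i
    rw [abs_sp hp]
    have h1 : |L x i| ≤ (M + 1) * (1 + ‖x‖) := by
      have := hMb x i
      nlinarith [norm_nonneg x]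
    have h2 : 1 ≤ (M + 1) * (1 + ‖x‖) := by
      nlinarith [norm_nonneg x]
    calc |L x i| ^ (p - 1) ≤ ((M + 1) * (1 + ‖x‖)) ^ (p - 1) :=
          Real.rpow_le_rpow (abs_nonneg _) h1 (by linarith)
      _ ≤ ((M + 1) * (1 + ‖x‖)) ^ (k : ℝ) := Real.rpow_le_rpow_of_exponent_le h2 hk
      _ = (M + 1) ^ k * (1 + ‖x‖) ^ k := by rw [Real.rpow_natCast, mul_pow]
  have hxa : ∀ x : Fin m → ℝ, |x a| ≤ 1 + ‖x‖ := by
    intro x
    have := norm_le_pi_norm x a
    rw [Real.norm_eq_abs] at this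
    linarith
  have hspm : ∀ i, Measurable fun x => sp p (L x i) := by
    intro i
    unfold sp
    exact (((hLi i).abs).pow_const _).mul (hLi i)
  have hint : Integrable (fun x =>
      Real.exp (-(ph p L x)) * ((∑ i, sp p (L x i) * L y i) * x a)) := by
    refine integrable_pg hp L hL _ ?_ (∑ i, (M + 1) ^ k * |L y i|) (k + 1) ?_
    · exact (Finset.measurable_sum _ fun i _ => (hspm i).mul_const _).mul (measurable_pi_apply a)
    · intro x
      rw [abs_mul]
      have h1 : |∑ i, sp p (L x i) * L y i| ≤ (∑ i, (M + 1) ^ k * |L y i|) * (1 + ‖x‖) ^ k := by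
        refine (Finset.abs_sum_le_sum_abs _ _).trans ?_
        rw [Finset.sum_mul]
        refine Finset.sum_le_sum fun i _ => ?_
        rw [abs_mul]
        calc |sp p (L x i)| * |L y i| ≤ ((M + 1) ^ k * (1 + ‖x‖) ^ k) * |L y i| :=
              mul_le_mul_of_nonneg_right (hspb x i) (abs_nonneg _)
          _ = (M + 1) ^ k * |L y i| * (1 + ‖x‖) ^ k := by ring
      calc |∑ i, sp p (L x i) * L y i| * |x a|
          ≤ ((∑ i, (M + 1) ^ k * |L y i|) * (1 + ‖x‖) ^ k) * (1 + ‖x‖) :=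
            mul_le_mul h1 (hxa x) (abs_nonneg _) (by positivity)
        _ = _ := by rw [pow_succ]; ring
  refine ⟨hint, ?_⟩
  have hgint : Integrable (fun x => Real.exp (-(ph p L x))) := by
    have := integrable_pg hp L hL (fun _ => 1) measurable_const 1 0 (by intro x; simp)
    simpa using this
  have hfg : Integrable (fun x => Real.exp (-(ph p L x)) * x a) :=
    integrable_pg hp L hL (fun x => x a) (measurable_pi_apply a) 1 1 (by
      intro x; simpa using hxa x)
  have key := integral_bilinear_hasLineDerivAt_right_eq_neg_left_of_integrable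
    (μ := (volume : Measure (Fin m → ℝ)))
    (f := fun x : Fin m → ℝ => x a) (f' := fun _ => y a)
    (g := fun x => Real.exp (-(ph p L x)))
    (g' := fun x => Real.exp (-(ph p L x)) * (-(p * ∑ i, sp p (L x i) * L y i))) (v := y)
    (B := ContinuousLinearMap.mul ℝ ℝ) ?_ ?_ ?_ ?_ ?_
  · simp only [ContinuousLinearMap.mul_apply'] at key
    rw [integral_const_mul] at key
    rw [← neg_eq_iff_eq_neg] at key
    rw [← key, ← integral_const_mul, ← integral_neg]
    congr 1
    ext x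
    ring
  · simp only [ContinuousLinearMap.mul_apply']
    exact hgint.const_mul _
  · simp only [ContinuousLinearMap.mul_apply']
    refine (hint.const_mul (-p)).congr (Filter.Eventually.of_forall fun x => ?_)
    simp only
    ring
  · simp only [ContinuousLinearMap.mul_apply']
    refine hfg.congr (Filter.Eventually.of_forall fun x => ?_)
    simp only
    ring
  · intro x _
    have : HasDerivAt (fun t : ℝ => x a + t * y a) (y a) 0 := by
      simpa using ((hasDerivAt_id (0:ℝ)).mul_const (y a)).const_add (x a)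
    simpa [HasLineDerivAt] using this
  · intro x _
    unfold HasLineDerivAt
    have h0 : ∀ i, HasDerivAt (fun t : ℝ => |L (x + t • y) i| ^ p)
        (p * (sp p (L x i) * L y i)) 0 := by
      intro i
      have e : ∀ t : ℝ, L (x + t • y) i = L x i + t * L y i := by
        intro t; simp
      have h1 : HasDerivAt (fun t : ℝ => L x i + t * L y i) (L y i) 0 := by
        simpa using ((hasDerivAt_id (0:ℝ)).mul_const (L y i)).const_add (L x i)
      have h2 := hasDerivAt_abs_rpow (L x i) hp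
      have h3 : HasDerivAt (fun t : ℝ => |L x i + t * L y i| ^ p)
          (p * |L x i| ^ (p - 2) * L x i * L y i) 0 := by
        have h2' : HasDerivAt (fun s : ℝ => |s| ^ p) (p * |L x i| ^ (p - 2) * L x i)
            (L x i + 0 * L y i) := by simpa using h2
        exact h2'.comp (0:ℝ) h1
      simp only [e]
      convert h3 using 1
      unfold sp
      ring
    have hN : HasDerivAt (fun t : ℝ => ph p L (x + t • y))
        (∑ i, p * (sp p (L x i) * L y i)) 0 := by
      unfold ph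
      exact HasDerivAt.fun_sum fun i _ => h0 i
    have h5 := (hN.neg).exp
    have h6 : Real.exp (-(ph p L x)) * (-(p * ∑ i, sp p (L x i) * L y i)) =
        Real.exp (-(ph p L (x + (0:ℝ) • y))) * (-∑ i, p * (sp p (L x i) * L y i)) := by
      simp [Finset.mul_sum]
    rw [h6]
    exact h5

end Pool.Agent.Helper590_Face.JE
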