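import Pool.Agent.Helper590_Face.U.Def


set_option autoImplicit false

namespace Pool.Agent.Helper590_Face.JS1

theorem slope_aux {p : ℝ} (hp : |p - 2| ≤ 1 / 16) (t : ℝ) (h0 : 0 ≤ t) (h1 : t ≤ 1) :
    |t - t ^ (p - 2) * t| ≤ |p - 2| * (1 - t) := by
  rw [abs_le] at hp
  rcases h0.eq_or_lt with h | h
  · subst h
    simp
  · have e : t ^ (p - 2) * t = t ^ (p - 1) := by
      rw [show p - 1 = (p - 2) + 1 by ring, Real.rpow_add h, Real.rpow_one]
    rw [e]
    rcases le_total 2 p with h2 | h2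
    · have a1 : t ^ (p - 1) ≤ t ^ (1 : ℝ) :=
        Real.rpow_le_rpow_of_exponent_ge h h1 (by linarith)
      rw [Real.rpow_one] at a1
      have a2 := one_add_mul_self_le_rpow_one_add (s := t - 1) (by linarith) (p := p - 1)
        (by linarith)
      rw [show (1 : ℝ) + (t - 1) = t by ring] at a2
      rw [abs_of_nonneg (by linarith), abs_of_nonneg (by linarith)]
      nlinarith
    · have a1 : t ^ (1 : ℝ) ≤ t ^ (p - 1) :=
        Real.rpow_le_rpow_of_exponent_ge h h1 (by linarith)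
      rw [Real.rpow_one] at a1
      have a2 := rpow_one_add_le_one_add_mul_self (s := t - 1) (by linarith) (p := p - 1)
        (by linarith) (by linarith)
      rw [show (1 : ℝ) + (t - 1) = t by ring] at a2
      rw [abs_of_nonpos (by linarith : t - t ^ (p - 1) ≤ 0), abs_of_nonpos (by linarith : p - 2 ≤ 0)]
      nlinarith

theorem slope_aux2 {p : ℝ} (hp : |p - 2| ≤ 1 / 16) (a b : ℝ) (hab : |b| ≤ |a|) :
    |sp p a - sp p b - |a| ^ (p - 2) * (a - b)| ≤
      |p - 2| * |a| ^ (p - 2) * |a - b| := by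
  unfold sp
  by_cases ha : a = 0
  · subst ha
    have : b = 0 := by simpa using hab
    subst this
    simp
  · have ha' : 0 < |a| := abs_pos.2 ha
    obtain ⟨β, hβ⟩ : ∃ β, b = β * a := ⟨b / a, by field_simp⟩
    subst hβ
    have hβ1 : |β| ≤ 1 := by
      rw [abs_mul] at hab
      by_contra hcon
      push Not at hcon
      nlinarith
    have e1 : |β * a| ^ (p - 2) = |β| ^ (p - 2) * |a| ^ (p - 2) := by
      rw [abs_mul, Real.mul_rpow (abs_nonneg _) (abs_nonneg _)]
    rw [e1]
    have e2 : |a| ^ (p - 2) * a - |β| ^ (p - 2) * |a| ^ (p - 2) * (β * a) -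
        |a| ^ (p - 2) * (a - β * a) = (|a| ^ (p - 2) * a) * (β - |β| ^ (p - 2) * β) := by ring
    rw [e2, abs_mul, abs_mul, abs_of_nonneg (Real.rpow_nonneg (abs_nonneg a) _)]
    have e3 : |a - β * a| = |a| * |1 - β| := by
      rw [show a - β * a = a * (1 - β) by ring, abs_mul]
    rw [e3]
    have e4 : |β - |β| ^ (p - 2) * β| = |(|β| - |β| ^ (p - 2) * |β|)| := by
      rw [show β - |β| ^ (p - 2) * β = (1 - |β| ^ (p - 2)) * β by ring,
        show |β| - |β| ^ (p - 2) * |β| = (1 - |β| ^ (p - 2)) * |β| by ring, abs_mul, abs_mul,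
        abs_abs]
    have h1 := slope_aux hp |β| (abs_nonneg _) hβ1
    have h2 : 1 - |β| ≤ |1 - β| := by
      have := neg_abs_le (1 - β)
      have h3 := le_abs_self β
      have h4 := le_abs_self (1 - β)
      linarith
    have h3 : |β - |β| ^ (p - 2) * β| ≤ |p - 2| * |1 - β| := by
      rw [e4]
      exact h1.trans (mul_le_mul_of_nonneg_left h2 (abs_nonneg _))
    have h4 : 0 ≤ |a| ^ (p - 2) * |a| := by positivity
    calc |a| ^ (p - 2) * |a| * |β - |β| ^ (p - 2) * β|
        ≤ |a| ^ (p - 2) * |a| * (|p - 2| * |1 - β|) := mul_le_mul_of_nonneg_left h3 h4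
      _ = |p - 2| * |a| ^ (p - 2) * (|a| * |1 - β|) := by ring

theorem slope {p : ℝ} (hp : |p - 2| ≤ 1 / 16) (a b : ℝ) :
    |sp p a - sp p b - (max |a| |b|) ^ (p - 2) * (a - b)| ≤
      |p - 2| * (max |a| |b|) ^ (p - 2) * |a - b| := by
  rcases le_total |b| |a| with h | h
  · rw [max_eq_left h]
    exact slope_aux2 hp a b h
  · rw [max_eq_right h]
    have := slope_aux2 hp b a h
    rw [abs_sub_comm b a] at this
    rw [show sp p a - sp p b - |b| ^ (p - 2) * (a - b) =
      -(sp p b - sp p a - |b| ^ (p - 2) * (b - a)) by ring, abs_neg]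
    exact this

end Pool.Agent.Helper590_Face.JS1
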